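import Pool.Agent.LW.Defs

set_option autoImplicit false

namespace Pool.Agent.LW

open Polynomial Finset

private theorem arr_single (m : Fin 2 →₀ ℕ) (i j : ℕ) :
    Finsupp.single (0 : Fin 2) i + Finsupp.single 1 j = m ↔ i = m 0 ∧ j = m 1 := by
  constructor
  · rintro rfl
    simp
  · rintro ⟨rfl, rfl⟩
    ext x
    fin_cases x <;> simp

private theorem arr_degree (m : Fin 2 →₀ ℕ) : m.degree = m 0 + m 1 := by
  rw [Finsupp.degree_eq_sum, Fin.sum_univ_two]

private theorem arr_coeff_zero {d : ℕ} {f : MvPolynomial (Fin 2) ℤ} (hf : f.totalDegree ≤ d)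
    (m : Fin 2 →₀ ℕ) (hm : d < m 0 + m 1) : f.coeff m = 0 := by
  apply MvPolynomial.coeff_eq_zero_of_totalDegree_lt
  have : ∑ i ∈ m.support, m i = m 0 + m 1 := by
    rw [← arr_degree]
    rfl
  omega

theorem arr_eval (d : ℕ) (f : MvPolynomial (Fin 2) ℤ) (hf : f.totalDegree ≤ d) (a b : ℤ) :
    MvPolynomial.eval ![a, b] f = ev d (arr d f) a b := by
  rw [MvPolynomial.eval_eq']
  set φ : (Σ _ : ℕ, ℕ) → (Fin 2 →₀ ℕ) :=
    fun x => Finsupp.single 0 (x.1 - x.2) + Finsupp.single 1 x.2 with hφ
  set T : Finset (Σ _ : ℕ, ℕ) := ((range (d + 1)).sigma fun k => range (k + 1)) with hT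
  have hinj : Set.InjOn φ T := by
    rintro ⟨k, j⟩ h1 ⟨k', j'⟩ h2 h
    simp only [hT, coe_sigma, coe_range, Set.mem_sigma_iff, Set.mem_Iio] at h1 h2
    simp only [hφ] at h
    rw [arr_single] at h
    simp only [Finsupp.add_apply, Finsupp.single_apply] at h
    simp at h
    obtain ⟨h3, h4⟩ := h
    have h5 : k = k' := by omega
    subst h5
    subst h4
    rfl
  have hsub : f.support ⊆ T.image φ := by
    intro m hm
    rw [Finset.mem_image]
    have h1 : m 0 + m 1 ≤ d := by
      by_contra h
      push Not at h
      exact (MvPolynomial.mem_support_iff.mp hm) (arr_coeff_zero hf m h)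
    refine ⟨⟨m 0 + m 1, m 1⟩, ?_, ?_⟩
    · simp only [hT, mem_sigma, mem_range]
      omega
    · simp only [hφ]
      rw [arr_single]
      constructor
      · simp
      · rfl
  rw [Finset.sum_subset hsub (fun m _ hm => by
    rw [MvPolynomial.notMem_support_iff.mp hm, zero_mul]), Finset.sum_image hinj, hT,
    Finset.sum_sigma]
  unfold ev
  refine Finset.sum_congr rfl fun k hk => Finset.sum_congr rfl fun j hj => ?_
  rw [mem_range] at hk hj
  simp only [arr, hφ]
  rw [if_pos (by omega), Fin.prod_univ_two]
  simp [mul_assoc]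

theorem arr_inj (d : ℕ) (f g : MvPolynomial (Fin 2) ℤ) (hf : f.totalDegree ≤ d)
    (hg : g.totalDegree ≤ d) (h : arr d f = arr d g) : f = g := by
  ext m
  rcases le_or_gt (m 0 + m 1) d with h1 | h1
  · have h2 := congrFun (congrFun h (m 0)) (m 1)
    simp only [arr] at h2
    rw [if_pos h1, if_pos h1, (arr_single m (m 0) (m 1)).mpr ⟨rfl, rfl⟩] at h2
    exact h2
  · rw [arr_coeff_zero hf m h1, arr_coeff_zero hg m h1]

theorem arr_surj (d : ℕ) (c : ℕ → ℕ → ℤ) (hc : ∀ i j, d < i + j → c i j = 0) :
    ∃ f : MvPolynomial (Fin 2) ℤ, f.totalDegree ≤ d ∧ arr d f = c := by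
  refine ⟨∑ x ∈ range (d + 1) ×ˢ range (d + 1),
    MvPolynomial.monomial (Finsupp.single 0 x.1 + Finsupp.single 1 x.2) (c x.1 x.2), ?_, ?_⟩
  · refine (MvPolynomial.totalDegree_finsetSum_le ?_)
    intro x _
    rcases le_or_gt (x.1 + x.2) d with h1 | h1
    · refine (MvPolynomial.totalDegree_monomial_le _ _).trans ?_
      have : (Finsupp.single (0 : Fin 2) x.1 + Finsupp.single 1 x.2).sum (fun _ e => e) =
          x.1 + x.2 := by
        show (Finsupp.single (0 : Fin 2) x.1 + Finsupp.single 1 x.2).degree = _
        rw [arr_degree]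
        simp
      exact (le_of_eq this).trans h1
    · rw [hc _ _ h1]
      simp
  · funext i j
    unfold arr
    split_ifs with h
    · rw [MvPolynomial.coeff_sum, Finset.sum_eq_single (i, j)]
      · rw [MvPolynomial.coeff_monomial, if_pos rfl]
      · intro x _ hx
        rw [MvPolynomial.coeff_monomial, if_neg]
        intro h2
        rw [arr_single] at h2
        apply hx
        have h3 := h2.1
        have h4 := h2.2
        simp at h3 h4
        exact Prod.ext h3 h4
      · intro h2
        exfalso
        apply h2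
        rw [mem_product, mem_range, mem_range]
        constructor
        · show i < d + 1
          omega
        · show j < d + 1
          omega
    · exact (hc i j (by omega)).symm

theorem arr_gk (d : ℕ) (f g : MvPolynomial (Fin 2) ℤ)
    (h : MvPolynomial.homogeneousComponent d f = MvPolynomial.homogeneousComponent d g) :
    gk (arr d f) d = gk (arr d g) d := by
  unfold gk
  refine Finset.sum_congr rfl fun j hj => ?_
  rw [mem_range] at hj
  congr 1
  unfold arr
  rw [if_pos (by omega), if_pos (by omega)]
  have h1 := congrArg (MvPolynomial.coeff (Finsupp.single 0 (d - j) + Finsupp.single 1 j)) h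
  rw [MvPolynomial.coeff_homogeneousComponent, MvPolynomial.coeff_homogeneousComponent] at h1
  have h2 : (Finsupp.single (0 : Fin 2) (d - j) + Finsupp.single 1 j).degree = d := by
    rw [arr_degree]
    simp
    omega
  rw [if_pos h2, if_pos h2] at h1
  exact h1

private theorem arr_hom_not_unit {n : ℕ} (hn : 1 ≤ n) (u : ℚ[X]) : ¬ IsUnit (homogenize u n) := by
  intro h
  have h1 := h.map (MvPolynomial.eval (0 : Fin 2 → ℚ))
  have h2 : MvPolynomial.eval (0 : Fin 2 → ℚ) (homogenize u n) = 0 := by
    rw [MvPolynomial.eval_zero, MvPolynomial.constantCoeff_eq, coeff_homogenize, if_neg]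
    simp
    omega
  rw [h2] at h1
  exact not_isUnit_zero h1

theorem arr_lead (d : ℕ) (hd : 2 ≤ d) (f : MvPolynomial (Fin 2) ℤ)
    (hf : Irreducible (MvPolynomial.map (Int.castRingHom ℚ)
      (MvPolynomial.homogeneousComponent d f))) : Lead d (arr d f) := by
  set c := arr d f with hc
  set g : ℚ[X] := (gk c d).map (Int.castRingHom ℚ) with hg
  set F := MvPolynomial.map (Int.castRingHom ℚ) (MvPolynomial.homogeneousComponent d f) with hF
  set e := MvPolynomial.renameEquiv ℚ (Equiv.swap (0 : Fin 2) 1) with he
  have hirr : Irreducible (e F) := (MulEquiv.irreducible_iff e).mpr hf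
  have hdeg : (gk c d).natDegree ≤ d := by
    unfold gk
    refine natDegree_sum_le_of_forall_le _ _ ?_
    intro j hj
    rw [mem_range] at hj
    exact (natDegree_monomial_le _).trans (by omega)
  have hgdeg : g.natDegree ≤ d := natDegree_map_le.trans hdeg
  have hgcoeff : ∀ j ≤ d, g.coeff j = (c (d - j) j : ℚ) := by
    intro j hj
    rw [hg, coeff_map, gk, finsetSum_coeff, Finset.sum_eq_single j]
    · rw [coeff_monomial, if_pos rfl]
      rfl
    · intro i _ hi
      rw [coeff_monomial, if_neg hi]
    · intro h
      exfalso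
      apply h
      rw [mem_range]
      omega
  have hhom : homogenize g d = e F := by
    ext m
    have h1 : (e F).coeff m = F.coeff (Finsupp.single 0 (m 1) + Finsupp.single 1 (m 0)) := by
      have h2 : m = (Finsupp.single (0 : Fin 2) (m 1) + Finsupp.single 1 (m 0)).mapDomain
          (Equiv.swap (0 : Fin 2) 1) := by
        rw [Finsupp.mapDomain_add, Finsupp.mapDomain_single, Finsupp.mapDomain_single,
          Equiv.swap_apply_left, Equiv.swap_apply_right, add_comm]
        exact ((arr_single m (m 0) (m 1)).mpr ⟨rfl, rfl⟩).symm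
      conv_lhs => rw [h2]
      rw [he, MvPolynomial.renameEquiv_apply, MvPolynomial.coeff_rename_mapDomain _
        (Equiv.injective _)]
    rw [h1, coeff_homogenize, hF, MvPolynomial.coeff_map, MvPolynomial.coeff_homogeneousComponent]
    have h2 : (Finsupp.single (0 : Fin 2) (m 1) + Finsupp.single 1 (m 0)).degree = m 1 + m 0 := by
      rw [arr_degree]
      simp
    rw [h2]
    by_cases h3 : m 0 + m 1 = d
    · rw [if_pos h3, if_pos (by omega), hgcoeff _ (by omega), hc]
      unfold arr
      rw [if_pos (by omega)]
      have h4 : d - m 0 = m 1 := by omega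
      rw [h4]
      rfl
    · rw [if_neg h3, if_neg (by omega), map_zero]
  rw [← hhom] at hirr
  have hgd : g.natDegree = d := by
    by_contra hne
    have hlt : g.natDegree ≤ d - 1 := by omega
    have h1 : homogenize (1 * g) (1 + (d - 1)) = homogenize 1 1 * homogenize g (d - 1) :=
      homogenize_mul 1 g (by simp) hlt
    rw [one_mul, show 1 + (d - 1) = d by omega] at h1
    rcases hirr.isUnit_or_isUnit h1 with h2 | h2
    · exact arr_hom_not_unit le_rfl _ h2
    · exact arr_hom_not_unit (by omega) _ h2
  refine ⟨?_, ?_⟩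
  · apply le_antisymm hdeg
    calc d = g.natDegree := hgd.symm
      _ ≤ (gk c d).natDegree := natDegree_map_le
  · rw [← hg]
    constructor
    · intro hu
      have := Polynomial.natDegree_eq_zero_of_isUnit hu
      omega
    · intro u v huv
      have hg0 : g ≠ 0 := by
        intro h0
        rw [h0, natDegree_zero] at hgd
        omega
      have hu0 : u ≠ 0 := by
        rintro rfl
        rw [zero_mul] at huv
        exact hg0 huv
      have hv0 : v ≠ 0 := by
        rintro rfl
        rw [mul_zero] at huv
        exact hg0 huv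
      have hdd : d = u.natDegree + v.natDegree := by
        rw [← hgd, huv, natDegree_mul hu0 hv0]
      have h1 : homogenize g d = homogenize u u.natDegree * homogenize v v.natDegree := by
        rw [← homogenize_mul u v le_rfl le_rfl, ← huv, ← hdd]
      rcases hirr.isUnit_or_isUnit h1 with h2 | h2
      · left
        have h3 : u.natDegree = 0 := by
          by_contra h4
          exact arr_hom_not_unit (by omega) _ h2
        rw [isUnit_iff_degree_eq_zero, degree_eq_natDegree hu0, h3]
        rfl
      · right
        have h3 : v.natDegree = 0 := by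
          by_contra h4
          exact arr_hom_not_unit (by omega) _ h2
        rw [isUnit_iff_degree_eq_zero, degree_eq_natDegree hv0, h3]
        rfl

end Pool.Agent.LW
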