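import Pool.Agent.LW.BOX
import Pool.Agent.LW.ARR
import Pool.Agent.H15D.Height

set_option autoImplicit false

namespace Pool.Agent.LW

open Polynomial Finset

/-- polynomials of bounded degree and height -/
def prodP (a B : ℕ) : Set (MvPolynomial (Fin 2) ℤ) :=
  {u | u.totalDegree ≤ a ∧ ∀ m, |u.coeff m| ≤ (B : ℤ)}

theorem prod_arr_mem {a B : ℕ} {u : MvPolynomial (Fin 2) ℤ} (hu : u ∈ prodP a B) :
    arr a u ∈ Box a B := by
  refine ⟨fun i j hij => ?_, fun i j hij => ?_⟩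
  · unfold arr
    rw [if_neg (by omega)]
  · unfold arr
    rw [if_pos hij]
    exact hu.2 _

theorem prod_finite (a B : ℕ) : (prodP a B).Finite := by
  refine Set.Finite.of_finite_image (f := arr a) ((box_finite a B).subset ?_) ?_
  · rintro _ ⟨u, hu, rfl⟩
    exact prod_arr_mem hu
  · intro u hu v hv h
    exact arr_inj a u v hu.1 hv.1 h

theorem prod_ncard (a B : ℕ) : (prodP a B).ncard ≤ (2 * B + 1) ^ ((a + 1) * (a + 2) / 2) := by
  rw [← box_ncard]
  refine Set.ncard_le_ncard_of_injOn (arr a) (fun u hu => prod_arr_mem hu) ?_ (box_finite a B)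
  intro u hu v hv h
  exact arr_inj a u v hu.1 hv.1 h

theorem prod_coeff_le (u : MvPolynomial (Fin 2) ℤ) (m : Fin 2 →₀ ℕ) :
    |((u.coeff m : ℤ) : ℝ)| ≤ Pool.Agent.H20.HF u := by
  unfold Pool.Agent.H20.HF
  by_cases hm : m ∈ u.support
  · exact single_le_sum (f := fun m => |((u.coeff m : ℤ) : ℝ)|) (fun _ _ => abs_nonneg _) hm
  · rw [MvPolynomial.notMem_support_iff] at hm
    rw [hm]
    simp only [Int.cast_zero, abs_zero]
    exact sum_nonneg fun _ _ => abs_nonneg _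

theorem prod_HF_le {d H : ℕ} {f : MvPolynomial (Fin 2) ℤ} (hf : f.totalDegree ≤ d)
    (hH : ∀ m, |f.coeff m| ≤ (H : ℤ)) : Pool.Agent.H20.HF f ≤ (d + 1) ^ 2 * H := by
  unfold Pool.Agent.H20.HF
  have h1 : f.support.card ≤ (d + 1) ^ 2 := by
    have h2 := Finset.card_le_card_of_injOn (s := f.support)
      (t := range (d + 1) ×ˢ range (d + 1)) (fun m => (m 0, m 1)) (by
        intro m hm
        have h3 := MvPolynomial.le_totalDegree hm
        have h4 : (m.sum fun _ e => e) = m 0 + m 1 := by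
          rw [Finsupp.sum_fintype _ _ (fun _ => rfl), Fin.sum_univ_two]
        simp only [coe_product, coe_range, Set.mem_prod, Set.mem_Iio]
        omega) (by
        intro m _ m' _ h
        simp only [Prod.mk.injEq] at h
        ext x
        fin_cases x
        · exact h.1
        · exact h.2)
    rw [card_product, card_range] at h2
    rw [pow_two]
    exact h2
  have h2 : ∀ m ∈ f.support, |((f.coeff m : ℤ) : ℝ)| ≤ (H : ℝ) := by
    intro m _
    have := hH m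
    exact_mod_cast this
  refine (sum_le_card_nsmul _ _ _ h2).trans ?_
  rw [nsmul_eq_mul]
  refine mul_le_mul_of_nonneg_right ?_ (by positivity)
  exact_mod_cast h1

theorem prod_tri (n : ℕ) : 2 * ((n + 1) * (n + 2) / 2) = (n + 1) * (n + 2) := by
  refine Nat.mul_div_cancel' ?_
  have := Nat.even_mul_succ_self (n + 1)
  exact this.two_dvd

theorem prod_exp {a b d : ℕ} (hd : 4 ≤ d) (hab : a + b = d) (ha : 1 ≤ a) (hb : 1 ≤ b) :
    (a + 1) * (a + 2) / 2 + (b + 1) * (b + 2) / 2 ≤ (d + 1) * (d + 2) / 2 - 2 := by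
  subst hab
  have h1 := prod_tri a
  have h2 := prod_tri b
  have h3 := prod_tri (a + b)
  have h4 : 3 ≤ a * b := by
    obtain ⟨a, rfl⟩ := Nat.exists_eq_add_of_le ha
    obtain ⟨b, rfl⟩ := Nat.exists_eq_add_of_le hb
    nlinarith [Nat.zero_le (a * b)]
  have h5 : (a + b + 1) * (a + b + 2) + 6 = (a + 1) * (a + 2) + (b + 1) * (b + 2) + 2 * (a * b)
      + 4 := by ring
  omega

/-- few polynomials are products of two polynomials of smaller degree -/
theorem count_products (d : ℕ) (hd : 4 ≤ d) : ∃ C : ℕ, ∀ H : ℕ, 1 ≤ H →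
    {f : MvPolynomial (Fin 2) ℤ | f.totalDegree = d ∧ (∀ m, |f.coeff m| ≤ (H : ℤ)) ∧
      ∃ u v : MvPolynomial (Fin 2) ℤ, f = u * v ∧ 1 ≤ u.totalDegree ∧ 1 ≤ v.totalDegree}.Finite ∧
    {f : MvPolynomial (Fin 2) ℤ | f.totalDegree = d ∧ (∀ m, |f.coeff m| ≤ (H : ℤ)) ∧
      ∃ u v : MvPolynomial (Fin 2) ℤ, f = u * v ∧ 1 ≤ u.totalDegree ∧
        1 ≤ v.totalDegree}.ncard ≤ C * H ^ ((d + 1) * (d + 2) / 2 - 2) := by
  classical
  obtain ⟨c, hc, hfac⟩ := Pool.Agent.H15D.height_factor d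
  set K : ℕ := ⌈c * (d + 1) ^ 2⌉₊ with hK
  have hK1 : 1 ≤ K := by
    rw [hK, Nat.one_le_ceil_iff]
    positivity
  refine ⟨d * (3 * K) ^ ((d + 1) * (d + 2) / 2 - 2), fun H hH => ?_⟩
  set S := {f : MvPolynomial (Fin 2) ℤ | f.totalDegree = d ∧ (∀ m, |f.coeff m| ≤ (H : ℤ)) ∧
      ∃ u v : MvPolynomial (Fin 2) ℤ, f = u * v ∧ 1 ≤ u.totalDegree ∧ 1 ≤ v.totalDegree} with hS
  set T : ℕ → Set (MvPolynomial (Fin 2) ℤ) := fun a =>
    (fun q : MvPolynomial (Fin 2) ℤ × MvPolynomial (Fin 2) ℤ => q.1 * q.2) ''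
      (prodP a (K * H) ×ˢ prodP (d - a) (K * H)) with hT
  have hTf : ∀ a, (T a).Finite := fun a =>
    ((prod_finite a (K * H)).prod (prod_finite (d - a) (K * H))).image _
  have hsub : S ⊆ ⋃ a ∈ Finset.Icc 1 (d - 1), T a := by
    rintro f ⟨hfd, hfH, u, v, huv, hu, hv⟩
    have hf0 : f ≠ 0 := by
      rintro rfl
      simp at hfd
      omega
    have huv0 : u * v ≠ 0 := huv ▸ hf0
    have hdeg : u.totalDegree + v.totalDegree = d := by
      rw [← MvPolynomial.totalDegree_mul_of_isDomain (left_ne_zero_of_mul huv0)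
        (right_ne_zero_of_mul huv0), ← huv, hfd]
    have hHF := prod_HF_le hfd.le hfH
    have key : ∀ w : MvPolynomial (Fin 2) ℤ, w ∣ f → ∀ m, |w.coeff m| ≤ ((K * H : ℕ) : ℤ) := by
      intro w hw m
      have h1 := prod_coeff_le w m
      have h2 := hfac f w hf0 hfd.le hw
      have h3 : c * Pool.Agent.H20.HF f ≤ c * ((d + 1) ^ 2 * H) :=
        mul_le_mul_of_nonneg_left hHF (by linarith)
      have h4 : c * (d + 1) ^ 2 ≤ (K : ℝ) := Nat.le_ceil _
      have h5 : c * ((d + 1) ^ 2 * H) ≤ (K : ℝ) * H := by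
        rw [← mul_assoc]
        exact mul_le_mul_of_nonneg_right h4 (by positivity)
      have h6 : |((w.coeff m : ℤ) : ℝ)| ≤ (K : ℝ) * H := by linarith
      exact_mod_cast h6
    rw [Set.mem_iUnion₂]
    refine ⟨u.totalDegree, Finset.mem_Icc.2 ⟨hu, by omega⟩, (u, v), ⟨⟨le_rfl, ?_⟩, ?_, ?_⟩,
      huv.symm⟩
    · exact key u ⟨v, huv⟩
    · show v.totalDegree ≤ d - u.totalDegree
      omega
    · exact key v ⟨u, by rw [huv, mul_comm]⟩
  have hfin : (⋃ a ∈ Finset.Icc 1 (d - 1), T a).Finite :=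
    Set.Finite.biUnion (Finset.Icc 1 (d - 1)).finite_toSet (fun a _ => hTf a)
  refine ⟨hfin.subset hsub, ?_⟩
  have h1 : ∀ a ∈ Finset.Icc 1 (d - 1), (T a).ncard ≤
      (3 * K * H) ^ ((d + 1) * (d + 2) / 2 - 2) := by
    intro a ha
    rw [Finset.mem_Icc] at ha
    have h2 : (T a).ncard ≤ (prodP a (K * H)).ncard * (prodP (d - a) (K * H)).ncard := by
      rw [← Set.ncard_prod]
      exact Set.ncard_image_le ((prod_finite a (K * H)).prod (prod_finite (d - a) (K * H)))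
    have h3 : 2 * (K * H) + 1 ≤ 3 * K * H := by nlinarith
    have h4 := prod_exp (a := a) (b := d - a) hd (by omega) (by omega) (by omega)
    calc (T a).ncard ≤ (prodP a (K * H)).ncard * (prodP (d - a) (K * H)).ncard := h2
      _ ≤ (2 * (K * H) + 1) ^ ((a + 1) * (a + 2) / 2) *
          (2 * (K * H) + 1) ^ ((d - a + 1) * (d - a + 2) / 2) :=
          Nat.mul_le_mul (prod_ncard _ _) (prod_ncard _ _)
      _ = (2 * (K * H) + 1) ^ ((a + 1) * (a + 2) / 2 + (d - a + 1) * (d - a + 2) / 2) := by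
          rw [pow_add]
      _ ≤ (3 * K * H) ^ ((a + 1) * (a + 2) / 2 + (d - a + 1) * (d - a + 2) / 2) :=
          Nat.pow_le_pow_left h3 _
      _ ≤ _ := Nat.pow_le_pow_right (by nlinarith) h4
  have h2 : (⋃ a ∈ Finset.Icc 1 (d - 1), T a).ncard ≤
      ∑ a ∈ Finset.Icc 1 (d - 1), (T a).ncard := by
    have := Finset.set_ncard_biUnion_le (Finset.Icc 1 (d - 1)) T
    exact this
  calc S.ncard ≤ (⋃ a ∈ Finset.Icc 1 (d - 1), T a).ncard := Set.ncard_le_ncard hsub hfin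
    _ ≤ ∑ a ∈ Finset.Icc 1 (d - 1), (T a).ncard := h2
    _ ≤ ∑ _a ∈ Finset.Icc 1 (d - 1), (3 * K * H) ^ ((d + 1) * (d + 2) / 2 - 2) := sum_le_sum h1
    _ ≤ d * (3 * K * H) ^ ((d + 1) * (d + 2) / 2 - 2) := by
        rw [sum_const, smul_eq_mul, Nat.card_Icc]
        exact Nat.mul_le_mul_right _ (by omega)
    _ = _ := by rw [mul_pow (3 * K) H]; ring

end Pool.Agent.LW
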