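import Pool.Agent.LW.RED

set_option autoImplicit false

namespace Pool.Agent.LW

open Polynomial Finset
open scoped NNReal

/-- Gauss's lemma: a square factor over the integers -/
theorem redsq_factor {g : ℤ[X]} (hg : g ≠ 0)
    (h : ¬ Squarefree (g.map (Int.castRingHom ℚ))) :
    ∃ a b : ℤ[X], g = a ^ 2 * b ∧ 1 ≤ a.natDegree := by
  unfold Squarefree at h
  push Not at h
  obtain ⟨p, hp, hpu⟩ := h
  have hinj : Function.Injective (Int.castRingHom ℚ) := Int.cast_injective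
  have hgm : g.map (Int.castRingHom ℚ) ≠ 0 := by
    rwa [Ne, Polynomial.map_eq_zero_iff hinj]
  have hp0 : p ≠ 0 := by
    rintro rfl
    rw [zero_mul, zero_dvd_iff] at hp
    exact hgm hp
  have hpd : 1 ≤ p.natDegree := by
    by_contra hlt
    have h0 : p.natDegree = 0 := by omega
    have h1 : p = C (p.coeff 0) := eq_C_of_natDegree_eq_zero h0
    apply hpu
    rw [h1, isUnit_C, isUnit_iff_ne_zero]
    intro h2
    rw [h2, C_0] at h1
    exact hp0 h1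
  obtain ⟨c, hc, hcp⟩ := IsLocalization.integerNormalization_spec (nonZeroDivisors ℤ) p
  set P := IsLocalization.integerNormalization (nonZeroDivisors ℤ) p with hP
  have hc0 : c ≠ 0 := nonZeroDivisors.ne_zero hc
  have hcp' : P.map (Int.castRingHom ℚ) = C (c : ℚ) * p := by
    have h1 : P.map (Int.castRingHom ℚ) = c • p := hcp
    rw [h1, zsmul_eq_mul]
    simp
  have hPd : P.natDegree = p.natDegree := by
    rw [← natDegree_map_eq_of_injective hinj P, hcp', natDegree_C_mul (by exact_mod_cast hc0)]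
  have hP0 : P ≠ 0 := by
    intro h0
    rw [h0] at hPd
    simp at hPd
    omega
  have hPc : P.content ≠ 0 := fun h0 => hP0 (content_eq_zero_iff.1 h0)
  have hPa : P.map (Int.castRingHom ℚ) =
      C (P.content : ℚ) * P.primPart.map (Int.castRingHom ℚ) := by
    conv_lhs => rw [P.eq_C_content_mul_primPart]
    rw [Polynomial.map_mul, map_C]
    rfl
  have hgc : g.content ≠ 0 := fun h0 => hg (content_eq_zero_iff.1 h0)
  have hga : g.map (Int.castRingHom ℚ) =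
      C (g.content : ℚ) * g.primPart.map (Int.castRingHom ℚ) := by
    conv_lhs => rw [g.eq_C_content_mul_primPart]
    rw [Polynomial.map_mul, map_C]
    rfl
  have hu : ∀ z : ℤ, z ≠ 0 → IsUnit (C (z : ℚ)) := by
    intro z hz
    rw [isUnit_C]
    exact isUnit_iff_ne_zero.2 (by exact_mod_cast hz)
  have h1 : P.primPart.map (Int.castRingHom ℚ) ∣ p := by
    have h2 : P.primPart.map (Int.castRingHom ℚ) ∣ C (c : ℚ) * p := by
      rw [← hcp', hPa]
      exact Dvd.intro_left _ rfl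
    exact ((hu c hc0).dvd_mul_left).1 h2
  have h2 : (P.primPart ^ 2).map (Int.castRingHom ℚ) ∣ g.primPart.map (Int.castRingHom ℚ) := by
    have h3 : (P.primPart ^ 2).map (Int.castRingHom ℚ) ∣
        C (g.content : ℚ) * g.primPart.map (Int.castRingHom ℚ) := by
      rw [← hga, Polynomial.map_pow, pow_two]
      exact (mul_dvd_mul h1 h1).trans hp
    exact ((hu _ hgc).dvd_mul_left).1 h3
  have hprim : (P.primPart ^ 2).IsPrimitive := by
    rw [pow_two]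
    exact P.isPrimitive_primPart.mul P.isPrimitive_primPart
  have h3 : P.primPart ^ 2 ∣ g.primPart :=
    (IsPrimitive.Int.dvd_iff_map_cast_dvd_map_cast _ _ hprim).2 h2
  obtain ⟨b, hb⟩ := h3.trans (Dvd.intro_left _ g.eq_C_content_mul_primPart.symm)
  exact ⟨P.primPart, b, hb, by rw [P.natDegree_primPart, hPd]; exact hpd⟩

theorem redsq_arith {d e : ℕ} (hd : 3 ≤ d) (he : 1 ≤ e) (hed : 2 * e ≤ d) {x B : ℝ} (hx : 1 ≤ x)
    (hxB : x ^ 2 ≤ B) :
    (3 * 2 ^ e * (x * 2)) ^ (e + 1) * (3 * 2 ^ (d - 2 * e) * (B / x ^ 2)) ^ (d - 2 * e + 1) ≤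
      (6 * 2 ^ d) ^ (d + 2) * B ^ (d - 1) * x⁻¹ := by
  have hx0 : 0 < x := by linarith
  have hx2 : 0 < x ^ 2 := by positivity
  have hB0 : 0 < B := by linarith
  have h1 : (3 * 2 ^ e * (x * 2)) ^ (e + 1) ≤ (6 * 2 ^ d) ^ (e + 1) * x ^ (e + 1) := by
    rw [← mul_pow]
    refine pow_le_pow_left₀ (by positivity) ?_ _
    have : (2 : ℝ) ^ e ≤ 2 ^ d := pow_le_pow_right₀ (by norm_num) (by omega)
    nlinarith
  have h2 : (3 * 2 ^ (d - 2 * e) * (B / x ^ 2)) ^ (d - 2 * e + 1) ≤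
      (6 * 2 ^ d) ^ (d - 2 * e + 1) * (B / x ^ 2) ^ (d - 2 * e + 1) := by
    rw [← mul_pow]
    refine pow_le_pow_left₀ (by positivity) ?_ _
    have h3 : (2 : ℝ) ^ (d - 2 * e) ≤ 2 ^ d := pow_le_pow_right₀ (by norm_num) (by omega)
    refine mul_le_mul_of_nonneg_right ?_ (by positivity)
    have : (0 : ℝ) < 2 ^ (d - 2 * e) := by positivity
    linarith
  have h3 : x ^ (e + 1) * (B / x ^ 2) ^ (d - 2 * e + 1) ≤ B ^ (d - 1) * x⁻¹ := by
    have e1 : x ^ (e + 1) * (B / x ^ 2) ^ (d - 2 * e + 1) = x ^ (e + 1) * B ^ (d - 2 * e + 1) /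
        (x ^ 2) ^ (d - 2 * e + 1) := by
      rw [div_pow]
      ring
    rw [e1, div_le_iff₀ (by positivity)]
    have e2 : B ^ (d - 1) = B ^ (2 * e - 2) * B ^ (d - 2 * e + 1) := by
      rw [← pow_add]
      congr 1
      omega
    have e3 : x ^ (e + 2) ≤ B ^ (2 * e - 2) * (x ^ 2) ^ (d - 2 * e + 1) := by
      have h4 : (x ^ 2) ^ (2 * e - 2) ≤ B ^ (2 * e - 2) := pow_le_pow_left₀ hx2.le hxB _
      have h5 : x ^ (e + 2) ≤ (x ^ 2) ^ (2 * e - 2) * (x ^ 2) ^ (d - 2 * e + 1) := by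
        rw [← pow_add, ← pow_mul]
        exact pow_le_pow_right₀ hx (by omega)
      exact h5.trans (mul_le_mul_of_nonneg_right h4 (by positivity))
    have e4 : x ^ (e + 1) * x = x ^ (e + 2) := by ring
    rw [e2]
    have e5 : B ^ (2 * e - 2) * B ^ (d - 2 * e + 1) * x⁻¹ * (x ^ 2) ^ (d - 2 * e + 1) =
        B ^ (d - 2 * e + 1) * (B ^ (2 * e - 2) * (x ^ 2) ^ (d - 2 * e + 1)) * x⁻¹ := by ring
    rw [e5, ← div_eq_mul_inv, le_div_iff₀ hx0]
    have e6 : x ^ (e + 1) * B ^ (d - 2 * e + 1) * x = B ^ (d - 2 * e + 1) * x ^ (e + 2) := by ring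
    rw [e6]
    exact mul_le_mul_of_nonneg_left e3 (by positivity)
  have hK : (1 : ℝ) ≤ 6 * 2 ^ d := by
    have : (1 : ℝ) ≤ 2 ^ d := one_le_pow₀ (by norm_num)
    linarith
  calc (3 * 2 ^ e * (x * 2)) ^ (e + 1) * (3 * 2 ^ (d - 2 * e) * (B / x ^ 2)) ^ (d - 2 * e + 1)
      ≤ ((6 * 2 ^ d) ^ (e + 1) * x ^ (e + 1)) *
        ((6 * 2 ^ d) ^ (d - 2 * e + 1) * (B / x ^ 2) ^ (d - 2 * e + 1)) :=
        mul_le_mul h1 h2 (by positivity) (by positivity)
    _ = (6 * 2 ^ d) ^ (e + 1 + (d - 2 * e + 1)) *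
        (x ^ (e + 1) * (B / x ^ 2) ^ (d - 2 * e + 1)) := by
        rw [pow_add]
        ring
    _ ≤ (6 * 2 ^ d) ^ (d + 2) * (x ^ (e + 1) * (B / x ^ 2) ^ (d - 2 * e + 1)) := by
        refine mul_le_mul_of_nonneg_right ?_ (by positivity)
        exact pow_le_pow_right₀ hK (by omega)
    _ ≤ (6 * 2 ^ d) ^ (d + 2) * (B ^ (d - 1) * x⁻¹) := mul_le_mul_of_nonneg_left h3 (by positivity)
    _ = _ := by ring

/-- the main part -/
theorem redsq_main (d : ℕ) (hd : 3 ≤ d) (B : ℕ) (hB : 1 ≤ B) : ∃ F : Finset ℤ[X],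
    (∀ u v : ℤ[X], u ^ 2 * v ≠ 0 → (u ^ 2 * v).natDegree ≤ d → 1 ≤ u.natDegree →
      ((u ^ 2 * v).map (Int.castRingHom ℂ)).mahlerMeasure ≤ B → u ^ 2 * v ∈ F) ∧
    (F.card : ℝ) ≤ d * (2 * ((6 * 2 ^ d) ^ (d + 2) * (B : ℝ) ^ (d - 1))) := by
  classical
  set F : Finset ℤ[X] := (Icc 1 (d / 2)).biUnion fun e =>
    ((range (Nat.log 2 B + 1)).filter (fun k => ((2 : ℝ) ^ k) ^ 2 ≤ B)).biUnion fun k =>
      ((redF e ((2 : ℝ≥0) ^ k * 2)) ×ˢ (redF (d - 2 * e) ((B : ℝ≥0) / (2 ^ k) ^ 2))).image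
        (fun q => q.1 ^ 2 * q.2) with hF
  refine ⟨F, ?_, ?_⟩
  · intro u v huv0 hd' hu hM
    have hv0 : v ≠ 0 := right_ne_zero_of_mul huv0
    have hu0' : u ^ 2 ≠ 0 := left_ne_zero_of_mul huv0
    have hu0 : u ≠ 0 := by
      rintro rfl
      simp at hu
    rw [natDegree_mul hu0' hv0, natDegree_pow] at hd'
    rw [Polynomial.map_mul, mahlerMeasure_mul, Polynomial.map_pow, pow_two,
      mahlerMeasure_mul] at hM
    set Mu := (u.map (Int.castRingHom ℂ)).mahlerMeasure with hMu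
    set Mv := (v.map (Int.castRingHom ℂ)).mahlerMeasure with hMv
    have hMu1 : 1 ≤ Mu := one_le_mahlerMeasure_of_ne_zero hu0
    have hMv1 : 1 ≤ Mv := one_le_mahlerMeasure_of_ne_zero hv0
    have hfl : 1 ≤ ⌊Mu⌋₊ := (Nat.one_le_floor_iff _).2 hMu1
    set k := Nat.log 2 ⌊Mu⌋₊ with hk
    have hk1 : (2 : ℝ) ^ k ≤ Mu := by
      have h1 : 2 ^ k ≤ ⌊Mu⌋₊ := Nat.pow_log_le_self 2 (by omega)
      have h2 : ((2 ^ k : ℕ) : ℝ) ≤ (⌊Mu⌋₊ : ℝ) := by exact_mod_cast h1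
      push_cast at h2
      exact h2.trans (Nat.floor_le (by linarith))
    have hk2 : Mu ≤ (2 : ℝ) ^ k * 2 := by
      have h1 : ⌊Mu⌋₊ + 1 ≤ 2 ^ (k + 1) := Nat.lt_pow_succ_log_self (by norm_num) _
      have h2 : ((⌊Mu⌋₊ + 1 : ℕ) : ℝ) ≤ ((2 ^ (k + 1) : ℕ) : ℝ) := by exact_mod_cast h1
      push_cast at h2
      rw [← pow_succ]
      exact (Nat.lt_floor_add_one Mu).le.trans h2
    have hk0 : (0 : ℝ) < 2 ^ k := by positivity
    have hMM : Mu * Mu ≤ B := by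
      have : Mu * Mu * 1 ≤ Mu * Mu * Mv := mul_le_mul_of_nonneg_left hMv1 (by positivity)
      linarith
    have hksq : ((2 : ℝ) ^ k) ^ 2 ≤ Mu * Mu := by
      rw [pow_two]
      exact mul_le_mul hk1 hk1 hk0.le (by linarith)
    have hk3 : (2 : ℝ) ^ k ≤ B := by
      have h1 : (1 : ℝ) ≤ 2 ^ k := one_le_pow₀ (by norm_num)
      nlinarith
    have hkB : k ≤ Nat.log 2 B := by
      have h1 : 2 ^ k ≤ B := by exact_mod_cast hk3
      exact Nat.le_log_of_pow_le (by norm_num) h1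
    simp only [hF, mem_biUnion, mem_image, mem_product, Prod.exists, mem_filter]
    refine ⟨u.natDegree, mem_Icc.2 ⟨hu, by omega⟩, k,
      ⟨mem_range.2 (by omega), hksq.trans hMM⟩, u, v, ⟨?_, ?_⟩, rfl⟩
    · refine red_mem.2 ⟨le_rfl, ?_⟩
      push_cast
      exact hk2
    · refine red_mem.2 ⟨by omega, ?_⟩
      push_cast
      rw [le_div_iff₀ (by positivity)]
      have h5 : Mv * (2 ^ k) ^ 2 ≤ Mv * (Mu * Mu) :=
        mul_le_mul_of_nonneg_left hksq (by linarith)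
      linarith
  · have h1 : ∀ e ∈ Icc 1 (d / 2),
        (((((range (Nat.log 2 B + 1)).filter (fun k => ((2 : ℝ) ^ k) ^ 2 ≤ B)).biUnion fun k =>
        ((redF e ((2 : ℝ≥0) ^ k * 2)) ×ˢ (redF (d - 2 * e) ((B : ℝ≥0) / (2 ^ k) ^ 2))).image
          (fun q => q.1 ^ 2 * q.2)).card : ℕ) : ℝ) ≤
          2 * ((6 * 2 ^ d) ^ (d + 2) * (B : ℝ) ^ (d - 1)) := by
      intro e he
      rw [mem_Icc] at he
      have h2 : ∀ k ∈ (range (Nat.log 2 B + 1)).filter (fun k => ((2 : ℝ) ^ k) ^ 2 ≤ B),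
          ((((redF e ((2 : ℝ≥0) ^ k * 2)) ×ˢ
            (redF (d - 2 * e) ((B : ℝ≥0) / (2 ^ k) ^ 2))).image
            (fun q => q.1 ^ 2 * q.2)).card : ℝ) ≤
            (6 * 2 ^ d) ^ (d + 2) * (B : ℝ) ^ (d - 1) * (1 / 2) ^ k := by
        intro k hk
        have hkB : ((2 : ℝ) ^ k) ^ 2 ≤ B := (mem_filter.1 hk).2
        have hx1 : (1 : ℝ) ≤ 2 ^ k := one_le_pow₀ (by norm_num)
        have h3 : ((((redF e ((2 : ℝ≥0) ^ k * 2)) ×ˢ
            (redF (d - 2 * e) ((B : ℝ≥0) / (2 ^ k) ^ 2))).image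
            (fun q => q.1 ^ 2 * q.2)).card : ℝ) ≤
            ((redF e ((2 : ℝ≥0) ^ k * 2)).card : ℝ) *
              ((redF (d - 2 * e) ((B : ℝ≥0) / (2 ^ k) ^ 2)).card : ℝ) := by
          have := card_image_le (s := (redF e ((2 : ℝ≥0) ^ k * 2)) ×ˢ
            (redF (d - 2 * e) ((B : ℝ≥0) / (2 ^ k) ^ 2))) (f := fun q : ℤ[X] × ℤ[X] =>
              q.1 ^ 2 * q.2)
          rw [card_product] at this
          exact_mod_cast this
        have h4 := red_card e ((2 : ℝ≥0) ^ k * 2) (by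
          rw [← NNReal.coe_le_coe]
          push_cast
          linarith)
        have h5 := red_card (d - 2 * e) ((B : ℝ≥0) / (2 ^ k) ^ 2) (by
          rw [← NNReal.coe_le_coe]
          push_cast
          rw [le_div_iff₀ (by positivity)]
          linarith)
        push_cast at h4 h5
        have h6 := redsq_arith hd he.1 (show 2 * e ≤ d by omega) hx1 hkB
        have h7 : ((2 : ℝ) ^ k)⁻¹ = (1 / 2) ^ k := by
          rw [one_div, inv_pow]
        rw [h7] at h6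
        exact h3.trans ((mul_le_mul h4 h5 (by positivity) (by positivity)).trans h6)
      have h3 := card_biUnion_le
        (s := (range (Nat.log 2 B + 1)).filter (fun k => ((2 : ℝ) ^ k) ^ 2 ≤ B)) (t := fun k =>
        ((redF e ((2 : ℝ≥0) ^ k * 2)) ×ˢ (redF (d - 2 * e) ((B : ℝ≥0) / (2 ^ k) ^ 2))).image
          (fun q => q.1 ^ 2 * q.2))
      have h4 : (((((range (Nat.log 2 B + 1)).filter
          (fun k => ((2 : ℝ) ^ k) ^ 2 ≤ B)).biUnion fun k =>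
        ((redF e ((2 : ℝ≥0) ^ k * 2)) ×ˢ (redF (d - 2 * e) ((B : ℝ≥0) / (2 ^ k) ^ 2))).image
          (fun q => q.1 ^ 2 * q.2)).card : ℕ) : ℝ) ≤
          ∑ k ∈ (range (Nat.log 2 B + 1)).filter (fun k => ((2 : ℝ) ^ k) ^ 2 ≤ B),
          ((((redF e ((2 : ℝ≥0) ^ k * 2)) ×ˢ
            (redF (d - 2 * e) ((B : ℝ≥0) / (2 ^ k) ^ 2))).image
            (fun q => q.1 ^ 2 * q.2)).card : ℝ) := by exact_mod_cast h3
      refine h4.trans ((sum_le_sum h2).trans ?_)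
      rw [← mul_sum]
      have h6 : (0 : ℝ) ≤ (6 * 2 ^ d) ^ (d + 2) * (B : ℝ) ^ (d - 1) := by positivity
      have h8 : ∑ i ∈ (range (Nat.log 2 B + 1)).filter (fun k => ((2 : ℝ) ^ k) ^ 2 ≤ B),
          ((1 : ℝ) / 2) ^ i ≤ ∑ i ∈ range (Nat.log 2 B + 1), ((1 : ℝ) / 2) ^ i :=
        sum_le_sum_of_subset_of_nonneg (filter_subset _ _) (fun i _ _ => by positivity)
      have h5 := h8.trans (sum_geometric_two_le (Nat.log 2 B + 1))
      have h7 := mul_le_mul_of_nonneg_left h5 h6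
      linarith
    have h2 := card_biUnion_le (s := Icc 1 (d / 2)) (t := fun e =>
        ((range (Nat.log 2 B + 1)).filter (fun k => ((2 : ℝ) ^ k) ^ 2 ≤ B)).biUnion fun k =>
        ((redF e ((2 : ℝ≥0) ^ k * 2)) ×ˢ (redF (d - 2 * e) ((B : ℝ≥0) / (2 ^ k) ^ 2))).image
          (fun q => q.1 ^ 2 * q.2))
    rw [← hF] at h2
    have h3 : (F.card : ℝ) ≤ ∑ e ∈ Icc 1 (d / 2),
        (((((range (Nat.log 2 B + 1)).filter (fun k => ((2 : ℝ) ^ k) ^ 2 ≤ B)).biUnion fun k =>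
        ((redF e ((2 : ℝ≥0) ^ k * 2)) ×ˢ (redF (d - 2 * e) ((B : ℝ≥0) / (2 ^ k) ^ 2))).image
          (fun q => q.1 ^ 2 * q.2)).card : ℕ) : ℝ) := by
      exact_mod_cast h2
    refine h3.trans ((sum_le_sum h1).trans ?_)
    rw [sum_const, nsmul_eq_mul]
    refine mul_le_mul_of_nonneg_right ?_ (by positivity)
    rw [Nat.card_Icc]
    have : d / 2 + 1 - 1 ≤ d := by omega
    exact_mod_cast this

/-- few integer polynomials of degree at most `d` have degree less than `d - 1` or a square factor -/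
theorem count_nonsquarefree (d : ℕ) (hd : 4 ≤ d) : ∃ C : ℕ, ∀ H : ℕ, 1 ≤ H →
    {g : ℤ[X] | g.natDegree ≤ d ∧ (∀ n, |g.coeff n| ≤ (H : ℤ)) ∧
      ¬ (d ≤ g.natDegree + 1 ∧ Squarefree (g.map (Int.castRingHom ℚ)))}.Finite ∧
    {g : ℤ[X] | g.natDegree ≤ d ∧ (∀ n, |g.coeff n| ≤ (H : ℤ)) ∧
      ¬ (d ≤ g.natDegree + 1 ∧ Squarefree (g.map (Int.castRingHom ℚ)))}.ncard ≤ C * H ^ (d - 1) := by
  refine ⟨3 ^ (d - 1) + d * (2 * ((6 * 2 ^ d) ^ (d + 2) * (d + 1) ^ (d - 1))), fun H hH => ?_⟩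
  obtain ⟨F, hF, hFc⟩ := redsq_main d (by omega) ((d + 1) * H) (by nlinarith)
  obtain ⟨hl1, hl2⟩ := red_low (d - 1) (by omega) H
  set S1 := {g : ℤ[X] | g.natDegree ≤ d - 1 - 1 ∧ ∀ n, |g.coeff n| ≤ (H : ℤ)} with hS1
  set S := {g : ℤ[X] | g.natDegree ≤ d ∧ (∀ n, |g.coeff n| ≤ (H : ℤ)) ∧
      ¬ (d ≤ g.natDegree + 1 ∧ Squarefree (g.map (Int.castRingHom ℚ)))} with hS
  have hsub : S ⊆ S1 ∪ (F : Set ℤ[X]) := by
    rintro g ⟨h1, h2, h3⟩
    by_cases hg : d ≤ g.natDegree + 1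
    · right
      have h4 : ¬ Squarefree (g.map (Int.castRingHom ℚ)) := fun h => h3 ⟨hg, h⟩
      have hg0 : g ≠ 0 := by
        rintro rfl
        simp at hg
        omega
      obtain ⟨u, v, huv, hu⟩ := redsq_factor hg0 h4
      have h5 := red_mahler_le h2
      have h6 : (g.map (Int.castRingHom ℂ)).mahlerMeasure ≤ (((d + 1) * H : ℕ) : ℝ) := by
        refine h5.trans ?_
        push_cast
        refine mul_le_mul_of_nonneg_right ?_ (by positivity)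
        have : (g.natDegree : ℝ) ≤ d := by exact_mod_cast h1
        linarith
      rw [huv] at hg0 h1 h6 ⊢
      exact hF u v hg0 h1 hu h6
    · left
      exact ⟨by omega, h2⟩
  have hfin : (S1 ∪ (F : Set ℤ[X])).Finite := hl1.union F.finite_toSet
  refine ⟨hfin.subset hsub, ?_⟩
  have h6 : S.ncard ≤ S1.ncard + F.card := by
    refine (Set.ncard_le_ncard hsub hfin).trans ((Set.ncard_union_le _ _).trans ?_)
    rw [Set.ncard_coe_finset]
  have h7 : F.card ≤ d * (2 * ((6 * 2 ^ d) ^ (d + 2) * ((d + 1) * H) ^ (d - 1))) := by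
    exact_mod_cast hFc
  have h8 : (2 * H + 1) ^ (d - 1) ≤ 3 ^ (d - 1) * H ^ (d - 1) := by
    rw [← mul_pow]
    exact Nat.pow_le_pow_left (by omega) (d - 1)
  rw [mul_pow (d + 1) H (d - 1)] at h7
  calc S.ncard ≤ 3 ^ (d - 1) * H ^ (d - 1) +
        d * (2 * ((6 * 2 ^ d) ^ (d + 2) * ((d + 1) ^ (d - 1) * H ^ (d - 1)))) := by omega
    _ = (3 ^ (d - 1) + d * (2 * ((6 * 2 ^ d) ^ (d + 2) * (d + 1) ^ (d - 1)))) * H ^ (d - 1) := by
        ring

end Pool.Agent.LW
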