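import Pool.Agent.LW.HEN

set_option autoImplicit false

namespace Pool.Agent.LW

open Polynomial Finset Module Pool.Agent.H20 Pool.Agent.H20.G

lemma run_HF_le (d H : ℕ) (f : MvPolynomial (Fin 2) ℤ) (hf : f.totalDegree ≤ d)
    (hH : ∀ m, |f.coeff m| ≤ (H : ℤ)) : HF f ≤ ((d + 1 : ℕ) : ℝ) ^ 2 * H := by
  classical
  have hcard : f.support.card ≤ (d + 1) ^ 2 := by
    have hsub : f.support.image (fun m => (m 0, m 1)) ⊆ range (d + 1) ×ˢ range (d + 1) := by
      intro p hp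
      obtain ⟨m, hm, rfl⟩ := Finset.mem_image.mp hp
      have h1 : m 0 + m 1 ≤ d := by
        by_contra hcon
        push Not at hcon
        exact (MvPolynomial.mem_support_iff.mp hm) (hen_coeff_zero hf m hcon)
      rw [Finset.mem_product, Finset.mem_range, Finset.mem_range]
      omega
    have hinj : Function.Injective (fun m : Fin 2 →₀ ℕ => (m 0, m 1)) := by
      intro m m' h
      simp only [Prod.mk.injEq] at h
      ext i
      fin_cases i
      · exact h.1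
      · exact h.2
    have h2 := Finset.card_le_card hsub
    rw [Finset.card_image_of_injective _ hinj, Finset.card_product, Finset.card_range] at h2
    rw [pow_two]
    exact h2
  unfold HF
  calc ∑ m ∈ f.support, |((f.coeff m : ℤ) : ℝ)| ≤ ∑ _m ∈ f.support, (H : ℝ) := by
        refine Finset.sum_le_sum (fun m _ => ?_)
        have := hH m
        exact_mod_cast this
    _ = (f.support.card : ℝ) * H := by rw [Finset.sum_const, nsmul_eq_mul]
    _ ≤ ((d + 1 : ℕ) : ℝ) ^ 2 * H := by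
        refine mul_le_mul_of_nonneg_right ?_ (by positivity)
        exact_mod_cast hcard

/-- Runge's theorem for irreducible polynomials with reducible leading form -/
theorem runge_bound (d : ℕ) (hd : 3 ≤ d) : ∃ k C : ℕ, ∀ H : ℕ, 1 ≤ H →
    ∀ f : MvPolynomial (Fin 2) ℤ, f.totalDegree = d → (∀ m, |f.coeff m| ≤ (H : ℤ)) →
    Irreducible (MvPolynomial.map (Int.castRingHom ℚ) f) →
    d ≤ (gk (arr d f) d).natDegree + 1 →
    Squarefree ((gk (arr d f) d).map (Int.castRingHom ℚ)) →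
    ¬ ((gk (arr d f) d).natDegree = d ∧ Irreducible ((gk (arr d f) d).map (Int.castRingHom ℚ))) →
    ∀ x y : ℤ, MvPolynomial.eval ![x, y] f = 0 → max |x| |y| ≤ (C : ℤ) * (H : ℤ) ^ k := by
  classical
  obtain ⟨κ, hκ⟩ := general_boundG d hd
  obtain ⟨A, hA1, hA⟩ := hκ ℚ
  refine ⟨κ, ⌈A⌉₊ * ((d + 1) ^ 2) ^ κ, ?_⟩
  intro H hH f hfd hfH hirr h1 h2 h3 x y hxy
  obtain ⟨L, fL, nL, u, v, e, h4, h5, h6⟩ := small_branch d (by omega) f hfd.le h1 h2 h3
  have hb := hA f hirr hfd (Or.inl ⟨L, fL, nL, u, v, e, h4, h5, h6⟩) x y hxy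
  have hHF := run_HF_le d H f hfd.le hfH
  have hHF0 : 0 ≤ HF f := Finset.sum_nonneg (fun _ _ => abs_nonneg _)
  have hfin : A * HF f ^ κ ≤ ((⌈A⌉₊ * ((d + 1) ^ 2) ^ κ : ℕ) : ℝ) * (H : ℝ) ^ κ := by
    push_cast
    calc A * HF f ^ κ ≤ ⌈A⌉₊ * (((d + 1 : ℕ) : ℝ) ^ 2 * H) ^ κ := by
          refine mul_le_mul (Nat.le_ceil A) (pow_le_pow_left₀ hHF0 hHF κ) (by positivity)
            (by positivity)
      _ = ⌈A⌉₊ * (((d : ℝ) + 1) ^ 2) ^ κ * (H : ℝ) ^ κ := by
          rw [mul_pow]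
          push_cast
          ring
  have h7 : ((max |x| |y| : ℤ) : ℝ) ≤ ((⌈A⌉₊ * ((d + 1) ^ 2) ^ κ : ℕ) : ℝ) * (H : ℝ) ^ κ := by
    push_cast
    push_cast at hfin
    exact max_le (hb.1.trans hfin) (hb.2.trans hfin)
  exact_mod_cast h7

end Pool.Agent.LW
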