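import Pool.Agent.LW.CNTALL
import Pool.Agent.LW.ARR
import Pool.Agent.LW.REDSQ
import Pool.Agent.LW.PROD
import Pool.Agent.LW.RUN
import Pool.Agent.H15D.Factor

set_option autoImplicit false

namespace Pool.Agent.LW

open Polynomial Finset

/-- the polynomials of degree at most `d` with coefficients at most `H` -/
def MBox (d H : ℕ) : Set (MvPolynomial (Fin 2) ℤ) :=
  {f | f.totalDegree ≤ d ∧ ∀ m, |f.coeff m| ≤ (H : ℤ)}

lemma aac_arr_mem (d H : ℕ) (f : MvPolynomial (Fin 2) ℤ) (hf : ∀ m, |f.coeff m| ≤ (H : ℤ)) :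
    arr d f ∈ Box d H := by
  refine ⟨fun i j hij => ?_, fun i j hij => ?_⟩
  · unfold arr
    rw [if_neg (by omega)]
  · unfold arr
    rw [if_pos hij]
    exact hf _

lemma aac_injOn (d H : ℕ) : Set.InjOn (arr d) (MBox d H) :=
  fun f hf g hg h => arr_inj d f g hf.1 hg.1 h

lemma aac_image (d H : ℕ) : arr d '' MBox d H = Box d H := by
  ext c
  constructor
  · rintro ⟨f, hf, rfl⟩
    exact aac_arr_mem d H f hf.2
  · intro hc
    obtain ⟨f, hfd, hf⟩ := arr_surj d c hc.1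
    refine ⟨f, ⟨hfd, fun m => ?_⟩, hf⟩
    rcases le_or_gt (m 0 + m 1) d with h1 | h1
    · have h2 := hc.2 (m 0) (m 1) h1
      rw [← hf] at h2
      unfold arr at h2
      rw [if_pos h1] at h2
      have h3 : Finsupp.single (0 : Fin 2) (m 0) + Finsupp.single 1 (m 1) = m := by
        ext x
        fin_cases x <;> simp
      rw [h3] at h2
      exact h2
    · have h4 : f.coeff m = 0 := by
        apply MvPolynomial.coeff_eq_zero_of_totalDegree_lt
        have : ∑ i ∈ m.support, m i = m 0 + m 1 := by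
          rw [← Fin.sum_univ_two, ← Finsupp.degree_eq_sum]
          rfl
        omega
      rw [h4, abs_zero]
      exact Int.natCast_nonneg H

lemma mbox_ncard (d H : ℕ) : (MBox d H).ncard = (2 * H + 1) ^ ((d + 1) * (d + 2) / 2) := by
  rw [← box_ncard, ← aac_image, (aac_injOn d H).ncard_image]

lemma mbox_finite (d H : ℕ) : (MBox d H).Finite := by
  refine Set.Finite.of_finite_image ?_ (aac_injOn d H)
  rw [aac_image]
  exact box_finite d H

/-- transfer of a count from arrays to polynomials -/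
lemma aac_transfer (d H : ℕ) (P : MvPolynomial (Fin 2) ℤ → Prop) (Q : (ℕ → ℕ → ℤ) → Prop)
    (h : ∀ f ∈ MBox d H, P f → Q (arr d f)) :
    {f ∈ MBox d H | P f}.ncard ≤ {c ∈ Box d H | Q c}.ncard := by
  refine Set.ncard_le_ncard_of_injOn (arr d) ?_ ?_ ((box_finite d H).subset (fun c hc => hc.1))
  · rintro f ⟨hf, hP⟩
    exact ⟨aac_arr_mem d H f hf.2, h f hf hP⟩
  · rintro f ⟨hf, -⟩ g ⟨hg, -⟩ hfg
    exact aac_injOn d H hf hg hfg

lemma aac_natDegree_le (c : ℕ → ℕ → ℤ) (d : ℕ) : (gk c d).natDegree ≤ d := by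
  unfold gk
  refine natDegree_sum_le_of_forall_le _ _ ?_
  intro j hj
  rw [mem_range] at hj
  exact (natDegree_monomial_le _).trans (by omega)

/-- a polynomial with a zero is a product or irreducible over the rationals -/
lemma aac_factor (f : MvPolynomial (Fin 2) ℤ) (hf0 : f ≠ 0) (x y : ℤ)
    (hxy : MvPolynomial.eval ![x, y] f = 0) :
    (∃ u v : MvPolynomial (Fin 2) ℤ, f = u * v ∧ 1 ≤ u.totalDegree ∧ 1 ≤ v.totalDegree) ∨
      Irreducible (MvPolynomial.map (Int.castRingHom ℚ) f) := by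
  obtain ⟨G, hGF, hirr, hG0⟩ := Pool.Agent.H15D.exists_factor hf0 hxy
  obtain ⟨q, hq⟩ := hGF
  have hGne : G ≠ 0 := hirr.ne_zero
  have hqne : q ≠ 0 := by
    rintro rfl
    rw [mul_zero] at hq
    exact hf0 hq
  have hG1 : 1 ≤ G.totalDegree := by
    by_contra hcon
    have h0 : G.totalDegree = 0 := by omega
    rw [MvPolynomial.totalDegree_eq_zero_iff_eq_C] at h0
    rw [h0, MvPolynomial.eval_C] at hG0
    rw [hG0, map_zero] at h0
    exact hGne h0
  rcases Nat.eq_zero_or_pos q.totalDegree with h | h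
  · right
    rw [MvPolynomial.totalDegree_eq_zero_iff_eq_C] at h
    set c := q.coeff 0 with hc
    have hc0 : c ≠ 0 := by
      intro h0
      rw [h0, map_zero] at h
      exact hqne h
    have hirrQ := Pool.Agent.H15D.irreducible_map hirr hG0
    have hu : IsUnit (MvPolynomial.map (Int.castRingHom ℚ) q) := by
      rw [h, MvPolynomial.map_C]
      refine IsUnit.map MvPolynomial.C (isUnit_iff_ne_zero.2 ?_)
      simpa using hc0
    rw [hq, map_mul]
    exact (irreducible_mul_isUnit hu).2 hirrQ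
  · left
    exact ⟨G, q, hq, hG1, h⟩

lemma aac_exps (d : ℕ) (hd : 4 ≤ d) : 4 * d - 2 = d + 1 + (3 * d - 3) ∧
    (d + 1) * (d + 2) / 2 - 2 = d - 1 + d * (d + 1) / 2 := by
  refine ⟨by omega, ?_⟩
  have h1 : (d + 1) * (d + 2) = d * (d + 1) + (d + 1) * 2 := by ring
  rw [h1, Nat.add_mul_div_right _ _ (by norm_num)]
  omega

/-- the number of polynomials of degree at most `d` and height at most `H` having a large integer
zero -/
theorem count_large (d : ℕ) (hd : 4 ≤ d) : ∃ k C : ℕ, ∀ H : ℕ, 1 ≤ H →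
    {f ∈ MBox d H | ∃ x y : ℤ, MvPolynomial.eval ![x, y] f = 0 ∧
      (C : ℤ) * (H : ℤ) ^ k < max |x| |y|}.ncard ≤
        C * (H ^ (4 * d - 2) + H ^ ((d + 1) * (d + 2) / 2 - 2)) := by
  classical
  obtain ⟨k₁, C₁, h₁⟩ := count_all d hd
  obtain ⟨k₂, C₂, h₂⟩ := runge_bound d (by omega)
  obtain ⟨C₃, h₃⟩ := count_nonsquarefree d hd
  obtain ⟨C₄, h₄⟩ := count_products d hd
  obtain ⟨M, hM⟩ : ∃ M : ℕ, M = 3 ^ (d + 1) * C₁ + C₃ * 3 ^ (d * (d + 1) / 2) + C₄ := ⟨_, rfl⟩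
  refine ⟨k₁ + k₂, M + C₁ + C₂, ?_⟩
  intro H hH
  obtain ⟨h1a, -⟩ := h₁ H hH
  obtain ⟨hSf, hSc⟩ := h₃ H hH
  obtain ⟨hPf, hPc⟩ := h₄ H hH
  obtain ⟨hGf, hGc⟩ := all_gset_card d H
  set S := {g : ℤ[X] | g.natDegree ≤ d ∧ (∀ n, |g.coeff n| ≤ (H : ℤ)) ∧
      ¬ (d ≤ g.natDegree + 1 ∧ Squarefree (g.map (Int.castRingHom ℚ)))} with hS
  set P := {f : MvPolynomial (Fin 2) ℤ | f.totalDegree = d ∧ (∀ m, |f.coeff m| ≤ (H : ℤ)) ∧
      ∃ u v : MvPolynomial (Fin 2) ℤ, f = u * v ∧ 1 ≤ u.totalDegree ∧ 1 ≤ v.totalDegree} with hP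
  set E : ℤ[X] → Set (MvPolynomial (Fin 2) ℤ) := fun g => {f ∈ MBox d H | gk (arr d f) d = g ∧
    Lead d (arr d f) ∧ ∃ a b : ℤ, MvPolynomial.eval ![a, b] f = 0 ∧
      (C₁ : ℤ) * (H : ℤ) ^ k₁ < max |a| |b|} with hE
  have hH1 : (1 : ℤ) ≤ H := by exact_mod_cast hH
  have hsub : {f ∈ MBox d H | ∃ x y : ℤ, MvPolynomial.eval ![x, y] f = 0 ∧
      ((M + C₁ + C₂ : ℕ) : ℤ) * (H : ℤ) ^ (k₁ + k₂) < max |x| |y|} ⊆
      ({f ∈ MBox d H | gk (arr d f) d ∈ S} ∪ P) ∪ ⋃ g ∈ hGf.toFinset, E g := by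
    rintro f ⟨hf, x, y, hxy, hmax⟩
    have hgm := all_gk_mem_gset d H (arr d f) (aac_arr_mem d H f hf.2)
    have hk1 : (H : ℤ) ^ k₁ ≤ (H : ℤ) ^ (k₁ + k₂) := pow_le_pow_right₀ hH1 (by omega)
    have hk2 : (H : ℤ) ^ k₂ ≤ (H : ℤ) ^ (k₁ + k₂) := pow_le_pow_right₀ hH1 (by omega)
    have hkp : (0 : ℤ) ≤ (H : ℤ) ^ (k₁ + k₂) := by positivity
    push_cast at hmax
    by_cases hL : Lead d (arr d f)
    · right
      rw [Set.mem_iUnion₂]
      refine ⟨gk (arr d f) d, hGf.mem_toFinset.mpr hgm, hf, rfl, hL, x, y, hxy, ?_⟩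
      refine lt_of_le_of_lt ?_ hmax
      have : (C₁ : ℤ) * (H : ℤ) ^ k₁ ≤ (C₁ : ℤ) * (H : ℤ) ^ (k₁ + k₂) :=
        mul_le_mul_of_nonneg_left hk1 (Int.natCast_nonneg _)
      nlinarith [Int.natCast_nonneg M, Int.natCast_nonneg C₂]
    · left
      by_cases hs : gk (arr d f) d ∈ S
      · exact Or.inl ⟨hf, hs⟩
      · right
        have hs' : d ≤ (gk (arr d f) d).natDegree + 1 ∧
            Squarefree ((gk (arr d f) d).map (Int.castRingHom ℚ)) := by
          by_contra hcon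
          exact hs ⟨hgm.1, hgm.2, hcon⟩
        have hg0 : gk (arr d f) d ≠ 0 := by
          intro h0
          rw [h0, natDegree_zero] at hs'
          omega
        have hfd : f.totalDegree = d := by
          refine le_antisymm hf.1 ?_
          by_contra hcon
          apply hg0
          unfold gk
          refine Finset.sum_eq_zero fun j hj => ?_
          rw [mem_range] at hj
          have hz : arr d f (d - j) j = 0 := by
            unfold arr
            rw [if_pos (by omega)]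
            apply MvPolynomial.coeff_eq_zero_of_totalDegree_lt
            have hdeg : ∑ i ∈ (Finsupp.single (0 : Fin 2) (d - j) + Finsupp.single 1 j).support,
                (Finsupp.single (0 : Fin 2) (d - j) + Finsupp.single 1 j : Fin 2 →₀ ℕ) i = d := by
              have h5 : (Finsupp.single (0 : Fin 2) (d - j) + Finsupp.single 1 j).degree = d := by
                rw [Finsupp.degree_eq_sum, Fin.sum_univ_two]
                simp
                omega
              exact h5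
            rw [hdeg]
            omega
          rw [hz, monomial_zero_right]
        have hf0 : f ≠ 0 := by
          rintro rfl
          rw [MvPolynomial.totalDegree_zero] at hfd
          omega
        rcases aac_factor f hf0 x y hxy with hprod | hirr
        · exact ⟨hfd, hf.2, hprod⟩
        · exfalso
          have h5 := h₂ H hH f hfd hf.2 hirr hs'.1 hs'.2 (fun h => hL h) x y hxy
          have : (C₂ : ℤ) * (H : ℤ) ^ k₂ ≤ (C₂ : ℤ) * (H : ℤ) ^ (k₁ + k₂) :=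
            mul_le_mul_of_nonneg_left hk2 (Int.natCast_nonneg _)
          nlinarith [Int.natCast_nonneg M, Int.natCast_nonneg C₁]
  have hEf : ∀ g, (E g).Finite := fun g => (mbox_finite d H).subset (fun f hf => hf.1)
  have hEc : ∀ g, (E g).ncard ≤ C₁ * H ^ (3 * d - 3) := by
    intro g
    refine le_trans ?_ (h1a g)
    refine aac_transfer d H (fun f => gk (arr d f) d = g ∧ Lead d (arr d f) ∧
      ∃ a b : ℤ, MvPolynomial.eval ![a, b] f = 0 ∧ (C₁ : ℤ) * (H : ℤ) ^ k₁ < max |a| |b|)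
      (fun c => gk c d = g ∧ Lead d c ∧ ∃ a b : ℤ, ev d c a b = 0 ∧
        (C₁ : ℤ) * (H : ℤ) ^ k₁ < max |a| |b|) ?_
    rintro f hf ⟨hg, hL, a, b, h0, hm⟩
    refine ⟨hg, hL, a, b, ?_, hm⟩
    rw [← arr_eval d f hf.1]
    exact h0
  have hcu : (⋃ g ∈ hGf.toFinset, E g).ncard ≤ (2 * H + 1) ^ (d + 1) * (C₁ * H ^ (3 * d - 3)) := by
    refine (Finset.set_ncard_biUnion_le _ _).trans ?_
    refine (Finset.sum_le_card_nsmul _ _ (C₁ * H ^ (3 * d - 3)) (fun g _ => hEc g)).trans ?_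
    rw [smul_eq_mul]
    refine Nat.mul_le_mul_right _ ?_
    rw [← Set.ncard_eq_toFinset_card _ hGf]
    exact hGc
  have hcs : {f ∈ MBox d H | gk (arr d f) d ∈ S}.ncard ≤
      C₃ * H ^ (d - 1) * (2 * H + 1) ^ (d * (d + 1) / 2) := by
    refine (aac_transfer d H (fun f => gk (arr d f) d ∈ S) (fun c => gk c d ∈ S)
      (fun f _ h => h)).trans ?_
    exact (box_fiber d H S hSf).trans (Nat.mul_le_mul_right _ hSc)
  have hf1 : {f ∈ MBox d H | gk (arr d f) d ∈ S}.Finite :=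
    (mbox_finite d H).subset (fun f hf => hf.1)
  have hf2 : (⋃ g ∈ hGf.toFinset, E g).Finite :=
    Set.Finite.biUnion (Finset.finite_toSet _) (fun g _ => hEf g)
  have h3H : 2 * H + 1 ≤ 3 * H := by omega
  obtain ⟨e1, e2⟩ := aac_exps d hd
  have hA : (2 * H + 1) ^ (d + 1) * (C₁ * H ^ (3 * d - 3)) ≤
      3 ^ (d + 1) * C₁ * H ^ (4 * d - 2) := by
    calc (2 * H + 1) ^ (d + 1) * (C₁ * H ^ (3 * d - 3)) ≤
        (3 * H) ^ (d + 1) * (C₁ * H ^ (3 * d - 3)) := by gcongr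
      _ = 3 ^ (d + 1) * C₁ * H ^ (4 * d - 2) := by rw [e1, mul_pow, pow_add]; ring
  have hB : C₃ * H ^ (d - 1) * (2 * H + 1) ^ (d * (d + 1) / 2) ≤
      C₃ * 3 ^ (d * (d + 1) / 2) * H ^ ((d + 1) * (d + 2) / 2 - 2) := by
    calc C₃ * H ^ (d - 1) * (2 * H + 1) ^ (d * (d + 1) / 2) ≤
        C₃ * H ^ (d - 1) * (3 * H) ^ (d * (d + 1) / 2) := by gcongr
      _ = C₃ * 3 ^ (d * (d + 1) / 2) * H ^ ((d + 1) * (d + 2) / 2 - 2) := by
        rw [e2, mul_pow, pow_add]; ring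
  calc {f ∈ MBox d H | ∃ x y : ℤ, MvPolynomial.eval ![x, y] f = 0 ∧
      ((M + C₁ + C₂ : ℕ) : ℤ) * (H : ℤ) ^ (k₁ + k₂) < max |x| |y|}.ncard
      ≤ (({f ∈ MBox d H | gk (arr d f) d ∈ S} ∪ P) ∪ ⋃ g ∈ hGf.toFinset, E g).ncard :=
        Set.ncard_le_ncard hsub ((hf1.union hPf).union hf2)
    _ ≤ ({f ∈ MBox d H | gk (arr d f) d ∈ S} ∪ P).ncard + (⋃ g ∈ hGf.toFinset, E g).ncard :=
        Set.ncard_union_le _ _
    _ ≤ ({f ∈ MBox d H | gk (arr d f) d ∈ S}.ncard + P.ncard) + (⋃ g ∈ hGf.toFinset, E g).ncard :=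
        Nat.add_le_add_right (Set.ncard_union_le _ _) _
    _ ≤ (C₃ * 3 ^ (d * (d + 1) / 2) * H ^ ((d + 1) * (d + 2) / 2 - 2) +
          C₄ * H ^ ((d + 1) * (d + 2) / 2 - 2)) + 3 ^ (d + 1) * C₁ * H ^ (4 * d - 2) :=
        Nat.add_le_add (Nat.add_le_add (hcs.trans hB) hPc) (hcu.trans hA)
    _ ≤ M * (H ^ (4 * d - 2) + H ^ ((d + 1) * (d + 2) / 2 - 2)) := by
        rw [hM]
        generalize H ^ (4 * d - 2) = X
        generalize H ^ ((d + 1) * (d + 2) / 2 - 2) = Y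
        generalize 3 ^ (d + 1) * C₁ = p
        generalize C₃ * 3 ^ (d * (d + 1) / 2) = q
        nlinarith [Nat.zero_le (p * Y), Nat.zero_le (q * X), Nat.zero_le (C₄ * X)]
    _ ≤ (M + C₁ + C₂) * (H ^ (4 * d - 2) + H ^ ((d + 1) * (d + 2) / 2 - 2)) :=
        Nat.mul_le_mul_right _ (by omega)

end Pool.Agent.LW
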