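import Pool.Agent.LW.Defs

set_option autoImplicit false

namespace Pool.Agent.LW

open Polynomial Finset

theorem b_bound (d : ℕ) (hd : 1 ≤ d) : ∃ k : ℕ, ∀ H : ℕ, 2 ≤ H → ∀ c : ℕ → ℕ → ℤ, Ht d c H →
    (gk c d).natDegree = d → ∀ a b : ℤ, ev d c a b = 0 →
      |(b : ℝ)| ≤ (H : ℝ) ^ k * (|(a : ℝ)| + 1) := by
  refine ⟨(d + 1) * (d + 1) + 1, ?_⟩
  intro H hH c hHt hdeg a b h0
  have hH1 : (1 : ℝ) ≤ H := by exact_mod_cast (by omega : 1 ≤ H)
  set T : ℝ := |(a : ℝ)| + 1 with hT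
  have hT1 : 1 ≤ T := by have := abs_nonneg (a : ℝ); linarith
  have hT0 : 0 < T := by linarith
  have hHk : (1 : ℝ) ≤ (H : ℝ) ^ ((d + 1) * (d + 1) + 1) := one_le_pow₀ hH1
  by_cases hbT : |(b : ℝ)| ≤ T
  · nlinarith
  push Not at hbT
  -- the top coefficient
  have hc0 : c 0 d ≠ 0 := by
    intro h
    have h1 : (gk c d).coeff d = 0 := by
      unfold gk
      rw [finsetSum_coeff]
      refine Finset.sum_eq_zero (fun j hj => ?_)
      rw [coeff_monomial]
      split_ifs with hjd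
      · subst hjd; simpa using h
      · rfl
    have h2 : (gk c d).leadingCoeff = 0 := by rw [leadingCoeff, hdeg]; exact h1
    rw [leadingCoeff_eq_zero] at h2
    rw [h2, natDegree_zero] at hdeg
    omega
  have hc1 : (1 : ℝ) ≤ |(c 0 d : ℝ)| := by
    have : (1 : ℤ) ≤ |c 0 d| := Int.one_le_abs hc0
    exact_mod_cast this
  have hT2 : (T : ℝ) ≤ |(b : ℝ)| := hbT.le
  -- the other terms
  have key : |(b : ℝ)| ^ d ≤ ((d + 1) * (d + 1) : ℝ) * (H * (T * |(b : ℝ)| ^ (d - 1))) := by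
    have h1 : ∑ x ∈ (range (d + 1)).sigma (fun k => range (k + 1)),
        ((c (x.1 - x.2) x.2 : ℝ) * (a : ℝ) ^ (x.1 - x.2) * (b : ℝ) ^ x.2) = 0 := by
      rw [Finset.sum_sigma]
      have := congrArg (Int.cast : ℤ → ℝ) h0
      unfold ev at this
      push_cast at this
      exact this
    have hmem : (⟨d, d⟩ : (_ : ℕ) × ℕ) ∈ (range (d + 1)).sigma (fun k => range (k + 1)) := by
      rw [mem_sigma]; simp
    rw [← Finset.add_sum_erase _ _ hmem] at h1
    simp only [Nat.sub_self, pow_zero, mul_one] at h1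
    have h2 : |(c 0 d : ℝ) * (b : ℝ) ^ d| = |∑ x ∈ ((range (d + 1)).sigma (fun k => range (k + 1))).erase ⟨d, d⟩,
        ((c (x.1 - x.2) x.2 : ℝ) * (a : ℝ) ^ (x.1 - x.2) * (b : ℝ) ^ x.2)| := by
      rw [eq_neg_of_add_eq_zero_left h1, abs_neg]
    have h3 : |(b : ℝ)| ^ d ≤ |(c 0 d : ℝ) * (b : ℝ) ^ d| := by
      rw [abs_mul, abs_pow]
      have : 0 ≤ |(b : ℝ)| ^ d := by positivity
      nlinarith
    refine h3.trans (h2.le.trans ((Finset.abs_sum_le_sum_abs _ _).trans ?_))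
    have h4 : ∀ x ∈ ((range (d + 1)).sigma (fun k => range (k + 1))).erase ⟨d, d⟩,
        |((c (x.1 - x.2) x.2 : ℝ) * (a : ℝ) ^ (x.1 - x.2) * (b : ℝ) ^ x.2)| ≤
          H * (T * |(b : ℝ)| ^ (d - 1)) := by
      rintro ⟨k, j⟩ hx
      rw [mem_erase, mem_sigma, mem_range, mem_range] at hx
      obtain ⟨hne, hk, hj⟩ := hx
      simp only at hk hj ⊢
      have hkj : ¬ (k = d ∧ j = d) := by
        rintro ⟨rfl, rfl⟩; exact hne rfl
      rw [abs_mul, abs_mul, abs_pow, abs_pow, mul_assoc]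
      have hcb : |(c (k - j) j : ℝ)| ≤ H := by
        have := hHt (k - j) j (by omega)
        have h : ((|c (k - j) j| : ℤ) : ℝ) ≤ ((H : ℤ) : ℝ) := by exact_mod_cast this
        simpa using h
      refine mul_le_mul hcb ?_ (by positivity) (by positivity)
      have h5 : |(a : ℝ)| ^ (k - j) ≤ T ^ (k - j) :=
        pow_le_pow_left₀ (abs_nonneg _) (by rw [hT]; linarith) _
      have h6 : T ^ (k - j) * |(b : ℝ)| ^ j ≤ T * |(b : ℝ)| ^ (d - 1) := by
        have hb1 : (1 : ℝ) ≤ |(b : ℝ)| := hT1.trans hT2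
        rcases Nat.eq_zero_or_pos (k - j) with h0' | hpos
        · rw [h0', pow_zero, one_mul]
          have hj' : j ≤ d - 1 := by omega
          calc |(b : ℝ)| ^ j ≤ |(b : ℝ)| ^ (d - 1) := pow_le_pow_right₀ hb1 hj'
            _ ≤ T * |(b : ℝ)| ^ (d - 1) := by
              have : 0 ≤ |(b : ℝ)| ^ (d - 1) := by positivity
              nlinarith
        · obtain ⟨l, hl⟩ : ∃ l, k - j = l + 1 := ⟨k - j - 1, by omega⟩
          rw [hl, pow_succ]
          calc T ^ l * T * |(b : ℝ)| ^ j = T * (T ^ l * |(b : ℝ)| ^ j) := by ring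
            _ ≤ T * (|(b : ℝ)| ^ l * |(b : ℝ)| ^ j) := by gcongr
            _ = T * |(b : ℝ)| ^ (l + j) := by rw [pow_add]
            _ ≤ T * |(b : ℝ)| ^ (d - 1) := by
              have : l + j ≤ d - 1 := by omega
              gcongr
      calc |(a : ℝ)| ^ (k - j) * |(b : ℝ)| ^ j ≤ T ^ (k - j) * |(b : ℝ)| ^ j := by gcongr
        _ ≤ _ := h6
    refine (Finset.sum_le_sum h4).trans ?_
    rw [Finset.sum_const, nsmul_eq_mul]
    have h7 : ((((range (d + 1)).sigma (fun k => range (k + 1))).erase ⟨d, d⟩).card : ℝ) ≤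
        ((d + 1) * (d + 1) : ℝ) := by
      have h8 : (((range (d + 1)).sigma (fun k => range (k + 1))).erase ⟨d, d⟩).card ≤
          (d + 1) * (d + 1) := by
        refine (Finset.card_erase_le).trans ?_
        rw [Finset.card_sigma]
        calc ∑ k ∈ range (d + 1), (range (k + 1)).card ≤ ∑ k ∈ range (d + 1), (d + 1) := by
              refine Finset.sum_le_sum (fun k hk => ?_)
              rw [mem_range] at hk
              rw [card_range]; omega
          _ = (d + 1) * (d + 1) := by simp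
      exact_mod_cast h8
    exact mul_le_mul_of_nonneg_right h7 (by positivity)
  have hb0 : 0 < |(b : ℝ)| := by linarith
  have h9 : |(b : ℝ)| ^ d = |(b : ℝ)| * |(b : ℝ)| ^ (d - 1) := by
    rw [← pow_succ']; congr 1; omega
  rw [h9] at key
  have h10 : |(b : ℝ)| ≤ ((d + 1) * (d + 1) : ℝ) * (H * T) := by
    have hpos : 0 < |(b : ℝ)| ^ (d - 1) := by positivity
    have : |(b : ℝ)| * |(b : ℝ)| ^ (d - 1) ≤ (((d + 1) * (d + 1) : ℝ) * (H * T)) * |(b : ℝ)| ^ (d - 1) := by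
      calc _ ≤ _ := key
        _ = _ := by ring
    exact le_of_mul_le_mul_right this hpos
  have h11 : ((d + 1) * (d + 1) : ℝ) ≤ (H : ℝ) ^ ((d + 1) * (d + 1)) := by
    have h12 : (d + 1) * (d + 1) < 2 ^ ((d + 1) * (d + 1)) := Nat.lt_two_pow_self
    have h13 : 2 ^ ((d + 1) * (d + 1)) ≤ H ^ ((d + 1) * (d + 1)) := Nat.pow_le_pow_left hH _
    exact_mod_cast h12.le.trans h13
  calc |(b : ℝ)| ≤ ((d + 1) * (d + 1) : ℝ) * (H * T) := h10
    _ ≤ (H : ℝ) ^ ((d + 1) * (d + 1)) * (H * T) := by gcongr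
    _ = (H : ℝ) ^ ((d + 1) * (d + 1) + 1) * T := by rw [pow_succ]; ring

end Pool.Agent.LW
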