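import Pool.Agent.LW.Defs

set_option autoImplicit false

namespace Pool.Agent.LW

open Polynomial Finset

/-- arrays supported in a finite set `I` with entries at most `H` -/
def BI (I : Finset (ℕ × ℕ)) (H : ℕ) : Set (ℕ → ℕ → ℤ) :=
  {c | (∀ i j, (i, j) ∉ I → c i j = 0) ∧ ∀ i j, (i, j) ∈ I → |c i j| ≤ (H : ℤ)}

/-- arrays as functions on the support -/
noncomputable def BIequiv (I : Finset (ℕ × ℕ)) (H : ℕ) :
    BI I H ≃ (I → (Finset.Icc (-(H : ℤ)) H)) where
  toFun c := fun p => ⟨c.1 p.1.1 p.1.2, by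
    have := c.2.2 p.1.1 p.1.2 p.2
    rw [Finset.mem_Icc]
    exact abs_le.mp this⟩
  invFun u := ⟨fun i j => if h : (i, j) ∈ I then (u ⟨(i, j), h⟩ : ℤ) else 0, by
    constructor
    · intro i j h
      simp [h]
    · intro i j h
      have := (u ⟨(i, j), h⟩).2
      rw [Finset.mem_Icc] at this
      simp only [h, dif_pos]
      exact abs_le.mpr this⟩
  left_inv c := by
    apply Subtype.ext
    funext i j
    by_cases h : (i, j) ∈ I
    · simp [h]
    · simp [h, c.2.1 i j h]
  right_inv u := by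
    funext p
    apply Subtype.ext
    have : ((p : ℕ × ℕ).1, (p : ℕ × ℕ).2) ∈ I := p.2
    simp

lemma BI_finite (I : Finset (ℕ × ℕ)) (H : ℕ) : (BI I H).Finite := by
  have : Finite (BI I H) := Finite.of_equiv _ (BIequiv I H).symm
  exact Set.toFinite _

lemma BI_ncard (I : Finset (ℕ × ℕ)) (H : ℕ) : (BI I H).ncard = (2 * H + 1) ^ I.card := by
  rw [← Nat.card_coe_set_eq, Nat.card_congr (BIequiv I H), Nat.card_eq_fintype_card,
    Fintype.card_fun, Fintype.card_coe, Fintype.card_coe, Int.card_Icc]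
  congr 1
  omega

/-- pairs with sum less than `m` -/
def TT (m : ℕ) : Finset (ℕ × ℕ) := (range m).biUnion (fun n => Finset.HasAntidiagonal.antidiagonal n)

lemma mem_TT (m i j : ℕ) : (i, j) ∈ TT m ↔ i + j < m := by
  simp [TT]

lemma card_TT (m : ℕ) : (TT m).card = (m + 1) * m / 2 := by
  unfold TT
  rw [Finset.card_biUnion]
  · have h := Finset.sum_range_id (m + 1)
    rw [Finset.sum_range_succ'] at h
    simpa using h
  · intro x _ y _ hxy
    change Disjoint (Finset.HasAntidiagonal.antidiagonal x) (Finset.HasAntidiagonal.antidiagonal y)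
    rw [Finset.disjoint_left]
    intro p hp hp'
    rw [Finset.HasAntidiagonal.mem_antidiagonal] at hp hp'
    exact hxy (hp.symm.trans hp')

lemma box_eq (d H : ℕ) : Box d H = BI (TT (d + 1)) H := by
  ext c
  unfold Box BI Ht
  simp only [Set.mem_ofPred_eq, mem_TT]
  constructor
  · rintro ⟨h1, h2⟩
    exact ⟨fun i j h => h1 i j (by omega), fun i j h => h2 i j (by omega)⟩
  · rintro ⟨h1, h2⟩
    exact ⟨fun i j h => h1 i j (by omega), fun i j h => h2 i j (by omega)⟩

theorem box_finite (d H : ℕ) : (Box d H).Finite := by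
  rw [box_eq]
  exact BI_finite _ _

theorem box_ncard (d H : ℕ) : (Box d H).ncard = (2 * H + 1) ^ ((d + 1) * (d + 2) / 2) := by
  rw [box_eq, BI_ncard, card_TT]
  congr 2
  ring

lemma gk_coeff' (c : ℕ → ℕ → ℤ) (k j : ℕ) (hj : j ≤ k) : (gk c k).coeff j = c (k - j) j := by
  unfold gk
  rw [finsetSum_coeff]
  simp only [coeff_monomial]
  rw [Finset.sum_ite_eq' (range (k + 1)) j (fun x => c (k - x) x)]
  rw [if_pos (by rw [mem_range]; omega)]

theorem box_fiber (d H : ℕ) (S : Set ℤ[X]) (hS : S.Finite) :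
    {c ∈ Box d H | gk c d ∈ S}.ncard ≤ S.ncard * (2 * H + 1) ^ (d * (d + 1) / 2) := by
  classical
  have h1 : {c ∈ Box d H | gk c d ∈ S}.ncard ≤ (S ×ˢ BI (TT d) H).ncard := by
    refine Set.ncard_le_ncard_of_injOn
      (fun c => (gk c d, fun i j => if i + j < d then c i j else 0)) ?_ ?_
      (hS.prod (BI_finite _ _))
    · rintro c ⟨hc, hcS⟩
      refine ⟨hcS, ?_, ?_⟩
      · intro i j h
        rw [mem_TT] at h
        simp [h]
      · intro i j h
        rw [mem_TT] at h
        simp only [h, if_true]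
        exact hc.2 i j h.le
    · rintro c ⟨hc, _⟩ c' ⟨hc', _⟩ h
      simp only [Prod.mk.injEq] at h
      obtain ⟨h2, h3⟩ := h
      funext i j
      rcases lt_trichotomy (i + j) d with h4 | h4 | h4
      · have h5 := congrFun (congrFun h3 i) j
        simpa [h4] using h5
      · have h5 : (gk c d).coeff j = (gk c' d).coeff j := by rw [h2]
        rw [gk_coeff' _ _ _ (by omega), gk_coeff' _ _ _ (by omega)] at h5
        have h6 : d - j = i := by omega
        rwa [h6] at h5
      · rw [hc.1 i j h4, hc'.1 i j h4]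
  refine h1.trans ?_
  rw [Set.ncard_prod, BI_ncard, card_TT]
  have h7 : (d + 1) * d = d * (d + 1) := by ring
  rw [h7]

end Pool.Agent.LW
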