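import Pool.Agent.LW.Defs

set_option autoImplicit false

namespace Pool.Agent.LW

open Polynomial Finset

theorem nearc_split {g : ℂ[X]} {z : ℂ} (hz : z ∈ g.roots) :
    g = C g.leadingCoeff * ((X - C z) * ((g.roots.erase z).map (fun a => X - C a)).prod) := by
  have h1 : g.roots.card = g.natDegree := (IsAlgClosed.splits g).natDegree_eq_card_roots.symm
  have h2 := C_leadingCoeff_mul_prod_multiset_X_sub_C h1
  have h3 : (g.roots.map fun a => X - C a).prod =
      (X - C z) * ((g.roots.erase z).map (fun a => X - C a)).prod := by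
    rw [← Multiset.prod_cons, ← Multiset.map_cons (fun a => X - C a), Multiset.cons_erase hz]
  rw [← h3, h2]

theorem nearc_eval (s : Multiset ℂ) (t : ℂ) :
    ((s.map (fun a => X - C a)).prod).eval t = (s.map (fun a => t - a)).prod := by
  rw [eval_multiset_prod, Multiset.map_map]
  congr 1
  refine Multiset.map_congr rfl fun a _ => ?_
  simp

theorem nearc_deriv {g : ℂ[X]} {z : ℂ} (hz : z ∈ g.roots) :
    (derivative g).eval z = g.leadingCoeff * ((g.roots.erase z).map (fun a => z - a)).prod := by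
  conv_lhs => rw [nearc_split hz]
  rw [derivative_C_mul, derivative_mul]
  simp only [derivative_sub, derivative_X, derivative_C, sub_zero, one_mul, eval_mul, eval_C,
    eval_add, eval_sub, eval_X, sub_self, zero_mul, add_zero, nearc_eval]

theorem nearc_prod_le (s : Multiset ℂ) (z t : ℂ) (h : ∀ a ∈ s, ‖t - z‖ ≤ ‖t - a‖) :
    ‖(s.map (fun a => z - a)).prod‖ ≤ 2 ^ s.card * ‖(s.map (fun a => t - a)).prod‖ := by
  induction s using Multiset.induction_on with
  | empty => simp
  | cons a s ih =>
    rw [Multiset.map_cons, Multiset.prod_cons, Multiset.map_cons, Multiset.prod_cons, norm_mul,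
      norm_mul, Multiset.card_cons, pow_succ]
    have h1 := ih fun b hb => h b (Multiset.mem_cons_of_mem hb)
    have h2 := h a (Multiset.mem_cons_self a s)
    have h3 : ‖z - a‖ ≤ 2 * ‖t - a‖ := by
      have h4 : z - a = -(t - z) + (t - a) := by ring
      have h5 := norm_add_le (-(t - z)) (t - a)
      rw [norm_neg] at h5
      rw [h4]
      linarith
    calc ‖z - a‖ * ‖(s.map (fun a => z - a)).prod‖
        ≤ (2 * ‖t - a‖) * (2 ^ s.card * ‖(s.map (fun a => t - a)).prod‖) :=
          mul_le_mul h3 h1 (norm_nonneg _) (by positivity)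
      _ = 2 ^ s.card * 2 * (‖t - a‖ * ‖(s.map (fun a => t - a)).prod‖) := by ring

theorem nearc_prod_bound (s : Multiset ℂ) (z : ℂ) {B : ℝ} (hB : 0 ≤ B)
    (h : ∀ a ∈ s, ‖z - a‖ ≤ B) : ‖(s.map (fun a => z - a)).prod‖ ≤ B ^ s.card := by
  induction s using Multiset.induction_on with
  | empty => simp
  | cons a s ih =>
    rw [Multiset.map_cons, Multiset.prod_cons, norm_mul, Multiset.card_cons, pow_succ']
    exact mul_le_mul (h a (Multiset.mem_cons_self a s))
      (ih fun b hb => h b (Multiset.mem_cons_of_mem hb)) (norm_nonneg _) hB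

/-- the root nearest to `t` -/
theorem nearest_root (g : ℂ[X]) (hg : 1 ≤ g.natDegree) (t : ℂ) : ∃ z : ℂ, g.eval z = 0 ∧
    (∀ w : ℂ, g.eval w = 0 → ‖t - z‖ ≤ ‖t - w‖) ∧
    ‖t - z‖ * ‖(derivative g).eval z‖ ≤ 2 ^ (g.natDegree - 1) * ‖g.eval t‖ := by
  have hg0 : g ≠ 0 := by
    rintro rfl
    simp at hg
  have h1 : g.roots.card = g.natDegree := (IsAlgClosed.splits g).natDegree_eq_card_roots.symm
  have hne : g.roots.toFinset.Nonempty := by
    have h2 : 0 < g.roots.card := by omega
    obtain ⟨a, ha⟩ := Multiset.card_pos_iff_exists_mem.1 h2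
    exact ⟨a, Multiset.mem_toFinset.2 ha⟩
  obtain ⟨z, hz, hmin⟩ := g.roots.toFinset.exists_min_image (fun w => ‖t - w‖) hne
  have hz' : z ∈ g.roots := Multiset.mem_toFinset.1 hz
  refine ⟨z, (mem_roots hg0).1 hz', fun w hw => hmin w (Multiset.mem_toFinset.2
    ((mem_roots hg0).2 hw)), ?_⟩
  have h3 := nearc_prod_le (g.roots.erase z) z t fun a ha =>
    hmin a (Multiset.mem_toFinset.2 (Multiset.mem_of_mem_erase ha))
  have h4 : (g.roots.erase z).card = g.natDegree - 1 := by
    rw [Multiset.card_erase_of_mem hz', h1]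
    rfl
  rw [h4] at h3
  have h5 : g.eval t = g.leadingCoeff * ((t - z) *
      ((g.roots.erase z).map (fun a => t - a)).prod) := by
    conv_lhs => rw [nearc_split hz']
    rw [eval_mul, eval_mul, nearc_eval]
    simp
  rw [nearc_deriv hz', h5, norm_mul, norm_mul, norm_mul]
  have h6 := mul_le_mul_of_nonneg_left h3
    (show 0 ≤ ‖t - z‖ * ‖g.leadingCoeff‖ by positivity)
  calc ‖t - z‖ * (‖g.leadingCoeff‖ * ‖((g.roots.erase z).map (fun a => z - a)).prod‖)
      = ‖t - z‖ * ‖g.leadingCoeff‖ * ‖((g.roots.erase z).map (fun a => z - a)).prod‖ := by ring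
    _ ≤ _ := h6
    _ = _ := by ring

/-- the separation of the roots -/
theorem root_sep (g : ℂ[X]) (hg : 1 ≤ g.natDegree) (R : ℝ) (hR : ∀ w, g.eval w = 0 → ‖w‖ ≤ R)
    (z w : ℂ) (hz : g.eval z = 0) (hw : g.eval w = 0) (hzw : z ≠ w) :
    ‖(derivative g).eval z‖ ≤ ‖g.leadingCoeff‖ * ‖z - w‖ * (2 * R) ^ (g.natDegree - 2) := by
  have hg0 : g ≠ 0 := by
    rintro rfl
    simp at hg
  have h1 : g.roots.card = g.natDegree := (IsAlgClosed.splits g).natDegree_eq_card_roots.symm
  have hz' : z ∈ g.roots := (mem_roots hg0).2 hz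
  have hw' : w ∈ g.roots.erase z := (Multiset.mem_erase_of_ne (Ne.symm hzw)).2
    ((mem_roots hg0).2 hw)
  have hR0 : 0 ≤ R := (norm_nonneg z).trans (hR z hz)
  have h2 : ((g.roots.erase z).map (fun a => z - a)).prod =
      (z - w) * (((g.roots.erase z).erase w).map (fun a => z - a)).prod := by
    rw [← Multiset.prod_cons, ← Multiset.map_cons (fun a => z - a), Multiset.cons_erase hw']
  have h3 : ((g.roots.erase z).erase w).card = g.natDegree - 2 := by
    rw [Multiset.card_erase_of_mem hw', Multiset.card_erase_of_mem hz', h1]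
    simp only [Nat.pred_eq_sub_one]
    omega
  have h4 := nearc_prod_bound ((g.roots.erase z).erase w) z (B := 2 * R) (by positivity)
    (fun a ha => by
      have h5 : a ∈ g.roots := Multiset.mem_of_mem_erase (Multiset.mem_of_mem_erase ha)
      have h6 := hR a ((mem_roots hg0).1 h5)
      have h7 := hR z hz
      have h8 := norm_sub_le z a
      linarith)
  rw [h3] at h4
  rw [nearc_deriv hz', h2, norm_mul, norm_mul, ← mul_assoc]
  exact mul_le_mul_of_nonneg_left h4 (by positivity)

end Pool.Agent.LW
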