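import Pool.Agent.LW.ROOT
import Pool.Agent.LW.NEARC

set_option autoImplicit false

namespace Pool.Agent.LW

open Polynomial Finset

lemma near_aeval_gk {A : Type*} [CommRing A] (c : ℕ → ℕ → ℤ) (k : ℕ) (t : A) :
    aeval t (gk c k) = ∑ j ∈ range (k + 1), (c (k - j) j : A) * t ^ j := by
  unfold gk
  rw [map_sum]
  refine Finset.sum_congr rfl (fun j _ => ?_)
  rw [aeval_monomial]
  simp

lemma near_ev_div (d : ℕ) (c : ℕ → ℕ → ℤ) (a b : ℤ) (ha : a ≠ 0) :
    (ev d c a b : ℝ) = ∑ k ∈ range (d + 1), (a : ℝ) ^ k * aeval ((b : ℝ) / a) (gk c k) := by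
  have haR : (a : ℝ) ≠ 0 := by exact_mod_cast ha
  unfold ev
  push_cast
  refine Finset.sum_congr rfl (fun k _ => ?_)
  rw [near_aeval_gk, Finset.mul_sum]
  refine Finset.sum_congr rfl (fun j hj => ?_)
  have hj' := Finset.mem_range.mp hj
  have h1 : (a : ℝ) ^ k = (a : ℝ) ^ (k - j) * (a : ℝ) ^ j := by
    rw [← pow_add]
    congr 1
    omega
  rw [h1, div_pow]
  field_simp

lemma near_gk_coeff_le (d : ℕ) (c : ℕ → ℕ → ℤ) (H : ℕ) (hc : Ht d c H) (k : ℕ) (hk : k ≤ d) (n : ℕ) :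
    |(gk c k).coeff n| ≤ (H : ℤ) := by
  unfold gk
  rw [finsetSum_coeff]
  by_cases hn : n ∈ range (k + 1)
  · rw [Finset.sum_eq_single n]
    · rw [coeff_monomial, if_pos rfl]
      have := Finset.mem_range.mp hn
      exact hc _ _ (by omega)
    · intro i _ hi
      rw [coeff_monomial, if_neg hi]
    · intro h
      exact absurd hn h
  · rw [Finset.sum_eq_zero]
    · simp
    · intro i hi
      rw [coeff_monomial, if_neg]
      rintro rfl
      exact hn hi

lemma near_gk_abs_le (d : ℕ) (c : ℕ → ℕ → ℤ) (H : ℕ) (hc : Ht d c H) (k : ℕ) (hk : k ≤ d) (t B : ℝ)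
    (hB : 1 ≤ B) (ht : |t| ≤ B) : |aeval t (gk c k)| ≤ (d + 1) * (H * B ^ k) := by
  have hH0 : (0 : ℝ) ≤ H := Nat.cast_nonneg _
  rw [near_aeval_gk]
  refine (Finset.abs_sum_le_sum_abs _ _).trans ?_
  calc ∑ j ∈ range (k + 1), |(c (k - j) j : ℝ) * t ^ j|
      ≤ ∑ j ∈ range (k + 1), (H : ℝ) * B ^ k := by
        refine Finset.sum_le_sum (fun j hj => ?_)
        have hj' := Finset.mem_range.mp hj
        rw [abs_mul, abs_pow]
        refine mul_le_mul ?_ ?_ (by positivity) hH0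
        · have := hc (k - j) j (by omega)
          exact_mod_cast this
        · exact (pow_le_pow_left₀ (abs_nonneg _) ht j).trans (pow_le_pow_right₀ hB (by omega))
    _ = (k + 1 : ℝ) * (H * B ^ k) := by
        rw [Finset.sum_const, nsmul_eq_mul, Finset.card_range]
        push_cast
        rfl
    _ ≤ _ := by
        have : (k : ℝ) ≤ d := by exact_mod_cast hk
        gcongr

/-- the slope of a zero is bounded -/
lemma near_slope_bound (d : ℕ) (hd : 1 ≤ d) (c : ℕ → ℕ → ℤ) (H : ℕ) (hH : 1 ≤ H) (hc : Ht d c H)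
    (h0 : c 0 d ≠ 0) (a b : ℤ) (ha : a ≠ 0) (hz : ev d c a b = 0) :
    |(b : ℝ) / a| ≤ ((d + 1 : ℕ) : ℝ) ^ 2 * H := by
  set t : ℝ := (b : ℝ) / a with ht
  have hHR : (1 : ℝ) ≤ H := by exact_mod_cast hH
  have hdR : (1 : ℝ) ≤ d := by exact_mod_cast hd
  have haR : (1 : ℝ) ≤ |(a : ℝ)| := by exact_mod_cast Int.one_le_abs ha
  have haR0 : (a : ℝ) ≠ 0 := by exact_mod_cast ha
  have hcR : (1 : ℝ) ≤ |(c 0 d : ℝ)| := by exact_mod_cast Int.one_le_abs h0
  by_contra hcon
  push Not at hcon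
  have hbig : (1 : ℝ) ≤ ((d + 1 : ℕ) : ℝ) ^ 2 * H := by
    have : (1 : ℝ) ≤ ((d + 1 : ℕ) : ℝ) := by push_cast; linarith
    exact one_le_mul_of_one_le_of_one_le (one_le_pow₀ this) hHR
  have ht1 : 1 ≤ |t| := hbig.trans hcon.le
  have h1 : (ev d c a b : ℝ) = 0 := by exact_mod_cast hz
  rw [near_ev_div d c a b ha, Finset.sum_range_succ, near_aeval_gk c d, Finset.sum_range_succ,
    Nat.sub_self] at h1
  rw [← ht] at h1
  -- the leading term
  have h2 : (c 0 d : ℝ) * t ^ d * (a : ℝ) ^ d = -(∑ k ∈ range d, (a : ℝ) ^ k * aeval t (gk c k))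
      - (a : ℝ) ^ d * ∑ j ∈ range d, (c (d - j) j : ℝ) * t ^ j := by
    linarith
  have h3 : |t| ^ d * |(a : ℝ)| ^ d ≤ d * (|(a : ℝ)| ^ d * ((d + 1) * (H * |t| ^ (d - 1))))
      + |(a : ℝ)| ^ d * (d * (H * |t| ^ (d - 1))) := by
    calc |t| ^ d * |(a : ℝ)| ^ d ≤ |(c 0 d : ℝ)| * (|t| ^ d * |(a : ℝ)| ^ d) :=
          le_mul_of_one_le_left (by positivity) hcR
      _ = |(c 0 d : ℝ) * t ^ d * (a : ℝ) ^ d| := by
          rw [abs_mul, abs_mul, abs_pow, abs_pow]; ring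
      _ = |(-(∑ k ∈ range d, (a : ℝ) ^ k * aeval t (gk c k))
            - (a : ℝ) ^ d * ∑ j ∈ range d, (c (d - j) j : ℝ) * t ^ j)| := by rw [h2]
      _ ≤ |∑ k ∈ range d, (a : ℝ) ^ k * aeval t (gk c k)|
            + |(a : ℝ) ^ d * ∑ j ∈ range d, (c (d - j) j : ℝ) * t ^ j| := by
          refine (abs_sub _ _).trans ?_
          rw [abs_neg]
      _ ≤ _ := by
          refine add_le_add ?_ ?_
          · refine (Finset.abs_sum_le_sum_abs _ _).trans ?_
            calc ∑ k ∈ range d, |(a : ℝ) ^ k * aeval t (gk c k)|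
                ≤ ∑ k ∈ range d, |(a : ℝ)| ^ d * ((d + 1) * (H * |t| ^ (d - 1))) := by
                  refine Finset.sum_le_sum (fun k hk => ?_)
                  have hk' := Finset.mem_range.mp hk
                  rw [abs_mul, abs_pow]
                  refine mul_le_mul (pow_le_pow_right₀ haR (by omega)) ?_ (abs_nonneg _)
                    (by positivity)
                  refine (near_gk_abs_le d c H hc k (by omega) t |t| ht1 le_rfl).trans ?_
                  have : |t| ^ k ≤ |t| ^ (d - 1) := pow_le_pow_right₀ ht1 (by omega)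
                  gcongr
              _ = _ := by
                  rw [Finset.sum_const, nsmul_eq_mul, Finset.card_range]
          · rw [abs_mul, abs_pow]
            refine mul_le_mul_of_nonneg_left ?_ (by positivity)
            refine (Finset.abs_sum_le_sum_abs _ _).trans ?_
            calc ∑ j ∈ range d, |(c (d - j) j : ℝ) * t ^ j|
                ≤ ∑ j ∈ range d, (H : ℝ) * |t| ^ (d - 1) := by
                  refine Finset.sum_le_sum (fun j hj => ?_)
                  have hj' := Finset.mem_range.mp hj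
                  rw [abs_mul, abs_pow]
                  refine mul_le_mul ?_ (pow_le_pow_right₀ ht1 (by omega)) (by positivity)
                    (by positivity)
                  have := hc (d - j) j (by omega)
                  exact_mod_cast this
              _ = _ := by
                  rw [Finset.sum_const, nsmul_eq_mul, Finset.card_range]
  have hA0 : 0 < |(a : ℝ)| ^ d := by positivity
  have hT0 : 0 < |t| ^ (d - 1) := by positivity
  have h4 : |t| ^ d = |t| * |t| ^ (d - 1) := by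
    rw [← pow_succ']
    congr 1
    omega
  rw [h4] at h3
  have h5 : |t| * (|t| ^ (d - 1) * |(a : ℝ)| ^ d)
      ≤ (d * ((d + 1) * H) + d * H) * (|t| ^ (d - 1) * |(a : ℝ)| ^ d) := by
    calc _ = |t| * |t| ^ (d - 1) * |(a : ℝ)| ^ d := by ring
      _ ≤ _ := h3
      _ = _ := by ring
  have h6 := le_of_mul_le_mul_right h5 (by positivity)
  have h7 : ((d : ℝ) * ((d + 1) * H) + d * H) ≤ ((d + 1 : ℕ) : ℝ) ^ 2 * H := by
    push_cast
    nlinarith
  linarith

theorem near (d : ℕ) (hd : 2 ≤ d) : ∃ k K : ℕ, ∀ H : ℕ, 2 ≤ H → ∀ c : ℕ → ℕ → ℤ, Ht d c H →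
    Lead d c → ∀ a b : ℤ, ev d c a b = 0 → (H : ℝ) ^ K ≤ |(a : ℝ)| →
      ∃ τ : ℝ, aeval τ (gk c d) = 0 ∧ |(b : ℝ) - τ * a| ≤ (H : ℝ) ^ k := by
  have hd1 : 1 ≤ d := by omega
  obtain ⟨K₁, hK₁⟩ := gp_lower d hd1
  -- exponents
  set k₁ := (2 * d + 3) * d + (2 * d + 3) with hk₁
  set k₂ := K₁ + (d + k₁) with hk₂
  set K := K₁ + (1 + ((1 + k₂) + 3 * (d - 2))) + 1 with hK
  refine ⟨k₂, K, ?_⟩
  intro H hH c hHt hL a b hz hbig
  have hHR : (2 : ℝ) ≤ H := by exact_mod_cast hH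
  have hH1 : (1 : ℝ) ≤ H := by linarith
  have hH0 : (0 : ℝ) < H := by linarith
  have hpos : ∀ n : ℕ, (0 : ℝ) < (H : ℝ) ^ n := fun n => by positivity
  have hone : ∀ n : ℕ, (1 : ℝ) ≤ (H : ℝ) ^ n := fun n => one_le_pow₀ hH1
  have ha0R : (0 : ℝ) < |(a : ℝ)| := (hpos K).trans_le hbig
  have ha : a ≠ 0 := by
    rintro rfl
    simp at ha0R
  have haR : (1 : ℝ) ≤ |(a : ℝ)| := by exact_mod_cast Int.one_le_abs ha
  have haR0 : (a : ℝ) ≠ 0 := by exact_mod_cast ha
  have hdH : ((d + 1 : ℕ) : ℝ) ≤ (H : ℝ) ^ (d + 1) := by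
    have h3 : (d + 1) ≤ 2 ^ (d + 1) := (Nat.lt_two_pow_self).le
    calc ((d + 1 : ℕ) : ℝ) ≤ ((2 ^ (d + 1) : ℕ) : ℝ) := by exact_mod_cast h3
      _ = (2 : ℝ) ^ (d + 1) := by push_cast; rfl
      _ ≤ _ := pow_le_pow_left₀ (by norm_num) hHR _
  have hc0 : c 0 d ≠ 0 := by
    intro h0
    have h1 : (gk c d).coeff d = 0 := by
      unfold gk
      rw [finsetSum_coeff, Finset.sum_eq_single d]
      · rw [coeff_monomial, if_pos rfl, Nat.sub_self, h0]
      · intro i _ hi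
        rw [coeff_monomial, if_neg hi]
      · intro h
        exact absurd (Finset.mem_range.mpr (by omega)) h
    have h2 : (gk c d).leadingCoeff = 0 := by
      unfold leadingCoeff
      rw [hL.1, h1]
    rw [leadingCoeff_eq_zero] at h2
    have h3 := hL.1
    rw [h2, natDegree_zero] at h3
    omega
  set t : ℝ := (b : ℝ) / a with ht
  set B : ℝ := (H : ℝ) ^ (2 * d + 3) with hB
  have hB1 : 1 ≤ B := hone _
  have htB : |t| ≤ B := by
    refine (near_slope_bound d hd1 c H (by omega) hHt hc0 a b ha hz).trans ?_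
    calc ((d + 1 : ℕ) : ℝ) ^ 2 * H ≤ ((H : ℝ) ^ (d + 1)) ^ 2 * H := by gcongr
      _ = B := by rw [hB, ← pow_mul, ← pow_succ]; congr 1; ring
  -- the value of the leading form
  have h1 : (ev d c a b : ℝ) = 0 := by exact_mod_cast hz
  rw [near_ev_div d c a b ha, Finset.sum_range_succ, ← ht] at h1
  have h2 : |aeval t (gk c d)| * |(a : ℝ)| ≤ (H : ℝ) ^ k₁ := by
    have h3 : (a : ℝ) ^ d * aeval t (gk c d) = -∑ k ∈ range d, (a : ℝ) ^ k * aeval t (gk c k) := by
      linarith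
    have h4 : |(a : ℝ)| ^ d * |aeval t (gk c d)| ≤
        |(a : ℝ)| ^ (d - 1) * ((d + 1 : ℕ) * (((d + 1 : ℕ) : ℝ) * (H * B ^ d))) := by
      calc |(a : ℝ)| ^ d * |aeval t (gk c d)| = |(a : ℝ) ^ d * aeval t (gk c d)| := by
            rw [abs_mul, abs_pow]
        _ = |∑ k ∈ range d, (a : ℝ) ^ k * aeval t (gk c k)| := by rw [h3, abs_neg]
        _ ≤ ∑ k ∈ range d, |(a : ℝ) ^ k * aeval t (gk c k)| := Finset.abs_sum_le_sum_abs _ _
        _ ≤ ∑ k ∈ range d, |(a : ℝ)| ^ (d - 1) * (((d + 1 : ℕ) : ℝ) * (H * B ^ d)) := by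
            refine Finset.sum_le_sum (fun k hk => ?_)
            have hk' := Finset.mem_range.mp hk
            rw [abs_mul, abs_pow]
            refine mul_le_mul (pow_le_pow_right₀ haR (by omega)) ?_ (abs_nonneg _)
              (by positivity)
            refine (near_gk_abs_le d c H hHt k (by omega) t B hB1 htB).trans ?_
            have h5 : B ^ k ≤ B ^ d := pow_le_pow_right₀ hB1 (by omega)
            push_cast
            gcongr
        _ = (d : ℝ) * (|(a : ℝ)| ^ (d - 1) * (((d + 1 : ℕ) : ℝ) * (H * B ^ d))) := by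
            rw [Finset.sum_const, nsmul_eq_mul, Finset.card_range]
        _ ≤ ((d + 1 : ℕ) : ℝ) * (|(a : ℝ)| ^ (d - 1) * (((d + 1 : ℕ) : ℝ) * (H * B ^ d))) := by
            refine mul_le_mul_of_nonneg_right ?_ (by positivity)
            push_cast
            linarith
        _ = _ := by ring
    have h5 : |(a : ℝ)| ^ d = |(a : ℝ)| ^ (d - 1) * |(a : ℝ)| := by
      rw [← pow_succ]
      congr 1
      omega
    rw [h5, mul_assoc] at h4
    have h6 := le_of_mul_le_mul_left h4 (by positivity)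
    rw [mul_comm] at h6
    refine h6.trans ?_
    calc ((d + 1 : ℕ) : ℝ) * (((d + 1 : ℕ) : ℝ) * (H * B ^ d))
        ≤ (H : ℝ) ^ (d + 1) * ((H : ℝ) ^ (d + 1) * (H * B ^ d)) := by gcongr
      _ = (H : ℝ) ^ k₁ := by
          rw [hB, ← pow_mul, ← pow_succ', ← pow_add, ← pow_add, hk₁]
          congr 1
          ring
  -- the nearest root
  have hinj : Function.Injective (Int.castRingHom ℂ) := Int.cast_injective
  set g := (gk c d).map (Int.castRingHom ℂ) with hg
  have hgd : g.natDegree = d := by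
    rw [hg, natDegree_map_eq_of_injective hinj]
    exact hL.1
  have hev : ∀ (p : ℤ[X]) (z : ℂ), (p.map (Int.castRingHom ℂ)).eval z = aeval z p := by
    intro p z
    rw [eval_map]
    rfl
  have hgne : gk c d ≠ 0 := by
    intro h0
    have := hL.1
    rw [h0, natDegree_zero] at this
    omega
  have hcf := near_gk_coeff_le d c H hHt d le_rfl
  obtain ⟨z, hz0, hzmin, hzb⟩ := nearest_root g (by omega) (t : ℂ)
  rw [hgd, hg, derivative_map, hev, hev] at hzb
  rw [hg, hev] at hz0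
  have hgt : ‖aeval (t : ℂ) (gk c d)‖ = |aeval t (gk c d)| := by
    have h3 : (aeval (t : ℂ) (gk c d)) = ((aeval t (gk c d) : ℝ) : ℂ) := by
      rw [near_aeval_gk, near_aeval_gk]
      push_cast
      rfl
    rw [h3, Complex.norm_real, Real.norm_eq_abs]
  rw [hgt] at hzb
  have hgp := hK₁ H hH (gk c d) hL.1 hL.2 hcf z hz0
  have hclose : ‖(t : ℂ) - z‖ * |(a : ℝ)| ≤ (H : ℝ) ^ k₂ := by
    have h2d : (2 : ℝ) ^ (d - 1) ≤ (H : ℝ) ^ d :=
      (pow_le_pow_right₀ (by norm_num) (by omega : d - 1 ≤ d)).trans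
        (pow_le_pow_left₀ (by norm_num) hHR d)
    calc ‖(t : ℂ) - z‖ * |(a : ℝ)|
        = 1 * (‖(t : ℂ) - z‖ * |(a : ℝ)|) := (one_mul _).symm
      _ ≤ ((H : ℝ) ^ K₁ * ‖aeval z (derivative (gk c d))‖) * (‖(t : ℂ) - z‖ * |(a : ℝ)|) :=
          mul_le_mul_of_nonneg_right hgp (by positivity)
      _ = (H : ℝ) ^ K₁ * ((‖(t : ℂ) - z‖ * ‖aeval z (derivative (gk c d))‖) * |(a : ℝ)|) := by ring
      _ ≤ (H : ℝ) ^ K₁ * ((2 ^ (d - 1) * |aeval t (gk c d)|) * |(a : ℝ)|) := by gcongr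
      _ = (H : ℝ) ^ K₁ * (2 ^ (d - 1) * (|aeval t (gk c d)| * |(a : ℝ)|)) := by ring
      _ ≤ (H : ℝ) ^ K₁ * ((H : ℝ) ^ d * (H : ℝ) ^ k₁) := by gcongr
      _ = (H : ℝ) ^ k₂ := by rw [← pow_add, ← pow_add]
  by_cases hreal : (starRingEnd ℂ) z = z
  · -- a real root
    obtain ⟨τ, hτ⟩ := Complex.conj_eq_iff_real.mp hreal
    subst hτ
    refine ⟨τ, ?_, ?_⟩
    · have h3 : (aeval (τ : ℂ) (gk c d)) = ((aeval τ (gk c d) : ℝ) : ℂ) := by
        rw [near_aeval_gk, near_aeval_gk]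
        push_cast
        rfl
      rw [h3] at hz0
      exact_mod_cast hz0
    · have h3 : (b : ℝ) - τ * a = (t - τ) * a := by
        rw [ht]
        field_simp
      rw [h3, abs_mul]
      have h4 : ‖(t : ℂ) - τ‖ = |t - τ| := by
        rw [← Complex.ofReal_sub, Complex.norm_real, Real.norm_eq_abs]
      rw [← h4]
      exact hclose
  · exfalso
    set w := (starRingEnd ℂ) z with hw
    have hw0 : aeval w (gk c d) = 0 := by
      have h3 : aeval w (gk c d) = (starRingEnd ℂ) (aeval z (gk c d)) := by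
        rw [near_aeval_gk, near_aeval_gk, map_sum]
        refine Finset.sum_congr rfl (fun j _ => ?_)
        rw [map_mul, map_pow, hw, map_intCast]
      rw [h3, hz0, map_zero]
    have htw : ‖(t : ℂ) - w‖ = ‖(t : ℂ) - z‖ := by
      have h3 : (t : ℂ) - w = (starRingEnd ℂ) ((t : ℂ) - z) := by
        rw [map_sub, Complex.conj_ofReal, hw]
      rw [h3, Complex.norm_conj]
    have hzw : ‖z - w‖ ≤ 2 * ‖(t : ℂ) - z‖ := by
      calc ‖z - w‖ = ‖((t : ℂ) - w) - ((t : ℂ) - z)‖ := by congr 1; ring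
        _ ≤ ‖(t : ℂ) - w‖ + ‖(t : ℂ) - z‖ := norm_sub_le _ _
        _ = 2 * ‖(t : ℂ) - z‖ := by rw [htw]; ring
    have hroots : ∀ u : ℂ, g.eval u = 0 → ‖u‖ ≤ (H : ℝ) ^ 2 := by
      intro u hu
      rw [hg, hev] at hu
      exact root_le H hH (gk c d) hgne hcf u hu
    have hsep := root_sep g (by omega) ((H : ℝ) ^ 2) hroots z w (by rw [hg, hev]; exact hz0)
      (by rw [hg, hev]; exact hw0) (fun h => hreal h.symm)
    rw [hg, derivative_map, hev, ← hg, hgd] at hsep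
    have hlc : ‖g.leadingCoeff‖ ≤ (H : ℝ) ^ 1 := by
      rw [hg, leadingCoeff_map_of_injective hinj, pow_one]
      simp only [eq_intCast, Complex.norm_intCast]
      have := hcf (gk c d).natDegree
      exact_mod_cast this
    have h2H : (2 * (H : ℝ) ^ 2) ^ (d - 2) ≤ (H : ℝ) ^ (3 * (d - 2)) := by
      rw [pow_mul]
      refine pow_le_pow_left₀ (by positivity) ?_ _
      calc 2 * (H : ℝ) ^ 2 ≤ H * (H : ℝ) ^ 2 := by gcongr
        _ = (H : ℝ) ^ 3 := by ring
    have hfin : |(a : ℝ)| ≤ (H : ℝ) ^ (K - 1) := by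
      calc |(a : ℝ)| = 1 * |(a : ℝ)| := (one_mul _).symm
        _ ≤ ((H : ℝ) ^ K₁ * ‖aeval z (derivative (gk c d))‖) * |(a : ℝ)| :=
            mul_le_mul_of_nonneg_right hgp (by positivity)
        _ ≤ ((H : ℝ) ^ K₁ * (‖g.leadingCoeff‖ * ‖z - w‖ * (2 * (H : ℝ) ^ 2) ^ (d - 2)))
              * |(a : ℝ)| := by gcongr
        _ ≤ ((H : ℝ) ^ K₁ * ((H : ℝ) ^ 1 * (2 * ‖(t : ℂ) - z‖) * (H : ℝ) ^ (3 * (d - 2))))
              * |(a : ℝ)| := by gcongr
        _ = (H : ℝ) ^ K₁ * ((H : ℝ) ^ 1 * ((2 * (‖(t : ℂ) - z‖ * |(a : ℝ)|)) *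
              (H : ℝ) ^ (3 * (d - 2)))) := by ring
        _ ≤ (H : ℝ) ^ K₁ * ((H : ℝ) ^ 1 * (((H : ℝ) ^ 1 * (H : ℝ) ^ k₂) *
              (H : ℝ) ^ (3 * (d - 2)))) := by
            have : (2 : ℝ) ≤ (H : ℝ) ^ 1 := by rw [pow_one]; exact hHR
            gcongr
        _ = (H : ℝ) ^ (K - 1) := by
            rw [← pow_add, ← pow_add, ← pow_add, ← pow_add]
            congr 1
    have hlt : (H : ℝ) ^ (K - 1) < (H : ℝ) ^ K :=
      pow_lt_pow_right₀ (by linarith) (by omega)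
    linarith

end Pool.Agent.LW
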