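import Mathlib

set_option autoImplicit false

namespace Pool.Agent.LW

/-- division of the windows into short windows -/
theorem subwindows (n N : ℕ) (hN : 1 ≤ N) : ∃ L : ℕ, ∀ R : ℝ, 1 ≤ R → ∃ S : Fin L → ℝ,
    (∀ i, 1 ≤ S i) ∧ ∀ x : ℝ, R ≤ x → x ≤ R ^ n → ∃ i, S i ^ N ≤ x ∧ x ≤ S i ^ (N + 1) := by
  have hN0 : (0 : ℝ) < N := by exact_mod_cast hN
  set q : ℝ := 1 + 1 / N with hq
  have hq1 : 1 < q := by
    have : 0 < 1 / (N : ℝ) := by positivity
    linarith
  obtain ⟨L, hL⟩ := pow_unbounded_of_one_lt (n : ℝ) hq1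
  refine ⟨L + 1, fun R hR => ⟨fun j => R ^ (q ^ (j : ℕ) / N), ?_, ?_⟩⟩
  · intro i
    exact Real.one_le_rpow hR (by positivity)
  · intro x hx1 hx2
    have hR0 : 0 ≤ R := by linarith
    have hS1 : ∀ j : ℕ, (R ^ (q ^ j / N)) ^ N = R ^ (q ^ j) := by
      intro j
      rw [← Real.rpow_natCast, ← Real.rpow_mul hR0]
      congr 1
      field_simp
    have hS2 : ∀ j : ℕ, (R ^ (q ^ j / N)) ^ (N + 1) = R ^ (q ^ (j + 1)) := by
      intro j
      rw [← Real.rpow_natCast, ← Real.rpow_mul hR0]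
      congr 1
      push_cast
      rw [pow_succ, hq]
      field_simp
    have hex : ∃ m : ℕ, x ≤ R ^ (q ^ m) := by
      refine ⟨L, hx2.trans ?_⟩
      rw [← Real.rpow_natCast]
      exact Real.rpow_le_rpow_of_exponent_le hR hL.le
    classical
    have hm := Nat.find_spec hex
    have hmL : Nat.find hex ≤ L := by
      refine Nat.find_min' hex (hx2.trans ?_)
      rw [← Real.rpow_natCast]
      exact Real.rpow_le_rpow_of_exponent_le hR hL.le
    rcases Nat.eq_zero_or_pos (Nat.find hex) with h0 | h0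
    · refine ⟨⟨0, by omega⟩, ?_, ?_⟩
      · change (R ^ (q ^ 0 / (N : ℝ))) ^ N ≤ x
        rw [hS1]
        simpa using hx1
      · change x ≤ (R ^ (q ^ 0 / (N : ℝ))) ^ (N + 1)
        rw [hS2]
        rw [h0] at hm
        refine hm.trans (Real.rpow_le_rpow_of_exponent_le hR ?_)
        exact pow_le_pow_right₀ hq1.le (by omega)
    · obtain ⟨j, hj⟩ : ∃ j, Nat.find hex = j + 1 := ⟨Nat.find hex - 1, by omega⟩
      refine ⟨⟨j, by omega⟩, ?_, ?_⟩
      · change (R ^ (q ^ j / (N : ℝ))) ^ N ≤ x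
        rw [hS1]
        have := Nat.find_min hex (m := j) (by omega)
        exact (not_le.mp this).le
      · change x ≤ (R ^ (q ^ j / (N : ℝ))) ^ (N + 1)
        rw [hS2, ← hj]
        exact hm

end Pool.Agent.LW
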