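import Pool.Agent.H20.W3

set_option autoImplicit false

namespace Pool.Agent.LW

open Polynomial Finset NumberField Module Pool.Agent.H20 Pool.Agent.H20.G

/-- The windows attached to the subfields of the complex numbers: they contain all large integral
points near places of full degree whose field of definition contains the subfield. -/
theorem field_windows (d : ℕ) (hd : 3 ≤ d) :
    ∃ κ n : ℕ, 1 ≤ n ∧ ∃ R : IntermediateField ℚ ℂ → ℕ → ℝ, (∀ F m, 1 ≤ R F m) ∧
      ∀ c : ℕ → ℕ → ℤ, c 0 d = 1 → Irreducible (fP d c) → ∀ a b : ℤ,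
        evalEval a b (fP d c) = 0 → (2 * hS d c) ^ κ < |(a : ℝ)| →
        ∃ (N : Node d c a b) (_ : NumberField N.E), N.r = 1 ∧ finrank ℚ N.E * N.m = d ∧
          ∀ F ≤ N.E, 3 ≤ finrank ℚ F → R F N.m ≤ |(a : ℝ)| ∧ |(a : ℝ)| ≤ R F N.m ^ n := by
  classical
  have hd1 : 1 ≤ d := by omega
  obtain ⟨C, κ₁, hC1, hκ0, hkap, hL⟩ := large_node d hd
  set M := 68 * d ^ 2 with hM
  have hM0 : 0 < M := by positivity
  refine ⟨C * (d * κ₁), M ^ 2, Nat.one_le_pow _ _ hM0, ?_⟩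
  have hP : ∀ (F : IntermediateField ℚ ℂ) (m : ℕ), ∃ R : ℝ, 1 ≤ R ∧ ∀ P : MC F d m κ₁,
      3 ≤ finrank ℚ F → 1 ≤ m → m ≤ d →
      R ≤ P.y ^ (m * κ₁) ∧ P.y ^ (m * κ₁) ≤ R ^ (M ^ 2) := by
    intro F m
    by_cases hne : Nonempty (MC F d m κ₁)
    swap
    · exact ⟨1, le_refl _, fun P => absurd ⟨P⟩ hne⟩
    obtain ⟨P₀⟩ := hne
    set B := P₀.y ^ (m * κ₁) with hB
    have hy0 := P₀.y_two
    have hB1 : 1 ≤ B := one_le_pow₀ (by linarith)
    have hR : (B ^ (1 / (M : ℝ))) ^ M = B := by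
      rw [← Real.rpow_natCast, ← Real.rpow_mul (by linarith), one_div,
        inv_mul_cancel₀ (by exact_mod_cast hM0.ne'), Real.rpow_one]
    have hR1 : 1 ≤ B ^ (1 / (M : ℝ)) := Real.one_le_rpow hB1 (by positivity)
    refine ⟨B ^ (1 / (M : ℝ)), hR1, fun P hF hm hmd => ?_⟩
    have hy := P.y_two
    have h1 := MC.window F hF d m hd hm κ₁ (hkap _ hmd) P₀ P
    have h2 := MC.window F hF d m hd hm κ₁ (hkap _ hmd) P P₀
    rw [← hM] at h1 h2
    constructor
    · refine le_of_pow_le_pow_left₀ hM0.ne' (by positivity) ?_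
      rw [hR, hB]
      calc P₀.y ^ (m * κ₁) ≤ (P.y ^ M) ^ (m * κ₁) :=
            pow_le_pow_left₀ (by linarith) h2 _
        _ = (P.y ^ (m * κ₁)) ^ M := by rw [← pow_mul, ← pow_mul, mul_comm]
    · have e1 : (B ^ (1 / (M : ℝ))) ^ (M ^ 2) = B ^ M := by rw [pow_two, pow_mul, hR]
      rw [e1, hB]
      calc P.y ^ (m * κ₁) ≤ (P₀.y ^ M) ^ (m * κ₁) :=
            pow_le_pow_left₀ (by linarith) h1 _
        _ = (P₀.y ^ (m * κ₁)) ^ M := by rw [← pow_mul, ← pow_mul, mul_comm]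
  choose R hR1 hR using hP
  refine ⟨R, hR1, ?_⟩
  intro c hc hirr a b hz hl
  have hH := one_le_hS d c hc
  have ha : a ≠ 0 := by
    rintro rfl
    have : 0 ≤ (2 * hS d c) ^ (C * (d * κ₁)) := by positivity
    simp at hl
    linarith
  obtain ⟨N, nf, hr, hf, y, hy2, hya, hMC⟩ := hL c hc hirr a b ha hz hl.le
  refine ⟨N, nf, hr, hf, ?_⟩
  intro F hFE hF
  have hmd : N.m ≤ d := (Nat.le_mul_of_pos_left _ finrank_pos).trans hf.le
  obtain ⟨P, hPy⟩ := hMC F hFE
  rw [hya, ← hPy]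
  exact hR F N.m P hF N.m_pos hmd

/-- The slope of a place at infinity is a root of the leading form. -/
lemma Node.root {d : ℕ} {c : ℕ → ℕ → ℤ} {a b : ℤ} (N : Node d c a b) (hr : N.r = 1) :
    ∃ θ : N.E, ∑ j ∈ range (d + 1), (c (d - j) j : N.E) * θ ^ j = 0 := by
  classical
  obtain ⟨z, hz0, hz⟩ := N.series hr
  set φ : 𝓞 N.E →+* PowerSeries N.E := PowerSeries.C.comp (algebraMap (𝓞 N.E) N.E) with hφ
  set Z : PowerSeries N.E := evA φ PowerSeries.X z (zt N.V N.v N.k₀) with hZ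
  have hT : evA φ PowerSeries.X z (C (C N.w) * X ^ N.m)
      = PowerSeries.C (algebraMap (𝓞 N.E) N.E N.w) * PowerSeries.X ^ N.m := by
    rw [map_mul, map_pow, evA_C, evA_X, eval₂_C]
    rfl
  have hF : F0 d c (PowerSeries.C (algebraMap (𝓞 N.E) N.E N.w) * PowerSeries.X ^ N.m) Z = 0 := by
    have h6 := congrArg (evA φ PowerSeries.X z) N.rel
    rw [map_F0, map_mul, hz, mul_zero, hT] at h6
    exact h6.symm
  have h0 := congrArg (PowerSeries.constantCoeff (R := N.E)) hF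
  rw [map_F0, map_zero, map_mul, map_pow, PowerSeries.constantCoeff_X, zero_pow (by
    have := N.m_pos; omega), mul_zero] at h0
  refine ⟨PowerSeries.constantCoeff Z, ?_⟩
  rw [← h0]
  unfold F0
  refine Finset.sum_congr rfl (fun j hj => ?_)
  have hj' := Finset.mem_range.mp hj
  rw [Finset.sum_eq_single (d - j)]
  · have e : d - (d - j) - j = 0 := by omega
    rw [e, pow_zero, mul_one]
  · intro i hi hne
    have hi' := Finset.mem_range.mp hi
    rw [zero_pow (by omega), mul_zero, zero_mul]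
  · intro h
    exact absurd (Finset.mem_range.mpr (by omega)) h

end Pool.Agent.LW
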