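import Pool.Agent.LW.IRR
import Pool.Agent.LW.FW

set_option autoImplicit false

namespace Pool.Agent.LW

open Polynomial Finset NumberField Module Pool.Agent.H20 Pool.Agent.H20.G

lemma ev_eq_evalEval (d : ℕ) (c : ℕ → ℕ → ℤ) (a b : ℤ) : evalEval a b (fP d c) = ev d c a b := by
  have h1 : evalEval a b (fP d c) = evR a b (fP d c) := by
    have h6 : (Int.castRingHom ℤ) = RingHom.id ℤ := RingHom.ext_int _ _
    unfold evR evalEval
    rw [h6, coe_eval₂RingHom]
    have h7 : (eval₂RingHom (RingHom.id ℤ) a) = evalRingHom a := by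
      ext <;> simp
    rw [h7, eval₂_evalRingHom]
  rw [h1, evR_fP]
  unfold ev
  simp only [Int.cast_id]
  rw [Finset.sum_sigma', Finset.sum_sigma']
  refine Finset.sum_nbij' (fun p => ⟨p.2 + p.1, p.1⟩) (fun p => ⟨p.2, p.1 - p.2⟩) ?_ ?_ ?_ ?_ ?_
  · rintro ⟨j, i⟩ h
    simp only [Finset.mem_sigma, Finset.mem_range] at h ⊢
    omega
  · rintro ⟨k, j⟩ h
    simp only [Finset.mem_sigma, Finset.mem_range] at h ⊢
    omega
  · rintro ⟨j, i⟩ h
    simp
  · rintro ⟨k, j⟩ h
    simp only [Finset.mem_sigma, Finset.mem_range] at h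
    simp only [Sigma.mk.injEq, heq_eq_eq, and_true]
    omega
  · rintro ⟨j, i⟩ h
    simp

lemma two_hS_le (d : ℕ) (H : ℕ) (hH : 2 ≤ H) (c : ℕ → ℕ → ℤ) (hc : Ht d c H) :
    hS d c ≤ (H : ℝ) ^ (2 * d + 3) := by
  have hHR : (2 : ℝ) ≤ H := by exact_mod_cast hH
  have hH1 : (1 : ℝ) ≤ H := by linarith
  have h1 : hS d c ≤ ∑ j ∈ range (d + 1), ∑ i ∈ range (d + 1), (H : ℝ) := by
    unfold hS
    refine Finset.sum_le_sum (fun j hj => ?_)
    have hj' := Finset.mem_range.mp hj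
    refine (Finset.sum_le_sum (g := fun _ => (H : ℝ)) (fun i hi => ?_)).trans ?_
    · have hi' := Finset.mem_range.mp hi
      have := hc i j (by omega)
      exact_mod_cast this
    · rw [Finset.sum_const, Finset.sum_const, nsmul_eq_mul, nsmul_eq_mul, Finset.card_range,
        Finset.card_range]
      refine mul_le_mul_of_nonneg_right ?_ (by linarith)
      exact_mod_cast (by omega : d + 1 - j ≤ d + 1)
  have h2 : ((d + 1 : ℕ) : ℝ) ≤ (H : ℝ) ^ (d + 1) := by
    have h3 : (d + 1) ≤ 2 ^ (d + 1) := (Nat.lt_two_pow_self).le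
    calc ((d + 1 : ℕ) : ℝ) ≤ ((2 ^ (d + 1) : ℕ) : ℝ) := by exact_mod_cast h3
      _ = (2 : ℝ) ^ (d + 1) := by push_cast; rfl
      _ ≤ _ := pow_le_pow_left₀ (by norm_num) hHR _
  refine h1.trans ?_
  simp only [Finset.sum_const, Finset.card_range, nsmul_eq_mul]
  calc ((d + 1 : ℕ) : ℝ) * (((d + 1 : ℕ) : ℝ) * H)
      ≤ (H : ℝ) ^ (d + 1) * ((H : ℝ) ^ (d + 1) * H) := by
        refine mul_le_mul h2 (mul_le_mul_of_nonneg_right h2 (by linarith)) (by positivity)
          (by positivity)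
    _ = (H : ℝ) ^ (2 * d + 3) := by rw [← pow_succ, ← pow_add]; congr 1; omega

/-- The slope is a root of the leading form. -/
lemma root_of_mon (d : ℕ) (hd : 1 ≤ d) (c : ℕ → ℕ → ℤ) (h0 : c 0 d ≠ 0) {L : Type*} [Field L]
    [CharZero L] (θ : L) (hθ : ∑ j ∈ range (d + 1), (mon d c (d - j) j : L) * θ ^ j = 0) :
    eval₂ (Rat.castHom L) (θ / (c 0 d : L)) ((gk c d).map (Int.castRingHom ℚ)) = 0 := by
  have hc : ((c 0 d : ℤ) : L) ≠ 0 := Int.cast_ne_zero.mpr h0
  have h1 : eval₂ (Rat.castHom L) (θ / (c 0 d : L)) ((gk c d).map (Int.castRingHom ℚ))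
      = ∑ j ∈ range (d + 1), (c (d - j) j : L) * (θ / (c 0 d : L)) ^ j := by
    unfold gk
    rw [Polynomial.map_sum, eval₂_finsetSum]
    refine Finset.sum_congr rfl (fun j _ => ?_)
    rw [map_monomial, eval₂_monomial]
    simp
  rw [h1]
  have h2 : (c 0 d : L) ^ (d - 1) * ∑ j ∈ range (d + 1), (c (d - j) j : L) * (θ / (c 0 d : L)) ^ j
      = ∑ j ∈ range (d + 1), (mon d c (d - j) j : L) * θ ^ j := by
    rw [Finset.mul_sum]
    refine Finset.sum_congr rfl (fun j hj => ?_)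
    have hj' := Finset.mem_range.mp hj
    unfold mon
    by_cases hjd : j = d
    · subst hjd
      rw [if_pos rfl, Nat.sub_self, if_pos rfl, Int.cast_one, one_mul, div_pow]
      have h3 : (c 0 j : L) ^ j = (c 0 j : L) ^ (j - 1) * (c 0 j : L) := by
        rw [← pow_succ]
        congr 1
        omega
      rw [h3]
      field_simp
    · rw [if_neg hjd, Int.cast_mul, Int.cast_pow, div_pow]
      have h3 : (c 0 d : L) ^ (d - 1) = (c 0 d : L) ^ (d - 1 - j) * (c 0 d : L) ^ j := by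
        rw [← pow_add]
        congr 1
        omega
      rw [h3]
      field_simp
  rw [hθ] at h2
  exact (mul_eq_zero.mp h2).resolve_left (pow_ne_zero _ hc)

/-- the windows depend only on the leading form -/
theorem lead_windows (d : ℕ) (hd : 3 ≤ d) : ∃ κ n : ℕ, ∀ g : ℤ[X], ∃ R : Fin d → ℝ,
    (∀ i, 1 ≤ R i) ∧ ∀ (H : ℕ) (c : ℕ → ℕ → ℤ), 2 ≤ H → gk c d = g → Lead d c → Ht d c H →
      ∀ a b : ℤ, ev d c a b = 0 →
        |(a : ℝ)| ≤ (H : ℝ) ^ κ ∨ ∃ i, R i ≤ |(a : ℝ)| ∧ |(a : ℝ)| ≤ R i ^ n := by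
  classical
  have hd1 : 1 ≤ d := by omega
  obtain ⟨κ₀, n, hn, W, hW1, hW⟩ := field_windows d hd
  refine ⟨((2 * d + 3) * d + 1) * κ₀, n, ?_⟩
  intro g
  by_cases hg : g.natDegree = d ∧ Irreducible (g.map (Int.castRingHom ℚ))
  swap
  · refine ⟨fun _ => 1, fun _ => le_refl _, ?_⟩
    intro H c _ hgc hL
    rw [← hgc] at hg
    exact absurd hL hg
  obtain ⟨hgd, hgi⟩ := hg
  have : Fact (Irreducible (g.map (Int.castRingHom ℚ))) := ⟨hgi⟩
  let K := AdjoinRoot (g.map (Int.castRingHom ℚ))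
  let pb : PowerBasis ℚ K := AdjoinRoot.powerBasis hgi.ne_zero
  have hfin : FiniteDimensional ℚ K := pb.finite
  have hnf : NumberField K := { to_finiteDimensional := hfin }
  have hgnd : (g.map (Int.castRingHom ℚ)).natDegree = d := by
    rw [natDegree_map_eq_of_injective Int.cast_injective]
    exact hgd
  have hKd : finrank ℚ K = d := by
    rw [pb.finrank, AdjoinRoot.powerBasis_dim, hgnd]
  have hcard : Fintype.card (K →+* ℂ) ≤ Fintype.card (Fin d) := by
    rw [Fintype.card_fin, NumberField.Embeddings.card K ℂ, hKd]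
  obtain ⟨e⟩ := Function.Embedding.nonempty_of_card_le hcard
  refine ⟨fun i => if h : ∃ σ, e σ = i then W (imgK h.choose) 1 else 1, ?_, ?_⟩
  · intro i
    dsimp only
    split_ifs
    · exact hW1 _ _
    · exact le_refl _
  intro H c hH hgc hL hHt a b hz
  have hHR : (2 : ℝ) ≤ H := by exact_mod_cast hH
  have hH1 : (1 : ℝ) ≤ H := by linarith
  have hc0 := hL.ne hd1
  have hirr := mon_irreducible' d hd1 c hc0 (irreducible_of_lead d hd1 c hL)
  have hz' : evalEval a (c 0 d * b) (fP d (mon d c)) = 0 := by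
    have h3 := congrArg (evalEval a b) (mon_comp d hd1 c)
    rw [evalEval_mul, ev_eq_evalEval, hz, mul_zero] at h3
    rw [← h3]
    unfold evalEval
    rw [eval_comp]
    simp
  rcases le_or_gt (|(a : ℝ)|) ((2 * hS d (mon d c)) ^ κ₀) with hsm | hl
  · left
    refine hsm.trans ?_
    rw [pow_mul]
    refine pow_le_pow_left₀ (by have := hS_nonneg d (mon d c); positivity) ?_ _
    have h1 := hS_mon_le d hd1 c hc0
    have h2 := pow_le_pow_left₀ (hS_nonneg d c) (two_hS_le d H hH c hHt) d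
    rw [← pow_mul] at h2
    calc 2 * hS d (mon d c) ≤ H * (H : ℝ) ^ ((2 * d + 3) * d) :=
          mul_le_mul hHR (h1.trans h2) (hS_nonneg _ _) (by linarith)
      _ = (H : ℝ) ^ ((2 * d + 3) * d + 1) := by rw [← pow_succ']
  right
  obtain ⟨N, nf, hr, hf, hF⟩ := hW (mon d c) (mon_top d c) hirr a (c 0 d * b) hz' hl
  obtain ⟨θ, hθ⟩ := Pool.Agent.LW.Node.root N hr
  have hroot := root_of_mon d hd1 c hc0 θ hθ
  rw [hgc] at hroot
  let j : K →+* N.E := AdjoinRoot.lift (Rat.castHom N.E) _ hroot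
  have hdim : d ≤ finrank ℚ N.E := hKd.symm.le.trans (finrank_le_of_hom j)
  have hm : N.m = 1 := by
    have h1 := N.m_pos
    have h2 : d * N.m ≤ d := (Nat.mul_le_mul_right _ hdim).trans hf.le
    have h3 : N.m ≤ 1 := by
      by_contra hcon
      push Not at hcon
      have h4 : d * 2 ≤ d * N.m := Nat.mul_le_mul_left _ hcon
      omega
    omega
  set σ : K →+* ℂ := (N.E.val.toRingHom).comp j with hσ
  have hFE : imgK σ ≤ N.E := by
    intro x hx
    obtain ⟨z, rfl⟩ := (mem_imgK σ x).mp hx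
    exact (j z).2
  have hdimσ : 3 ≤ finrank ℚ (imgK σ) := by rw [finrank_imgK, hKd]; exact hd
  refine ⟨e σ, ?_⟩
  have hex : ∃ τ, e τ = e σ := ⟨σ, rfl⟩
  have hch : hex.choose = σ := e.injective hex.choose_spec
  dsimp only
  rw [dif_pos hex, hch]
  have h5 := hF (imgK σ) hFE hdimσ
  rw [hm] at h5
  exact h5

end Pool.Agent.LW
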