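import Pool.Agent.LW.FIB
import Pool.Agent.LW.WIN
import Pool.Agent.LW.SUBW
import Pool.Agent.LW.NEAR

set_option autoImplicit false

namespace Pool.Agent.LW

open Polynomial Finset

private theorem cnt_five {α β : Type*} (E : Set α) (T : Finset β) (P : α → β → Prop)
    (h1 : ∀ c ∈ E, ∃ t, t ∈ T ∧ P c t)
    (h2 : ∀ (c : Fin 5 → α) (t : β), (∀ i, c i ∈ E) → (∀ i, P (c i) t) →
      ∃ i j, i ≠ j ∧ c i = c j) :
    E.Finite ∧ E.ncard ≤ 4 * T.card := by
  classical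
  rcases E.eq_empty_or_nonempty with hE | ⟨c0, hc0⟩
  · rw [hE]
    simp
  obtain ⟨t0, ht0⟩ := h1 c0 hc0
  have : Nonempty β := ⟨t0⟩
  choose! f hf using h1
  have key : ∀ E' : Finset α, (E' : Set α) ⊆ E → E'.card ≤ 4 * T.card := by
    intro E' hE'
    apply Finset.card_le_mul_card_image_of_maps_to (f := f)
    · intro c hc
      exact (hf c (hE' hc)).1
    · intro t _
      by_contra hcon
      push Not at hcon
      obtain ⟨F, hF, hF5⟩ := Finset.exists_subset_card_eq (show 5 ≤ _ from hcon)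
      set e := F.equivFinOfCardEq hF5
      obtain ⟨i, j, hij, heq⟩ := h2 (fun i => (e.symm i : α)) t
        (fun i => hE' (Finset.mem_of_mem_filter _ (hF (e.symm i).2)))
        (fun i => by
          have h3 := (Finset.mem_filter.mp (hF (e.symm i).2)).2
          have h4 := (hf _ (hE' (Finset.mem_of_mem_filter _ (hF (e.symm i).2)))).2
          rw [h3] at h4
          exact h4)
      exact hij (e.symm.injective (Subtype.ext heq))
  have hfin : E.Finite := by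
    by_contra hinf
    obtain ⟨E', hE', hcard⟩ := Set.Infinite.exists_subset_card_eq hinf (4 * T.card + 1)
    have := key E' hE'
    omega
  refine ⟨hfin, ?_⟩
  rw [Set.ncard_eq_toFinset_card E hfin]
  exact key _ (by simp)

theorem count_lead (d : ℕ) (hd : 4 ≤ d) : ∃ K C : ℕ, ∀ H : ℕ, 2 ≤ H → ∀ g : ℤ[X],
    (Exc d K H g).Finite ∧ (Exc d K H g).ncard ≤ C * H ^ (3 * d - 3) := by
  classical
  obtain ⟨k, Kn, hnear⟩ := near d (by omega)
  obtain ⟨Kf, hfib⟩ := fiber d k (by omega)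
  obtain ⟨κ, n, hwin⟩ := lead_windows d (by omega)
  obtain ⟨L, hsub⟩ := subwindows n (100 * d ^ 2) (by nlinarith)
  refine ⟨Kf + Kn + κ, 4 * (3 ^ (3 * d - 3) * ((d + 1) * (d * (2 * (d * L))))), ?_⟩
  intro H hH g
  have hH2 : (2 : ℝ) ≤ H := by exact_mod_cast hH
  have hH1 : (1 : ℝ) ≤ H := by linarith
  have hmono : ∀ {i j : ℕ}, i ≤ j → (H : ℝ) ^ i ≤ (H : ℝ) ^ j := fun h => pow_le_pow_right₀ hH1 h
  rcases (Exc d (Kf + Kn + κ) H g).eq_empty_or_nonempty with hE | ⟨c0, hc0⟩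
  · rw [hE]
    simp
  have hgdeg : g.natDegree = d := by
    rw [← hc0.2.2.2.1]
    exact hc0.2.2.1.1
  have hg0 : g ≠ 0 := by
    rintro rfl
    rw [natDegree_zero] at hgdeg
    omega
  obtain ⟨R, hR1, hRw⟩ := hwin g
  choose S hS1 hS using fun i => hsub (R i) (hR1 i)
  set N : ℕ := 100 * d ^ 2 with hN
  set B : Finset ℤ := Finset.Icc (-(H : ℤ)) H with hB
  have hBc : B.card = 2 * H + 1 := by
    rw [hB, Int.card_Icc]
    omega
  set T0 : Finset ((Fin d → ℤ) × (Fin (d - 1) → ℤ) × (Fin (d - 2) → ℤ) × ℕ × ℝ × ℤ ×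
      Fin d × Fin L) :=
    Fintype.piFinset (fun _ => B) ×ˢ Fintype.piFinset (fun _ => B) ×ˢ
      Fintype.piFinset (fun _ => B) ×ˢ range (d + 1) ×ˢ (g.aroots ℝ).toFinset ×ˢ
        ({1, -1} : Finset ℤ) ×ˢ (univ : Finset (Fin d)) ×ˢ (univ : Finset (Fin L)) with hT0
  have hmain := cnt_five (Exc d (Kf + Kn + κ) H g) T0 (fun c t =>
    (∀ m : Fin d, c (d - 1 - m) m = t.1 m) ∧
    (∀ m : Fin (d - 1), c (d - 1 - t.2.2.2.1 - m) m = t.2.1 m) ∧
    (∀ m : Fin (d - 2), c (d - 2 - t.2.2.2.1 - m) m = t.2.2.1 m) ∧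
    Lev d c t.2.2.2.2.1 t.2.2.2.1 ∧ aeval t.2.2.2.2.1 (gk c d) = 0 ∧
    (t.2.2.2.2.2.1 = 1 ∨ t.2.2.2.2.2.1 = -1) ∧
    ∃ a b : ℤ, ev d c a b = 0 ∧ (H : ℝ) ^ Kf ≤ (t.2.2.2.2.2.1 : ℝ) * a ∧
      |(b : ℝ) - t.2.2.2.2.1 * a| ≤ (H : ℝ) ^ k ∧
      S t.2.2.2.2.2.2.1 t.2.2.2.2.2.2.2 ^ N ≤ |(a : ℝ)| ∧
      |(a : ℝ)| ≤ S t.2.2.2.2.2.2.1 t.2.2.2.2.2.2.2 ^ (N + 1))
    ?_ ?_
  · refine ⟨hmain.1, hmain.2.trans ?_⟩
    have hroots : (g.aroots ℝ).toFinset.card ≤ d := by
      calc (g.aroots ℝ).toFinset.card ≤ Multiset.card (g.aroots ℝ) := Multiset.toFinset_card_le _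
        _ ≤ (g.map (algebraMap ℤ ℝ)).natDegree := card_roots' _
        _ ≤ g.natDegree := natDegree_map_le
        _ = d := hgdeg
    have hcard : T0.card = (2 * H + 1) ^ d * ((2 * H + 1) ^ (d - 1) * ((2 * H + 1) ^ (d - 2) *
        ((d + 1) * ((g.aroots ℝ).toFinset.card * (2 * (d * L)))))) := by
      rw [hT0]
      simp only [Finset.card_product, Fintype.card_piFinset_const, hBc, Finset.card_range,
        Finset.card_univ, Fintype.card_fin]
      rfl
    rw [hcard]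
    have h1 : (2 * H + 1) ^ d * ((2 * H + 1) ^ (d - 1) * ((2 * H + 1) ^ (d - 2) *
        ((d + 1) * ((g.aroots ℝ).toFinset.card * (2 * (d * L)))))) =
        (2 * H + 1) ^ (3 * d - 3) * ((d + 1) * ((g.aroots ℝ).toFinset.card * (2 * (d * L)))) := by
      have h2 : 3 * d - 3 = d + (d - 1) + (d - 2) := by omega
      rw [h2, pow_add, pow_add]
      ring
    rw [h1]
    have h3 : (2 * H + 1) ^ (3 * d - 3) ≤ 3 ^ (3 * d - 3) * H ^ (3 * d - 3) := by
      rw [← mul_pow]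
      exact Nat.pow_le_pow_left (by omega) _
    have h4 : (d + 1) * ((g.aroots ℝ).toFinset.card * (2 * (d * L))) ≤
        (d + 1) * (d * (2 * (d * L))) :=
      Nat.mul_le_mul_left _ (Nat.mul_le_mul_right _ hroots)
    calc 4 * ((2 * H + 1) ^ (3 * d - 3) *
          ((d + 1) * ((g.aroots ℝ).toFinset.card * (2 * (d * L))))) ≤
          4 * ((3 ^ (3 * d - 3) * H ^ (3 * d - 3)) * ((d + 1) * (d * (2 * (d * L))))) :=
          Nat.mul_le_mul_left _ (Nat.mul_le_mul h3 h4)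
      _ = _ := by ring
  · intro c hc
    obtain ⟨hsupp, hHt, hLead, hgk, a, b, hev, ha⟩ := hc
    obtain ⟨τ, hτ, hτb⟩ := hnear H hH c hHt hLead a b hev ((hmono (by omega)).trans ha.le)
    obtain ⟨s, hs⟩ := exists_level d (by omega) c τ
    have hκ : ¬ |(a : ℝ)| ≤ (H : ℝ) ^ κ := by
      intro h
      have := hmono (show κ ≤ Kf + Kn + κ by omega)
      linarith
    obtain ⟨i, hi1, hi2⟩ := (hRw H c hH hgk hLead hHt a b hev).resolve_left hκ
    obtain ⟨j, hj1, hj2⟩ := hS i |(a : ℝ)| hi1 hi2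
    have hε : ∃ ε : ℤ, (ε = 1 ∨ ε = -1) ∧ (ε : ℝ) * a = |(a : ℝ)| := by
      rcases le_total 0 (a : ℝ) with h | h
      · exact ⟨1, Or.inl rfl, by rw [abs_of_nonneg h]; push_cast; ring⟩
      · exact ⟨-1, Or.inr rfl, by rw [abs_of_nonpos h]; push_cast; ring⟩
    obtain ⟨ε, hε1, hε2⟩ := hε
    have hcB : ∀ x y : ℕ, x + y ≤ d → c x y ∈ B := by
      intro x y hxy
      rw [hB, Finset.mem_Icc]
      exact abs_le.mp (hHt x y hxy)
    refine ⟨(fun m => c (d - 1 - m) m, fun m => c (d - 1 - s - m) m, fun m => c (d - 2 - s - m) m,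
      s, τ, ε, i, j), ?_, ?_⟩
    · rw [hT0]
      simp only [Finset.mem_product, Fintype.mem_piFinset, Finset.mem_range, Finset.mem_univ,
        and_true]
      refine ⟨fun m => hcB _ _ (by omega), fun m => hcB _ _ (by omega),
        fun m => hcB _ _ (by omega), ?_, ?_, ?_⟩
      · have := hs.2.1
        omega
      · rw [Multiset.mem_toFinset, mem_aroots]
        refine ⟨hg0, ?_⟩
        rw [← hgk]
        exact hτ
      · rw [Finset.mem_insert, Finset.mem_singleton]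
        exact hε1
    · refine ⟨fun _ => rfl, fun _ => rfl, fun _ => rfl, hs, hτ, hε1, a, b, hev, ?_, hτb, hj1, hj2⟩
      show (H : ℝ) ^ Kf ≤ (ε : ℝ) * a
      rw [hε2]
      exact (hmono (by omega)).trans ha.le
  · rintro c ⟨u, v, w, s, τ, ε, i, j⟩ hcE hP
    simp only at hP
    choose h1 h2 h3 h4 h5 h6 a b h7 h8 h9 h10 h11 using hP
    have hs1 : 1 ≤ s := (h4 0).1
    have hgk : ∀ m, gk (c m) d = gk (c 0) d := fun m => by
      rw [(hcE m).2.2.2.1, (hcE 0).2.2.2.1]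
    have hgk1 : ∀ m, gk (c m) (d - 1) = gk (c 0) (d - 1) := by
      intro m
      unfold gk
      refine Finset.sum_congr rfl fun l hl => ?_
      rw [mem_range] at hl
      have e1 := h1 m ⟨l, by omega⟩
      have e2 := h1 0 ⟨l, by omega⟩
      simp only at e1 e2
      rw [e1, e2]
    have hgk2 : ∀ m, gk (c m) (d - 1 - s) = gk (c 0) (d - 1 - s) := by
      intro m
      unfold gk
      refine Finset.sum_congr rfl fun l hl => ?_
      rw [mem_range] at hl
      have e1 := h2 m ⟨l, by omega⟩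
      have e2 := h2 0 ⟨l, by omega⟩
      simp only at e1 e2
      rw [e1, e2]
    have hgk3 : ∀ m, gk (c m) (d - 2 - s) = gk (c 0) (d - 2 - s) := by
      intro m
      unfold gk
      refine Finset.sum_congr rfl fun l hl => ?_
      rw [mem_range] at hl
      have e1 := h3 m ⟨l, by omega⟩
      have e2 := h3 0 ⟨l, by omega⟩
      simp only at e1 e2
      rw [e1, e2]
    obtain ⟨m, m', hmm, heq⟩ := hfib H hH ε τ s c a b (h6 0) (fun m => (hcE m).2.1)
      (fun m => (hcE m).2.2.1) h7 h8 h5 h9 h4 hgk hgk1 hgk2 hgk3 (by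
        intro x y
        have e0 : 0 ≤ |(a x : ℝ)| := abs_nonneg _
        have e1 : 0 ≤ S i j := le_trans zero_le_one (hS1 i j)
        calc |(a x : ℝ)| ^ N ≤ (S i j ^ (N + 1)) ^ N := pow_le_pow_left₀ e0 (h11 x) N
          _ = (S i j ^ N) ^ (N + 1) := by rw [← pow_mul, ← pow_mul, mul_comm]
          _ ≤ |(a y : ℝ)| ^ (N + 1) := pow_le_pow_left₀ (by positivity) (h10 y) (N + 1))
    refine ⟨m, m', hmm, ?_⟩
    funext p q
    by_cases hpq : p + q ≤ d
    · exact heq p q hpq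
    · rw [(hcE m).1 p q (by omega), (hcE m').1 p q (by omega)]

end Pool.Agent.LW
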