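import Pool.Agent.LW.Defs

set_option autoImplicit false

namespace Pool.Agent.LW

open Polynomial Finset
open scoped NNReal

/-- the set of integer polynomials of bounded degree and Mahler measure -/
noncomputable def redF (n : ℕ) (B : ℝ≥0) : Finset ℤ[X] := (finite_mahlerMeasure_le n B).toFinset

theorem red_mem {n : ℕ} {B : ℝ≥0} {p : ℤ[X]} : p ∈ redF n B ↔ p.natDegree ≤ n ∧
    (p.map (Int.castRingHom ℂ)).mahlerMeasure ≤ B := by
  unfold redF
  simp

theorem red_card (n : ℕ) (B : ℝ≥0) (hB : 1 ≤ B) :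
    ((redF n B).card : ℝ) ≤ (3 * 2 ^ n * (B : ℝ)) ^ (n + 1) := by
  have h1 : (redF n B).card ≤ ∏ i : Fin (n + 1), (2 * ⌊n.choose i * B⌋₊ + 1) := by
    have h2 := card_mahlerMeasure_le_prod n B
    rwa [Set.ncard_eq_toFinset_card _ (finite_mahlerMeasure_le n B)] at h2
  have hB' : (1 : ℝ) ≤ B := by exact_mod_cast hB
  have h3 : ((∏ i : Fin (n + 1), (2 * ⌊n.choose i * B⌋₊ + 1) : ℕ) : ℝ) ≤
      ∏ _i : Fin (n + 1), (3 * 2 ^ n * (B : ℝ)) := by
    push_cast
    refine prod_le_prod (fun i _ => by positivity) fun i _ => ?_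
    have h4 : ((⌊n.choose i * B⌋₊ : ℕ) : ℝ) ≤ n.choose i * B := by
      have := Nat.floor_le (show 0 ≤ (n.choose i * B : ℝ≥0) by positivity)
      exact_mod_cast this
    have h5 : ((n.choose i : ℕ) : ℝ) ≤ 2 ^ n := by
      exact_mod_cast Nat.choose_le_two_pow n i
    have h6 : (n.choose i : ℝ) * B ≤ 2 ^ n * B := mul_le_mul_of_nonneg_right h5 (by positivity)
    have h7 : (1 : ℝ) ≤ 2 ^ n * B := by
      have h8 : (1 : ℝ) ≤ 2 ^ n := one_le_pow₀ (by norm_num)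
      nlinarith
    linarith
  rw [prod_const, card_univ, Fintype.card_fin] at h3
  exact le_trans (by exact_mod_cast h1) h3

/-- Gauss's lemma: factorisation over the integers -/
theorem red_factor {g : ℤ[X]} (hd : 1 ≤ g.natDegree)
    (h : ¬ Irreducible (g.map (Int.castRingHom ℚ))) :
    ∃ u v : ℤ[X], g = u * v ∧ 1 ≤ u.natDegree ∧ u.natDegree ≤ v.natDegree := by
  have hg0 : g ≠ 0 := by
    rintro rfl
    simp at hd
  have hc : g.content ≠ 0 := fun h0 => hg0 (content_eq_zero_iff.1 h0)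
  have hp : g.primPart.IsPrimitive := g.isPrimitive_primPart
  have hgp : g = C g.content * g.primPart := g.eq_C_content_mul_primPart
  have hpd : g.primPart.natDegree = g.natDegree := g.natDegree_primPart
  have hpi : ¬ Irreducible g.primPart := by
    intro h1
    apply h
    have h2 := (IsPrimitive.Int.irreducible_iff_irreducible_map_cast hp).1 h1
    have h3 : g.map (Int.castRingHom ℚ) =
        C (g.content : ℚ) * g.primPart.map (Int.castRingHom ℚ) := by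
      conv_lhs => rw [hgp]
      rw [Polynomial.map_mul, map_C]
      rfl
    rw [h3]
    have hu : IsUnit (C (g.content : ℚ)) := by
      rw [isUnit_C]
      exact isUnit_iff_ne_zero.2 (by exact_mod_cast hc)
    exact (irreducible_isUnit_mul hu).2 h2
  have hpu : ¬ IsUnit g.primPart := by
    intro h1
    have := natDegree_eq_zero_of_isUnit h1
    omega
  have key : ∀ a b : ℤ[X], g.primPart = a * b → ¬ IsUnit a → 1 ≤ a.natDegree := by
    intro a b hab ha
    by_contra hlt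
    have h0 : a.natDegree = 0 := by omega
    have h1 : a = C (a.coeff 0) := eq_C_of_natDegree_eq_zero h0
    have h2 : IsUnit (a.coeff 0) := hp _ (by rw [← h1]; exact ⟨b, hab⟩)
    exact ha (by rw [h1]; exact isUnit_C.2 h2)
  obtain ⟨a, b, hab, ha, hb⟩ : ∃ a b : ℤ[X], g.primPart = a * b ∧ ¬ IsUnit a ∧ ¬ IsUnit b := by
    by_contra hcon
    push Not at hcon
    refine hpi ⟨hpu, fun a b hab => ?_⟩
    by_cases h1 : IsUnit a
    · exact Or.inl h1
    · exact Or.inr (hcon a b hab h1)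
  have h1 := key a b hab ha
  have h2 := key b a (by rw [hab, mul_comm]) hb
  have hcd : ∀ q : ℤ[X], (C g.content * q).natDegree = q.natDegree := fun q =>
    natDegree_C_mul hc
  rcases le_total a.natDegree b.natDegree with h3 | h3
  · refine ⟨C g.content * a, b, ?_, by rw [hcd]; exact h1, by rw [hcd]; exact h3⟩
    rw [mul_assoc, ← hab]
    exact hgp
  · refine ⟨b, C g.content * a, ?_, h2, by rw [hcd]; exact h3⟩
    rw [mul_comm b, mul_assoc, ← hab]
    exact hgp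

theorem red_mahler_le {g : ℤ[X]} {H : ℕ} (h : ∀ n, |g.coeff n| ≤ (H : ℤ)) :
    (g.map (Int.castRingHom ℂ)).mahlerMeasure ≤ (g.natDegree + 1) * H := by
  refine (mahlerMeasure_le_sum_norm_coeff _).trans ?_
  rw [sum_def]
  have h1 : ∀ i ∈ (g.map (Int.castRingHom ℂ)).support,
      ‖(g.map (Int.castRingHom ℂ)).coeff i‖ ≤ (H : ℝ) := by
    intro i _
    rw [coeff_map, eq_intCast, Complex.norm_intCast]
    exact_mod_cast h i
  refine (sum_le_card_nsmul _ _ _ h1).trans ?_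
  rw [nsmul_eq_mul]
  refine mul_le_mul_of_nonneg_right ?_ (by positivity)
  have h2 : (g.map (Int.castRingHom ℂ)).support.card ≤ g.natDegree + 1 :=
    (card_supp_le_succ_natDegree _).trans (Nat.succ_le_succ natDegree_map_le)
  exact_mod_cast h2

theorem red_arith {d e : ℕ} (hd : 3 ≤ d) (he : 1 ≤ e) (hed : 2 * e ≤ d) {x B : ℝ} (hx : 1 ≤ x)
    (hxB : x ≤ B) : (3 * 2 ^ e * (x * 2)) ^ (e + 1) * (3 * 2 ^ (d - e) * (B / x)) ^ (d - e + 1) ≤
      (6 * 2 ^ d) ^ (d + 2) * B ^ d * x⁻¹ := by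
  have hx0 : 0 < x := by linarith
  have hB0 : 0 < B := by linarith
  have h1 : (3 * 2 ^ e * (x * 2)) ^ (e + 1) ≤ (6 * 2 ^ d) ^ (e + 1) * x ^ (e + 1) := by
    rw [← mul_pow]
    refine pow_le_pow_left₀ (by positivity) ?_ _
    have : (2 : ℝ) ^ e ≤ 2 ^ d := pow_le_pow_right₀ (by norm_num) (by omega)
    nlinarith
  have h2 : (3 * 2 ^ (d - e) * (B / x)) ^ (d - e + 1) ≤
      (6 * 2 ^ d) ^ (d - e + 1) * (B / x) ^ (d - e + 1) := by
    rw [← mul_pow]
    refine pow_le_pow_left₀ (by positivity) ?_ _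
    have h3 : (2 : ℝ) ^ (d - e) ≤ 2 ^ d := pow_le_pow_right₀ (by norm_num) (by omega)
    refine mul_le_mul_of_nonneg_right ?_ (by positivity)
    have : (0 : ℝ) < 2 ^ (d - e) := by positivity
    linarith
  have h3 : x ^ (e + 1) * (B / x) ^ (d - e + 1) ≤ B ^ d * x⁻¹ := by
    have e1 : x ^ (e + 1) * (B / x) ^ (d - e + 1) = x ^ (e + 1) * B ^ (d - e + 1) /
        x ^ (d - e + 1) := by
      rw [div_pow]
      ring
    rw [e1, div_le_iff₀ (by positivity)]
    have e2 : B ^ d = B ^ (e - 1) * B ^ (d - e + 1) := by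
      rw [← pow_add]
      congr 1
      omega
    have e3 : x ^ (e + 2) ≤ B ^ (e - 1) * x ^ (d - e + 1) := by
      have h4 : x ^ (e - 1) ≤ B ^ (e - 1) := pow_le_pow_left₀ hx0.le hxB _
      have h5 : x ^ (e + 2) ≤ x ^ (e - 1) * x ^ (d - e + 1) := by
        rw [← pow_add]
        exact pow_le_pow_right₀ hx (by omega)
      exact h5.trans (mul_le_mul_of_nonneg_right h4 (by positivity))
    have e4 : x ^ (e + 1) * x = x ^ (e + 2) := by ring
    rw [e2]
    have e5 : B ^ (e - 1) * B ^ (d - e + 1) * x⁻¹ * x ^ (d - e + 1) =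
        B ^ (d - e + 1) * (B ^ (e - 1) * x ^ (d - e + 1)) * x⁻¹ := by ring
    rw [e5, ← div_eq_mul_inv, le_div_iff₀ hx0]
    have e6 : x ^ (e + 1) * B ^ (d - e + 1) * x = B ^ (d - e + 1) * x ^ (e + 2) := by ring
    rw [e6]
    exact mul_le_mul_of_nonneg_left e3 (by positivity)
  calc (3 * 2 ^ e * (x * 2)) ^ (e + 1) * (3 * 2 ^ (d - e) * (B / x)) ^ (d - e + 1)
      ≤ ((6 * 2 ^ d) ^ (e + 1) * x ^ (e + 1)) *
        ((6 * 2 ^ d) ^ (d - e + 1) * (B / x) ^ (d - e + 1)) :=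
        mul_le_mul h1 h2 (by positivity) (by positivity)
    _ = (6 * 2 ^ d) ^ (e + 1 + (d - e + 1)) * (x ^ (e + 1) * (B / x) ^ (d - e + 1)) := by
        rw [pow_add]
        ring
    _ = (6 * 2 ^ d) ^ (d + 2) * (x ^ (e + 1) * (B / x) ^ (d - e + 1)) := by
        congr 2
        omega
    _ ≤ (6 * 2 ^ d) ^ (d + 2) * (B ^ d * x⁻¹) := mul_le_mul_of_nonneg_left h3 (by positivity)
    _ = _ := by ring

/-- the main part -/
theorem red_main (d : ℕ) (hd : 3 ≤ d) (B : ℕ) (hB : 1 ≤ B) : ∃ F : Finset ℤ[X],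
    (∀ u v : ℤ[X], (u * v).natDegree = d → 1 ≤ u.natDegree → u.natDegree ≤ v.natDegree →
      ((u * v).map (Int.castRingHom ℂ)).mahlerMeasure ≤ B → u * v ∈ F) ∧
    (F.card : ℝ) ≤ d * (2 * ((6 * 2 ^ d) ^ (d + 2) * (B : ℝ) ^ d)) := by
  classical
  set F : Finset ℤ[X] := (Icc 1 (d / 2)).biUnion fun e =>
    (range (Nat.log 2 B + 1)).biUnion fun k =>
      ((redF e ((2 : ℝ≥0) ^ k * 2)) ×ˢ (redF (d - e) ((B : ℝ≥0) / 2 ^ k))).image
        (fun q => q.1 * q.2) with hF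
  refine ⟨F, ?_, ?_⟩
  · intro u v hd' hu huv hM
    have huv0 : u * v ≠ 0 := by
      intro h
      rw [h] at hd'
      simp at hd'
      omega
    have hu0 : u ≠ 0 := left_ne_zero_of_mul huv0
    have hv0 : v ≠ 0 := right_ne_zero_of_mul huv0
    rw [natDegree_mul hu0 hv0] at hd'
    rw [Polynomial.map_mul, mahlerMeasure_mul] at hM
    set Mu := (u.map (Int.castRingHom ℂ)).mahlerMeasure with hMu
    set Mv := (v.map (Int.castRingHom ℂ)).mahlerMeasure with hMv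
    have hMu1 : 1 ≤ Mu := one_le_mahlerMeasure_of_ne_zero hu0
    have hMv1 : 1 ≤ Mv := one_le_mahlerMeasure_of_ne_zero hv0
    have hfl : 1 ≤ ⌊Mu⌋₊ := (Nat.one_le_floor_iff _).2 hMu1
    set k := Nat.log 2 ⌊Mu⌋₊ with hk
    have hk1 : (2 : ℝ) ^ k ≤ Mu := by
      have h1 : 2 ^ k ≤ ⌊Mu⌋₊ := Nat.pow_log_le_self 2 (by omega)
      have h2 : ((2 ^ k : ℕ) : ℝ) ≤ (⌊Mu⌋₊ : ℝ) := by exact_mod_cast h1
      push_cast at h2
      exact h2.trans (Nat.floor_le (by linarith))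
    have hk2 : Mu ≤ (2 : ℝ) ^ k * 2 := by
      have h1 : ⌊Mu⌋₊ + 1 ≤ 2 ^ (k + 1) := Nat.lt_pow_succ_log_self (by norm_num) _
      have h2 : ((⌊Mu⌋₊ + 1 : ℕ) : ℝ) ≤ ((2 ^ (k + 1) : ℕ) : ℝ) := by exact_mod_cast h1
      push_cast at h2
      rw [← pow_succ]
      exact (Nat.lt_floor_add_one Mu).le.trans h2
    have hk3 : (2 : ℝ) ^ k ≤ B := by
      have : Mu ≤ B := by nlinarith
      linarith
    have hkB : k ≤ Nat.log 2 B := by
      have h1 : 2 ^ k ≤ B := by exact_mod_cast hk3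
      exact Nat.le_log_of_pow_le (by norm_num) h1
    simp only [hF, mem_biUnion, mem_image, mem_product, Prod.exists]
    refine ⟨u.natDegree, mem_Icc.2 ⟨hu, by omega⟩, k, mem_range.2 (by omega), u, v, ⟨?_, ?_⟩, rfl⟩
    · refine red_mem.2 ⟨le_rfl, ?_⟩
      push_cast
      exact hk2
    · refine red_mem.2 ⟨by omega, ?_⟩
      push_cast
      rw [le_div_iff₀ (by positivity)]
      have h5 : Mv * 2 ^ k ≤ Mv * Mu := mul_le_mul_of_nonneg_left hk1 (by linarith)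
      linarith
  · have h1 : ∀ e ∈ Icc 1 (d / 2), (((range (Nat.log 2 B + 1)).biUnion fun k =>
        ((redF e ((2 : ℝ≥0) ^ k * 2)) ×ˢ (redF (d - e) ((B : ℝ≥0) / 2 ^ k))).image
          (fun q => q.1 * q.2)).card : ℝ) ≤ 2 * ((6 * 2 ^ d) ^ (d + 2) * (B : ℝ) ^ d) := by
      intro e he
      rw [mem_Icc] at he
      have h2 : ∀ k ∈ range (Nat.log 2 B + 1),
          ((((redF e ((2 : ℝ≥0) ^ k * 2)) ×ˢ (redF (d - e) ((B : ℝ≥0) / 2 ^ k))).image
            (fun q => q.1 * q.2)).card : ℝ) ≤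
            (6 * 2 ^ d) ^ (d + 2) * (B : ℝ) ^ d * (1 / 2) ^ k := by
        intro k hk
        have hkB : (2 : ℝ) ^ k ≤ B := by
          have h3 : 2 ^ k ≤ B := (Nat.pow_le_pow_right (by norm_num)
            (by rw [mem_range] at hk; omega)).trans (Nat.pow_log_le_self 2 (by omega))
          exact_mod_cast h3
        have hx1 : (1 : ℝ) ≤ 2 ^ k := one_le_pow₀ (by norm_num)
        have h3 : ((((redF e ((2 : ℝ≥0) ^ k * 2)) ×ˢ (redF (d - e) ((B : ℝ≥0) / 2 ^ k))).image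
            (fun q => q.1 * q.2)).card : ℝ) ≤
            ((redF e ((2 : ℝ≥0) ^ k * 2)).card : ℝ) *
              ((redF (d - e) ((B : ℝ≥0) / 2 ^ k)).card : ℝ) := by
          have := card_image_le (s := (redF e ((2 : ℝ≥0) ^ k * 2)) ×ˢ
            (redF (d - e) ((B : ℝ≥0) / 2 ^ k))) (f := fun q : ℤ[X] × ℤ[X] => q.1 * q.2)
          rw [card_product] at this
          exact_mod_cast this
        have h4 := red_card e ((2 : ℝ≥0) ^ k * 2) (by
          rw [← NNReal.coe_le_coe]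
          push_cast
          linarith)
        have h5 := red_card (d - e) ((B : ℝ≥0) / 2 ^ k) (by
          rw [← NNReal.coe_le_coe]
          push_cast
          rw [le_div_iff₀ (by positivity)]
          linarith)
        push_cast at h4 h5
        have h6 := red_arith hd he.1 (show 2 * e ≤ d by omega) hx1 hkB
        have h7 : ((2 : ℝ) ^ k)⁻¹ = (1 / 2) ^ k := by
          rw [one_div, inv_pow]
        rw [h7] at h6
        exact h3.trans ((mul_le_mul h4 h5 (by positivity) (by positivity)).trans h6)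
      have h3 := card_biUnion_le (s := range (Nat.log 2 B + 1)) (t := fun k =>
        ((redF e ((2 : ℝ≥0) ^ k * 2)) ×ˢ (redF (d - e) ((B : ℝ≥0) / 2 ^ k))).image
          (fun q => q.1 * q.2))
      have h4 : (((range (Nat.log 2 B + 1)).biUnion fun k =>
        ((redF e ((2 : ℝ≥0) ^ k * 2)) ×ˢ (redF (d - e) ((B : ℝ≥0) / 2 ^ k))).image
          (fun q => q.1 * q.2)).card : ℝ) ≤ ∑ k ∈ range (Nat.log 2 B + 1),
          ((((redF e ((2 : ℝ≥0) ^ k * 2)) ×ˢ (redF (d - e) ((B : ℝ≥0) / 2 ^ k))).image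
            (fun q => q.1 * q.2)).card : ℝ) := by exact_mod_cast h3
      refine h4.trans ((sum_le_sum h2).trans ?_)
      rw [← mul_sum]
      have h5 := sum_geometric_two_le (Nat.log 2 B + 1)
      have h6 : (0 : ℝ) ≤ (6 * 2 ^ d) ^ (d + 2) * (B : ℝ) ^ d := by positivity
      have h7 := mul_le_mul_of_nonneg_left h5 h6
      linarith
    have h2 : (F.card : ℝ) ≤ ∑ e ∈ Icc 1 (d / 2), (((range (Nat.log 2 B + 1)).biUnion fun k =>
        ((redF e ((2 : ℝ≥0) ^ k * 2)) ×ˢ (redF (d - e) ((B : ℝ≥0) / 2 ^ k))).image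
          (fun q => q.1 * q.2)).card : ℝ) := by
      have := card_biUnion_le (s := Icc 1 (d / 2)) (t := fun e =>
        (range (Nat.log 2 B + 1)).biUnion fun k =>
        ((redF e ((2 : ℝ≥0) ^ k * 2)) ×ˢ (redF (d - e) ((B : ℝ≥0) / 2 ^ k))).image
          (fun q => q.1 * q.2))
      rw [← hF] at this
      exact_mod_cast this
    refine h2.trans ((sum_le_sum h1).trans ?_)
    rw [sum_const, nsmul_eq_mul]
    refine mul_le_mul_of_nonneg_right ?_ (by positivity)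
    rw [Nat.card_Icc]
    have : d / 2 + 1 - 1 ≤ d := by omega
    exact_mod_cast this

theorem red_low (d : ℕ) (hd : 1 ≤ d) (H : ℕ) :
    {g : ℤ[X] | g.natDegree ≤ d - 1 ∧ ∀ n, |g.coeff n| ≤ (H : ℤ)}.Finite ∧
    {g : ℤ[X] | g.natDegree ≤ d - 1 ∧ ∀ n, |g.coeff n| ≤ (H : ℤ)}.ncard ≤ (2 * H + 1) ^ d := by
  have h1 := ncard_boxPoly (d - 1) (fun _ => -(H : ℝ)) (fun _ => (H : ℝ))
  have h2 : (⌊(H : ℝ)⌋ - ⌈-(H : ℝ)⌉ + 1).toNat = 2 * H + 1 := by
    have e1 : ⌊(H : ℝ)⌋ = (H : ℤ) := by simp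
    have e2 : ⌈-(H : ℝ)⌉ = -(H : ℤ) := by
      rw [Int.ceil_neg]
      simp
    rw [e1, e2]
    omega
  rw [h2, prod_const, card_univ, Fintype.card_fin] at h1
  replace h1 := h1.trans (show (2 * H + 1) ^ (d - 1 + 1) = (2 * H + 1) ^ d by
    rw [Nat.sub_add_cancel hd])
  have hfin : (boxPoly (d - 1) (fun _ => -(H : ℝ)) (fun _ => (H : ℝ))).Finite := by
    refine Set.finite_of_ncard_ne_zero ?_
    rw [h1]
    positivity
  have hsub : {g : ℤ[X] | g.natDegree ≤ d - 1 ∧ ∀ n, |g.coeff n| ≤ (H : ℤ)} ⊆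
      boxPoly (d - 1) (fun _ => -(H : ℝ)) (fun _ => (H : ℝ)) := by
    rintro g ⟨h3, h4⟩
    refine ⟨h3, fun i => ?_⟩
    have h5 := abs_le.1 (h4 i)
    have h6 : (-(H : ℝ)) ≤ (g.coeff i : ℝ) := by exact_mod_cast h5.1
    have h7 : (g.coeff i : ℝ) ≤ (H : ℝ) := by exact_mod_cast h5.2
    exact ⟨h6, h7⟩
  refine ⟨hfin.subset hsub, ?_⟩
  rw [← h1]
  exact Set.ncard_le_ncard hsub hfin

theorem count_reducible (d : ℕ) (hd : 3 ≤ d) : ∃ C : ℕ, ∀ H : ℕ, 1 ≤ H →
    {g : ℤ[X] | g.natDegree ≤ d ∧ (∀ n, |g.coeff n| ≤ (H : ℤ)) ∧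
      ¬ (g.natDegree = d ∧ Irreducible (g.map (Int.castRingHom ℚ)))}.Finite ∧
    {g : ℤ[X] | g.natDegree ≤ d ∧ (∀ n, |g.coeff n| ≤ (H : ℤ)) ∧
      ¬ (g.natDegree = d ∧ Irreducible (g.map (Int.castRingHom ℚ)))}.ncard ≤ C * H ^ d := by
  refine ⟨3 ^ d + d * (2 * ((6 * 2 ^ d) ^ (d + 2) * (d + 1) ^ d)), fun H hH => ?_⟩
  obtain ⟨F, hF, hFc⟩ := red_main d hd ((d + 1) * H) (by nlinarith)
  obtain ⟨hl1, hl2⟩ := red_low d (by omega) H
  set S1 := {g : ℤ[X] | g.natDegree ≤ d - 1 ∧ ∀ n, |g.coeff n| ≤ (H : ℤ)} with hS1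
  set S := {g : ℤ[X] | g.natDegree ≤ d ∧ (∀ n, |g.coeff n| ≤ (H : ℤ)) ∧
      ¬ (g.natDegree = d ∧ Irreducible (g.map (Int.castRingHom ℚ)))} with hS
  have hsub : S ⊆ S1 ∪ (F : Set ℤ[X]) := by
    rintro g ⟨h1, h2, h3⟩
    by_cases hg : g.natDegree = d
    · right
      have h4 : ¬ Irreducible (g.map (Int.castRingHom ℚ)) := fun h => h3 ⟨hg, h⟩
      obtain ⟨u, v, huv, hu, hv⟩ := red_factor (by omega) h4
      have h5 := red_mahler_le h2
      rw [hg] at h5
      rw [huv] at hg h5 ⊢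
      exact hF u v hg hu hv (by push_cast; exact h5)
    · left
      exact ⟨by omega, h2⟩
  have hfin : (S1 ∪ (F : Set ℤ[X])).Finite := hl1.union F.finite_toSet
  refine ⟨hfin.subset hsub, ?_⟩
  have h6 : S.ncard ≤ S1.ncard + F.card := by
    refine (Set.ncard_le_ncard hsub hfin).trans ((Set.ncard_union_le _ _).trans ?_)
    rw [Set.ncard_coe_finset]
  have h7 : F.card ≤ d * (2 * ((6 * 2 ^ d) ^ (d + 2) * ((d + 1) * H) ^ d)) := by
    exact_mod_cast hFc
  have h8 : (2 * H + 1) ^ d ≤ 3 ^ d * H ^ d := by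
    rw [← mul_pow]
    exact Nat.pow_le_pow_left (by omega) d
  rw [mul_pow (d + 1) H d] at h7
  calc S.ncard ≤ 3 ^ d * H ^ d +
        d * (2 * ((6 * 2 ^ d) ^ (d + 2) * ((d + 1) ^ d * H ^ d))) := by omega
    _ = (3 ^ d + d * (2 * ((6 * 2 ^ d) ^ (d + 2) * (d + 1) ^ d))) * H ^ d := by ring

end Pool.Agent.LW
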