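import Pool.Agent.LW.CNT
import Pool.Agent.LW.RED
import Pool.Agent.LW.BOX
import Pool.Agent.LW.BND

set_option autoImplicit false

namespace Pool.Agent.LW

open Polynomial Finset

/-- the polynomials in one variable of degree at most `d` and height at most `H` -/
lemma all_gset_card (d H : ℕ) :
    ({g : ℤ[X] | g.natDegree ≤ d ∧ ∀ n, |g.coeff n| ≤ (H : ℤ)}).Finite ∧
    ({g : ℤ[X] | g.natDegree ≤ d ∧ ∀ n, |g.coeff n| ≤ (H : ℤ)}).ncard ≤ (2 * H + 1) ^ (d + 1) := by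
  classical
  set F : Finset (Fin (d + 1) → ℤ) := Fintype.piFinset (fun _ => Finset.Icc (-(H : ℤ)) H) with hF
  set G : Finset ℤ[X] := F.image (fun f => ∑ i : Fin (d + 1), monomial (i : ℕ) (f i)) with hG
  have hsub : ({g : ℤ[X] | g.natDegree ≤ d ∧ ∀ n, |g.coeff n| ≤ (H : ℤ)}) ⊆ ↑G := by
    rintro g ⟨hg1, hg2⟩
    rw [hG, coe_image]
    refine ⟨fun i => g.coeff i, ?_, ?_⟩
    · rw [mem_coe, hF, Fintype.mem_piFinset]
      intro i
      rw [Finset.mem_Icc]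
      exact abs_le.mp (hg2 i)
    · change ∑ i : Fin (d + 1), monomial (i : ℕ) (g.coeff i) = g
      rw [Fin.sum_univ_eq_sum_range (fun i => monomial i (g.coeff i)) (d + 1)]
      exact (g.as_sum_range' (d + 1) (by omega)).symm
  have hcard : G.card ≤ (2 * H + 1) ^ (d + 1) := by
    refine Finset.card_image_le.trans ?_
    rw [hF, Fintype.card_piFinset]
    simp only [Int.card_Icc, prod_const, card_univ, Fintype.card_fin]
    refine Nat.pow_le_pow_left ?_ _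
    omega
  refine ⟨G.finite_toSet.subset hsub, ?_⟩
  exact (Set.ncard_le_ncard hsub G.finite_toSet).trans (by rw [Set.ncard_coe_finset]; exact hcard)

lemma all_gk_coeff (c : ℕ → ℕ → ℤ) (k j : ℕ) : (gk c k).coeff j = if j ≤ k then c (k - j) j else 0 := by
  unfold gk
  rw [finsetSum_coeff]
  simp only [coeff_monomial]
  rw [Finset.sum_ite_eq' (range (k + 1)) j (fun j => c (k - j) j)]
  simp only [mem_range, Nat.lt_succ_iff]

lemma all_gk_mem_gset (d H : ℕ) (c : ℕ → ℕ → ℤ) (hc : c ∈ Box d H) :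
    gk c d ∈ {g : ℤ[X] | g.natDegree ≤ d ∧ ∀ n, |g.coeff n| ≤ (H : ℤ)} := by
  refine ⟨?_, fun n => ?_⟩
  · rw [natDegree_le_iff_coeff_eq_zero]
    intro j hj
    rw [all_gk_coeff, if_neg (by omega)]
  · rw [all_gk_coeff]
    split_ifs with h
    · exact hc.2 _ _ (by omega)
    · simp

/-- zeros with a large coordinate have a large first coordinate -/
lemma large_fst (d K : ℕ) (hd : 1 ≤ d) : ∃ k : ℕ, ∀ H : ℕ, 2 ≤ H → ∀ c : ℕ → ℕ → ℤ, Ht d c H →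
    (gk c d).natDegree = d → ∀ a b : ℤ, ev d c a b = 0 → (H : ℤ) ^ k < max |a| |b| →
      (H : ℝ) ^ K < |(a : ℝ)| := by
  obtain ⟨k, hk⟩ := b_bound d hd
  refine ⟨k + (K + 1), ?_⟩
  intro H hH c hHt hdeg a b h0 hmax
  have hH1 : (1 : ℝ) ≤ H := by exact_mod_cast (by omega : 1 ≤ H)
  have hH2 : (2 : ℝ) ≤ H := by exact_mod_cast hH
  by_contra hcon
  push Not at hcon
  have hb := hk H hH c hHt hdeg a b h0
  have hK1 : (1 : ℝ) ≤ (H : ℝ) ^ K := one_le_pow₀ hH1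
  have hk1 : (1 : ℝ) ≤ (H : ℝ) ^ k := one_le_pow₀ hH1
  have h1 : |(a : ℝ)| + 1 ≤ (H : ℝ) ^ (K + 1) := by
    rw [pow_succ]; nlinarith
  have h2 : |(b : ℝ)| ≤ (H : ℝ) ^ (k + (K + 1)) := by
    rw [pow_add]
    exact hb.trans (mul_le_mul_of_nonneg_left h1 (by positivity))
  have h3 : |(a : ℝ)| ≤ (H : ℝ) ^ (k + (K + 1)) := by
    rw [pow_add]
    have : (0 : ℝ) ≤ (H : ℝ) ^ (K + 1) := by positivity
    nlinarith
  have h4 : ((max |a| |b| : ℤ) : ℝ) ≤ (H : ℝ) ^ (k + (K + 1)) := by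
    push_cast
    exact max_le h3 h2
  have h5 : ((H : ℤ) ^ (k + (K + 1)) : ℤ) < max |a| |b| := hmax
  have h6 : (((H : ℤ) ^ (k + (K + 1)) : ℤ) : ℝ) < ((max |a| |b| : ℤ) : ℝ) := by exact_mod_cast h5
  push_cast at h6 h4
  linarith

/-- the count for height at least two -/
lemma count_two (d : ℕ) (hd : 4 ≤ d) : ∃ k C : ℕ, ∀ H : ℕ, 2 ≤ H →
    (∀ g : ℤ[X], {c ∈ Box d H | gk c d = g ∧ Lead d c ∧ ∃ a b : ℤ, ev d c a b = 0 ∧
      (H : ℤ) ^ k < max |a| |b|}.ncard ≤ C * H ^ (3 * d - 3)) ∧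
    {c ∈ Box d H | ∃ a b : ℤ, ev d c a b = 0 ∧
      (H : ℤ) ^ k < max |a| |b|}.ncard ≤ C * H ^ (d * (d + 3) / 2) := by
  classical
  obtain ⟨K, C₁, h₁⟩ := count_lead d hd
  obtain ⟨C₂, h₂⟩ := count_reducible d (by omega)
  obtain ⟨k, hk⟩ := large_fst d K (by omega)
  refine ⟨k, C₂ * 3 ^ (d * (d + 1) / 2) + 3 ^ (d + 1) * C₁ + C₁, ?_⟩
  intro H hH
  have hH1 : 1 ≤ H := by omega
  have hsubE : ∀ g : ℤ[X], {c ∈ Box d H | gk c d = g ∧ Lead d c ∧ ∃ a b : ℤ, ev d c a b = 0 ∧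
      (H : ℤ) ^ k < max |a| |b|} ⊆ Exc d K H g := by
    rintro g c ⟨hc, hg, hL, a, b, h0, hm⟩
    exact ⟨hc.1, hc.2, hL, hg, a, b, h0, hk H hH c hc.2 hL.1 a b h0 hm⟩
  constructor
  · intro g
    refine (Set.ncard_le_ncard (hsubE g) (h₁ H hH g).1).trans ((h₁ H hH g).2.trans ?_)
    exact Nat.mul_le_mul_right _ (by omega)
  · obtain ⟨hGf, hGc⟩ := all_gset_card d H
    set S := {g : ℤ[X] | g.natDegree ≤ d ∧ (∀ n, |g.coeff n| ≤ (H : ℤ)) ∧
      ¬ (g.natDegree = d ∧ Irreducible (g.map (Int.castRingHom ℚ)))} with hS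
    obtain ⟨hSf, hSc⟩ := h₂ H hH1
    have hsub : {c ∈ Box d H | ∃ a b : ℤ, ev d c a b = 0 ∧ (H : ℤ) ^ k < max |a| |b|} ⊆
        {c ∈ Box d H | gk c d ∈ S} ∪ ⋃ g ∈ hGf.toFinset, Exc d K H g := by
      rintro c ⟨hc, a, b, h0, hm⟩
      have hgm := all_gk_mem_gset d H c hc
      by_cases hL : Lead d c
      · right
        rw [Set.mem_iUnion₂]
        exact ⟨gk c d, hGf.mem_toFinset.mpr hgm, hsubE (gk c d) ⟨hc, rfl, hL, a, b, h0, hm⟩⟩
      · left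
        exact ⟨hc, hgm.1, hgm.2, fun h => hL h⟩
    have hf1 : {c ∈ Box d H | gk c d ∈ S}.Finite := (box_finite d H).subset (fun c hc => hc.1)
    have hf2 : (⋃ g ∈ hGf.toFinset, Exc d K H g).Finite :=
      Set.Finite.biUnion (Finset.finite_toSet _) (fun g _ => (h₁ H hH g).1)
    have hcu : (⋃ g ∈ hGf.toFinset, Exc d K H g).ncard ≤
        (2 * H + 1) ^ (d + 1) * (C₁ * H ^ (3 * d - 3)) := by
      refine (Finset.set_ncard_biUnion_le _ _).trans ?_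
      refine (Finset.sum_le_card_nsmul _ _ (C₁ * H ^ (3 * d - 3)) (fun g _ => (h₁ H hH g).2)).trans ?_
      rw [smul_eq_mul]
      refine Nat.mul_le_mul_right _ ?_
      rw [← Set.ncard_eq_toFinset_card _ hGf]
      exact hGc
    have hcs : {c ∈ Box d H | gk c d ∈ S}.ncard ≤ C₂ * H ^ d * (2 * H + 1) ^ (d * (d + 1) / 2) :=
      (box_fiber d H S hSf).trans (Nat.mul_le_mul_right _ hSc)
    have h3H : 2 * H + 1 ≤ 3 * H := by omega
    have e1 : d * (d + 3) / 2 = d + d * (d + 1) / 2 := by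
      have : d * (d + 3) = d * (d + 1) + d * 2 := by ring
      rw [this, Nat.add_mul_div_right _ _ (by norm_num)]
      ring
    have e2 : d + 1 + (3 * d - 3) ≤ d * (d + 3) / 2 := by
      rw [Nat.le_div_iff_mul_le (by norm_num)]
      have e3 : d + 1 + (3 * d - 3) = 4 * d - 2 := by omega
      rw [e3]
      obtain ⟨m, rfl⟩ := Nat.exists_eq_add_of_le hd
      have e4 : 4 * (4 + m) - 2 = 14 + 4 * m := by omega
      rw [e4]; nlinarith
    calc {c ∈ Box d H | ∃ a b : ℤ, ev d c a b = 0 ∧ (H : ℤ) ^ k < max |a| |b|}.ncard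
        ≤ ({c ∈ Box d H | gk c d ∈ S} ∪ ⋃ g ∈ hGf.toFinset, Exc d K H g).ncard :=
          Set.ncard_le_ncard hsub (hf1.union hf2)
      _ ≤ {c ∈ Box d H | gk c d ∈ S}.ncard + (⋃ g ∈ hGf.toFinset, Exc d K H g).ncard :=
          Set.ncard_union_le _ _
      _ ≤ C₂ * H ^ d * (2 * H + 1) ^ (d * (d + 1) / 2) +
          (2 * H + 1) ^ (d + 1) * (C₁ * H ^ (3 * d - 3)) := add_le_add hcs hcu
      _ ≤ C₂ * H ^ d * (3 * H) ^ (d * (d + 1) / 2) +
          (3 * H) ^ (d + 1) * (C₁ * H ^ (3 * d - 3)) := by gcongr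
      _ = C₂ * 3 ^ (d * (d + 1) / 2) * H ^ (d + d * (d + 1) / 2) +
          3 ^ (d + 1) * C₁ * H ^ (d + 1 + (3 * d - 3)) := by
          rw [mul_pow, mul_pow, pow_add, pow_add]; ring
      _ ≤ C₂ * 3 ^ (d * (d + 1) / 2) * H ^ (d * (d + 3) / 2) +
          3 ^ (d + 1) * C₁ * H ^ (d * (d + 3) / 2) := by
          rw [e1]
          rw [e1] at e2
          gcongr
      _ ≤ (C₂ * 3 ^ (d * (d + 1) / 2) + 3 ^ (d + 1) * C₁ + C₁) * H ^ (d * (d + 3) / 2) := by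
          rw [← add_mul]
          exact Nat.mul_le_mul_right _ (by omega)

theorem count_all (d : ℕ) (hd : 4 ≤ d) : ∃ k C : ℕ, ∀ H : ℕ, 1 ≤ H →
    (∀ g : ℤ[X], {c ∈ Box d H | gk c d = g ∧ Lead d c ∧ ∃ a b : ℤ, ev d c a b = 0 ∧
      (C : ℤ) * (H : ℤ) ^ k < max |a| |b|}.ncard ≤ C * H ^ (3 * d - 3)) ∧
    {c ∈ Box d H | ∃ a b : ℤ, ev d c a b = 0 ∧
      (C : ℤ) * (H : ℤ) ^ k < max |a| |b|}.ncard ≤ C * H ^ (d * (d + 3) / 2) := by
  obtain ⟨k, C, h⟩ := count_two d hd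
  obtain ⟨q, hq⟩ : ∃ q : ℕ, q = 2 ^ k := ⟨_, rfl⟩
  refine ⟨k, C * 2 ^ (3 * d - 3) + C * 2 ^ (d * (d + 3) / 2) + q, ?_⟩
  set C' := C * 2 ^ (3 * d - 3) + C * 2 ^ (d * (d + 3) / 2) + q with hC'
  have hbox : Box d 1 ⊆ Box d 2 := fun c hc => ⟨hc.1, fun i j hij => (hc.2 i j hij).trans (by norm_num)⟩
  have hC'2 : 2 ^ k ≤ C' := by rw [← hq]; omega
  have hCC : C ≤ C' := by
    have : C * 1 ≤ C * 2 ^ (3 * d - 3) := Nat.mul_le_mul_left _ Nat.one_le_two_pow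
    omega
  have hC1 : 1 ≤ C' := Nat.one_le_two_pow.trans hC'2
  intro H hH
  rcases Nat.lt_or_ge H 2 with hlt | hge
  · have hH1 : H = 1 := by omega
    subst hH1
    obtain ⟨h1, h2⟩ := h 2 le_rfl
    have hmax : ∀ a b : ℤ, (C' : ℤ) * ((1 : ℕ) : ℤ) ^ k < max |a| |b| → ((2 : ℕ) : ℤ) ^ k < max |a| |b| := by
      intro a b hab
      have : ((2 : ℕ) : ℤ) ^ k ≤ (C' : ℤ) := by exact_mod_cast hC'2
      simp only [Nat.cast_one, one_pow, mul_one] at hab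
      linarith
    constructor
    · intro g
      refine (Set.ncard_le_ncard (t := {c ∈ Box d 2 | gk c d = g ∧ Lead d c ∧ ∃ a b : ℤ, ev d c a b = 0 ∧
        ((2 : ℕ) : ℤ) ^ k < max |a| |b|}) ?_ ((box_finite d 2).subset (fun c hc => hc.1))).trans ?_
      · rintro c ⟨hc, hg, hL, a, b, h0, hm⟩
        exact ⟨hbox hc, hg, hL, a, b, h0, hmax a b hm⟩
      · refine (h1 g).trans ?_
        rw [one_pow, mul_one]; omega
    · refine (Set.ncard_le_ncard (t := {c ∈ Box d 2 | ∃ a b : ℤ, ev d c a b = 0 ∧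
        ((2 : ℕ) : ℤ) ^ k < max |a| |b|}) ?_ ((box_finite d 2).subset (fun c hc => hc.1))).trans ?_
      · rintro c ⟨hc, a, b, h0, hm⟩
        exact ⟨hbox hc, a, b, h0, hmax a b hm⟩
      · refine h2.trans ?_
        rw [one_pow, mul_one]; omega
  · obtain ⟨h1, h2⟩ := h H hge
    have hmax : ∀ a b : ℤ, (C' : ℤ) * (H : ℤ) ^ k < max |a| |b| → (H : ℤ) ^ k < max |a| |b| := by
      intro a b hab
      have h3 : (1 : ℤ) ≤ (C' : ℤ) := by exact_mod_cast hC1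
      have h4 : (0 : ℤ) ≤ (H : ℤ) ^ k := by positivity
      nlinarith
    constructor
    · intro g
      refine (Set.ncard_le_ncard (t := {c ∈ Box d H | gk c d = g ∧ Lead d c ∧ ∃ a b : ℤ, ev d c a b = 0 ∧
        (H : ℤ) ^ k < max |a| |b|}) ?_ ((box_finite d H).subset (fun c hc => hc.1))).trans ?_
      · rintro c ⟨hc, hg, hL, a, b, h0, hm⟩
        exact ⟨hc, hg, hL, a, b, h0, hmax a b hm⟩
      · exact (h1 g).trans (Nat.mul_le_mul_right _ hCC)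
    · refine (Set.ncard_le_ncard (t := {c ∈ Box d H | ∃ a b : ℤ, ev d c a b = 0 ∧
        (H : ℤ) ^ k < max |a| |b|}) ?_ ((box_finite d H).subset (fun c hc => hc.1))).trans ?_
      · rintro c ⟨hc, a, b, h0, hm⟩
        exact ⟨hc, a, b, h0, hmax a b hm⟩
      · exact h2.trans (Nat.mul_le_mul_right _ hCC)

end Pool.Agent.LW
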