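import Pool.Agent.LW.DD

set_option autoImplicit false

namespace Pool.Agent.LW

open Polynomial Finset

/-- no three points on the same branch are collinear -/
theorem not_collinear (D k : ℕ) (hD : 1 ≤ D) : ∃ K : ℕ, ∀ H : ℕ, 2 ≤ H → ∀ Z : ℝ, (H : ℝ) ^ K ≤ Z →
    ∀ s : ℕ, 1 ≤ s → s ≤ D → ∀ τ β β₁ β₂ : ℝ, |β₂| ≤ (H : ℝ) ^ k → 1 ≤ (H : ℝ) ^ k * |β₁| →
    ∀ a b : Fin 3 → ℤ, (∀ i, Z ^ (100 * D ^ 2) ≤ (a i : ℝ) ∧ (a i : ℝ) ≤ Z ^ (100 * D ^ 2 + 1)) →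
    (∀ i j, i ≠ j → Z ^ (100 * D - 1) ≤ |(a i : ℝ) - a j|) →
    (∀ i, |(b i : ℝ) - τ * a i - β - β₁ / (a i : ℝ) ^ s - β₂ / (a i : ℝ) ^ (s + 1)| *
      (a i : ℝ) ^ (s + 2) ≤ (H : ℝ) ^ k) → tri a b ≠ 0 := by
  refine ⟨2 * k + ((D + 1) ^ 2 + 3), ?_⟩
  intro H hH Z hZ s hs hsD τ β β₁ β₂ hβ₂ hβ₁ a b ha hsep hexp htri
  have hH1 : (1 : ℝ) ≤ H := by exact_mod_cast (by omega : 1 ≤ H)
  have hZ1 : (1 : ℝ) ≤ Z := (one_le_pow₀ hH1).trans hZ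
  have hZ0 : 0 < Z := by linarith
  set N : ℕ := 100 * D ^ 2 with hN
  have hDD : D ≤ D ^ 2 := Nat.le_self_pow (by norm_num) D
  have hapos : ∀ i, 0 < (a i : ℝ) := fun i => lt_of_lt_of_le (by positivity) (ha i).1
  have hZs : 0 < Z ^ (100 * D - 1) := by positivity
  have hne : ∀ i j, i ≠ j → (a i : ℝ) ≠ a j := fun i j hij h => by
    have := hsep i j hij
    rw [h, sub_self, abs_zero] at this
    linarith
  set e : Fin 3 → ℝ := fun i => (b i : ℝ) - τ * a i - β - β₁ / (a i : ℝ) ^ s - β₂ / (a i : ℝ) ^ (s + 1)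
    with he
  have h01 := hne 0 1 (by decide)
  have h02 := hne 0 2 (by decide)
  have h12 := hne 1 2 (by decide)
  have s01 : (a 0 : ℝ) - a 1 ≠ 0 := sub_ne_zero.mpr h01
  have s10 : (a 1 : ℝ) - a 0 ≠ 0 := sub_ne_zero.mpr h01.symm
  have s02 : (a 0 : ℝ) - a 2 ≠ 0 := sub_ne_zero.mpr h02
  have s20 : (a 2 : ℝ) - a 0 ≠ 0 := sub_ne_zero.mpr h02.symm
  have s12 : (a 1 : ℝ) - a 2 ≠ 0 := sub_ne_zero.mpr h12
  have s21 : (a 2 : ℝ) - a 1 ≠ 0 := sub_ne_zero.mpr h12.symm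
  -- the divided difference of the error
  set DE : ℝ := e 0 / (((a 0 : ℝ) - a 1) * ((a 0 : ℝ) - a 2)) + e 1 / (((a 1 : ℝ) - a 0) * ((a 1 : ℝ) - a 2)) +
    e 2 / (((a 2 : ℝ) - a 0) * ((a 2 : ℝ) - a 1)) with hDE
  have htri' : ((a 1 : ℝ) - a 0) * ((b 2 : ℝ) - b 0) - ((a 2 : ℝ) - a 0) * ((b 1 : ℝ) - b 0) = 0 := by
    have := congrArg (Int.cast : ℤ → ℝ) htri
    unfold tri at this
    push_cast at this
    exact this
  have hb2 : (b 0 : ℝ) / (((a 0 : ℝ) - a 1) * ((a 0 : ℝ) - a 2)) + b 1 / (((a 1 : ℝ) - a 0) * ((a 1 : ℝ) - a 2)) +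
    b 2 / (((a 2 : ℝ) - a 0) * ((a 2 : ℝ) - a 1)) = 0 := by
    have e1 : (a 1 : ℝ) - a 0 = -((a 0 : ℝ) - a 1) := by ring
    have e2 : (a 2 : ℝ) - a 0 = -((a 0 : ℝ) - a 2) := by ring
    have e3 : (a 2 : ℝ) - a 1 = -((a 1 : ℝ) - a 2) := by ring
    have h1 : (b 0 : ℝ) / (((a 0 : ℝ) - a 1) * ((a 0 : ℝ) - a 2)) + b 1 / (((a 1 : ℝ) - a 0) * ((a 1 : ℝ) - a 2)) +
      b 2 / (((a 2 : ℝ) - a 0) * ((a 2 : ℝ) - a 1)) =
      (((a 1 : ℝ) - a 0) * ((b 2 : ℝ) - b 0) - ((a 2 : ℝ) - a 0) * ((b 1 : ℝ) - b 0)) /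
        (((a 1 : ℝ) - a 0) * ((a 2 : ℝ) - a 0) * ((a 2 : ℝ) - a 1)) := by
      rw [e1, e2, e3]
      have s01' := s01
      have s02' := s02
      have s12' := s12
      field_simp
      ring
    rw [h1, htri', zero_div]
  have hrel : β₁ * dd s (a 0) (a 1) (a 2) + β₂ * dd (s + 1) (a 0) (a 1) (a 2) + DE = 0 := by
    have hb' : ∀ i, (b i : ℝ) = τ * a i + β + β₁ * (1 / (a i : ℝ) ^ s) + β₂ * (1 / (a i : ℝ) ^ (s + 1)) + e i := by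
      intro i
      rw [he]
      ring
    rw [hb' 0, hb' 1, hb' 2] at hb2
    have hlin : (τ * a 0 + β) / (((a 0 : ℝ) - a 1) * ((a 0 : ℝ) - a 2)) +
        (τ * a 1 + β) / (((a 1 : ℝ) - a 0) * ((a 1 : ℝ) - a 2)) +
        (τ * a 2 + β) / (((a 2 : ℝ) - a 0) * ((a 2 : ℝ) - a 1)) = 0 := by
      have e1 : (a 1 : ℝ) - a 0 = -((a 0 : ℝ) - a 1) := by ring
      have e2 : (a 2 : ℝ) - a 0 = -((a 0 : ℝ) - a 2) := by ring
      have e3 : (a 2 : ℝ) - a 1 = -((a 1 : ℝ) - a 2) := by ring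
      rw [e1, e2, e3]
      field_simp
      ring
    unfold dd
    rw [hDE]
    rw [← hb2]
    linear_combination (-1 : ℝ) * hlin
  -- the bounds
  set P : ℝ := Z ^ ((N + 1) * (s + 2)) with hP
  have hP0 : 0 < P := by positivity
  have hmpos : 0 < Z ^ N := by positivity
  have hlow := dd_lower s hs (a 0) (a 1) (a 2) (Z ^ (N + 1)) (hapos 0) (hapos 1) (hapos 2) h01 h02 h12
    (ha 0).2 (ha 1).2 (ha 2).2
  have hup := dd_upper (s + 1) (a 0) (a 1) (a 2) (Z ^ N) hmpos (ha 0).1 (ha 1).1 (ha 2).1 h01 h02 h12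
  rw [← pow_mul] at hlow hup
  have h1 : 1 ≤ P * dd s (a 0) (a 1) (a 2) := by
    rw [div_le_iff₀ (by positivity)] at hlow
    rw [mul_comm]; exact hlow
  have h2 : P * |dd (s + 1) (a 0) (a 1) (a 2)| ≤ ((s : ℝ) + 1) ^ 2 / Z := by
    rw [le_div_iff₀ (by positivity)] at hup
    rw [le_div_iff₀ hZ0]
    have h3 : P * Z ≤ Z ^ (N * (s + 1 + 2)) := by
      rw [hP, ← pow_succ]
      refine pow_le_pow_right₀ hZ1 ?_
      have : s + 3 ≤ N := by nlinarith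
      nlinarith
    have h4 := abs_nonneg (dd (s + 1) (a 0 : ℝ) (a 1) (a 2))
    calc P * |dd (s + 1) (a 0 : ℝ) (a 1) (a 2)| * Z = |dd (s + 1) (a 0 : ℝ) (a 1) (a 2)| * (P * Z) := by ring
      _ ≤ |dd (s + 1) (a 0 : ℝ) (a 1) (a 2)| * Z ^ (N * (s + 1 + 2)) := by gcongr
      _ ≤ ((s + 1 : ℕ) : ℝ) ^ 2 := hup
      _ = ((s : ℝ) + 1) ^ 2 := by push_cast; ring
  have hterm : ∀ i j l : Fin 3, i ≠ j → i ≠ l →
      P * |e i / (((a i : ℝ) - a j) * ((a i : ℝ) - a l))| ≤ (H : ℝ) ^ k / Z := by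
    intro i j l hij hil
    have g1 := hsep i j hij
    have g2 := hsep i l hil
    have g3 : Z ^ (N * (s + 2)) ≤ (a i : ℝ) ^ (s + 2) := by
      rw [pow_mul]; exact pow_le_pow_left₀ (by positivity) (ha i).1 _
    have g4 : |e i| * Z ^ (N * (s + 2)) ≤ (H : ℝ) ^ k :=
      (mul_le_mul_of_nonneg_left g3 (abs_nonneg _)).trans (hexp i)
    rw [abs_div, abs_mul, mul_div_assoc', div_le_div_iff₀ (by
      have := hZs.trans_le g1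
      have := hZs.trans_le g2
      positivity) hZ0]
    have g5 : P * Z ≤ Z ^ (N * (s + 2)) * (Z ^ (100 * D - 1) * Z ^ (100 * D - 1)) := by
      rw [hP, ← pow_succ, ← pow_add, ← pow_add]
      refine pow_le_pow_right₀ hZ1 ?_
      have : (N + 1) * (s + 2) = N * (s + 2) + (s + 2) := by ring
      omega
    calc P * |e i| * Z = |e i| * (P * Z) := by ring
      _ ≤ |e i| * (Z ^ (N * (s + 2)) * (Z ^ (100 * D - 1) * Z ^ (100 * D - 1))) := by gcongr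
      _ = (|e i| * Z ^ (N * (s + 2))) * (Z ^ (100 * D - 1) * Z ^ (100 * D - 1)) := by ring
      _ ≤ (H : ℝ) ^ k * (|(a i : ℝ) - a j| * |(a i : ℝ) - a l|) := by gcongr
  have h5 : P * |DE| ≤ 3 * ((H : ℝ) ^ k / Z) := by
    have t0 := hterm 0 1 2 (by decide) (by decide)
    have t1 := hterm 1 0 2 (by decide) (by decide)
    have t2 := hterm 2 0 1 (by decide) (by decide)
    have := abs_add_three (e 0 / (((a 0 : ℝ) - a 1) * ((a 0 : ℝ) - a 2)))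
      (e 1 / (((a 1 : ℝ) - a 0) * ((a 1 : ℝ) - a 2))) (e 2 / (((a 2 : ℝ) - a 0) * ((a 2 : ℝ) - a 1)))
    rw [← hDE] at this
    have := mul_le_mul_of_nonneg_left this hP0.le
    linarith
  have h6 : |β₁| ≤ (H : ℝ) ^ k * ((((D : ℝ) + 1) ^ 2 + 3) / Z) := by
    have g1 : |β₁| * dd s (a 0) (a 1) (a 2) ≤ |β₂| * |dd (s + 1) (a 0 : ℝ) (a 1) (a 2)| + |DE| := by
      have g2 : β₁ * dd s (a 0) (a 1) (a 2) = -(β₂ * dd (s + 1) (a 0) (a 1) (a 2) + DE) := by linarith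
      have g3 : 0 < dd s (a 0 : ℝ) (a 1) (a 2) := by
        by_contra hcon
        push Not at hcon
        nlinarith
      calc |β₁| * dd s (a 0) (a 1) (a 2) = |β₁ * dd s (a 0) (a 1) (a 2)| := by
            rw [abs_mul, abs_of_pos g3]
        _ = |β₂ * dd (s + 1) (a 0) (a 1) (a 2) + DE| := by rw [g2, abs_neg]
        _ ≤ |β₂ * dd (s + 1) (a 0) (a 1) (a 2)| + |DE| := abs_add_le _ _
        _ = _ := by rw [abs_mul]
    have g4 : |β₁| ≤ |β₁| * (P * dd s (a 0) (a 1) (a 2)) := by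
      have := abs_nonneg β₁
      nlinarith
    have g5 : |β₂| * (P * |dd (s + 1) (a 0 : ℝ) (a 1) (a 2)|) ≤ (H : ℝ) ^ k * (((s : ℝ) + 1) ^ 2 / Z) :=
      mul_le_mul hβ₂ h2 (by positivity) (by positivity)
    have g6 : (((s : ℝ) + 1) ^ 2 / Z) ≤ (((D : ℝ) + 1) ^ 2 / Z) := by
      have : (s : ℝ) ≤ D := by exact_mod_cast hsD
      gcongr
    calc |β₁| ≤ |β₁| * (P * dd s (a 0) (a 1) (a 2)) := g4
      _ = P * (|β₁| * dd s (a 0) (a 1) (a 2)) := by ring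
      _ ≤ P * (|β₂| * |dd (s + 1) (a 0 : ℝ) (a 1) (a 2)| + |DE|) := by gcongr
      _ = |β₂| * (P * |dd (s + 1) (a 0 : ℝ) (a 1) (a 2)|) + P * |DE| := by ring
      _ ≤ (H : ℝ) ^ k * (((s : ℝ) + 1) ^ 2 / Z) + 3 * ((H : ℝ) ^ k / Z) := add_le_add g5 h5
      _ ≤ (H : ℝ) ^ k * (((D : ℝ) + 1) ^ 2 / Z) + 3 * ((H : ℝ) ^ k / Z) := by gcongr
      _ = (H : ℝ) ^ k * ((((D : ℝ) + 1) ^ 2 + 3) / Z) := by ring
  have h7 : Z ≤ (H : ℝ) ^ (2 * k) * (((D : ℝ) + 1) ^ 2 + 3) := by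
    have g1 : 1 ≤ (H : ℝ) ^ k * ((H : ℝ) ^ k * ((((D : ℝ) + 1) ^ 2 + 3) / Z)) :=
      hβ₁.trans (mul_le_mul_of_nonneg_left h6 (by positivity))
    have g2 : (H : ℝ) ^ k * ((H : ℝ) ^ k * ((((D : ℝ) + 1) ^ 2 + 3) / Z)) =
        ((H : ℝ) ^ (2 * k) * (((D : ℝ) + 1) ^ 2 + 3)) / Z := by
      rw [two_mul, pow_add]; ring
    rw [g2, le_div_iff₀ hZ0, one_mul] at g1
    exact g1
  have h8 : (((D : ℝ) + 1) ^ 2 + 3) < (H : ℝ) ^ ((D + 1) ^ 2 + 3) := by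
    have g1 : (D + 1) ^ 2 + 3 < 2 ^ ((D + 1) ^ 2 + 3) := Nat.lt_two_pow_self
    have g2 : 2 ^ ((D + 1) ^ 2 + 3) ≤ H ^ ((D + 1) ^ 2 + 3) := Nat.pow_le_pow_left hH _
    exact_mod_cast g1.trans_le g2
  have h9 : (H : ℝ) ^ (2 * k) * (((D : ℝ) + 1) ^ 2 + 3) < (H : ℝ) ^ (2 * k + ((D + 1) ^ 2 + 3)) := by
    rw [pow_add]
    exact mul_lt_mul_of_pos_left h8 (by positivity)
  linarith

end Pool.Agent.LW
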