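import Pool.Agent.LW.Defs

set_option autoImplicit false

namespace Pool.Agent.LW

open Polynomial Finset

theorem Rc_vanish (a b : Fin 5 → ℤ) (i : Fin 5) : ∑ j, Rc a b j * cv (a i) (b i) j = 0 := by
  classical
  let A : Matrix (Fin 6) (Fin 6) ℤ := fun i l =>
    if h : (i : ℕ) < 5 then cv (a ⟨i, h⟩) (b ⟨i, h⟩) l else 0
  have h1 : ∀ j, Rc a b j = A.adjugate j (Fin.last 5) := by
    intro j
    rw [Matrix.adjugate_apply]
    unfold Rc
    congr 1
    ext i l
    by_cases hi : (i : ℕ) < 5
    · have hne : i ≠ Fin.last 5 := by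
        intro h; rw [h] at hi; simp at hi
      rw [Matrix.updateRow_ne hne]
      simp only [A, hi, dite_true]
    · have he : i = Fin.last 5 := by
        apply Fin.ext; simp only [Fin.val_last]; omega
      subst he
      rw [Matrix.updateRow_self]
      simp [Pi.single_apply]
  have h2 : (A * A.adjugate) (Fin.castSucc i) (Fin.last 5) = 0 := by
    rw [Matrix.mul_adjugate]
    have : (Fin.castSucc i) ≠ Fin.last 5 := (Fin.castSucc_lt_last i).ne
    rw [Matrix.smul_apply, Matrix.one_apply_ne this, smul_zero]
  rw [Matrix.mul_apply] at h2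
  rw [← h2]
  apply Finset.sum_congr rfl
  intro j _
  rw [h1 j, mul_comm]
  congr 1
  have : ((Fin.castSucc i : Fin 6) : ℕ) < 5 := by simp
  simp [A]

/-- the determinant of three of five points, over the rationals -/
def Tq (a b : Fin 5 → ℚ) (p q k : Fin 5) : ℚ :=
  (a q - a p) * (b k - b p) - (a k - a p) * (b q - b p)

theorem Tq_left (a b : Fin 5 → ℚ) (p q : Fin 5) : Tq a b p q p = 0 := by
  unfold Tq; ring

theorem Tq_right (a b : Fin 5 → ℚ) (p q : Fin 5) : Tq a b p q q = 0 := by
  unfold Tq; ring

theorem Tq_key (a b g : Fin 5 → ℚ) (h0 : ∑ k, g k = 0) (h1 : ∑ k, g k * a k = 0)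
    (h2 : ∑ k, g k * b k = 0) (h3 : ∑ k, g k * a k ^ 2 = 0) (h4 : ∑ k, g k * (a k * b k) = 0)
    (h5 : ∑ k, g k * b k ^ 2 = 0) (p q r s : Fin 5) :
    ∑ k, g k * (Tq a b p q k * Tq a b r s k) = 0 := by
  have e : ∀ k, g k * (Tq a b p q k * Tq a b r s k) =
      ((-(a q - a p) * b p + a p * (b q - b p)) * (-(a s - a r) * b r + a r * (b s - b r))) * g k +
      ((-(a q - a p) * b p + a p * (b q - b p)) * (-(b s - b r)) +
        (-(b q - b p)) * (-(a s - a r) * b r + a r * (b s - b r))) * (g k * a k) +
      ((-(a q - a p) * b p + a p * (b q - b p)) * (a s - a r) +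
        (a q - a p) * (-(a s - a r) * b r + a r * (b s - b r))) * (g k * b k) +
      ((b q - b p) * (b s - b r)) * (g k * a k ^ 2) +
      (-(b q - b p) * (a s - a r) - (a q - a p) * (b s - b r)) * (g k * (a k * b k)) +
      ((a q - a p) * (a s - a r)) * (g k * b k ^ 2) := by
    intro k; unfold Tq; ring
  rw [Finset.sum_congr rfl (fun k _ => e k)]
  simp only [Finset.sum_add_distrib, ← Finset.mul_sum]
  rw [h0, h1, h2, h3, h4, h5]
  ring

theorem Rc_ne (a b : Fin 5 → ℤ) (h : ∀ i j k : Fin 5, i ≠ j → i ≠ k → j ≠ k →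
    tri ![a i, a j, a k] ![b i, b j, b k] ≠ 0) : ∃ j, Rc a b j ≠ 0 := by
  classical
  by_contra hcon
  push Not at hcon
  let V : Fin 5 → Fin 6 → ℚ := fun i l => ((cv (a i) (b i) l : ℤ) : ℚ)
  have hT : ∀ i j k : Fin 5, i ≠ j → i ≠ k → j ≠ k →
      Tq (fun i => (a i : ℚ)) (fun i => (b i : ℚ)) i j k ≠ 0 := by
    intro i j k hij hik hjk h0
    apply h i j k hij hik hjk
    have : ((tri ![a i, a j, a k] ![b i, b j, b k] : ℤ) : ℚ) = 0 := by
      rw [← h0]
      unfold tri Tq
      simp
    exact_mod_cast this
  have hV : LinearIndependent ℚ V := by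
    rw [Fintype.linearIndependent_iff]
    intro g hg
    have hl : ∀ l : Fin 6, ∑ i, g i * V i l = 0 := by
      intro l
      have := congrFun hg l
      simpa [Finset.sum_apply] using this
    have h0 := hl 0
    have h1 := hl 1
    have h2 := hl 2
    have h3 := hl 3
    have h4 := hl 4
    have h5 := hl 5
    simp only [V, cv] at h0 h1 h2 h3 h4 h5
    have key := Tq_key (fun i => (a i : ℚ)) (fun i => (b i : ℚ)) g (by simpa using h0)
      (by simpa using h1) (by simpa using h2) (by simpa using h3) (by simpa using h4)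
      (by simpa using h5)
    intro i
    fin_cases i
    · have := key 1 2 3 4
      rw [Fin.sum_univ_five] at this
      simp only [Tq_left, Tq_right, mul_zero, zero_mul, add_zero, zero_add] at this
      rcases mul_eq_zero.mp this with h' | h'
      · exact h'
      · exact absurd h' (mul_ne_zero (hT _ _ _ (by decide) (by decide) (by decide))
          (hT _ _ _ (by decide) (by decide) (by decide)))
    · have := key 0 2 3 4
      rw [Fin.sum_univ_five] at this
      simp only [Tq_left, Tq_right, mul_zero, zero_mul, add_zero, zero_add] at this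
      rcases mul_eq_zero.mp this with h' | h'
      · exact h'
      · exact absurd h' (mul_ne_zero (hT _ _ _ (by decide) (by decide) (by decide))
          (hT _ _ _ (by decide) (by decide) (by decide)))
    · have := key 0 1 3 4
      rw [Fin.sum_univ_five] at this
      simp only [Tq_left, Tq_right, mul_zero, zero_mul, add_zero, zero_add] at this
      rcases mul_eq_zero.mp this with h' | h'
      · exact h'
      · exact absurd h' (mul_ne_zero (hT _ _ _ (by decide) (by decide) (by decide))
          (hT _ _ _ (by decide) (by decide) (by decide)))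
    · have := key 0 1 2 4
      rw [Fin.sum_univ_five] at this
      simp only [Tq_left, Tq_right, mul_zero, zero_mul, add_zero, zero_add] at this
      rcases mul_eq_zero.mp this with h' | h'
      · exact h'
      · exact absurd h' (mul_ne_zero (hT _ _ _ (by decide) (by decide) (by decide))
          (hT _ _ _ (by decide) (by decide) (by decide)))
    · have := key 0 1 2 3
      rw [Fin.sum_univ_five] at this
      simp only [Tq_left, Tq_right, mul_zero, zero_mul, add_zero, zero_add] at this
      rcases mul_eq_zero.mp this with h' | h'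
      · exact h'
      · exact absurd h' (mul_ne_zero (hT _ _ _ (by decide) (by decide) (by decide))
          (hT _ _ _ (by decide) (by decide) (by decide)))
  have hw : ∃ w : Fin 6 → ℚ, w ∉ Submodule.span ℚ (Set.range V) := by
    by_contra hc
    push Not at hc
    have htop : Submodule.span ℚ (Set.range V) = ⊤ := by
      rw [eq_top_iff]; intro w _; exact hc w
    have h1 := finrank_range_le_card (R := ℚ) (b := V)
    rw [Set.finrank, htop, finrank_top] at h1
    simp at h1
  obtain ⟨w, hw⟩ := hw
  let A : Matrix (Fin 6) (Fin 6) ℚ := (Fin.snoc V w : Fin 6 → Fin 6 → ℚ)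
  have hA : LinearIndependent ℚ (Fin.snoc V w : Fin (5 + 1) → Fin 6 → ℚ) :=
    linearIndependent_finSnoc.mpr ⟨hV, hw⟩
  have hU : IsUnit A := Matrix.linearIndependent_rows_iff_isUnit.mp hA
  have hdet : A.det ≠ 0 := by
    have := (Matrix.isUnit_iff_isUnit_det A).mp hU
    exact this.ne_zero
  have hR : ∀ j, A.adjugate j (Fin.last 5) = ((Rc a b j : ℤ) : ℚ) := by
    intro j
    rw [Matrix.adjugate_apply]
    unfold Rc
    rw [Int.cast_det]
    congr 1
    ext i l
    by_cases hi : (i : ℕ) < 5
    · have hne : i ≠ Fin.last 5 := by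
        intro h; rw [h] at hi; simp at hi
      rw [Matrix.updateRow_ne hne]
      simp only [A, Matrix.map_apply, hi, dite_true]
      have : i = Fin.castSucc ⟨(i : ℕ), hi⟩ := by apply Fin.ext; simp
      conv_lhs => rw [this]
      rw [Fin.snoc_castSucc]
    · have he : i = Fin.last 5 := by
        apply Fin.ext; simp only [Fin.val_last]; omega
      subst he
      rw [Matrix.updateRow_self]
      simp [Pi.single_apply, Matrix.map_apply]
  have h2 : (A * A.adjugate) (Fin.last 5) (Fin.last 5) = A.det := by
    rw [Matrix.mul_adjugate]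
    simp [Matrix.smul_apply]
  rw [Matrix.mul_apply] at h2
  apply hdet
  rw [← h2]
  apply Finset.sum_eq_zero
  intro j _
  rw [hR j, hcon j]
  simp

end Pool.Agent.LW
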