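import Pool.Agent.LW.Defs

set_option autoImplicit false

namespace Pool.Agent.LW

open Polynomial Finset

theorem dd_d1_nonpos (s : ℕ) (x y : ℝ) (hx : 0 < x) (hy : 0 < y) (hxy : x ≠ y) :
    (1 / x ^ s - 1 / y ^ s) / (x - y) ≤ 0 := by
  rcases lt_or_gt_of_ne hxy with h | h
  · have h1 : 1 / y ^ s ≤ 1 / x ^ s :=
      one_div_le_one_div_of_le (pow_pos hx s) (pow_le_pow_left₀ hx.le h.le s)
    exact div_nonpos_of_nonneg_of_nonpos (by linarith) (by linarith)
  · have h1 : 1 / x ^ s ≤ 1 / y ^ s :=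
      one_div_le_one_div_of_le (pow_pos hy s) (pow_le_pow_left₀ hy.le h.le s)
    exact div_nonpos_of_nonpos_of_nonneg (by linarith) (by linarith)

theorem dd_d1_succ (s : ℕ) (x y : ℝ) (hx : 0 < x) (hy : 0 < y) (hxy : x ≠ y) :
    (1 / x ^ (s + 1) - 1 / y ^ (s + 1)) / (x - y) =
      -((1 / x ^ s) / (x * y)) + ((1 / x ^ s - 1 / y ^ s) / (x - y)) / y := by
  have hx0 : x ≠ 0 := hx.ne'
  have hy0 : y ≠ 0 := hy.ne'
  have hxy0 : x - y ≠ 0 := sub_ne_zero.mpr hxy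
  have h1 : x ^ s ≠ 0 := pow_ne_zero _ hx0
  have h2 : y ^ s ≠ 0 := pow_ne_zero _ hy0
  have e1 : (1 : ℝ) / x ^ (s + 1) = (1 / x ^ s) / x := by rw [pow_succ]; field_simp
  have e2 : (1 : ℝ) / y ^ (s + 1) = (1 / y ^ s) / y := by rw [pow_succ]; field_simp
  rw [e1, e2]
  generalize (1 : ℝ) / x ^ s = A
  generalize (1 : ℝ) / y ^ s = B
  field_simp
  ring

theorem dd_d1_bound (s : ℕ) (x y m : ℝ) (hm : 0 < m) (hx : m ≤ x) (hy : m ≤ y) (hxy : x ≠ y) :
    -((1 / x ^ s - 1 / y ^ s) / (x - y)) ≤ (s : ℝ) / m ^ (s + 1) := by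
  have hx0 : 0 < x := hm.trans_le hx
  have hy0 : 0 < y := hm.trans_le hy
  induction s with
  | zero => simp
  | succ s ih =>
    rw [dd_d1_succ s x y hx0 hy0 hxy]
    have h1 : (1 / x ^ s) / (x * y) ≤ 1 / m ^ (s + 2) := by
      rw [div_div]
      apply one_div_le_one_div_of_le (pow_pos hm _)
      calc m ^ (s + 2) = m ^ s * (m * m) := by ring
        _ ≤ x ^ s * (x * y) := by gcongr
    have h2 : -((1 / x ^ s - 1 / y ^ s) / (x - y)) / y ≤ ((s : ℝ) / m ^ (s + 1)) / m := by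
      have h3 : 0 ≤ -((1 / x ^ s - 1 / y ^ s) / (x - y)) := by
        have := dd_d1_nonpos s x y hx0 hy0 hxy
        linarith
      exact div_le_div₀ (by positivity) ih hm hy
    have h4 : ((s : ℝ) / m ^ (s + 1)) / m + 1 / m ^ (s + 2) = ((s + 1 : ℕ) : ℝ) / m ^ (s + 1 + 1) := by
      push_cast
      have : m ≠ 0 := hm.ne'
      field_simp
      try ring
    rw [← h4]
    have h5 : -(-(1 / x ^ s / (x * y)) + (1 / x ^ s - 1 / y ^ s) / (x - y) / y) =
        (1 / x ^ s) / (x * y) + -((1 / x ^ s - 1 / y ^ s) / (x - y)) / y := by ring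
    rw [h5]
    linarith

theorem dd_succ (s : ℕ) (x y z : ℝ) (hx : 0 < x) (hy : 0 < y) (hz : 0 < z)
    (hxy : x ≠ y) (hxz : x ≠ z) (hyz : y ≠ z) :
    dd (s + 1) x y z = (1 / x ^ s) / (x * y * z) +
      (-((1 / x ^ s - 1 / y ^ s) / (x - y))) / (y * z) + dd s x y z / z := by
  have hx0 : x ≠ 0 := hx.ne'
  have hy0 : y ≠ 0 := hy.ne'
  have hz0 : z ≠ 0 := hz.ne'
  have h1 : x - y ≠ 0 := sub_ne_zero.mpr hxy
  have h2 : x - z ≠ 0 := sub_ne_zero.mpr hxz
  have h3 : y - z ≠ 0 := sub_ne_zero.mpr hyz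
  have h4 : y - x ≠ 0 := sub_ne_zero.mpr hxy.symm
  have h5 : z - x ≠ 0 := sub_ne_zero.mpr hxz.symm
  have h6 : z - y ≠ 0 := sub_ne_zero.mpr hyz.symm
  have g1 : x ^ s ≠ 0 := pow_ne_zero _ hx0
  have g2 : y ^ s ≠ 0 := pow_ne_zero _ hy0
  have g3 : z ^ s ≠ 0 := pow_ne_zero _ hz0
  have e1 : (1 : ℝ) / x ^ (s + 1) = (1 / x ^ s) / x := by rw [pow_succ]; field_simp
  have e2 : (1 : ℝ) / y ^ (s + 1) = (1 / y ^ s) / y := by rw [pow_succ]; field_simp
  have e3 : (1 : ℝ) / z ^ (s + 1) = (1 / z ^ s) / z := by rw [pow_succ]; field_simp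
  unfold dd
  rw [e1, e2, e3]
  generalize (1 : ℝ) / x ^ s = A
  generalize (1 : ℝ) / y ^ s = B
  generalize (1 : ℝ) / z ^ s = C
  have i1 : y - x = -(x - y) := by ring
  have i2 : z - x = -(x - z) := by ring
  have i3 : z - y = -(y - z) := by ring
  rw [i1, i2, i3]
  field_simp
  ring

theorem dd_zero (x y z : ℝ) (hxy : x ≠ y) (hxz : x ≠ z) (hyz : y ≠ z) : dd 0 x y z = 0 := by
  have h1 : x - y ≠ 0 := sub_ne_zero.mpr hxy
  have h2 : x - z ≠ 0 := sub_ne_zero.mpr hxz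
  have h3 : y - z ≠ 0 := sub_ne_zero.mpr hyz
  have i1 : y - x = -(x - y) := by ring
  have i2 : z - x = -(x - z) := by ring
  have i3 : z - y = -(y - z) := by ring
  unfold dd
  rw [i1, i2, i3]
  simp only [pow_zero]
  field_simp
  ring

theorem dd_lower (s : ℕ) (hs : 1 ≤ s) (x y z L : ℝ) (hx : 0 < x) (hy : 0 < y) (hz : 0 < z)
    (hxy : x ≠ y) (hxz : x ≠ z) (hyz : y ≠ z) (hxL : x ≤ L) (hyL : y ≤ L) (hzL : z ≤ L) :
    1 / L ^ (s + 2) ≤ dd s x y z := by
  have hL : 0 < L := hx.trans_le hxL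
  induction s, hs using Nat.le_induction with
  | base =>
    have h := dd_succ 0 x y z hx hy hz hxy hxz hyz
    rw [dd_zero x y z hxy hxz hyz] at h
    simp only [pow_zero, sub_self, zero_div, neg_zero, add_zero, zero_add, div_one] at h
    rw [h]
    apply one_div_le_one_div_of_le (by positivity)
    calc x * y * z ≤ L * L * L := by gcongr
      _ = L ^ (1 + 2) := by ring
  | succ s hs ih =>
    rw [dd_succ s x y z hx hy hz hxy hxz hyz]
    have h1 : 0 ≤ (1 / x ^ s) / (x * y * z) := by positivity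
    have h2 : 0 ≤ (-((1 / x ^ s - 1 / y ^ s) / (x - y))) / (y * z) := by
      have := dd_d1_nonpos s x y hx hy hxy
      apply div_nonneg (by linarith) (by positivity)
    have h3 : 1 / L ^ (s + 1 + 2) ≤ dd s x y z / z := by
      have h4 : 1 / L ^ (s + 1 + 2) = (1 / L ^ (s + 2)) / L := by
        have : L ≠ 0 := hL.ne'
        field_simp
        try ring
      rw [h4]
      have h5 : 0 ≤ 1 / L ^ (s + 2) := by positivity
      exact div_le_div₀ (h5.trans ih) ih hz hzL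
    linarith

theorem dd_upper (s : ℕ) (x y z m : ℝ) (hm : 0 < m) (hx : m ≤ x) (hy : m ≤ y) (hz : m ≤ z)
    (hxy : x ≠ y) (hxz : x ≠ z) (hyz : y ≠ z) :
    |dd s x y z| ≤ (s : ℝ) ^ 2 / m ^ (s + 2) := by
  have hx0 : 0 < x := hm.trans_le hx
  have hy0 : 0 < y := hm.trans_le hy
  have hz0 : 0 < z := hm.trans_le hz
  induction s with
  | zero => simp [dd_zero x y z hxy hxz hyz]
  | succ s ih =>
    rw [dd_succ s x y z hx0 hy0 hz0 hxy hxz hyz]
    have h1 : |(1 / x ^ s) / (x * y * z)| ≤ 1 / m ^ (s + 3) := by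
      rw [abs_of_nonneg (by positivity), div_div]
      apply one_div_le_one_div_of_le (pow_pos hm _)
      calc m ^ (s + 3) = m ^ s * (m * m * m) := by ring
        _ ≤ x ^ s * (x * y * z) := by gcongr
    have h2 : |(-((1 / x ^ s - 1 / y ^ s) / (x - y))) / (y * z)| ≤ ((s : ℝ) / m ^ (s + 1)) / (m * m) := by
      have h3 : 0 ≤ -((1 / x ^ s - 1 / y ^ s) / (x - y)) := by
        have := dd_d1_nonpos s x y hx0 hy0 hxy
        linarith
      rw [abs_of_nonneg (by positivity)]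
      exact div_le_div₀ (by positivity) (dd_d1_bound s x y m hm hx hy hxy) (by positivity)
        (by gcongr)
    have h3 : |dd s x y z / z| ≤ ((s : ℝ) ^ 2 / m ^ (s + 2)) / m := by
      rw [abs_div, abs_of_pos hz0]
      exact div_le_div₀ (by positivity) ih hm hz
    have h4 := abs_add_three ((1 / x ^ s) / (x * y * z))
      ((-((1 / x ^ s - 1 / y ^ s) / (x - y))) / (y * z)) (dd s x y z / z)
    have h5 : 1 / m ^ (s + 3) + ((s : ℝ) / m ^ (s + 1)) / (m * m) + ((s : ℝ) ^ 2 / m ^ (s + 2)) / m =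
        (1 + (s : ℝ) + (s : ℝ) ^ 2) / m ^ (s + 1 + 2) := by
      have : m ≠ 0 := hm.ne'
      field_simp
      try ring
    have h6 : (1 + (s : ℝ) + (s : ℝ) ^ 2) / m ^ (s + 1 + 2) ≤ ((s + 1 : ℕ) : ℝ) ^ 2 / m ^ (s + 1 + 2) := by
      apply div_le_div_of_nonneg_right _ (by positivity)
      push_cast
      nlinarith [(Nat.cast_nonneg s : (0:ℝ) ≤ s)]
    linarith

end Pool.Agent.LW
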