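import Pool.Agent.LW.Defs

set_option autoImplicit false

namespace Pool.Agent.LW

open Polynomial Finset

theorem exists_level (d : ℕ) (hd : 1 ≤ d) (c : ℕ → ℕ → ℤ) (τ : ℝ) : ∃ s, Lev d c τ s := by
  classical
  have hex : ∃ s, 1 ≤ s ∧ s ≤ d ∧ (s < d → aa d c τ (d - 1 - s) ≠ 0) :=
    ⟨d, hd, le_rfl, fun h => absurd h (lt_irrefl d)⟩
  obtain ⟨h1, h2, h3⟩ := Nat.find_spec hex
  refine ⟨Nat.find hex, h1, h2, fun i hi hlt => ?_, h3⟩
  by_contra hne
  exact Nat.find_min hex hlt ⟨hi, (hlt.le.trans h2), fun _ => hne⟩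

private theorem det_coeff (c : ℕ → ℕ → ℤ) (k j : ℕ) (hj : j ≤ k) :
    (gk c k).coeff j = c (k - j) j := by
  rw [gk, finsetSum_coeff]
  simp only [coeff_monomial]
  rw [sum_ite_eq' (range (k + 1)) j, if_pos (mem_range.mpr (by omega))]

private theorem det_natDegree (c : ℕ → ℕ → ℤ) (l : ℕ) : (gk c l).natDegree ≤ l := by
  rw [gk]
  refine natDegree_sum_le_of_forall_le _ _ fun j hj => ?_
  have := mem_range.mp hj
  exact (natDegree_monomial_le _).trans (by omega)

theorem gk_ext (d : ℕ) (c c' : ℕ → ℕ → ℤ) (h : ∀ k ≤ d, gk c k = gk c' k) (i j : ℕ)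
    (hij : i + j ≤ d) : c i j = c' i j := by
  have h1 := congrArg (fun p => p.coeff j) (h (i + j) hij)
  simp only [det_coeff c (i + j) j (by omega), det_coeff c' (i + j) j (by omega),
    Nat.add_sub_cancel] at h1
  exact h1

private theorem det_aeval (τ : ℝ) (p : ℤ[X]) :
    aeval τ (p.map (Int.castRingHom ℚ)) = aeval τ p := by
  rw [← algebraMap_int_eq, aeval_map_algebraMap]

private theorem det_zero (d r : ℕ) (c : ℕ → ℕ → ℤ) (q : ℤ[X]) (τ : ℝ) (hL : Lead d c)
    (hτ : aeval τ (gk c d) = 0) (hq : aeval τ q = 0) (hdeg : q.natDegree ≤ r) (hr : r < d) :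
    q = 0 := by
  by_contra hne
  set g := (gk c d).map (Int.castRingHom ℚ) with hg
  set q' := q.map (Int.castRingHom ℚ) with hq'
  have hinj : Function.Injective (Int.castRingHom ℚ) := Int.cast_injective
  have hq0 : q' ≠ 0 := (Polynomial.map_ne_zero_iff hinj).mpr hne
  have hnd : ¬ g ∣ q' := by
    intro hdvd
    have h1 := natDegree_le_of_dvd hdvd hq0
    rw [hg, hq', natDegree_map_eq_of_injective hinj, natDegree_map_eq_of_injective hinj,
      hL.1] at h1
    omega
  obtain ⟨u, v, huv⟩ := (hL.2.coprime_iff_not_dvd).mpr hnd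
  have h2 := congrArg (fun p => aeval τ p) huv
  simp only [map_add, map_mul, map_one] at h2
  rw [det_aeval, hq', det_aeval, hτ, hq, mul_zero, mul_zero, add_zero] at h2
  exact zero_ne_one h2

private theorem det_bet0 (d : ℕ) (c c' : ℕ → ℕ → ℤ) (τ : ℝ) (h1 : gk c d = gk c' d)
    (h2 : gk c (d - 1) = gk c' (d - 1)) : bet0 d c τ = bet0 d c' τ := by
  rw [bet0, bet0, gp, gp, h1, h2]

theorem levels_eq (d : ℕ) (hd : 1 ≤ d) (c c' : ℕ → ℕ → ℤ) (τ : ℝ) (s : ℕ) (hL : Lead d c)
    (h1 : gk c d = gk c' d) (h2 : gk c (d - 1) = gk c' (d - 1)) (hτ : aeval τ (gk c d) = 0)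
    (hs : Lev d c τ s) (hs' : Lev d c' τ s) :
    ∀ i, 1 ≤ i → i < s → gk c (d - 1 - i) = gk c' (d - 1 - i) := by
  intro i
  induction i using Nat.strong_induction_on with
  | _ i ih =>
    intro hi his
    have hid : i < d := lt_of_lt_of_le his hs.2.1
    have e1 := hs.2.2.1 i hi his
    have e2 := hs'.2.2.1 i hi his
    set r := d - 1 - i with hr
    have hrd : r + 1 + i = d := by omega
    have hb := det_bet0 d c c' τ h1 h2
    have hsum : ∀ e : ℕ → ℕ → ℤ, aa d e τ r = (∑ m ∈ range (d - r),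
        aeval τ (hasseDeriv (m + 1) (gk e (r + (m + 1)))) * bet0 d e τ ^ (m + 1)) +
          aeval τ (gk e r) := by
      intro e
      rw [aa, AA, sum_range_succ']
      simp
    have hrest : (∑ m ∈ range (d - r),
        aeval τ (hasseDeriv (m + 1) (gk c (r + (m + 1)))) * bet0 d c τ ^ (m + 1)) =
        ∑ m ∈ range (d - r),
          aeval τ (hasseDeriv (m + 1) (gk c' (r + (m + 1)))) * bet0 d c' τ ^ (m + 1) := by
      refine sum_congr rfl fun m hm => ?_
      have hm' := mem_range.mp hm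
      have hgk : gk c (r + (m + 1)) = gk c' (r + (m + 1)) := by
        rcases Nat.lt_or_ge m i with hmi | hmi
        · rcases Nat.lt_or_ge (m + 1) i with h3 | h3
          · have h4 := ih (i - (m + 1)) (by omega) (by omega) (by omega)
            have h5 : d - 1 - (i - (m + 1)) = r + (m + 1) := by omega
            rwa [h5] at h4
          · have h5 : r + (m + 1) = d - 1 := by omega
            rw [h5, h2]
        · have h5 : r + (m + 1) = d := by omega
          rw [h5, h1]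
      rw [hgk, hb]
    rw [hsum c] at e1
    rw [hsum c'] at e2
    have e3 : aeval τ (gk c r - gk c' r) = 0 := by
      rw [map_sub]
      rw [hrest] at e1
      linarith
    have e4 := det_zero d r c (gk c r - gk c' r) τ hL hτ e3
      ((natDegree_sub_le _ _).trans (max_le (det_natDegree c r) (det_natDegree c' r))) (by omega)
    exact sub_eq_zero.mp e4

private theorem det_aa (d r : ℕ) (hr : r ≤ d) (c c' : ℕ → ℕ → ℤ) (τ : ℝ)
    (hb : bet0 d c τ = bet0 d c' τ) (h : ∀ k, r ≤ k → k ≤ d → gk c k = gk c' k) :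
    aa d c τ r = aa d c' τ r := by
  rw [aa, aa, AA, AA, hb]
  refine sum_congr rfl fun m hm => ?_
  have hm' := mem_range.mp hm
  rw [h (r + m) (by omega) (by omega)]

theorem bet_dep (d : ℕ) (c c' : ℕ → ℕ → ℤ) (τ : ℝ) (s : ℕ) (hs : s + 2 ≤ d)
    (h : ∀ k, d - 2 - s ≤ k → k ≤ d → gk c k = gk c' k) :
    bet0 d c τ = bet0 d c' τ ∧ bet1 d c τ s = bet1 d c' τ s ∧ bet2 d c τ s = bet2 d c' τ s := by
  have h1 : gk c d = gk c' d := h d (by omega) le_rfl
  have h2 : gk c (d - 1) = gk c' (d - 1) := h (d - 1) (by omega) (by omega)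
  have hb := det_bet0 d c c' τ h1 h2
  have hgp : gp d c τ = gp d c' τ := by rw [gp, gp, h1]
  have ha1 : aa d c τ (d - 1 - s) = aa d c' τ (d - 1 - s) :=
    det_aa d _ (by omega) c c' τ hb fun k hk hkd => h k (by omega) hkd
  have ha2 : aa d c τ (d - 2 - s) = aa d c' τ (d - 2 - s) :=
    det_aa d _ (by omega) c c' τ hb h
  have hb1 : bet1 d c τ s = bet1 d c' τ s := by rw [bet1, bet1, ha1, hgp]
  have hA : A1 d c τ = A1 d c' τ := by rw [A1, A1, h1, h2, hb]
  refine ⟨hb, hb1, ?_⟩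
  rw [bet2, bet2, ha2, hA, hb1, hgp]

end Pool.Agent.LW
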