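import Mathlib

set_option autoImplicit false

namespace Pool.Agent.LW

open Polynomial Finset

/-- the value at `(a, b)` of the polynomial `∑ c i j x ^ i y ^ j`, `i + j ≤ d` -/
def ev (d : ℕ) (c : ℕ → ℕ → ℤ) (a b : ℤ) : ℤ :=
  ∑ k ∈ range (d + 1), ∑ j ∈ range (k + 1), c (k - j) j * a ^ (k - j) * b ^ j

/-- the dehomogenised homogeneous part of degree `k`: `∑ c (k-j) j t ^ j` -/
noncomputable def gk (c : ℕ → ℕ → ℤ) (k : ℕ) : ℤ[X] :=
  ∑ j ∈ range (k + 1), monomial j (c (k - j) j)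

/-- all coefficients are at most `H` -/
def Ht (d : ℕ) (c : ℕ → ℕ → ℤ) (H : ℕ) : Prop := ∀ i j, i + j ≤ d → |c i j| ≤ (H : ℤ)

/-- the leading form is irreducible over `ℚ` -/
def Lead (d : ℕ) (c : ℕ → ℕ → ℤ) : Prop :=
  (gk c d).natDegree = d ∧ Irreducible ((gk c d).map (Int.castRingHom ℚ))

/-- the coefficient of `a ^ r` in `f (a, τ a + η)` -/
noncomputable def AA (d : ℕ) (c : ℕ → ℕ → ℤ) (τ : ℝ) (r : ℕ) (η : ℝ) : ℝ :=
  ∑ m ∈ range (d - r + 1), aeval τ (hasseDeriv m (gk c (r + m))) * η ^ m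

/-- the derivative of the leading form at `τ` -/
noncomputable def gp (d : ℕ) (c : ℕ → ℕ → ℤ) (τ : ℝ) : ℝ := aeval τ (derivative (gk c d))

/-- the constant coefficient of the branch `b = τ a + bet0 + bet1 a ^ (-s) + bet2 a ^ (-s-1) + ...` -/
noncomputable def bet0 (d : ℕ) (c : ℕ → ℕ → ℤ) (τ : ℝ) : ℝ :=
  -(aeval τ (gk c (d - 1))) / gp d c τ

/-- the coefficients of `f (a, τ a + bet0)` -/
noncomputable def aa (d : ℕ) (c : ℕ → ℕ → ℤ) (τ : ℝ) (r : ℕ) : ℝ := AA d c τ r (bet0 d c τ)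

/-- `s` is the level of `c` at `τ` -/
def Lev (d : ℕ) (c : ℕ → ℕ → ℤ) (τ : ℝ) (s : ℕ) : Prop :=
  1 ≤ s ∧ s ≤ d ∧ (∀ i, 1 ≤ i → i < s → aa d c τ (d - 1 - i) = 0) ∧
    (s < d → aa d c τ (d - 1 - s) ≠ 0)

/-- the coefficient of `a ^ (-s)` of the branch -/
noncomputable def bet1 (d : ℕ) (c : ℕ → ℕ → ℤ) (τ : ℝ) (s : ℕ) : ℝ :=
  -(aa d c τ (d - 1 - s)) / gp d c τ

/-- the derivative of `AA (d-2)` at `bet0` -/
noncomputable def A1 (d : ℕ) (c : ℕ → ℕ → ℤ) (τ : ℝ) : ℝ :=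
  aeval τ (derivative (gk c (d - 1))) + 2 * aeval τ (hasseDeriv 2 (gk c d)) * bet0 d c τ

/-- the coefficient of `a ^ (-s-1)` of the branch -/
noncomputable def bet2 (d : ℕ) (c : ℕ → ℕ → ℤ) (τ : ℝ) (s : ℕ) : ℝ :=
  -(aa d c τ (d - 2 - s) + A1 d c τ * bet1 d c τ s) / gp d c τ

/-- the monomials of degree at most two -/
def cv (x y : ℤ) : Fin 6 → ℤ := ![1, x, y, x ^ 2, x * y, y ^ 2]

/-- the determinant of three points -/
def tri (x y : Fin 3 → ℤ) : ℤ := (x 1 - x 0) * (y 2 - y 0) - (x 2 - x 0) * (y 1 - y 0)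

/-- the coefficients of the conic through five points -/
def Rc (a b : Fin 5 → ℤ) (j : Fin 6) : ℤ :=
  Matrix.det (fun i : Fin 6 => fun l : Fin 6 =>
    if h : (i : ℕ) < 5 then cv (a ⟨i, h⟩) (b ⟨i, h⟩) l else if l = j then 1 else 0)

/-- the second divided difference of `u ↦ u ^ (-s)` -/
noncomputable def dd (s : ℕ) (x y z : ℝ) : ℝ :=
  (1 / x ^ s) / ((x - y) * (x - z)) + (1 / y ^ s) / ((y - x) * (y - z)) +
    (1 / z ^ s) / ((z - x) * (z - y))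

/-- the exceptional polynomials with a given leading form -/
def Exc (d K H : ℕ) (g : ℤ[X]) : Set (ℕ → ℕ → ℤ) :=
  {c | (∀ i j, d < i + j → c i j = 0) ∧ Ht d c H ∧ Lead d c ∧ gk c d = g ∧
    ∃ a b : ℤ, ev d c a b = 0 ∧ (H : ℝ) ^ K < |(a : ℝ)|}

/-- the polynomials of degree at most `d` and height at most `H` -/
def Box (d H : ℕ) : Set (ℕ → ℕ → ℤ) := {c | (∀ i j, d < i + j → c i j = 0) ∧ Ht d c H}

/-- the coefficient array of a polynomial -/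
noncomputable def arr (d : ℕ) (f : MvPolynomial (Fin 2) ℤ) (i j : ℕ) : ℤ :=
  if i + j ≤ d then f.coeff (Finsupp.single 0 i + Finsupp.single 1 j) else 0

end Pool.Agent.LW
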