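import Pool.Agent.LW.PAR

set_option autoImplicit false

namespace Pool.Agent.LW

open Polynomial Finset

private theorem exp_sum {d l : ℕ} {x M : ℝ} {h : ℕ → ℝ} (hM : 0 ≤ M) (hx : |x| ≤ 1)
    (hh : ∀ i, |h i| ≤ M) : |∑ i ∈ Ico l d, h i * x ^ i| ≤ d * M * |x| ^ l := by
  calc |∑ i ∈ Ico l d, h i * x ^ i| ≤ ∑ i ∈ Ico l d, |h i * x ^ i| := Finset.abs_sum_le_sum_abs _ _
    _ ≤ ∑ _i ∈ Ico l d, M * |x| ^ l := by
        apply Finset.sum_le_sum
        intro i hi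
        rw [Finset.mem_Ico] at hi
        rw [abs_mul, abs_pow]
        exact mul_le_mul (hh i) (pow_le_pow_of_le_one (abs_nonneg _) hx hi.1) (by positivity) hM
    _ = ((d - l : ℕ) : ℝ) * (M * |x| ^ l) := by
        rw [Finset.sum_const, Nat.card_Ico, nsmul_eq_mul]
    _ ≤ (d : ℝ) * (M * |x| ^ l) := by
        apply mul_le_mul_of_nonneg_right _ (by positivity)
        exact_mod_cast Nat.sub_le d l
    _ = _ := by ring

private theorem exp_core {d s : ℕ} (hs : 1 ≤ s) (hsd : s + 2 ≤ d) {Q : ℝ} (hQ : 2 ≤ Q)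
    (hdQ : (d : ℝ) ≤ Q) {x z g A h2 : ℝ} {B α : ℕ → ℝ} (hx : 2 * Q ^ 3 * |x| ≤ 1)
    (hE : g * z + ∑ i ∈ Ico 1 d, B i * x ^ i = 0) (hB : ∀ i, |B i| ≤ Q)
    (hBα : ∀ i, |B i - α i| ≤ Q * |z|) (hα : ∀ i, |α i| ≤ Q)
    (hα0 : ∀ i, 1 ≤ i → i < s → α i = 0) (hB1 : B 1 = α 1 + A * z + h2 * z ^ 2)
    (hA : |A| ≤ Q) (hh2 : |h2| ≤ Q) (hg : 1 ≤ Q * |g|) :
    |z - (-(α s) / g) * x ^ s - (-(α (s + 1) + A * (-(α s) / g)) / g) * x ^ (s + 1)| ≤
      Q ^ 17 * |x| ^ (s + 2) := by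
  have hQ0 : 0 < Q := by linarith
  have hQ1 : 1 ≤ Q := by linarith
  have hg0 : g ≠ 0 := by
    rintro rfl
    rw [abs_zero, mul_zero] at hg
    linarith
  have hu0 : 0 ≤ |x| := abs_nonneg x
  have hz0 : 0 ≤ |z| := abs_nonneg z
  have hQ3 : 1 ≤ Q ^ 3 := one_le_pow₀ hQ1
  have hx1 : |x| ≤ 1 := by nlinarith
  have hd0 : (0 : ℝ) ≤ d := Nat.cast_nonneg d
  -- dividing by `g`
  have hdiv : ∀ y t : ℝ, |g * y| ≤ t → |y| ≤ Q * t := by
    intro y t h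
    rw [abs_mul] at h
    have h1 : |y| ≤ Q * |g| * |y| := by nlinarith [abs_nonneg y]
    have h3 : Q * (|g| * |y|) ≤ Q * t := mul_le_mul_of_nonneg_left h hQ0.le
    linarith
  -- splitting the sums
  have hsplitα : ∑ i ∈ Ico 1 d, α i * x ^ i = α s * x ^ s + α (s + 1) * x ^ (s + 1) +
      ∑ i ∈ Ico (s + 2) d, α i * x ^ i := by
    rw [← Finset.sum_Ico_consecutive _ hs (by omega : s ≤ d)]
    have h1 : ∑ i ∈ Ico 1 s, α i * x ^ i = 0 := by
      apply Finset.sum_eq_zero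
      intro i hi
      rw [Finset.mem_Ico] at hi
      rw [hα0 i hi.1 hi.2, zero_mul]
    rw [h1, zero_add, Finset.sum_eq_sum_Ico_succ_bot (by omega : s < d),
      Finset.sum_eq_sum_Ico_succ_bot (by omega : s + 1 < d)]
    ring
  have hdec : ∀ l, ∑ i ∈ Ico l d, B i * x ^ i =
      ∑ i ∈ Ico l d, (B i - α i) * x ^ i + ∑ i ∈ Ico l d, α i * x ^ i := by
    intro l
    rw [← Finset.sum_add_distrib]
    exact Finset.sum_congr rfl (fun i _ => by ring)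
  -- step 2 : size of `z`
  have htail : |∑ i ∈ Ico 1 d, α i * x ^ i| ≤ d * Q * |x| ^ s := by
    rw [← Finset.sum_Ico_consecutive _ hs (by omega : s ≤ d)]
    have h1 : ∑ i ∈ Ico 1 s, α i * x ^ i = 0 := by
      apply Finset.sum_eq_zero
      intro i hi
      rw [Finset.mem_Ico] at hi
      rw [hα0 i hi.1 hi.2, zero_mul]
    rw [h1, zero_add]
    exact exp_sum hQ0.le hx1 hα
  have hdiff : ∀ l, |∑ i ∈ Ico l d, (B i - α i) * x ^ i| ≤ d * (Q * |z|) * |x| ^ l := fun l =>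
    exp_sum (by positivity) hx1 hBα
  have hz1 : |z| ≤ Q ^ 4 * |x| ^ s := by
    have h1 : g * z = -(∑ i ∈ Ico 1 d, (B i - α i) * x ^ i + ∑ i ∈ Ico 1 d, α i * x ^ i) := by
      rw [← hdec 1]
      linarith
    have h2 : |g * z| ≤ d * (Q * |z|) * |x| ^ 1 + d * Q * |x| ^ s := by
      rw [h1, abs_neg]
      refine (abs_add_le _ _).trans ?_
      have := hdiff 1
      linarith
    have h3 := hdiv z _ h2
    have h4 : Q * (d * (Q * |z|) * |x| ^ 1 + d * Q * |x| ^ s) ≤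
        Q ^ 3 * |x| * |z| + Q ^ 3 * |x| ^ s := by
      have h5 : Q * (d * (Q * |z|) * |x| ^ 1) ≤ Q ^ 3 * |x| * |z| := by
        have : Q * (d * (Q * |z|) * |x| ^ 1) = d * (Q ^ 2 * |x| * |z|) := by ring
        rw [this]
        have h6 : (d : ℝ) * (Q ^ 2 * |x| * |z|) ≤ Q * (Q ^ 2 * |x| * |z|) :=
          mul_le_mul_of_nonneg_right hdQ (by positivity)
        linarith
      have h6 : Q * (d * Q * |x| ^ s) ≤ Q ^ 3 * |x| ^ s := by
        have : Q * (d * Q * |x| ^ s) = d * (Q ^ 2 * |x| ^ s) := by ring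
        rw [this]
        have h6 : (d : ℝ) * (Q ^ 2 * |x| ^ s) ≤ Q * (Q ^ 2 * |x| ^ s) :=
          mul_le_mul_of_nonneg_right hdQ (by positivity)
        linarith
      linarith
    have h5 : Q ^ 3 * |x| * |z| ≤ 1 / 2 * |z| := by
      apply mul_le_mul_of_nonneg_right _ hz0
      linarith
    have h6 : |z| ≤ 2 * (Q ^ 3 * |x| ^ s) := by linarith
    have h7 : 2 * (Q ^ 3 * |x| ^ s) ≤ Q * (Q ^ 3 * |x| ^ s) :=
      mul_le_mul_of_nonneg_right hQ (by positivity)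
    calc |z| ≤ Q * (Q ^ 3 * |x| ^ s) := h6.trans h7
      _ = _ := by ring
  -- the remainder
  set R : ℝ := -(h2 * z ^ 2 * x + ∑ i ∈ Ico 2 d, (B i - α i) * x ^ i +
    ∑ i ∈ Ico (s + 2) d, α i * x ^ i) with hR
  have hmain : g * z = -(α s) * x ^ s - α (s + 1) * x ^ (s + 1) - A * z * x + R := by
    have h1 : ∑ i ∈ Ico 1 d, B i * x ^ i = B 1 * x ^ 1 + ∑ i ∈ Ico 2 d, B i * x ^ i :=
      Finset.sum_eq_sum_Ico_succ_bot (by omega : 1 < d) _
    have h2' : ∑ i ∈ Ico 1 d, α i * x ^ i = α 1 * x ^ 1 + ∑ i ∈ Ico 2 d, α i * x ^ i :=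
      Finset.sum_eq_sum_Ico_succ_bot (by omega : 1 < d) _
    rw [h1, hdec 2, hB1] at hE
    rw [hsplitα] at h2'
    rw [hR]
    linear_combination hE + h2'
  have hus : |x| ^ (2 * s + 1) ≤ |x| ^ (s + 2) := pow_le_pow_of_le_one hu0 hx1 (by omega)
  have hRb : |R| ≤ Q ^ 11 * |x| ^ (s + 2) := by
    rw [hR, abs_neg]
    have h1 : |h2 * z ^ 2 * x| ≤ Q ^ 9 * |x| ^ (s + 2) := by
      rw [abs_mul, abs_mul, abs_pow]
      calc |h2| * |z| ^ 2 * |x| ≤ Q * (Q ^ 4 * |x| ^ s) ^ 2 * |x| := by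
            apply mul_le_mul_of_nonneg_right _ hu0
            exact mul_le_mul hh2 (pow_le_pow_left₀ hz0 hz1 2) (by positivity) hQ0.le
        _ = Q ^ 9 * |x| ^ (2 * s + 1) := by ring
        _ ≤ _ := mul_le_mul_of_nonneg_left hus (by positivity)
    have h3 : |∑ i ∈ Ico 2 d, (B i - α i) * x ^ i| ≤ Q ^ 6 * |x| ^ (s + 2) := by
      refine (hdiff 2).trans ?_
      calc (d : ℝ) * (Q * |z|) * |x| ^ 2 ≤ Q * (Q * (Q ^ 4 * |x| ^ s)) * |x| ^ 2 := by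
            apply mul_le_mul_of_nonneg_right _ (by positivity)
            exact mul_le_mul hdQ (mul_le_mul_of_nonneg_left hz1 hQ0.le) (by positivity) hQ0.le
        _ = _ := by ring
    have h4 : |∑ i ∈ Ico (s + 2) d, α i * x ^ i| ≤ Q ^ 2 * |x| ^ (s + 2) := by
      refine (exp_sum hQ0.le hx1 hα).trans ?_
      apply mul_le_mul_of_nonneg_right _ (by positivity)
      nlinarith
    have h5 : |h2 * z ^ 2 * x + ∑ i ∈ Ico 2 d, (B i - α i) * x ^ i +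
        ∑ i ∈ Ico (s + 2) d, α i * x ^ i| ≤ (Q ^ 9 + Q ^ 6 + Q ^ 2) * |x| ^ (s + 2) := by
      refine (abs_add_le _ _).trans ?_
      have := abs_add_le (h2 * z ^ 2 * x) (∑ i ∈ Ico 2 d, (B i - α i) * x ^ i)
      linarith
    refine h5.trans ?_
    apply mul_le_mul_of_nonneg_right _ (by positivity)
    have e1 : Q ^ 6 ≤ Q ^ 9 := pow_le_pow_right₀ hQ1 (by norm_num)
    have e2 : Q ^ 2 ≤ Q ^ 9 := pow_le_pow_right₀ hQ1 (by norm_num)
    have e3 : 4 * Q ^ 9 ≤ Q ^ 2 * Q ^ 9 := by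
      apply mul_le_mul_of_nonneg_right _ (by positivity)
      nlinarith
    have e4 : Q ^ 2 * Q ^ 9 = Q ^ 11 := by ring
    have e5 : 0 ≤ Q ^ 9 := by positivity
    linarith
  -- first approximation
  have hfirst : |z - (-(α s) / g) * x ^ s| ≤ Q ^ 14 * |x| ^ (s + 1) := by
    have h1 : g * (z - (-(α s) / g) * x ^ s) = - α (s + 1) * x ^ (s + 1) - A * z * x + R := by
      have : g * (z - (-(α s) / g) * x ^ s) = g * z + α s * x ^ s := by field_simp; ring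
      rw [this, hmain]
      ring
    have h3 : |g * (z - (-(α s) / g) * x ^ s)| ≤ (Q + Q ^ 5 + Q ^ 11) * |x| ^ (s + 1) := by
      rw [h1]
      have e1 : |- α (s + 1) * x ^ (s + 1)| ≤ Q * |x| ^ (s + 1) := by
        rw [abs_mul, abs_neg, abs_pow]
        exact mul_le_mul_of_nonneg_right (hα _) (by positivity)
      have e2 : |A * z * x| ≤ Q ^ 5 * |x| ^ (s + 1) := by
        rw [abs_mul, abs_mul]
        calc |A| * |z| * |x| ≤ Q * (Q ^ 4 * |x| ^ s) * |x| := by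
              apply mul_le_mul_of_nonneg_right _ hu0
              exact mul_le_mul hA hz1 hz0 hQ0.le
          _ = _ := by ring
      have e3 : Q ^ 11 * |x| ^ (s + 2) ≤ Q ^ 11 * |x| ^ (s + 1) :=
        mul_le_mul_of_nonneg_left (pow_le_pow_of_le_one hu0 hx1 (by omega)) (by positivity)
      refine (abs_add_le _ _).trans ?_
      have e4 := abs_sub (- α (s + 1) * x ^ (s + 1)) (A * z * x)
      linarith
    refine (hdiv _ _ h3).trans ?_
    have e1 : Q ^ 5 ≤ Q ^ 11 := pow_le_pow_right₀ hQ1 (by norm_num)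
    have e2 : Q ^ 1 ≤ Q ^ 11 := pow_le_pow_right₀ hQ1 (by norm_num)
    have e3 : 4 * Q ^ 11 ≤ Q ^ 2 * Q ^ 11 := by
      apply mul_le_mul_of_nonneg_right _ (by positivity)
      nlinarith
    have e4 : Q + Q ^ 5 + Q ^ 11 ≤ Q ^ 13 := by
      have : Q ^ 2 * Q ^ 11 = Q ^ 13 := by ring
      have e5 : 0 ≤ Q ^ 11 := by positivity
      linarith
    calc Q * ((Q + Q ^ 5 + Q ^ 11) * |x| ^ (s + 1)) ≤ Q * (Q ^ 13 * |x| ^ (s + 1)) := by
          apply mul_le_mul_of_nonneg_left _ hQ0.le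
          exact mul_le_mul_of_nonneg_right e4 (by positivity)
      _ = _ := by ring
  -- conclusion
  have h1 : g * (z - (-(α s) / g) * x ^ s - (-(α (s + 1) + A * (-(α s) / g)) / g) * x ^ (s + 1)) =
      -(A * x * (z - (-(α s) / g) * x ^ s)) + R := by
    have : g * (z - (-(α s) / g) * x ^ s - (-(α (s + 1) + A * (-(α s) / g)) / g) * x ^ (s + 1)) =
        g * z + α s * x ^ s + (α (s + 1) + A * (-(α s) / g)) * x ^ (s + 1) := by
      field_simp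
      ring
    rw [this, hmain]
    ring
  have h3 : |g * (z - (-(α s) / g) * x ^ s - (-(α (s + 1) + A * (-(α s) / g)) / g) * x ^ (s + 1))| ≤
      (Q ^ 15 + Q ^ 11) * |x| ^ (s + 2) := by
    rw [h1]
    have e1 : |-(A * x * (z - (-(α s) / g) * x ^ s))| ≤ Q ^ 15 * |x| ^ (s + 2) := by
      rw [abs_neg, abs_mul, abs_mul]
      calc |A| * |x| * |z - (-(α s) / g) * x ^ s| ≤ Q * |x| * (Q ^ 14 * |x| ^ (s + 1)) := by
            apply mul_le_mul _ hfirst (abs_nonneg _) (by positivity)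
            exact mul_le_mul_of_nonneg_right hA hu0
        _ = _ := by ring
    refine (abs_add_le _ _).trans ?_
    linarith
  refine (hdiv _ _ h3).trans ?_
  have e1 : Q ^ 11 ≤ Q ^ 15 := pow_le_pow_right₀ hQ1 (by norm_num)
  have e3 : 2 * Q ^ 15 ≤ Q * Q ^ 15 := mul_le_mul_of_nonneg_right hQ (by positivity)
  have e4 : Q ^ 15 + Q ^ 11 ≤ Q ^ 16 := by
    have : Q * Q ^ 15 = Q ^ 16 := by ring
    linarith
  calc Q * ((Q ^ 15 + Q ^ 11) * |x| ^ (s + 2)) ≤ Q * (Q ^ 16 * |x| ^ (s + 2)) := by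
        apply mul_le_mul_of_nonneg_left _ hQ0.le
        exact mul_le_mul_of_nonneg_right e4 (by positivity)
    _ = _ := by ring

/-- the expansion of a branch near infinity -/
theorem expansion (d k : ℕ) (hd : 3 ≤ d) : ∃ K : ℕ, ∀ H : ℕ, 2 ≤ H → ∀ c : ℕ → ℕ → ℤ, Ht d c H →
    Lead d c → ∀ a b : ℤ, ev d c a b = 0 → (H : ℝ) ^ K ≤ |(a : ℝ)| → ∀ τ : ℝ,
    aeval τ (gk c d) = 0 → |(b : ℝ) - τ * a| ≤ (H : ℝ) ^ k → ∀ s : ℕ, s + 2 ≤ d → Lev d c τ s →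
      |(b : ℝ) - τ * a - bet0 d c τ - bet1 d c τ s / (a : ℝ) ^ s - bet2 d c τ s / (a : ℝ) ^ (s + 1)| *
        |(a : ℝ)| ^ (s + 2) ≤ (H : ℝ) ^ K := by
  obtain ⟨Kt, hKt⟩ := tau_bound d (by omega)
  obtain ⟨Kb, hKb⟩ := bet_bound d (by omega)
  set k' : ℕ := k + Kt + Kb + 1 with hk'
  obtain ⟨K1, hK1⟩ := AA_bound d k'
  obtain ⟨K2, hK2⟩ := AA_lip d k'
  set m : ℕ := k' + K1 + K2 + Kt + Kb + d + 2 with hm
  refine ⟨17 * m + 1, ?_⟩
  intro H hH c hHt hLead a b hev ha τ hτ hη s hs hLev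
  have hH2 : (2 : ℝ) ≤ H := by exact_mod_cast hH
  have hH1 : (1 : ℝ) ≤ H := by linarith
  have hmono : ∀ {i j : ℕ}, i ≤ j → (H : ℝ) ^ i ≤ (H : ℝ) ^ j := fun h => pow_le_pow_right₀ hH1 h
  obtain ⟨t1, t2, t3⟩ := hKt H hH c hHt hLead τ hτ
  obtain ⟨b1, b2, b3, b4⟩ := hKb H hH c hHt hLead τ hτ s
  set Q : ℝ := (H : ℝ) ^ m with hQdef
  have hQ : 2 ≤ Q := by
    calc (2 : ℝ) ≤ (H : ℝ) ^ 1 := by rw [pow_one]; exact hH2
      _ ≤ _ := hmono (by omega)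
  have hdQ : (d : ℝ) ≤ Q := by
    have h1 : d ≤ 2 ^ d := Nat.lt_two_pow_self.le
    have h2 : (d : ℝ) ≤ (2 : ℝ) ^ d := by exact_mod_cast h1
    calc (d : ℝ) ≤ (2 : ℝ) ^ d := h2
      _ ≤ (H : ℝ) ^ d := pow_le_pow_left₀ (by norm_num) hH2 d
      _ ≤ _ := hmono (by omega)
  have hτ' : |τ| ≤ (H : ℝ) ^ k' := t1.trans (hmono (by omega))
  have hη' : |(b : ℝ) - τ * a| ≤ (H : ℝ) ^ k' := hη.trans (hmono (by omega))
  have hb0' : |bet0 d c τ| ≤ (H : ℝ) ^ k' := b1.trans (hmono (by omega))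
  have hb01 : |bet0 d c τ + 1| ≤ (H : ℝ) ^ k' := by
    have h1 : |bet0 d c τ + 1| ≤ |bet0 d c τ| + 1 := by
      refine (abs_add_le _ _).trans ?_
      rw [abs_one]
    have h2 : (1 : ℝ) ≤ (H : ℝ) ^ Kb := one_le_pow₀ hH1
    have h3 : (H : ℝ) ^ Kb * 2 ≤ (H : ℝ) ^ Kb * H := mul_le_mul_of_nonneg_left hH2 (by positivity)
    calc |bet0 d c τ + 1| ≤ (H : ℝ) ^ Kb * 2 := by linarith
      _ ≤ (H : ℝ) ^ Kb * H := h3
      _ = (H : ℝ) ^ (Kb + 1) := by ring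
      _ ≤ _ := hmono (by omega)
  set η : ℝ := (b : ℝ) - τ * a with hηdef
  set z : ℝ := η - bet0 d c τ with hz
  set g : ℝ := gp d c τ with hg
  have hKtQ : (H : ℝ) ^ Kt ≤ Q := hmono (by omega)
  have hgQ : 1 ≤ Q * |g| := t3.trans (mul_le_mul_of_nonneg_right hKtQ (abs_nonneg _))
  have hg0 : g ≠ 0 := by
    intro h0
    rw [h0, abs_zero, mul_zero] at hgQ
    linarith
  -- the second hasse derivative
  have hh2 : |aeval τ (hasseDeriv 2 (gk c d))| ≤ Q := by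
    have h1 := AA_second d (by omega) c τ (bet0 d c τ + 1)
    have h2 : |AA d c τ (d - 2) (bet0 d c τ + 1)| ≤ (H : ℝ) ^ K1 :=
      hK1 H hH c τ _ hHt hτ' hb01 (d - 2) (by omega)
    have h3 : |aa d c τ (d - 2)| ≤ (H : ℝ) ^ K1 :=
      hK1 H hH c τ _ hHt hτ' hb0' (d - 2) (by omega)
    have h4 : aeval τ (hasseDeriv 2 (gk c d)) =
        AA d c τ (d - 2) (bet0 d c τ + 1) - aa d c τ (d - 2) - A1 d c τ := by
      rw [h1]
      ring
    rw [h4]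
    have h5 := abs_sub (AA d c τ (d - 2) (bet0 d c τ + 1) - aa d c τ (d - 2)) (A1 d c τ)
    have h6 := abs_sub (AA d c τ (d - 2) (bet0 d c τ + 1)) (aa d c τ (d - 2))
    have e1 : (H : ℝ) ^ K1 ≤ (H : ℝ) ^ (K1 + Kb) := hmono (by omega)
    have e2 : (H : ℝ) ^ Kb ≤ (H : ℝ) ^ (K1 + Kb) := hmono (by omega)
    have e3 : (H : ℝ) ^ (K1 + Kb) * 4 ≤ (H : ℝ) ^ (K1 + Kb) * H ^ 2 :=
      mul_le_mul_of_nonneg_left (by nlinarith) (by positivity)
    have e4 : (H : ℝ) ^ (K1 + Kb) * H ^ 2 ≤ Q := by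
      rw [← pow_add]
      exact hmono (by omega)
    have e5 : (0 : ℝ) ≤ (H : ℝ) ^ (K1 + Kb) := by positivity
    linarith
  have ha0 : (a : ℝ) ≠ 0 := by
    intro h0
    rw [h0, abs_zero] at ha
    have : (1 : ℝ) ≤ (H : ℝ) ^ (17 * m + 1) := one_le_pow₀ hH1
    linarith
  have hapos : 0 < |(a : ℝ)| := abs_pos.mpr ha0
  have hxa : |(a : ℝ)⁻¹| * |(a : ℝ)| = 1 := by
    rw [abs_inv, inv_mul_cancel₀ hapos.ne']
  have hx : 2 * Q ^ 3 * |(a : ℝ)⁻¹| ≤ 1 := by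
    rw [abs_inv, ← div_eq_mul_inv, div_le_one hapos]
    refine le_trans ?_ ha
    have h1 : Q ^ 3 = (H : ℝ) ^ (m * 3) := by rw [hQdef, ← pow_mul]
    rw [h1]
    calc 2 * (H : ℝ) ^ (m * 3) ≤ H * (H : ℝ) ^ (m * 3) :=
          mul_le_mul_of_nonneg_right hH2 (by positivity)
      _ = (H : ℝ) ^ (m * 3 + 1) := by ring
      _ ≤ _ := hmono (by omega)
  -- the equation
  have hE : g * z + ∑ i ∈ Ico 1 d, AA d c τ (d - 1 - i) η * ((a : ℝ)⁻¹) ^ i = 0 := by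
    have h1 := ev_taylor d c τ a b
    rw [hev, Int.cast_zero, Finset.sum_range_succ, AA_top, hτ, zero_mul, add_zero,
      ← Finset.sum_range_reflect] at h1
    have h2 : ∀ i ∈ range d, AA d c τ (d - 1 - i) ((b : ℝ) - τ * a) * (a : ℝ) ^ (d - 1 - i) =
        (a : ℝ) ^ (d - 1) * (AA d c τ (d - 1 - i) η * ((a : ℝ)⁻¹) ^ i) := by
      intro i hi
      rw [Finset.mem_range] at hi
      have h3 : (a : ℝ) ^ (d - 1) = (a : ℝ) ^ (d - 1 - i) * (a : ℝ) ^ i := by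
        rw [← pow_add]
        congr 1
        omega
      rw [h3, inv_pow]
      have h4 : (a : ℝ) ^ i * ((a : ℝ) ^ i)⁻¹ = 1 := mul_inv_cancel₀ (pow_ne_zero _ ha0)
      calc AA d c τ (d - 1 - i) η * (a : ℝ) ^ (d - 1 - i) =
            AA d c τ (d - 1 - i) η * (a : ℝ) ^ (d - 1 - i) * ((a : ℝ) ^ i * ((a : ℝ) ^ i)⁻¹) := by
            rw [h4, mul_one]
        _ = _ := by ring
    rw [Finset.sum_congr rfl h2, ← Finset.mul_sum] at h1
    have h3 : ∑ i ∈ range d, AA d c τ (d - 1 - i) η * ((a : ℝ)⁻¹) ^ i = 0 := by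
      rcases mul_eq_zero.mp h1.symm with h | h
      · exact absurd h (pow_ne_zero _ ha0)
      · exact h
    rw [Finset.range_eq_Ico, Finset.sum_eq_sum_Ico_succ_bot (by omega : 0 < d)] at h3
    rw [pow_zero, mul_one, Nat.sub_zero, AA_bet0 d (by omega) c τ η hg0, zero_add] at h3
    exact h3
  have key := exp_core (s := s) (d := d) (B := fun i => AA d c τ (d - 1 - i) η)
    (α := fun i => aa d c τ (d - 1 - i)) (A := A1 d c τ)
    (h2 := aeval τ (hasseDeriv 2 (gk c d))) hLev.1 hs hQ hdQ hx hE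
    (fun i => (hK1 H hH c τ η hHt hτ' hη' _ (by omega)).trans (hmono (by omega)))
    (fun i => (hK2 H hH c τ η (bet0 d c τ) hHt hτ' hη' hb0' _ (by omega)).trans
      (mul_le_mul_of_nonneg_right (hmono (by omega)) (abs_nonneg _)))
    (fun i => (hK1 H hH c τ (bet0 d c τ) hHt hτ' hb0' _ (by omega)).trans (hmono (by omega)))
    (fun i hi1 hi2 => hLev.2.2.1 i hi1 hi2)
    (by
      have h1 := AA_second d (by omega) c τ η
      have h2 : d - 1 - 1 = d - 2 := by omega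
      show AA d c τ (d - 1 - 1) η = aa d c τ (d - 1 - 1) + A1 d c τ * z +
        aeval τ (hasseDeriv 2 (gk c d)) * z ^ 2
      rw [h2, h1])
    (b3.trans (hmono (by omega))) hh2 hgQ
  -- translation
  have hb1 : bet1 d c τ s = -(aa d c τ (d - 1 - s)) / g := rfl
  have hb2 : bet2 d c τ s = -(aa d c τ (d - 1 - (s + 1)) + A1 d c τ *
      (-(aa d c τ (d - 1 - s)) / g)) / g := by
    have h2 : d - 2 - s = d - 1 - (s + 1) := by omega
    unfold bet2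
    rw [h2]
    rfl
  have hfin : (b : ℝ) - τ * a - bet0 d c τ - bet1 d c τ s / (a : ℝ) ^ s -
      bet2 d c τ s / (a : ℝ) ^ (s + 1) =
      z - (-(aa d c τ (d - 1 - s)) / g) * ((a : ℝ)⁻¹) ^ s -
        (-(aa d c τ (d - 1 - (s + 1)) + A1 d c τ * (-(aa d c τ (d - 1 - s)) / g)) / g) *
          ((a : ℝ)⁻¹) ^ (s + 1) := by
    rw [hb1, hb2, hz, hηdef, inv_pow, inv_pow, ← div_eq_mul_inv, ← div_eq_mul_inv]
  rw [hfin]
  have h1 : |z - (-(aa d c τ (d - 1 - s)) / g) * ((a : ℝ)⁻¹) ^ s -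
        (-(aa d c τ (d - 1 - (s + 1)) + A1 d c τ * (-(aa d c τ (d - 1 - s)) / g)) / g) *
          ((a : ℝ)⁻¹) ^ (s + 1)| * |(a : ℝ)| ^ (s + 2) ≤
      Q ^ 17 * |(a : ℝ)⁻¹| ^ (s + 2) * |(a : ℝ)| ^ (s + 2) :=
    mul_le_mul_of_nonneg_right key (by positivity)
  refine h1.trans ?_
  rw [mul_assoc, ← mul_pow, hxa, one_pow, mul_one, hQdef, ← pow_mul]
  exact hmono (by omega)

end Pool.Agent.LW
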