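import Pool.Agent.LW.FIB

set_option autoImplicit false

namespace Pool.Agent.LW

open Polynomial Finset

/-- three points on a branch of high level -/
theorem gap3 (D k : ℕ) (hD : 2 ≤ D) : ∃ K : ℕ, ∀ H : ℕ, 2 ≤ H → ∀ Z : ℝ, (H : ℝ) ^ K ≤ Z →
    ∀ s : ℕ, 2 ≤ s → D ≤ 2 * s → s ≤ D → ∀ τ β β₁ : ℝ, |β₁| ≤ (H : ℝ) ^ k →
    1 ≤ (H : ℝ) ^ k * |β₁| → ∀ a b : Fin 3 → ℤ,
    (∀ i, Z ^ (100 * D ^ 2) ≤ (a i : ℝ) ∧ (a i : ℝ) ≤ Z ^ (100 * D ^ 2 + 1)) →
    (∀ i j, i ≠ j → a i ≠ a j) →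
    (∀ i j, i ≠ j → Z ^ (100 * D ^ 2 * s) ≤ (H : ℝ) ^ k * |(a i : ℝ) - a j| ^ (D - 1)) →
    (∀ i, |(b i : ℝ) - τ * a i - β - β₁ / (a i : ℝ) ^ s| * (a i : ℝ) ^ (s + 1) ≤ (H : ℝ) ^ k) →
      False := by
  refine ⟨2 * k + (D ^ 2 + 4), ?_⟩
  intro H hH Z hZ s hs hDs hsD τ β β₁ hβ₁ hβ₁' a b ha hane hsep hexp
  have hH2 : (2 : ℝ) ≤ H := by exact_mod_cast hH
  have hH1 : (1 : ℝ) ≤ H := by linarith
  have hZ1 : (1 : ℝ) ≤ Z := (one_le_pow₀ hH1).trans hZ
  have hZ0 : 0 < Z := by linarith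
  have hh : (1 : ℝ) ≤ (H : ℝ) ^ k := one_le_pow₀ hH1
  have hbig : (H : ℝ) ^ (2 * k) * ((D : ℝ) ^ 2 + 3) < Z := by
    refine lt_of_lt_of_le ?_ hZ
    have g1 : D ^ 2 + 3 < 2 ^ (D ^ 2 + 4) := lt_of_lt_of_le (by omega) Nat.lt_two_pow_self.le
    have g2 : 2 ^ (D ^ 2 + 4) ≤ H ^ (D ^ 2 + 4) := Nat.pow_le_pow_left hH _
    have g3 : ((D : ℝ) ^ 2 + 3) < (H : ℝ) ^ (D ^ 2 + 4) := by exact_mod_cast g1.trans_le g2
    rw [pow_add]
    exact mul_lt_mul_of_pos_left g3 (by positivity)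
  set N : ℕ := 100 * D ^ 2 with hN
  have hDD : D ≤ D ^ 2 := Nat.le_self_pow (by norm_num) D
  have hDR : (0 : ℝ) ≤ (D : ℝ) ^ 2 := by positivity
  have hkk : (H : ℝ) ^ k * (H : ℝ) ^ k = (H : ℝ) ^ (2 * k) := by rw [two_mul, pow_add]
  have hkk1 : (H : ℝ) ^ k ≤ (H : ℝ) ^ (2 * k) := pow_le_pow_right₀ hH1 (by omega)
  have hZk : (H : ℝ) ^ k * ((D : ℝ) ^ 2 + 3) < Z :=
    lt_of_le_of_lt (mul_le_mul_of_nonneg_right hkk1 (by positivity)) hbig
  have hapos : ∀ i, 0 < (a i : ℝ) := fun i => lt_of_lt_of_le (by positivity) (ha i).1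
  have hne : ∀ i j, i ≠ j → (a i : ℝ) ≠ a j := fun i j hij h => hane i j hij (by exact_mod_cast h)
  set e : Fin 3 → ℝ := fun i => (b i : ℝ) - τ * a i - β - β₁ / (a i : ℝ) ^ s with he
  have h01 := hne 0 1 (by decide)
  have h02 := hne 0 2 (by decide)
  have h12 := hne 1 2 (by decide)
  have s01 : (a 0 : ℝ) - a 1 ≠ 0 := sub_ne_zero.mpr h01
  have s02 : (a 0 : ℝ) - a 2 ≠ 0 := sub_ne_zero.mpr h02
  have s12 : (a 1 : ℝ) - a 2 ≠ 0 := sub_ne_zero.mpr h12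
  obtain ⟨T, hT⟩ : ∃ T : ℝ, T = ((a 1 : ℝ) - a 0) * ((b 2 : ℝ) - b 0) -
    ((a 2 : ℝ) - a 0) * ((b 1 : ℝ) - b 0) := ⟨_, rfl⟩
  obtain ⟨V, hV⟩ : ∃ V : ℝ, V = ((a 1 : ℝ) - a 0) * ((a 2 : ℝ) - a 0) * ((a 2 : ℝ) - a 1) :=
    ⟨_, rfl⟩
  obtain ⟨Er, hEr⟩ : ∃ Er : ℝ, Er = e 0 * ((a 2 : ℝ) - a 1) - e 1 * ((a 2 : ℝ) - a 0) +
    e 2 * ((a 1 : ℝ) - a 0) := ⟨_, rfl⟩
  have hrel : T = V * (β₁ * dd s (a 0) (a 1) (a 2)) + Er := by
    have hb' : ∀ i, (b i : ℝ) = τ * a i + β + β₁ * (1 / (a i : ℝ) ^ s) + e i := by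
      intro i
      rw [he]
      ring
    have hdd : V * dd s (a 0) (a 1) (a 2) = (1 / (a 0 : ℝ) ^ s) * ((a 2 : ℝ) - a 1) -
        (1 / (a 1 : ℝ) ^ s) * ((a 2 : ℝ) - a 0) + (1 / (a 2 : ℝ) ^ s) * ((a 1 : ℝ) - a 0) := by
      unfold dd
      rw [hV]
      generalize 1 / (a 0 : ℝ) ^ s = u0
      generalize 1 / (a 1 : ℝ) ^ s = u1
      generalize 1 / (a 2 : ℝ) ^ s = u2
      have e1 : (a 1 : ℝ) - a 0 = -((a 0 : ℝ) - a 1) := by ring
      have e2 : (a 2 : ℝ) - a 0 = -((a 0 : ℝ) - a 2) := by ring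
      have e3 : (a 2 : ℝ) - a 1 = -((a 1 : ℝ) - a 2) := by ring
      rw [e1, e2, e3]
      field_simp
      ring
    rw [hT, hEr, hb' 0, hb' 1, hb' 2]
    linear_combination (-β₁) * hdd
  -- the bounds
  set L : ℝ := Z ^ (N + 1) with hL
  have hL0 : 0 < L := by positivity
  have hw : ∀ i j, |(a i : ℝ) - a j| ≤ L := by
    intro i j
    have g1 := ha i
    have g2 := ha j
    have g3 := hapos i
    have g4 := hapos j
    rw [abs_le]
    constructor <;> linarith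
  have heb : ∀ i, |e i| * Z ^ (N * (s + 1)) ≤ (H : ℝ) ^ k := by
    intro i
    have g3 : Z ^ (N * (s + 1)) ≤ (a i : ℝ) ^ (s + 1) := by
      rw [pow_mul]; exact pow_le_pow_left₀ (by positivity) (ha i).1 _
    exact (mul_le_mul_of_nonneg_left g3 (abs_nonneg _)).trans (hexp i)
  have hErb : |Er| * Z ^ (N * (s + 1)) ≤
      (H : ℝ) ^ k * (|(a 2 : ℝ) - a 1| + |(a 2 : ℝ) - a 0| + |(a 1 : ℝ) - a 0|) := by
    have g1 : |Er| ≤ |e 0| * |(a 2 : ℝ) - a 1| + |e 1| * |(a 2 : ℝ) - a 0| +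
        |e 2| * |(a 1 : ℝ) - a 0| := by
      rw [hEr, ← abs_mul, ← abs_mul, ← abs_mul]
      have := abs_add_three (e 0 * ((a 2 : ℝ) - a 1)) (-(e 1 * ((a 2 : ℝ) - a 0)))
        (e 2 * ((a 1 : ℝ) - a 0))
      rw [abs_neg] at this
      rw [sub_eq_add_neg]
      exact this
    have g2 := mul_le_mul_of_nonneg_right g1 (by positivity : 0 ≤ Z ^ (N * (s + 1)))
    have g3 := mul_le_mul_of_nonneg_right (heb 0) (abs_nonneg ((a 2 : ℝ) - a 1))
    have g4 := mul_le_mul_of_nonneg_right (heb 1) (abs_nonneg ((a 2 : ℝ) - a 0))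
    have g5 := mul_le_mul_of_nonneg_right (heb 2) (abs_nonneg ((a 1 : ℝ) - a 0))
    linarith
  have hlow := dd_lower s (by omega) (a 0) (a 1) (a 2) L (hapos 0) (hapos 1) (hapos 2) h01 h02 h12
    (ha 0).2 (ha 1).2 (ha 2).2
  have hup := dd_upper s (a 0) (a 1) (a 2) (Z ^ N) (by positivity) (ha 0).1 (ha 1).1 (ha 2).1
    h01 h02 h12
  rw [← pow_mul] at hlow hup
  -- the determinant is less than one in absolute value
  have hTlt : |T| < 1 := by
    have g1 : |V| ≤ Z ^ (3 * (N + 1)) := by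
      rw [hV, abs_mul, abs_mul]
      have g0 : Z ^ (3 * (N + 1)) = L * L * L := by
        rw [hL, ← pow_add, ← pow_add]; congr 1; ring
      rw [g0]
      have := hw 1 0
      have := hw 2 0
      have := hw 2 1
      gcongr
    have g2 : |dd s (a 0 : ℝ) (a 1) (a 2)| * Z ^ (N * (s + 2)) ≤ (D : ℝ) ^ 2 := by
      rw [le_div_iff₀ (by positivity)] at hup
      refine hup.trans ?_
      have : (s : ℝ) ≤ D := by exact_mod_cast hsD
      gcongr
    have g3 : |V * (β₁ * dd s (a 0) (a 1) (a 2))| * Z ≤ (H : ℝ) ^ k * (D : ℝ) ^ 2 := by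
      rw [abs_mul, abs_mul]
      have g4 : Z ^ (3 * (N + 1)) * Z ≤ Z ^ (N * (s + 2)) := by
        rw [← pow_succ]
        refine pow_le_pow_right₀ hZ1 ?_
        have : N * 4 ≤ N * (s + 2) := Nat.mul_le_mul_left _ (by omega)
        omega
      calc |V| * (|β₁| * |dd s (a 0 : ℝ) (a 1) (a 2)|) * Z
          ≤ Z ^ (3 * (N + 1)) * ((H : ℝ) ^ k * |dd s (a 0 : ℝ) (a 1) (a 2)|) * Z := by gcongr
        _ = (H : ℝ) ^ k * (|dd s (a 0 : ℝ) (a 1) (a 2)| * (Z ^ (3 * (N + 1)) * Z)) := by ring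
        _ ≤ (H : ℝ) ^ k * (|dd s (a 0 : ℝ) (a 1) (a 2)| * Z ^ (N * (s + 2))) := by gcongr
        _ ≤ (H : ℝ) ^ k * (D : ℝ) ^ 2 := by gcongr
    have g5 : |Er| * Z ≤ (H : ℝ) ^ k * 3 := by
      have g6 : L * Z ≤ Z ^ (N * (s + 1)) := by
        rw [hL, ← pow_succ]
        refine pow_le_pow_right₀ hZ1 ?_
        have : N * 3 ≤ N * (s + 1) := Nat.mul_le_mul_left _ (by omega)
        omega
      have g7 : |Er| * (L * Z) ≤ (H : ℝ) ^ k * 3 * L := by
        refine (mul_le_mul_of_nonneg_left g6 (abs_nonneg _)).trans (hErb.trans ?_)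
        have := hw 1 0
        have := hw 2 0
        have := hw 2 1
        have g8 : |(a 2 : ℝ) - a 1| + |(a 2 : ℝ) - a 0| + |(a 1 : ℝ) - a 0| ≤ 3 * L := by linarith
        calc (H : ℝ) ^ k * (|(a 2 : ℝ) - a 1| + |(a 2 : ℝ) - a 0| + |(a 1 : ℝ) - a 0|)
            ≤ (H : ℝ) ^ k * (3 * L) := by gcongr
          _ = (H : ℝ) ^ k * 3 * L := by ring
      have g8 : (|Er| * Z) * L ≤ ((H : ℝ) ^ k * 3) * L := by
        calc (|Er| * Z) * L = |Er| * (L * Z) := by ring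
          _ ≤ _ := g7
      exact le_of_mul_le_mul_right g8 hL0
    have g6 : |T| * Z ≤ (H : ℝ) ^ k * ((D : ℝ) ^ 2 + 3) := by
      rw [hrel]
      have g7 := mul_le_mul_of_nonneg_right
        (abs_add_le (V * (β₁ * dd s (a 0) (a 1) (a 2))) Er) hZ0.le
      rw [add_mul] at g7
      rw [mul_add]
      exact g7.trans (add_le_add g3 g5)
    by_contra hcon
    push Not at hcon
    have g7 : 1 * Z ≤ |T| * Z := mul_le_mul_of_nonneg_right hcon hZ0.le
    rw [one_mul] at g7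
    exact absurd (g7.trans g6) (not_le.2 hZk)
  have hT0 : T = 0 := by
    have h1 : T = ((tri a b : ℤ) : ℝ) := by
      rw [hT]
      unfold tri
      push_cast
      ring
    rw [h1] at hTlt ⊢
    have h2 : |tri a b| < 1 := by exact_mod_cast hTlt
    rw [Int.abs_lt_one_iff.mp h2, Int.cast_zero]
  -- separation
  set j : ℕ := 50 * D ^ 2 + D + 2 with hj
  have hδ : ∀ i i', i ≠ i' → Z ^ j ≤ |(a i : ℝ) - a i'| := by
    intro i i' hii
    by_contra hcon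
    push Not at hcon
    have g1 := hsep i i' hii
    have g2 : |(a i : ℝ) - a i'| ^ (D - 1) ≤ (Z ^ j) ^ (D - 1) :=
      pow_le_pow_left₀ (abs_nonneg _) hcon.le _
    have g3 : Z ^ (j * (D - 1)) * Z ≤ Z ^ (N * s) := by
      rw [← pow_succ]
      refine pow_le_pow_right₀ hZ1 ?_
      obtain ⟨E, rfl⟩ : ∃ E, D = E + 1 := ⟨D - 1, by omega⟩
      rw [hj, hN]
      have h5 : E + 1 - 1 = E := by omega
      rw [h5]
      have h6 : 50 * (E + 1) ^ 2 * (E + 1) ≤ 100 * (E + 1) ^ 2 * s := by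
        have : 50 * (E + 1) ^ 2 * (E + 1) ≤ 50 * (E + 1) ^ 2 * (2 * s) :=
          Nat.mul_le_mul_left _ hDs
        linarith
      refine le_trans ?_ h6
      ring_nf
      omega
    have g4 : Z ^ (j * (D - 1)) * Z ≤ (H : ℝ) ^ k * Z ^ (j * (D - 1)) := by
      refine g3.trans (g1.trans ?_)
      rw [pow_mul]
      gcongr
    have g5 : 0 < Z ^ (j * (D - 1)) := by positivity
    have g6 : Z ≤ (H : ℝ) ^ k := by
      have : Z ^ (j * (D - 1)) * Z ≤ Z ^ (j * (D - 1)) * (H : ℝ) ^ k := by linarith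
      exact le_of_mul_le_mul_left this g5
    have g7 : (H : ℝ) ^ k * 1 ≤ (H : ℝ) ^ k * ((D : ℝ) ^ 2 + 3) :=
      mul_le_mul_of_nonneg_left (by linarith) (by positivity)
    linarith
  have hV0 : 0 < |V| := by
    rw [abs_pos, hV]
    exact mul_ne_zero (mul_ne_zero (sub_ne_zero.mpr h01.symm) (sub_ne_zero.mpr h02.symm))
      (sub_ne_zero.mpr h12.symm)
  have d10 := hδ 1 0 (by decide)
  have d20 := hδ 2 0 (by decide)
  have d21 := hδ 2 1 (by decide)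
  have hZj : 0 < Z ^ j := by positivity
  have hsum : (Z ^ j * Z ^ j) * (|(a 2 : ℝ) - a 1| + |(a 2 : ℝ) - a 0| + |(a 1 : ℝ) - a 0|) ≤
      3 * |V| := by
    have hVe : |V| = |(a 1 : ℝ) - a 0| * |(a 2 : ℝ) - a 0| * |(a 2 : ℝ) - a 1| := by
      rw [hV, abs_mul, abs_mul]
    generalize |(a 1 : ℝ) - a 0| = x at *
    generalize |(a 2 : ℝ) - a 0| = y at *
    generalize |(a 2 : ℝ) - a 1| = z at *
    generalize Z ^ j = δ at *
    rw [hVe]
    have q1 : 0 < x := hZj.trans_le d10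
    have q2 : 0 < y := hZj.trans_le d20
    have q3 : 0 < z := hZj.trans_le d21
    have p1 : δ * δ * z ≤ x * y * z := by gcongr
    have p2 : δ * δ * y ≤ x * z * y := by gcongr
    have p3 : δ * δ * x ≤ y * z * x := by gcongr
    linarith
  have hfin : (Z ^ j * Z ^ j) * |β₁| ≤ 3 * (H : ℝ) ^ k * Z ^ (N + s + 2) := by
    have g1 : |V| * |β₁| ≤ L ^ (s + 2) * |Er| := by
      have g2 : V * (β₁ * dd s (a 0) (a 1) (a 2)) = -Er := by linarith
      have g3 : |V| * |β₁| * dd s (a 0 : ℝ) (a 1) (a 2) = |Er| := by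
        have g4 : 0 < dd s (a 0 : ℝ) (a 1) (a 2) := lt_of_lt_of_le (by positivity) hlow
        rw [← abs_neg Er, ← g2, abs_mul, abs_mul, abs_of_pos g4]
        ring
      rw [← g3]
      have g5 : 1 ≤ L ^ (s + 2) * dd s (a 0 : ℝ) (a 1) (a 2) := by
        rw [hL, ← pow_mul]
        rw [div_le_iff₀ (by positivity)] at hlow
        linarith
      have g6 : 0 ≤ |V| * |β₁| := by positivity
      have g7 := mul_le_mul_of_nonneg_left g5 g6
      linarith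
    have g2 : (Z ^ j * Z ^ j) * (|V| * |β₁|) * Z ^ (N * (s + 1)) ≤
        3 * (H : ℝ) ^ k * Z ^ (N + s + 2) * Z ^ (N * (s + 1)) * |V| := by
      have g3 : L ^ (s + 2) = Z ^ (N + s + 2) * Z ^ (N * (s + 1)) := by
        rw [hL, ← pow_mul, ← pow_add]
        congr 1
        ring
      calc (Z ^ j * Z ^ j) * (|V| * |β₁|) * Z ^ (N * (s + 1))
          ≤ (Z ^ j * Z ^ j) * (L ^ (s + 2) * |Er|) * Z ^ (N * (s + 1)) := by gcongr
        _ = L ^ (s + 2) * ((Z ^ j * Z ^ j) * (|Er| * Z ^ (N * (s + 1)))) := by ring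
        _ ≤ L ^ (s + 2) * ((Z ^ j * Z ^ j) * ((H : ℝ) ^ k *
              (|(a 2 : ℝ) - a 1| + |(a 2 : ℝ) - a 0| + |(a 1 : ℝ) - a 0|))) := by gcongr
        _ = L ^ (s + 2) * (H : ℝ) ^ k * ((Z ^ j * Z ^ j) *
              (|(a 2 : ℝ) - a 1| + |(a 2 : ℝ) - a 0| + |(a 1 : ℝ) - a 0|)) := by ring
        _ ≤ L ^ (s + 2) * (H : ℝ) ^ k * (3 * |V|) := by gcongr
        _ = 3 * (H : ℝ) ^ k * Z ^ (N + s + 2) * Z ^ (N * (s + 1)) * |V| := by rw [g3]; ring
    have g4 : 0 < |V| * Z ^ (N * (s + 1)) := by positivity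
    have g5 : (Z ^ j * Z ^ j) * |β₁| * (|V| * Z ^ (N * (s + 1))) ≤
        3 * (H : ℝ) ^ k * Z ^ (N + s + 2) * (|V| * Z ^ (N * (s + 1))) := by linarith
    exact le_of_mul_le_mul_right g5 g4
  have hlast : Z ^ (N + s + 3) ≤ 3 * (H : ℝ) ^ (2 * k) * Z ^ (N + s + 2) := by
    calc Z ^ (N + s + 3) ≤ Z ^ (j + j) := by
          refine pow_le_pow_right₀ hZ1 ?_
          rw [hj, hN]
          omega
      _ = Z ^ j * Z ^ j * 1 := by rw [pow_add, mul_one]
      _ ≤ Z ^ j * Z ^ j * ((H : ℝ) ^ k * |β₁|) := by gcongr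
      _ = (H : ℝ) ^ k * ((Z ^ j * Z ^ j) * |β₁|) := by ring
      _ ≤ (H : ℝ) ^ k * (3 * (H : ℝ) ^ k * Z ^ (N + s + 2)) := by gcongr
      _ = 3 * (H : ℝ) ^ (2 * k) * Z ^ (N + s + 2) := by rw [← hkk]; ring
  have hZ3 : Z ≤ 3 * (H : ℝ) ^ (2 * k) := by
    have g1 : Z * Z ^ (N + s + 2) ≤ 3 * (H : ℝ) ^ (2 * k) * Z ^ (N + s + 2) := by
      rw [← pow_succ']
      exact hlast
    exact le_of_mul_le_mul_right g1 (by positivity)
  have h3 : (H : ℝ) ^ (2 * k) * 3 ≤ (H : ℝ) ^ (2 * k) * ((D : ℝ) ^ 2 + 3) :=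
    mul_le_mul_of_nonneg_left (by linarith) (by positivity)
  linarith

/-- Liouville's inequality for a zero of the leading form -/
theorem fb_liouville (d k : ℕ) (hd : 2 ≤ d) : ∃ K : ℕ, ∀ H : ℕ, 2 ≤ H → ∀ c : ℕ → ℕ → ℤ, Ht d c H →
    Lead d c → ∀ τ : ℝ, aeval τ (gk c d) = 0 → |τ| ≤ (H : ℝ) ^ k → ∀ p q : ℤ, q ≠ 0 →
      |(p : ℝ) - τ * q| ≤ (H : ℝ) ^ k →
        1 ≤ (H : ℝ) ^ K * (|(p : ℝ) - τ * q| * |(q : ℝ)| ^ (d - 1)) := by
  obtain ⟨K, hK⟩ := AA_lip d k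
  refine ⟨K + d, ?_⟩
  intro H hH c hc hL τ hτ hτk p q hq hpq
  have hH2 : (2 : ℝ) ≤ H := by exact_mod_cast hH
  have hH1 : (1 : ℝ) ≤ H := by linarith
  set c' : ℕ → ℕ → ℤ := fun i j => if i + j = d then c i j else 0 with hc'
  have hHt' : Ht d c' H := by
    intro i j hij
    rw [hc']
    simp only
    split_ifs
    · exact hc i j hij
    · rw [abs_zero]
      exact Int.natCast_nonneg H
  have hgk' : gk c' d = gk c d := by
    unfold gk
    refine Finset.sum_congr rfl fun j hj => ?_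
    rw [mem_range] at hj
    rw [hc']
    simp only
    rw [if_pos (by omega)]
  have hgk0 : ∀ l, l < d → gk c' l = 0 := by
    intro l hl
    unfold gk
    refine Finset.sum_eq_zero fun j hj => ?_
    rw [mem_range] at hj
    rw [hc']
    simp only
    rw [if_neg (by omega), monomial_zero_right]
  -- the value of the leading form is not zero
  have hval : ev d c' q p ≠ 0 := by
    intro h0
    have h1 : ((gk c d).map (Int.castRingHom ℚ)).eval ((p : ℚ) / q) = 0 := by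
      have hq' : (q : ℚ) ≠ 0 := by exact_mod_cast hq
      have h2 : (q : ℚ) ^ d * ((gk c d).map (Int.castRingHom ℚ)).eval ((p : ℚ) / q) =
          ((ev d c' q p : ℤ) : ℚ) := by
        have hev : ev d c' q p = ∑ j ∈ range (d + 1), c (d - j) j * q ^ (d - j) * p ^ j := by
          have hz : ∀ l ∈ range d, ∑ j ∈ range (l + 1), c' (l - j) j * q ^ (l - j) * p ^ j = 0 := by
            intro l hl
            rw [mem_range] at hl
            refine Finset.sum_eq_zero fun j hj => ?_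
            rw [mem_range] at hj
            rw [hc']
            simp only
            rw [if_neg (by omega)]
            ring
          rw [ev, Finset.sum_range_succ, Finset.sum_eq_zero hz, zero_add]
          refine Finset.sum_congr rfl fun j hj => ?_
          rw [mem_range] at hj
          rw [hc']
          simp only
          rw [if_pos (by omega)]
        rw [hev, eval_map]
        unfold gk
        rw [eval₂_finsetSum, Finset.mul_sum]
        push_cast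
        refine Finset.sum_congr rfl fun j hj => ?_
        rw [mem_range] at hj
        rw [eval₂_monomial]
        obtain ⟨u, hu⟩ : ∃ u, d = u + j := ⟨d - j, by omega⟩
        have hu' : d - j = u := by omega
        rw [hu', eq_intCast, div_pow, hu, pow_add]
        field_simp
      rw [h0, Int.cast_zero] at h2
      rcases mul_eq_zero.1 h2 with h3 | h3
      · exact absurd h3 (pow_ne_zero _ hq')
      · exact h3
    have h4 := degree_eq_one_of_irreducible_of_root hL.2 h1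
    have h5 : ((gk c d).map (Int.castRingHom ℚ)).natDegree = d := by
      rw [natDegree_map_eq_of_injective (Int.cast_injective)]
      exact hL.1
    rw [degree_eq_natDegree hL.2.ne_zero, h5] at h4
    have h6 : d = 1 := by exact_mod_cast h4
    omega
  have h1 : (1 : ℝ) ≤ |(ev d c' q p : ℝ)| := by
    have : (1 : ℤ) ≤ |ev d c' q p| := Int.one_le_abs hval
    exact_mod_cast this
  have hq1 : (1 : ℝ) ≤ |(q : ℝ)| := by
    have : (1 : ℤ) ≤ |q| := Int.one_le_abs hq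
    exact_mod_cast this
  set η : ℝ := (p : ℝ) - τ * q with hη
  have hzero : ∀ r ≤ d, AA d c' τ r 0 = 0 := by
    intro r hr
    unfold AA
    refine Finset.sum_eq_zero fun m hm => ?_
    rcases Nat.eq_zero_or_pos m with h0 | h0
    · subst h0
      rw [add_zero, hasseDeriv_zero', pow_zero, mul_one]
      rcases hr.lt_or_eq with h2 | h2
      · rw [hgk0 r h2, map_zero]
      · rw [h2, hgk']
        exact hτ
    · rw [zero_pow (by omega), mul_zero]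
  have hAA : ∀ r ≤ d, |AA d c' τ r η| ≤ (H : ℝ) ^ K * |η| := by
    intro r hr
    have := hK H hH c' τ η 0 hHt' hτk hpq (by rw [abs_zero]; positivity) r hr
    rw [hzero r hr, sub_zero, sub_zero] at this
    exact this
  have htop : AA d c' τ d η = 0 := by rw [AA_top, hgk']; exact hτ
  have h2 : |(ev d c' q p : ℝ)| ≤ ∑ r ∈ range d, (H : ℝ) ^ K * |η| * |(q : ℝ)| ^ (d - 1) := by
    rw [ev_taylor d c' τ q p, Finset.sum_range_succ, htop, zero_mul, add_zero]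
    refine (Finset.abs_sum_le_sum_abs _ _).trans (Finset.sum_le_sum fun r hr => ?_)
    rw [mem_range] at hr
    rw [abs_mul, abs_pow]
    have h3 : |(q : ℝ)| ^ r ≤ |(q : ℝ)| ^ (d - 1) := pow_le_pow_right₀ hq1 (by omega)
    exact mul_le_mul (hAA r hr.le) h3 (by positivity) (by positivity)
  rw [Finset.sum_const, card_range, nsmul_eq_mul] at h2
  have h3 : (d : ℝ) ≤ (H : ℝ) ^ d := by
    have g1 := tay_succ_le_pow d H hH
    linarith
  have h4 : (0 : ℝ) ≤ (H : ℝ) ^ K * |η| * |(q : ℝ)| ^ (d - 1) := by positivity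
  calc (1 : ℝ) ≤ |(ev d c' q p : ℝ)| := h1
    _ ≤ (d : ℝ) * ((H : ℝ) ^ K * |η| * |(q : ℝ)| ^ (d - 1)) := h2
    _ ≤ (H : ℝ) ^ d * ((H : ℝ) ^ K * |η| * |(q : ℝ)| ^ (d - 1)) :=
        mul_le_mul_of_nonneg_right h3 h4
    _ = (H : ℝ) ^ (K + d) * (|η| * |(q : ℝ)| ^ (d - 1)) := by rw [pow_add]; ring

private theorem fb3_coeff (c : ℕ → ℕ → ℤ) (k j : ℕ) (hj : j ≤ k) :
    (gk c k).coeff j = c (k - j) j := by
  rw [gk, finsetSum_coeff]
  simp only [coeff_monomial]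
  rw [sum_ite_eq' (range (k + 1)) j, if_pos (mem_range.mpr (by omega))]

private theorem fb3_sub (d : ℕ) (hd : 1 ≤ d) (c c' : ℕ → ℕ → ℤ) (h : gk c d = gk c' d)
    (a b : ℤ) (h1 : ev d c a b = 0) (h2 : ev d c' a b = 0) :
    ev (d - 1) (fun p q => c p q - c' p q) a b = 0 := by
  obtain ⟨e, rfl⟩ : ∃ e, d = e + 1 := ⟨d - 1, by omega⟩
  rw [Nat.add_sub_cancel]
  have h3 : ∀ f : ℕ → ℕ → ℤ, ev (e + 1) f a b = ev e f a b +
      ∑ j ∈ range (e + 1 + 1), f (e + 1 - j) j * a ^ (e + 1 - j) * b ^ j := by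
    intro f
    rw [ev, sum_range_succ, ev]
  have h4 : ∑ j ∈ range (e + 1 + 1), c (e + 1 - j) j * a ^ (e + 1 - j) * b ^ j =
      ∑ j ∈ range (e + 1 + 1), c' (e + 1 - j) j * a ^ (e + 1 - j) * b ^ j := by
    refine sum_congr rfl fun j hj => ?_
    have hj' : j ≤ e + 1 := by
      have := mem_range.mp hj
      omega
    rw [← fb3_coeff c (e + 1) j hj', ← fb3_coeff c' (e + 1) j hj', h]
  have h5 : ev e (fun p q => c p q - c' p q) a b = ev e c a b - ev e c' a b := by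
    rw [ev, ev, ev, ← sum_sub_distrib]
    refine sum_congr rfl fun k _ => ?_
    rw [← sum_sub_distrib]
    refine sum_congr rfl fun j _ => ?_
    ring
  rw [h3] at h1 h2
  rw [h5]
  linarith

theorem fb_bet_dep (d : ℕ) (c c' : ℕ → ℕ → ℤ) (τ : ℝ) (s : ℕ) (hs : s + 2 ≤ d)
    (h : ∀ k, d - 1 - s ≤ k → k ≤ d → gk c k = gk c' k) :
    bet0 d c τ = bet0 d c' τ ∧ bet1 d c τ s = bet1 d c' τ s := by
  have h1 : gk c d = gk c' d := h d (by omega) le_rfl
  have h2 : gk c (d - 1) = gk c' (d - 1) := h (d - 1) (by omega) (by omega)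
  have hgp : gp d c τ = gp d c' τ := by rw [gp, gp, h1]
  have hb : bet0 d c τ = bet0 d c' τ := by rw [bet0, bet0, h2, hgp]
  have ha1 : aa d c τ (d - 1 - s) = aa d c' τ (d - 1 - s) := by
    unfold aa AA
    rw [hb]
    refine Finset.sum_congr rfl fun m hm => ?_
    rw [mem_range] at hm
    rw [h (d - 1 - s + m) (by omega) (by omega)]
  refine ⟨hb, ?_⟩
  rw [bet1, bet1, ha1, hgp]

/-- among three curves of high level with zeros of comparable size two are equal -/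
theorem fiber3 (d k : ℕ) (hd : 3 ≤ d) : ∃ K : ℕ, ∀ H : ℕ, 2 ≤ H → ∀ (ε : ℤ) (τ : ℝ) (s : ℕ)
    (c : Fin 3 → ℕ → ℕ → ℤ) (a b : Fin 3 → ℤ), (ε = 1 ∨ ε = -1) → (∀ i, Ht d (c i) H) →
    (∀ i, Lead d (c i)) → (∀ i, ev d (c i) (a i) (b i) = 0) → (∀ i, (H : ℝ) ^ K ≤ ε * a i) →
    (∀ i, aeval τ (gk (c i) d) = 0) → (∀ i, |(b i : ℝ) - τ * a i| ≤ (H : ℝ) ^ k) →
    (∀ i, Lev d (c i) τ s) → 2 ≤ s → d ≤ 2 * s → s + 2 ≤ d → (∀ i, gk (c i) d = gk (c 0) d) →
    (∀ i, gk (c i) (d - 1) = gk (c 0) (d - 1)) →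
    (∀ i, gk (c i) (d - 1 - s) = gk (c 0) (d - 1 - s)) →
    (∀ i j, |(a i : ℝ)| ^ (100 * d ^ 2) ≤ |(a j : ℝ)| ^ (100 * d ^ 2 + 1)) →
      ∃ i j, i ≠ j ∧ ∀ p q, p + q ≤ d → c i p q = c j p q := by
  obtain ⟨K1, hK1⟩ := res_bound d (d - 1) (by omega)
  obtain ⟨K3, hK3⟩ := expansion d k hd
  obtain ⟨K4, hK4⟩ := bet_bound d (by omega)
  obtain ⟨K5, hK5⟩ := bet1_lower d (by omega)
  obtain ⟨K6, hK6⟩ := tau_bound d (by omega)
  obtain ⟨K2, hK2⟩ := fb_liouville d (K6 + 1) (by omega)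
  set k' : ℕ := K2 + K3 + K4 + K5 + K6 + 3 with hk'
  obtain ⟨K7, hK7⟩ := gap3 d k' (by omega)
  refine ⟨k' + (K1 + 2 * d + 1) + K7 * (100 * d ^ 2), ?_⟩
  intro H hH ε τ s c a b hε hc hL hev ha hτ hb hlev hs2 hds hs g1 g2 g3 hcmp
  have hH2 : (2 : ℝ) ≤ (H : ℝ) := by exact_mod_cast hH
  have hH1 : (1 : ℝ) ≤ (H : ℝ) := by linarith
  have hm : ∀ m n : ℕ, m ≤ n → (H : ℝ) ^ m ≤ (H : ℝ) ^ n := fun m n h => pow_le_pow_right₀ hH1 h
  have hp0 : ∀ n : ℕ, 0 < (H : ℝ) ^ n := fun n => by positivity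
  have hε1 : |(ε : ℝ)| = 1 := by rcases hε with h | h <;> rw [h] <;> norm_num
  have hεε : (ε : ℝ) * ε = 1 := by rcases hε with h | h <;> rw [h] <;> norm_num
  have hεZ : ε * ε = 1 := by rcases hε with h | h <;> rw [h] <;> norm_num
  -- the homogeneous parts of degree at least `d - 1 - s`
  have hgk : ∀ i, ∀ l, d - 1 - s ≤ l → l ≤ d → gk (c i) l = gk (c 0) l := by
    intro i l hl hld
    rcases Nat.lt_or_ge (l + 1) d with h1 | h1
    · set u := d - 1 - l with hu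
      have hul : l = d - 1 - u := by omega
      rcases Nat.lt_or_ge u s with h2 | h2
      · rw [hul]
        exact levels_eq d (by omega) (c i) (c 0) τ s (hL i) (g1 i) (g2 i) (hτ i) (hlev i)
          (hlev 0) u (by omega) h2
      · have h3 : u = s := by omega
        rw [hul, h3]
        exact g3 i
    · rcases h1.eq_or_lt with h2 | h2
      · have h3 : l = d - 1 := by omega
        rw [h3]
        exact g2 i
      · have h3 : l = d := by omega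
        rw [h3]
        exact g1 i
  by_contra hcon
  push Not at hcon
  -- the points are distinct
  have habs : ∀ i, |(a i : ℝ)| = ((ε * a i : ℤ) : ℝ) := by
    intro i
    have h1 : (0 : ℝ) < (ε : ℝ) * a i := lt_of_lt_of_le (hp0 _) (ha i)
    push_cast
    rw [← abs_of_pos h1, abs_mul, hε1, one_mul]
  have hlow : ∀ i, (H : ℝ) ^ (k' + (K1 + 2 * d + 1) + K7 * (100 * d ^ 2)) ≤ |(a i : ℝ)| := by
    intro i
    rw [habs]
    push_cast
    exact ha i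
  have hdist : ∀ i j, i ≠ j → (a i, b i) ≠ (a j, b j) := by
    intro i j hij heq
    obtain ⟨p, q, hpq, hne⟩ := hcon i j hij
    rw [Prod.mk.injEq] at heq
    have ha' : a i = a j := heq.1
    have hgij : gk (c i) d = gk (c j) d := (g1 i).trans (g1 j).symm
    have hev' : ev d (c j) (a i) (b i) = 0 := by
      rw [ha', heq.2]
      exact hev j
    have h1 := fb3_sub d (by omega) (c i) (c j) hgij (a i) (b i) (hev i) hev'
    have hpq' : p + q ≤ d - 1 := by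
      by_contra hlt
      have h2 : p + q = d := by omega
      have h3 := congrArg (fun P => P.coeff q) hgij
      simp only [fb3_coeff (c i) d q (by omega), fb3_coeff (c j) d q (by omega)] at h3
      have h4 : d - q = p := by omega
      rw [h4] at h3
      exact hne h3
    have h2 := hK1 H hH (c i) (hc i) (hL i) (fun p q => c i p q - c j p q) ((H : ℝ) ^ 2)
      (one_le_pow₀ hH1) (fun u v huv => by
        have e1 : |(c i u v : ℝ)| ≤ H := by exact_mod_cast hc i u v (by omega)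
        have e2 : |(c j u v : ℝ)| ≤ H := by exact_mod_cast hc j u v (by omega)
        push_cast
        have e3 := abs_sub (c i u v : ℝ) (c j u v : ℝ)
        nlinarith) ⟨p, q, hpq', sub_ne_zero.mpr hne⟩ (a i) (b i) (hev i) h1
    have h3 : (H : ℝ) ^ K1 * ((H : ℝ) ^ 2) ^ d = (H : ℝ) ^ (K1 + 2 * d) := by
      rw [← pow_mul, ← pow_add]
    rw [h3] at h2
    have h4 : (H : ℝ) ^ (K1 + 2 * d) < (H : ℝ) ^ (K1 + 2 * d + 1) := by
      rw [pow_succ]
      have := hp0 (K1 + 2 * d)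
      nlinarith
    have h5 := hm (K1 + 2 * d + 1) (k' + (K1 + 2 * d + 1) + K7 * (100 * d ^ 2)) (by
      have := Nat.zero_le (K7 * (100 * d ^ 2))
      omega)
    linarith [hlow i]
  -- the smallest of the three
  obtain ⟨m, -, hmin⟩ := exists_min_image (univ : Finset (Fin 3)) (fun i => |(a i : ℝ)|)
    ⟨0, mem_univ _⟩
  set N : ℕ := 100 * d ^ 2 with hN
  have hN0 : N ≠ 0 := by
    rw [hN]
    positivity
  have hmpos : 0 < |(a m : ℝ)| := lt_of_lt_of_le (hp0 _) (hlow m)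
  obtain ⟨Z, hZ⟩ : ∃ Z : ℝ, Z = |(a m : ℝ)| ^ ((N : ℝ)⁻¹) := ⟨_, rfl⟩
  have hZ0 : 0 ≤ Z := by rw [hZ]; exact Real.rpow_nonneg hmpos.le _
  have hZN : Z ^ N = |(a m : ℝ)| := by
    rw [hZ]
    exact Real.rpow_inv_natCast_pow hmpos.le hN0
  have hZK : (H : ℝ) ^ K7 ≤ Z := by
    refine le_of_pow_le_pow_left₀ hN0 hZ0 ?_
    rw [hZN, ← pow_mul]
    refine (hm _ _ ?_).trans (hlow m)
    omega
  have hZpos : 0 < Z := lt_of_lt_of_le (hp0 _) hZK
  obtain ⟨t1, -, -⟩ := hK6 H hH (c 0) (hc 0) (hL 0) τ (hτ 0)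
  obtain ⟨u1, u2, -, -⟩ := hK4 H hH (c 0) (hc 0) (hL 0) τ (hτ 0) s
  have u5 := hK5 H hH (c 0) (hc 0) (hL 0) τ (hτ 0) s (by omega) (hlev 0)
  have hεp : ∀ n : ℕ, |(ε : ℝ) ^ n| = 1 := fun n => by rw [abs_pow, hε1, one_pow]
  have hεs : ∀ n : ℕ, (ε : ℝ) ^ n * (ε : ℝ) ^ n = 1 := fun n => by
    rw [← mul_pow, hεε, one_pow]
  have ha0 : ∀ i, 0 < |(a i : ℝ)| := fun i => lt_of_lt_of_le (hp0 _) (hlow i)
  have ha1 : ∀ i, (H : ℝ) ^ (K3 + K4 + 4) ≤ |(a i : ℝ)| := fun i =>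
    (hm _ _ (by omega)).trans (hlow i)
  have hH4 : (4 : ℝ) ≤ (H : ℝ) ^ 2 := by nlinarith
  -- the expansion with one term
  have hexp : ∀ i, |(b i : ℝ) - τ * a i - bet0 d (c 0) τ - bet1 d (c 0) τ s / (a i : ℝ) ^ s| *
      |(a i : ℝ)| ^ (s + 1) ≤ (H : ℝ) ^ (K3 + K4 + 1) := by
    intro i
    have h1 := hK3 H hH (c i) (hc i) (hL i) (a i) (b i) (hev i)
      ((hm _ _ (by omega)).trans (hlow i)) τ (hτ i) (hb i) s hs (hlev i)
    obtain ⟨v0, v1⟩ := fb_bet_dep d (c i) (c 0) τ s hs (hgk i)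
    rw [v0, v1] at h1
    obtain ⟨-, -, -, w2⟩ := hK4 H hH (c i) (hc i) (hL i) τ (hτ i) s
    set x : ℝ := (b i : ℝ) - τ * a i - bet0 d (c 0) τ - bet1 d (c 0) τ s / (a i : ℝ) ^ s with hx
    set y : ℝ := bet2 d (c i) τ s with hy
    have h2 : |x| ≤ |x - y / (a i : ℝ) ^ (s + 1)| + |y| / |(a i : ℝ)| ^ (s + 1) := by
      have h3 := abs_add_le (x - y / (a i : ℝ) ^ (s + 1)) (y / (a i : ℝ) ^ (s + 1))
      rw [sub_add_cancel, abs_div, abs_pow] at h3
      exact h3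
    have h3 : 0 < |(a i : ℝ)| ^ (s + 1) := pow_pos (ha0 i) _
    have h4 : |x - y / (a i : ℝ) ^ (s + 1)| * |(a i : ℝ)| ^ (s + 1) ≤ (H : ℝ) ^ K3 := by
      refine le_trans ?_ h1
      refine mul_le_mul_of_nonneg_left ?_ (abs_nonneg _)
      refine pow_le_pow_right₀ ?_ (by omega)
      exact le_trans (one_le_pow₀ hH1) (hlow i)
    have h5 : |y| / |(a i : ℝ)| ^ (s + 1) * |(a i : ℝ)| ^ (s + 1) = |y| :=
      div_mul_cancel₀ _ h3.ne'
    calc |x| * |(a i : ℝ)| ^ (s + 1) ≤ (|x - y / (a i : ℝ) ^ (s + 1)| +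
          |y| / |(a i : ℝ)| ^ (s + 1)) * |(a i : ℝ)| ^ (s + 1) :=
          mul_le_mul_of_nonneg_right h2 h3.le
      _ = |x - y / (a i : ℝ) ^ (s + 1)| * |(a i : ℝ)| ^ (s + 1) + |y| := by rw [add_mul, h5]
      _ ≤ (H : ℝ) ^ K3 + (H : ℝ) ^ K4 := add_le_add h4 w2
      _ ≤ (H : ℝ) ^ (K3 + K4) + (H : ℝ) ^ (K3 + K4) :=
          add_le_add (hm _ _ (by omega)) (hm _ _ (by omega))
      _ = (H : ℝ) ^ (K3 + K4) * 2 := by ring
      _ ≤ (H : ℝ) ^ (K3 + K4) * H := mul_le_mul_of_nonneg_left hH2 (hp0 _).le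
      _ = (H : ℝ) ^ (K3 + K4 + 1) := (pow_succ _ _).symm
  -- the distance to the line
  have hline : ∀ i, |(b i : ℝ) - τ * a i - bet0 d (c 0) τ| * Z ^ (N * s) ≤
      (H : ℝ) ^ (K3 + K4 + 2) := by
    intro i
    set x : ℝ := (b i : ℝ) - τ * a i - bet0 d (c 0) τ with hx
    set y : ℝ := bet1 d (c 0) τ s with hy
    have h1 := hexp i
    have h2 : |x| ≤ |x - y / (a i : ℝ) ^ s| + |y| / |(a i : ℝ)| ^ s := by
      have h3 := abs_add_le (x - y / (a i : ℝ) ^ s) (y / (a i : ℝ) ^ s)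
      rw [sub_add_cancel, abs_div, abs_pow] at h3
      exact h3
    have h3 : 0 < |(a i : ℝ)| ^ s := pow_pos (ha0 i) _
    have h4 : |x - y / (a i : ℝ) ^ s| * |(a i : ℝ)| ^ s ≤ (H : ℝ) ^ (K3 + K4 + 1) := by
      refine le_trans ?_ h1
      refine mul_le_mul_of_nonneg_left ?_ (abs_nonneg _)
      refine pow_le_pow_right₀ ?_ (by omega)
      exact le_trans (one_le_pow₀ hH1) (hlow i)
    have h5 : |y| / |(a i : ℝ)| ^ s * |(a i : ℝ)| ^ s = |y| := div_mul_cancel₀ _ h3.ne'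
    have h6 : Z ^ (N * s) ≤ |(a i : ℝ)| ^ s := by
      rw [pow_mul, hZN]
      exact pow_le_pow_left₀ hmpos.le (hmin i (mem_univ i)) _
    calc |x| * Z ^ (N * s) ≤ |x| * |(a i : ℝ)| ^ s := mul_le_mul_of_nonneg_left h6 (abs_nonneg _)
      _ ≤ (|x - y / (a i : ℝ) ^ s| + |y| / |(a i : ℝ)| ^ s) * |(a i : ℝ)| ^ s :=
          mul_le_mul_of_nonneg_right h2 h3.le
      _ = |x - y / (a i : ℝ) ^ s| * |(a i : ℝ)| ^ s + |y| := by rw [add_mul, h5]
      _ ≤ (H : ℝ) ^ (K3 + K4 + 1) + (H : ℝ) ^ K4 := add_le_add h4 u2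
      _ ≤ (H : ℝ) ^ (K3 + K4 + 1) + (H : ℝ) ^ (K3 + K4 + 1) :=
          add_le_add le_rfl (hm _ _ (by omega))
      _ = (H : ℝ) ^ (K3 + K4 + 1) * 2 := by ring
      _ ≤ (H : ℝ) ^ (K3 + K4 + 1) * H := mul_le_mul_of_nonneg_left hH2 (hp0 _).le
      _ = (H : ℝ) ^ (K3 + K4 + 2) := (pow_succ _ _).symm
  have hZNs : (H : ℝ) ^ (K3 + K4 + 4) ≤ Z ^ (N * s) := by
    rw [pow_mul, hZN]
    refine (ha1 m).trans ?_
    exact le_self_pow₀ (le_trans (one_le_pow₀ hH1) (hlow m)) (by omega)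
  have hZNs0 : 0 < Z ^ (N * s) := by positivity
  have hline' : ∀ i, |(b i : ℝ) - τ * a i - bet0 d (c 0) τ| ≤ 1 / 4 := by
    intro i
    by_contra hcon'
    push Not at hcon'
    have h1 : (1 / 4 : ℝ) * (H : ℝ) ^ (K3 + K4 + 4) <
        |(b i : ℝ) - τ * a i - bet0 d (c 0) τ| * Z ^ (N * s) :=
      mul_lt_mul hcon' hZNs (hp0 _) (abs_nonneg _)
    have h2 := hline i
    have h3 : (H : ℝ) ^ (K3 + K4 + 4) = (H : ℝ) ^ (K3 + K4 + 2) * (H : ℝ) ^ 2 := by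
      rw [← pow_add]
    have h4 : (H : ℝ) ^ (K3 + K4 + 2) * 4 ≤ (H : ℝ) ^ (K3 + K4 + 2) * (H : ℝ) ^ 2 :=
      mul_le_mul_of_nonneg_left hH4 (hp0 _).le
    linarith
  have hane : ∀ i j, i ≠ j → a i ≠ a j := by
    intro i j hij heq
    refine hdist i j hij ?_
    rw [Prod.mk.injEq]
    refine ⟨heq, ?_⟩
    have h1 : (b i : ℝ) - b j = ((b i : ℝ) - τ * a i - bet0 d (c 0) τ) -
        ((b j : ℝ) - τ * a j - bet0 d (c 0) τ) := by rw [heq]; ring
    have h2 := hline' i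
    have h3 := hline' j
    have h4 : |(b i : ℝ) - b j| < 1 := by
      rw [h1]
      have h5 := abs_sub ((b i : ℝ) - τ * a i - bet0 d (c 0) τ)
        ((b j : ℝ) - τ * a j - bet0 d (c 0) τ)
      linarith
    have h6 : |b i - b j| < 1 := by exact_mod_cast h4
    have h7 := Int.abs_lt_one_iff.mp h6
    omega
  have hsep : ∀ i j, i ≠ j → Z ^ (N * s) ≤ (H : ℝ) ^ k' * |(a i : ℝ) - a j| ^ (d - 1) := by
    intro i j hij
    have h1 : ((b i - b j : ℤ) : ℝ) - τ * ((a i - a j : ℤ) : ℝ) =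
        ((b i : ℝ) - τ * a i - bet0 d (c 0) τ) - ((b j : ℝ) - τ * a j - bet0 d (c 0) τ) := by
      push_cast
      ring
    have h2 := hline' i
    have h3 := hline' j
    have h5 := abs_sub ((b i : ℝ) - τ * a i - bet0 d (c 0) τ)
        ((b j : ℝ) - τ * a j - bet0 d (c 0) τ)
    have h6 := hK2 H hH (c 0) (hc 0) (hL 0) τ (hτ 0) (t1.trans (hm _ _ (by omega)))
      (b i - b j) (a i - a j) (sub_ne_zero.mpr (hane i j hij)) (by
        rw [h1]
        have : (1 : ℝ) ≤ (H : ℝ) ^ (K6 + 1) := one_le_pow₀ hH1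
        linarith)
    rw [h1] at h6
    have h7 : |((b i : ℝ) - τ * a i - bet0 d (c 0) τ) - ((b j : ℝ) - τ * a j - bet0 d (c 0) τ)| *
        Z ^ (N * s) ≤ (H : ℝ) ^ (K3 + K4 + 3) := by
      have h8 := mul_le_mul_of_nonneg_right h5 hZNs0.le
      have h9 := hline i
      have h10 := hline j
      rw [add_mul] at h8
      have h11 : (H : ℝ) ^ (K3 + K4 + 2) * 2 ≤ (H : ℝ) ^ (K3 + K4 + 3) := by
        rw [pow_succ (H : ℝ) (K3 + K4 + 2)]
        exact mul_le_mul_of_nonneg_left hH2 (hp0 _).le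
      linarith
    push_cast at h6
    generalize |((b i : ℝ) - τ * a i - bet0 d (c 0) τ) -
      ((b j : ℝ) - τ * a j - bet0 d (c 0) τ)| = x at h6 h7
    have h8 : 0 ≤ |(a i : ℝ) - a j| ^ (d - 1) := by positivity
    calc Z ^ (N * s) = 1 * Z ^ (N * s) := (one_mul _).symm
      _ ≤ ((H : ℝ) ^ K2 * (x * |(a i : ℝ) - a j| ^ (d - 1))) * Z ^ (N * s) :=
          mul_le_mul_of_nonneg_right h6 hZNs0.le
      _ = (H : ℝ) ^ K2 * ((x * Z ^ (N * s)) * |(a i : ℝ) - a j| ^ (d - 1)) := by ring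
      _ ≤ (H : ℝ) ^ K2 * ((H : ℝ) ^ (K3 + K4 + 3) * |(a i : ℝ) - a j| ^ (d - 1)) := by
          refine mul_le_mul_of_nonneg_left ?_ (hp0 _).le
          exact mul_le_mul_of_nonneg_right h7 h8
      _ = (H : ℝ) ^ (K2 + (K3 + K4 + 3)) * |(a i : ℝ) - a j| ^ (d - 1) := by
          rw [pow_add]; ring
      _ ≤ (H : ℝ) ^ k' * |(a i : ℝ) - a j| ^ (d - 1) :=
          mul_le_mul_of_nonneg_right (hm _ _ (by omega)) h8
  refine hK7 H hH Z hZK s hs2 hds (by omega) (ε * τ) (bet0 d (c 0) τ)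
    ((ε : ℝ) ^ s * bet1 d (c 0) τ s) ?_ ?_ (fun i => ε * a i) b ?_ ?_ ?_ ?_
  · rw [abs_mul, hεp, one_mul]
    exact u2.trans (hm _ _ (by omega))
  · rw [abs_mul, hεp, one_mul]
    exact u5.trans (mul_le_mul_of_nonneg_right (hm _ _ (by omega)) (abs_nonneg _))
  · intro i
    rw [← habs, hZN]
    refine ⟨hmin i (mem_univ i), ?_⟩
    refine le_of_pow_le_pow_left₀ hN0 (by positivity) ?_
    refine (hcmp i m).trans_eq ?_
    rw [← hZN, ← pow_mul, ← pow_mul]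
    congr 1
    ring
  · intro i j hij heq
    apply hane i j hij
    have h1 := congrArg (fun x => ε * x) heq
    simp only [← mul_assoc, hεZ, one_mul] at h1
    exact h1
  · intro i j hij
    have h1 : ((ε * a i : ℤ) : ℝ) - ((ε * a j : ℤ) : ℝ) = ε * ((a i : ℝ) - a j) := by
      push_cast
      ring
    rw [h1, abs_mul, hε1, one_mul]
    exact hsep i j hij
  · intro i
    have h1 := hexp i
    rw [← habs]
    have h2 : |(a i : ℝ)| = ε * a i := by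
      rw [habs]
      push_cast
      rfl
    have e1 : (ε : ℝ) * τ * |(a i : ℝ)| = τ * a i := by
      rw [h2]
      linear_combination (τ * a i) * hεε
    have e2 : ∀ (n : ℕ) (x : ℝ), (ε : ℝ) ^ n * x / |(a i : ℝ)| ^ n = x / (a i : ℝ) ^ n := by
      intro n x
      rw [h2, mul_pow]
      have h3 : (ε : ℝ) ^ n ≠ 0 := by
        intro h0
        have := hεs n
        rw [h0, mul_zero] at this
        exact zero_ne_one this
      rw [mul_div_mul_left _ _ h3]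
    rw [e1, e2]
    exact h1.trans (hm _ _ (by omega))

end Pool.Agent.LW
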