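import Pool.Agent.LW.CNT
import Pool.Agent.LW.FB3

set_option autoImplicit false

namespace Pool.Agent.LW

open Polynomial Finset

private theorem fam_five {α β : Type*} (E : Set α) (T : Finset β) (P : α → β → Prop)
    (h1 : ∀ c ∈ E, ∃ t, t ∈ T ∧ P c t)
    (h2 : ∀ (c : Fin 5 → α) (t : β), (∀ i, c i ∈ E) → (∀ i, P (c i) t) →
      ∃ i j, i ≠ j ∧ c i = c j) :
    E.Finite ∧ E.ncard ≤ 4 * T.card := by
  classical
  rcases E.eq_empty_or_nonempty with hE | ⟨c0, hc0⟩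
  · rw [hE]
    simp
  obtain ⟨t0, ht0⟩ := h1 c0 hc0
  have : Nonempty β := ⟨t0⟩
  choose! f hf using h1
  have key : ∀ E' : Finset α, (E' : Set α) ⊆ E → E'.card ≤ 4 * T.card := by
    intro E' hE'
    apply Finset.card_le_mul_card_image_of_maps_to (f := f)
    · intro c hc
      exact (hf c (hE' hc)).1
    · intro t _
      by_contra hcon
      push Not at hcon
      obtain ⟨F, hF, hF5⟩ := Finset.exists_subset_card_eq (show 5 ≤ _ from hcon)
      set e := F.equivFinOfCardEq hF5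
      obtain ⟨i, j, hij, heq⟩ := h2 (fun i => (e.symm i : α)) t
        (fun i => hE' (Finset.mem_of_mem_filter _ (hF (e.symm i).2)))
        (fun i => by
          have h3 := (Finset.mem_filter.mp (hF (e.symm i).2)).2
          have h4 := (hf _ (hE' (Finset.mem_of_mem_filter _ (hF (e.symm i).2)))).2
          rw [h3] at h4
          exact h4)
      exact hij (e.symm.injective (Subtype.ext heq))
  have hfin : E.Finite := by
    by_contra hinf
    obtain ⟨E', hE', hcard⟩ := Set.Infinite.exists_subset_card_eq hinf (4 * T.card + 1)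
    have := key E' hE'
    omega
  refine ⟨hfin, ?_⟩
  rw [Set.ncard_eq_toFinset_card E hfin]
  exact key _ (by simp)

/-- the level depends on the homogeneous parts of high degree only -/
theorem fam_lev (d e s : ℕ) (hs : s + e + 2 ≤ d) (c c' : ℕ → ℕ → ℤ) (τ : ℝ)
    (h : ∀ k, e < k → k ≤ d → gk c k = gk c' k) (hl : Lev d c' τ s) : Lev d c τ s := by
  obtain ⟨h1, h2, h3, h4⟩ := hl
  have hb : bet0 d c τ = bet0 d c' τ := by
    rw [bet0, bet0, gp, gp, h d (by omega) le_rfl, h (d - 1) (by omega) (by omega)]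
  have ha : ∀ r, e < r → r ≤ d → aa d c τ r = aa d c' τ r := by
    intro r hr hrd
    unfold aa AA
    rw [hb]
    refine Finset.sum_congr rfl fun m hm => ?_
    rw [mem_range] at hm
    rw [h (r + m) (by omega) (by omega)]
  refine ⟨h1, h2, fun i hi his => ?_, fun hsd => ?_⟩
  · rw [ha _ (by omega) (by omega)]
    exact h3 i hi his
  · rw [ha _ (by omega) (by omega)]
    exact h4 hsd

/-- the arrays in a family with a large zero -/
def FamExc (d K e : ℕ) (c₀ : ℕ → ℕ → ℤ) : Set (ℕ → ℕ → ℤ) :=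
  {c | (∀ i j, d < i + j → c i j = 0) ∧ (∀ i j, e < i + j → i + j ≤ d → c i j = c₀ i j) ∧
    ∃ H : ℕ, 2 ≤ H ∧ Ht d c H ∧ ∃ a b : ℤ, ev d c a b = 0 ∧ (H : ℝ) ^ K < |(a : ℝ)|}

/-- at most boundedly many members of a family have a large zero -/
theorem family_count (d : ℕ) (hd : 4 ≤ d) : ∃ K C : ℕ, ∀ e e' : ℕ, e + 4 ≤ d →
    (e' = e + 1 ∨ (e' = e ∧ 2 * e + 4 ≤ d)) → ∀ c₀ : ℕ → ℕ → ℤ, Lead d c₀ →
    (∀ τ : ℝ, aeval τ (gk c₀ d) = 0 → ∃ s, s + e' + 2 ≤ d ∧ Lev d c₀ τ s) →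
      (FamExc d K e c₀).Finite ∧ (FamExc d K e c₀).ncard ≤ C := by
  classical
  obtain ⟨k, Kn, hnear⟩ := near d (by omega)
  obtain ⟨Kf, hfib⟩ := fiber d k (by omega)
  obtain ⟨Kt, hfib3⟩ := fiber3 d k (by omega)
  obtain ⟨κ, n, hwin⟩ := lead_windows d (by omega)
  obtain ⟨L, hsub⟩ := subwindows n (100 * d ^ 2) (by nlinarith)
  refine ⟨2 * (Kf + Kt) + Kn + κ, 4 * ((d + 1) * (d * (2 * (d * L)))), ?_⟩
  intro e e' he he' c₀ hL₀ hlev₀
  set K : ℕ := 2 * (Kf + Kt) + Kn + κ with hK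
  have hgkE : ∀ c ∈ FamExc d K e c₀, ∀ l, e < l → l ≤ d → gk c l = gk c₀ l := by
    rintro c ⟨-, hc, -⟩ l hl hld
    unfold gk
    refine Finset.sum_congr rfl fun j hj => ?_
    rw [mem_range] at hj
    rw [hc (l - j) j (by omega) (by omega)]
  obtain ⟨R, hR1, hRw⟩ := hwin (gk c₀ d)
  choose S hS1 hS using fun i => hsub (R i) (hR1 i)
  set N : ℕ := 100 * d ^ 2 with hN
  have hN1 : 1 ≤ N := by rw [hN]; nlinarith
  have hg0 : gk c₀ d ≠ 0 := by
    intro h0
    have := hL₀.1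
    rw [h0, natDegree_zero] at this
    omega
  set T0 : Finset (ℕ × ℝ × ℤ × Fin d × Fin L) :=
    range (d + 1) ×ˢ ((gk c₀ d).aroots ℝ).toFinset ×ˢ ({1, -1} : Finset ℤ) ×ˢ
      (univ : Finset (Fin d)) ×ˢ (univ : Finset (Fin L)) with hT0
  have hmain := fam_five (FamExc d K e c₀) T0 (fun c t =>
    t.1 + e' + 2 ≤ d ∧ Lev d c t.2.1 t.1 ∧ aeval t.2.1 (gk c d) = 0 ∧
    (t.2.2.1 = 1 ∨ t.2.2.1 = -1) ∧
    ∃ H : ℕ, 2 ≤ H ∧ Ht d c H ∧ ∃ a b : ℤ, ev d c a b = 0 ∧
      (H : ℝ) ^ (2 * (Kf + Kt)) ≤ (t.2.2.1 : ℝ) * a ∧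
      |(b : ℝ) - t.2.1 * a| ≤ (H : ℝ) ^ k ∧
      S t.2.2.2.1 t.2.2.2.2 ^ N ≤ |(a : ℝ)| ∧
      |(a : ℝ)| ≤ S t.2.2.2.1 t.2.2.2.2 ^ (N + 1))
    ?_ ?_
  · refine ⟨hmain.1, hmain.2.trans (Nat.mul_le_mul_left _ ?_)⟩
    have hroots : ((gk c₀ d).aroots ℝ).toFinset.card ≤ d := by
      calc ((gk c₀ d).aroots ℝ).toFinset.card ≤ Multiset.card ((gk c₀ d).aroots ℝ) :=
            Multiset.toFinset_card_le _
        _ ≤ ((gk c₀ d).map (algebraMap ℤ ℝ)).natDegree := card_roots' _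
        _ ≤ (gk c₀ d).natDegree := natDegree_map_le
        _ = d := hL₀.1
    have hcard : T0.card = (d + 1) * (((gk c₀ d).aroots ℝ).toFinset.card * (2 * (d * L))) := by
      rw [hT0]
      simp only [Finset.card_product, Finset.card_range, Finset.card_univ, Fintype.card_fin]
      rfl
    rw [hcard]
    exact Nat.mul_le_mul_left _ (Nat.mul_le_mul_right _ hroots)
  · intro c hcE
    have hgkc := hgkE c hcE
    obtain ⟨hsupp, hc0, H, hH, hHt, a, b, hev, ha⟩ := hcE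
    have hH2 : (2 : ℝ) ≤ H := by exact_mod_cast hH
    have hH1 : (1 : ℝ) ≤ H := by linarith
    have hmono : ∀ {i j : ℕ}, i ≤ j → (H : ℝ) ^ i ≤ (H : ℝ) ^ j :=
      fun h => pow_le_pow_right₀ hH1 h
    have hgk : gk c d = gk c₀ d := hgkc d (by omega) le_rfl
    have hLead : Lead d c := by
      unfold Lead
      rw [hgk]
      exact hL₀
    obtain ⟨τ, hτ, hτb⟩ := hnear H hH c hHt hLead a b hev ((hmono (by omega)).trans ha.le)
    obtain ⟨s, hse, hs₀⟩ := hlev₀ τ (by rw [← hgk]; exact hτ)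
    have hs : Lev d c τ s := fam_lev d e s (by omega) c c₀ τ hgkc hs₀
    have hκ : ¬ |(a : ℝ)| ≤ (H : ℝ) ^ κ := by
      intro h
      have := hmono (show κ ≤ K by omega)
      linarith
    obtain ⟨i, hi1, hi2⟩ := (hRw H c hH hgk hLead hHt a b hev).resolve_left hκ
    obtain ⟨j, hj1, hj2⟩ := hS i |(a : ℝ)| hi1 hi2
    have hε : ∃ ε : ℤ, (ε = 1 ∨ ε = -1) ∧ (ε : ℝ) * a = |(a : ℝ)| := by
      rcases le_total 0 (a : ℝ) with h | h
      · exact ⟨1, Or.inl rfl, by rw [abs_of_nonneg h]; push_cast; ring⟩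
      · exact ⟨-1, Or.inr rfl, by rw [abs_of_nonpos h]; push_cast; ring⟩
    obtain ⟨ε, hε1, hε2⟩ := hε
    refine ⟨(s, τ, ε, i, j), ?_, ?_⟩
    · rw [hT0]
      simp only [Finset.mem_product, Finset.mem_range, Finset.mem_univ, and_true]
      refine ⟨by omega, ?_, ?_⟩
      · rw [Multiset.mem_toFinset, mem_aroots]
        refine ⟨hg0, ?_⟩
        rw [← hgk]
        exact hτ
      · rw [Finset.mem_insert, Finset.mem_singleton]
        exact hε1
    · refine ⟨hse, hs, hτ, hε1, H, hH, hHt, a, b, hev, ?_, hτb, hj1, hj2⟩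
      show (H : ℝ) ^ (2 * (Kf + Kt)) ≤ (ε : ℝ) * a
      rw [hε2]
      exact (hmono (by omega)).trans ha.le
  · rintro c ⟨s, τ, ε, i, j⟩ hcE hP
    simp only at hP
    choose h1 h2 h3 h4 Hc hH2c hHtc a b h7 h8 h9 h10 h11 using hP
    have hs1 : 1 ≤ s := (h2 0).1
    have hse := h1 0
    have hε := h4 0
    have hε1 : |(ε : ℝ)| = 1 := by rcases hε with h | h <;> rw [h] <;> norm_num
    set H : ℕ := univ.sup Hc with hHdef
    have hHle : ∀ m, Hc m ≤ H := fun m => Finset.le_sup (mem_univ m)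
    have hH : 2 ≤ H := (hH2c 0).trans (hHle 0)
    have hH2 : (2 : ℝ) ≤ H := by exact_mod_cast hH
    have hH1 : (1 : ℝ) ≤ H := by linarith
    have hHt : ∀ m, Ht d (c m) H := by
      intro m p q hpq
      refine (hHtc m p q hpq).trans ?_
      exact_mod_cast hHle m
    obtain ⟨m₀, -, hm₀⟩ : ∃ m ∈ (univ : Finset (Fin 5)), H = Hc m :=
      Finset.exists_mem_eq_sup univ ⟨0, mem_univ _⟩ Hc
    have hSij : 1 ≤ S i j := hS1 i j
    have habs : ∀ m, |(a m : ℝ)| = (ε : ℝ) * a m := by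
      intro m
      have g1 : (0 : ℝ) ≤ (ε : ℝ) * a m := le_trans (by positivity) (h8 m)
      rw [← abs_of_nonneg g1, abs_mul, hε1, one_mul]
    have hlow : ∀ m, (H : ℝ) ^ (Kf + Kt) ≤ (ε : ℝ) * a m := by
      intro m
      rw [← habs m]
      have g1 : ((H : ℝ) ^ (Kf + Kt)) ^ 2 ≤ |(a m : ℝ)| ^ 2 := by
        calc ((H : ℝ) ^ (Kf + Kt)) ^ 2 = (Hc m₀ : ℝ) ^ (2 * (Kf + Kt)) := by
              rw [hm₀, ← pow_mul, mul_comm]
          _ ≤ (ε : ℝ) * a m₀ := h8 m₀
          _ = |(a m₀ : ℝ)| := (habs m₀).symm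
          _ ≤ S i j ^ (N + 1) := h11 m₀
          _ ≤ S i j ^ (N * 2) := pow_le_pow_right₀ hSij (by omega)
          _ = (S i j ^ N) ^ 2 := by rw [pow_mul]
          _ ≤ |(a m : ℝ)| ^ 2 := pow_le_pow_left₀ (by positivity) (h10 m) 2
      exact le_of_pow_le_pow_left₀ (by norm_num) (abs_nonneg _) g1
    have hnr : ∀ m, |(b m : ℝ) - τ * a m| ≤ (H : ℝ) ^ k := by
      intro m
      refine (h9 m).trans (pow_le_pow_left₀ (by positivity) ?_ _)
      exact_mod_cast hHle m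
    have hgk : ∀ m l, e < l → l ≤ d → gk (c m) l = gk (c 0) l := fun m l hl hld =>
      (hgkE (c m) (hcE m) l hl hld).trans (hgkE (c 0) (hcE 0) l hl hld).symm
    have hLead : ∀ m, Lead d (c m) := by
      intro m
      unfold Lead
      rw [hgkE (c m) (hcE m) d (by omega) le_rfl]
      exact hL₀
    have hcmp : ∀ x y, |(a x : ℝ)| ^ (100 * d ^ 2) ≤ |(a y : ℝ)| ^ (100 * d ^ 2 + 1) := by
      intro x y
      rw [← hN]
      have e0 : 0 ≤ |(a x : ℝ)| := abs_nonneg _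
      have e1 : 0 ≤ S i j := le_trans zero_le_one hSij
      calc |(a x : ℝ)| ^ N ≤ (S i j ^ (N + 1)) ^ N := pow_le_pow_left₀ e0 (h11 x) N
        _ = (S i j ^ N) ^ (N + 1) := by rw [← pow_mul, ← pow_mul, mul_comm]
        _ ≤ |(a y : ℝ)| ^ (N + 1) := pow_le_pow_left₀ (by positivity) (h10 y) (N + 1)
    have hext : ∀ m m', (∀ p q, p + q ≤ d → c m p q = c m' p q) → c m = c m' := by
      intro m m' heq
      funext p q
      by_cases hpq : p + q ≤ d
      · exact heq p q hpq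
      · rw [(hcE m).1 p q (by omega), (hcE m').1 p q (by omega)]
    rcases Nat.lt_or_ge (s + e + 2) d with hcase | hcase
    · obtain ⟨m, m', hmm, heq⟩ := hfib H hH ε τ s c a b hε hHt hLead h7
        (fun m => (pow_le_pow_right₀ hH1 (by omega)).trans (hlow m)) h3 hnr h2
        (fun m => hgk m d (by omega) le_rfl) (fun m => hgk m (d - 1) (by omega) (by omega))
        (fun m => hgk m (d - 1 - s) (by omega) (by omega))
        (fun m => hgk m (d - 2 - s) (by omega) (by omega)) hcmp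
      exact ⟨m, m', hmm, hext m m' heq⟩
    · have he2 : e' = e ∧ 2 * e + 4 ≤ d := by
        rcases he' with h | h
        · omega
        · exact h
      set ι : Fin 3 → Fin 5 := Fin.castLE (by norm_num) with hι
      have hι0 : ι 0 = 0 := rfl
      obtain ⟨m, m', hmm, heq⟩ := hfib3 H hH ε τ s (fun i => c (ι i)) (fun i => a (ι i))
        (fun i => b (ι i)) hε (fun i => hHt (ι i)) (fun i => hLead (ι i)) (fun i => h7 (ι i))
        (fun m => (pow_le_pow_right₀ hH1 (by omega)).trans (hlow (ι m))) (fun i => h3 (ι i))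
        (fun i => hnr (ι i)) (fun i => h2 (ι i)) (by omega) (by omega) (by omega)
        (fun m => hgk (ι m) d (by omega) le_rfl)
        (fun m => hgk (ι m) (d - 1) (by omega) (by omega))
        (fun m => hgk (ι m) (d - 1 - s) (by omega) (by omega)) (fun x y => hcmp (ι x) (ι y))
      refine ⟨ι m, ι m', ?_, hext _ _ heq⟩
      intro h
      exact hmm (Fin.castLE_injective _ h)

end Pool.Agent.LW
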