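import Pool.Agent.H20.Res
import Pool.Agent.LW.Defs

set_option autoImplicit false

namespace Pool.Agent.LW

open Polynomial Finset
open Pool.Agent.H20 (Nrm nrm1 nrmInt)

/-- homogenised in the inner variable -/
noncomputable def RFh (m : ℕ) (c : ℕ → ℕ → ℤ) : ℤ[X][X] :=
  ∑ k ∈ range (m + 1), C (X ^ (m - k)) * (gk c k).map C

lemma res_gk_coeff (c : ℕ → ℕ → ℤ) (k j : ℕ) : (gk c k).coeff j = if j ≤ k then c (k - j) j else 0 := by
  unfold gk
  rw [finsetSum_coeff]
  simp only [coeff_monomial]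
  rw [Finset.sum_ite_eq' (range (k + 1)) j (fun j => c (k - j) j)]
  simp only [mem_range, Nat.lt_succ_iff]

lemma res_gk_natDegree_le (c : ℕ → ℕ → ℤ) (k : ℕ) : (gk c k).natDegree ≤ k := by
  rw [natDegree_le_iff_coeff_eq_zero]
  intro j hj
  rw [res_gk_coeff, if_neg (by omega)]

lemma RFh_natDegree_le (m : ℕ) (c : ℕ → ℕ → ℤ) : (RFh m c).natDegree ≤ m := by
  unfold RFh
  refine natDegree_sum_le_of_forall_le _ _ (fun k hk => ?_)
  rw [mem_range] at hk
  refine (natDegree_C_mul_le _ _).trans ((natDegree_map_le).trans ((res_gk_natDegree_le c k).trans ?_))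
  omega

lemma RFh_map_zero (m : ℕ) (c : ℕ → ℕ → ℤ) : (RFh m c).map (evalRingHom (0 : ℤ)) = gk c m := by
  unfold RFh
  rw [Polynomial.map_sum, Finset.sum_eq_single m]
  · rw [Polynomial.map_mul, map_C, Polynomial.map_map]
    have : (evalRingHom (0 : ℤ)).comp C = RingHom.id ℤ := by ext; simp
    rw [this, Polynomial.map_id]
    simp
  · intro k hk hkm
    rw [mem_range] at hk
    rw [Polynomial.map_mul, map_C]
    have : m - k ≠ 0 := by omega
    simp [this]
  · intro h; exact absurd (mem_range.mpr (Nat.lt_succ_self m)) h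

lemma res_gk_eval (c : ℕ → ℕ → ℤ) (k : ℕ) (a b : ℤ) (ha : a ≠ 0) :
    (a : ℝ) ^ k * eval₂ (Int.castRingHom ℝ) ((b : ℝ) / a) (gk c k) =
      ((∑ j ∈ range (k + 1), c (k - j) j * a ^ (k - j) * b ^ j : ℤ) : ℝ) := by
  have ha' : (a : ℝ) ≠ 0 := by exact_mod_cast ha
  unfold gk
  rw [eval₂_finsetSum, Finset.mul_sum]
  push_cast
  refine Finset.sum_congr rfl (fun j hj => ?_)
  rw [mem_range] at hj
  rw [eval₂_monomial]
  have h1 : (a : ℝ) ^ k = (a : ℝ) ^ (k - j) * a ^ j := by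
    rw [← pow_add]; congr 1; omega
  rw [h1, div_pow]
  simp only [Int.coe_castRingHom]
  field_simp

lemma RFh_eval (m : ℕ) (c : ℕ → ℕ → ℤ) (a b : ℤ) (ha : a ≠ 0) :
    (a : ℝ) ^ m * ((RFh m c).map (eval₂RingHom (Int.castRingHom ℝ) ((a : ℝ)⁻¹))).eval ((b : ℝ) / a) =
      (ev m c a b : ℝ) := by
  have ha' : (a : ℝ) ≠ 0 := by exact_mod_cast ha
  unfold RFh ev
  rw [Polynomial.map_sum, eval_finsetSum, Finset.mul_sum, Int.cast_sum]
  refine Finset.sum_congr rfl (fun k hk => ?_)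
  rw [mem_range] at hk
  rw [← res_gk_eval c k a b ha, Polynomial.map_mul, map_C, Polynomial.map_map, eval_mul, eval_C]
  have h2 : (eval₂RingHom (Int.castRingHom ℝ) ((a : ℝ)⁻¹)).comp C = Int.castRingHom ℝ := by
    ext x
    simp
  rw [h2, eval_map]
  have h1 : (a : ℝ) ^ m = (a : ℝ) ^ (m - k) * a ^ k := by
    rw [← pow_add]; congr 1; omega
  rw [h1]
  simp only [coe_eval₂RingHom, eval₂_pow, eval₂_X]
  have h3 : (a : ℝ) ^ (m - k) * ((a : ℝ)⁻¹) ^ (m - k) = 1 := by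
    rw [← mul_pow, mul_inv_cancel₀ ha', one_pow]
  linear_combination (a : ℝ) ^ k * eval₂ (Int.castRingHom ℝ) ((b : ℝ) / a) (gk c k) * h3

lemma RFh_coeff_le (m : ℕ) (c : ℕ → ℕ → ℤ) (B : ℝ) (hB : 0 ≤ B)
    (h : ∀ i j, i + j ≤ m → |(c i j : ℝ)| ≤ B) (j : ℕ) :
    nrm1.v ((RFh m c).coeff j) ≤ (m + 1) * B := by
  unfold RFh
  rw [finsetSum_coeff]
  refine (nrm1.sum_le _ _).trans ?_
  have h1 : ∀ k ∈ range (m + 1), nrm1.v ((C (X ^ (m - k)) * (gk c k).map C : ℤ[X][X]).coeff j) ≤ B := by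
    intro k hk
    rw [mem_range] at hk
    rw [coeff_C_mul, coeff_map, mul_comm, C_mul_X_pow_eq_monomial]
    change nrmInt.l1 _ ≤ B
    rw [Nrm.l1_monomial, res_gk_coeff]
    change |(((if j ≤ k then c (k - j) j else 0 : ℤ)) : ℝ)| ≤ B
    split_ifs with hj
    · exact h _ _ (by omega)
    · simpa using hB
  refine (Finset.sum_le_sum h1).trans ?_
  simp

lemma res_det_le_cols {R : Type*} [CommRing R] (ν : Nrm R) {n : ℕ} (M : Matrix (Fin n) (Fin n) R)
    (B : Fin n → ℝ) (h : ∀ i j, ν.v (M i j) ≤ B j) :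
    ν.v M.det ≤ (n.factorial : ℝ) * ∏ j, B j := by
  rw [Matrix.det_apply']
  refine (ν.sum_le _ _).trans ?_
  calc ∑ σ : Equiv.Perm (Fin n), ν.v (((Equiv.Perm.sign σ : ℤ) : R) * ∏ i, M (σ i) i)
      ≤ ∑ _σ : Equiv.Perm (Fin n), ∏ j, B j := by
        refine Finset.sum_le_sum (fun σ _ => ?_)
        have h1 : ν.v (∏ i, M (σ i) i) ≤ ∏ j, B j :=
          (ν.prod_le Finset.univ (fun i => M (σ i) i)).trans
            (Finset.prod_le_prod (fun i _ => ν.nonneg _) (fun i _ => h _ _))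
        rcases Int.units_eq_one_or (Equiv.Perm.sign σ) with hs | hs
        · simpa [hs] using h1
        · simpa [hs, ν.neg] using h1
    _ = (n.factorial : ℝ) * ∏ j, B j := by
        simp [Fintype.card_perm]

lemma res_bd (f g : ℤ[X][X]) (m n : ℕ) (Bf Bg : ℝ) (hBf : 0 ≤ Bf) (hBg : 0 ≤ Bg)
    (hf : ∀ i, nrm1.v (f.coeff i) ≤ Bf) (hg : ∀ i, nrm1.v (g.coeff i) ≤ Bg) :
    nrm1.v (resultant f g m n) ≤ ((m + n).factorial : ℝ) * (Bg ^ m * Bf ^ n) := by
  unfold resultant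
  have h := res_det_le_cols nrm1 (sylvester f g m n)
    (fun j => Fin.addCases (fun _ : Fin m => Bg) (fun _ : Fin n => Bf) j) (by
      intro i j
      unfold sylvester
      rw [Matrix.of_apply]
      refine Fin.addCases (fun j₁ => ?_) (fun j₁ => ?_) j
      · rw [Fin.addCases_left, Fin.addCases_left]
        split_ifs
        · exact hg _
        · rw [nrm1.zero]; exact hBg
      · rw [Fin.addCases_right, Fin.addCases_right]
        split_ifs
        · exact hf _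
        · rw [nrm1.zero]; exact hBf)
  rw [Fin.prod_univ_add] at h
  simpa using h

lemma res_abs_le_l1 (R : ℤ[X]) (h0 : R.coeff 0 ≠ 0) (a : ℤ) (ha : a ≠ 0)
    (hR : eval₂ (Int.castRingHom ℝ) ((a : ℝ)⁻¹) R = 0) : |(a : ℝ)| ≤ nrmInt.l1 R := by
  have ha' : (a : ℝ) ≠ 0 := by exact_mod_cast ha
  have h1 : R.divX * X + C (R.coeff 0) = R := divX_mul_X_add R
  have h2 : eval₂ (Int.castRingHom ℝ) ((a : ℝ)⁻¹) R.divX * (a : ℝ)⁻¹ + (R.coeff 0 : ℝ) = 0 := by
    have := congrArg (eval₂ (Int.castRingHom ℝ) ((a : ℝ)⁻¹)) h1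
    rw [hR, eval₂_add, eval₂_mul, eval₂_X, eval₂_C] at this
    simpa using this
  have h3 : eval₂ (Int.castRingHom ℝ) ((a : ℝ)⁻¹) R.divX = - (R.coeff 0 : ℝ) * a := by
    have h9 : (a : ℝ)⁻¹ * a = 1 := inv_mul_cancel₀ ha'
    linear_combination (a : ℝ) * h2 - eval₂ (Int.castRingHom ℝ) ((a : ℝ)⁻¹) R.divX * h9
  let nR : Nrm ℝ :=
    { v := fun x => |x|
      nonneg := fun x => abs_nonneg x
      zero := abs_zero
      one_le := by simp
      add_le := fun a b => abs_add_le a b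
      mul_le := fun a b => (abs_mul a b).le
      neg := fun a => abs_neg a }
  have hx : nR.v ((a : ℝ)⁻¹) ≤ 1 := by
    change |(a : ℝ)⁻¹| ≤ 1
    rw [abs_inv]
    apply inv_le_one_of_one_le₀
    have : (1 : ℤ) ≤ |a| := Int.one_le_abs ha
    exact_mod_cast this
  have h4 : nR.v (eval₂ (Int.castRingHom ℝ) ((a : ℝ)⁻¹) R.divX) ≤ nrmInt.l1 R.divX :=
    nrmInt.eval₂_le nR (Int.castRingHom ℝ) (fun z => le_refl _) _ hx _
  rw [h3] at h4
  change |-(R.coeff 0 : ℝ) * a| ≤ _ at h4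
  rw [abs_mul, abs_neg] at h4
  have h5 : (1 : ℝ) ≤ |(R.coeff 0 : ℝ)| := by
    have : (1 : ℤ) ≤ |R.coeff 0| := Int.one_le_abs h0
    exact_mod_cast this
  have h6 := nrmInt.l1_divX_le R
  have h7 := abs_nonneg (a : ℝ)
  nlinarith

lemma res_lead_ne (d m : ℕ) (hm : m < d) (c G : ℕ → ℕ → ℤ) (hc : Lead d c) (hG : gk G m ≠ 0) :
    resultant (gk c d) (gk G m) d m ≠ 0 := by
  obtain ⟨hdeg, hirr⟩ := hc
  have hinj : Function.Injective (Int.castRingHom ℚ) := RingHom.injective_int _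
  intro h0
  have h1 : resultant ((gk c d).map (Int.castRingHom ℚ)) ((gk G m).map (Int.castRingHom ℚ)) d m = 0 := by
    rw [resultant_map_map, h0, map_zero]
  have hG' : (gk G m).map (Int.castRingHom ℚ) ≠ 0 := by
    rw [Ne, Polynomial.map_eq_zero_iff hinj]; exact hG
  have hdG : ((gk G m).map (Int.castRingHom ℚ)).natDegree ≤ m :=
    natDegree_map_le.trans (res_gk_natDegree_le G m)
  have hdc : ((gk c d).map (Int.castRingHom ℚ)).natDegree = d := by
    rw [natDegree_map_eq_of_injective hinj, hdeg]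
  have hco : IsCoprime ((gk c d).map (Int.castRingHom ℚ)) ((gk G m).map (Int.castRingHom ℚ)) := by
    rw [hirr.coprime_iff_not_dvd]
    intro hd
    have := natDegree_le_of_dvd hd hG'
    omega
  have h2 := resultant_ne_zero _ _ hco
  rw [hdc] at h2
  obtain ⟨k, hk⟩ := Nat.exists_eq_add_of_le hdG
  generalize hQ : (gk G m).map (Int.castRingHom ℚ) = Q at *
  rw [hk, resultant_add_right_deg _ _ _ _ _ le_rfl] at h1
  rcases mul_eq_zero.mp h1 with h3 | h3
  · have h4 : ((gk c d).map (Int.castRingHom ℚ)).coeff d = 0 := eq_zero_of_pow_eq_zero h3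
    have h5 : ((gk c d).map (Int.castRingHom ℚ)).leadingCoeff ≠ 0 :=
      leadingCoeff_ne_zero.mpr hirr.ne_zero
    rw [leadingCoeff, hdc] at h5
    exact h5 h4
  · exact h2 h3

lemma res_ev_top (e m : ℕ) (hme : m ≤ e) (G : ℕ → ℕ → ℤ) (h : ∀ k, m < k → k ≤ e → gk G k = 0) (a b : ℤ) :
    ev m G a b = ev e G a b := by
  unfold ev
  refine Finset.sum_subset (fun k hk => ?_) (fun k hk hk' => ?_)
  · rw [mem_range] at hk ⊢; omega
  · rw [mem_range] at hk hk'
    have h0 := h k (by omega) (by omega)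
    refine Finset.sum_eq_zero (fun j hj => ?_)
    rw [mem_range] at hj
    have := res_gk_coeff G k j
    rw [h0, coeff_zero, if_pos (by omega)] at this
    rw [← this]; ring

/-- common zeros with a polynomial of smaller degree -/
theorem res_bound (d e : ℕ) (hed : e < d) : ∃ k : ℕ, ∀ H : ℕ, 2 ≤ H → ∀ c : ℕ → ℕ → ℤ, Ht d c H →
    Lead d c → ∀ (G : ℕ → ℕ → ℤ) (M : ℝ), 1 ≤ M → (∀ i j, i + j ≤ e → |(G i j : ℝ)| ≤ M) →
    (∃ i j, i + j ≤ e ∧ G i j ≠ 0) → ∀ a b : ℤ, ev d c a b = 0 → ev e G a b = 0 →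
      |(a : ℝ)| ≤ (H : ℝ) ^ k * M ^ d := by
  refine ⟨(2 * d).factorial * d ^ d * (d + 1) ^ d + d, ?_⟩
  intro H hH c hHt hL G M hM hGM hG0 a b hc hGz
  have hH1 : (1 : ℝ) ≤ H := by exact_mod_cast (by omega : 1 ≤ H)
  by_cases ha : a = 0
  · subst ha
    simp only [Int.cast_zero, abs_zero]
    positivity
  have ha' : (a : ℝ) ≠ 0 := by exact_mod_cast ha
  -- the top nonzero part of G
  obtain ⟨m, hme, hm0, hmax⟩ : ∃ m, m ≤ e ∧ gk G m ≠ 0 ∧ ∀ k, m < k → k ≤ e → gk G k = 0 := by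
    classical
    obtain ⟨i, j, hij, hGij⟩ := hG0
    have hne : ((range (e + 1)).filter (fun k => gk G k ≠ 0)).Nonempty := by
      refine ⟨i + j, ?_⟩
      rw [mem_filter, mem_range]
      refine ⟨by omega, fun h => hGij ?_⟩
      have := res_gk_coeff G (i + j) j
      rw [h, coeff_zero, if_pos (by omega)] at this
      rw [this]; congr 1; omega
    refine ⟨((range (e + 1)).filter (fun k => gk G k ≠ 0)).max' hne, ?_, ?_, ?_⟩
    · have := Finset.max'_mem _ hne
      rw [mem_filter, mem_range] at this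
      omega
    · have := Finset.max'_mem _ hne
      rw [mem_filter] at this
      exact this.2
    · intro k hk hke
      by_contra h
      have : k ≤ ((range (e + 1)).filter (fun k => gk G k ≠ 0)).max' hne :=
        Finset.le_max' _ _ (by rw [mem_filter, mem_range]; exact ⟨by omega, h⟩)
      omega
  have hmd : m < d := by omega
  have hGz' : ev m G a b = 0 := by rw [res_ev_top e m hme G hmax, hGz]
  set R : ℤ[X] := resultant (RFh d c) (RFh m G) d m with hRdef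
  have hR0 : R.coeff 0 ≠ 0 := by
    rw [coeff_zero_eq_eval_zero]
    have h1 : (evalRingHom (0 : ℤ)) R = resultant (gk c d) (gk G m) d m := by
      rw [hRdef, ← resultant_map_map, RFh_map_zero, RFh_map_zero]
    have h2 : eval 0 R = (evalRingHom (0 : ℤ)) R := rfl
    rw [h2, h1]
    exact res_lead_ne d m hmd c G hL hm0
  have hRa : eval₂ (Int.castRingHom ℝ) ((a : ℝ)⁻¹) R = 0 := by
    have h1 : eval₂ (Int.castRingHom ℝ) ((a : ℝ)⁻¹) R =
        (eval₂RingHom (Int.castRingHom ℝ) ((a : ℝ)⁻¹)) R := rfl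
    rw [h1, hRdef, ← resultant_map_map]
    obtain ⟨p, q, -, -, hpq⟩ := exists_mul_add_mul_eq_C_resultant
      ((RFh d c).map (eval₂RingHom (Int.castRingHom ℝ) ((a : ℝ)⁻¹)))
      ((RFh m G).map (eval₂RingHom (Int.castRingHom ℝ) ((a : ℝ)⁻¹)))
      (m := d) (n := m) (natDegree_map_le.trans (RFh_natDegree_le d c))
      (natDegree_map_le.trans (RFh_natDegree_le m G)) (Or.inl (by omega))
    have h2 := congrArg (eval ((b : ℝ) / a)) hpq
    rw [eval_add, eval_mul, eval_mul, eval_C] at h2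
    have h3 : ((RFh d c).map (eval₂RingHom (Int.castRingHom ℝ) ((a : ℝ)⁻¹))).eval ((b : ℝ) / a) = 0 := by
      have := RFh_eval d c a b ha
      rw [hc, Int.cast_zero] at this
      exact (mul_eq_zero.mp this).resolve_left (pow_ne_zero _ ha')
    have h4 : ((RFh m G).map (eval₂RingHom (Int.castRingHom ℝ) ((a : ℝ)⁻¹))).eval ((b : ℝ) / a) = 0 := by
      have := RFh_eval m G a b ha
      rw [hGz', Int.cast_zero] at this
      exact (mul_eq_zero.mp this).resolve_left (pow_ne_zero _ ha')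
    rw [h3, h4, zero_mul, zero_mul, add_zero] at h2
    exact h2.symm
  have h1 := res_abs_le_l1 R hR0 a ha hRa
  have hF : ∀ i, nrm1.v ((RFh d c).coeff i) ≤ (d + 1) * (H : ℝ) :=
    RFh_coeff_le d c H (by positivity) (fun i j hij => by
      have := hHt i j hij
      have h : ((|c i j| : ℤ) : ℝ) ≤ ((H : ℤ) : ℝ) := by exact_mod_cast this
      simpa using h)
  have hGc : ∀ i, nrm1.v ((RFh m G).coeff i) ≤ d * M := by
    intro i
    refine (RFh_coeff_le m G M (by linarith) (fun i j hij => hGM i j (by omega)) i).trans ?_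
    have : ((m : ℝ) + 1) ≤ d := by exact_mod_cast hmd
    exact mul_le_mul_of_nonneg_right this (by linarith)
  have h2 : nrmInt.l1 R ≤ ((d + m).factorial : ℝ) * ((d * M) ^ d * ((d + 1) * (H : ℝ)) ^ m) :=
    res_bd (RFh d c) (RFh m G) d m _ _ (by positivity) (by positivity) hF hGc
  have h3 : ((d + m).factorial : ℝ) ≤ ((2 * d).factorial : ℝ) := by
    exact_mod_cast Nat.factorial_le (by omega)
  have h4 : ((d + 1) * (H : ℝ)) ^ m ≤ ((d + 1) * (H : ℝ)) ^ d := by
    refine pow_le_pow_right₀ ?_ hmd.le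
    have : (0 : ℝ) ≤ d := Nat.cast_nonneg d
    nlinarith
  have h5 : (((2 * d).factorial * d ^ d * (d + 1) ^ d : ℕ) : ℝ) ≤
      (H : ℝ) ^ ((2 * d).factorial * d ^ d * (d + 1) ^ d) := by
    have : (2 * d).factorial * d ^ d * (d + 1) ^ d < 2 ^ ((2 * d).factorial * d ^ d * (d + 1) ^ d) :=
      Nat.lt_two_pow_self
    have h6 : 2 ^ ((2 * d).factorial * d ^ d * (d + 1) ^ d) ≤
      H ^ ((2 * d).factorial * d ^ d * (d + 1) ^ d) := Nat.pow_le_pow_left hH _
    exact_mod_cast this.le.trans h6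
  calc |(a : ℝ)| ≤ ((d + m).factorial : ℝ) * ((d * M) ^ d * ((d + 1) * (H : ℝ)) ^ m) := h1.trans h2
    _ ≤ ((2 * d).factorial : ℝ) * ((d * M) ^ d * ((d + 1) * (H : ℝ)) ^ d) := by gcongr
    _ = (((2 * d).factorial * d ^ d * (d + 1) ^ d : ℕ) : ℝ) * (H : ℝ) ^ d * M ^ d := by
        push_cast
        rw [mul_pow, mul_pow]; ring
    _ ≤ (H : ℝ) ^ ((2 * d).factorial * d ^ d * (d + 1) ^ d) * (H : ℝ) ^ d * M ^ d := by gcongr
    _ = (H : ℝ) ^ ((2 * d).factorial * d ^ d * (d + 1) ^ d + d) * M ^ d := by rw [pow_add]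

end Pool.Agent.LW
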