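import Pool.Agent.LW.GAP
import Pool.Agent.LW.DET
import Pool.Agent.LW.EXP
import Pool.Agent.LW.RES

set_option autoImplicit false

namespace Pool.Agent.LW

open Polynomial Finset

/-- the array of a reflected conic -/
private def fibG (ε : ℤ) (G : Fin 6 → ℤ) : ℕ → ℕ → ℤ
  | 0, 0 => G 0
  | 1, 0 => ε * G 1
  | 0, 1 => G 2
  | 2, 0 => G 3
  | 1, 1 => ε * G 4
  | 0, 2 => G 5
  | _, _ => 0

private theorem fib_ev (ε : ℤ) (hε : ε = 1 ∨ ε = -1) (G : Fin 6 → ℤ) (a b : ℤ) :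
    ev 2 (fibG ε G) a b = ∑ j, G j * cv (ε * a) b j := by
  have hε2 : ε * ε = 1 := by rcases hε with h | h <;> rw [h] <;> norm_num
  have h1 : ∑ j, G j * cv (ε * a) b j = G 0 * 1 + G 1 * (ε * a) + G 2 * b + G 3 * (ε * a) ^ 2 +
      G 4 * (ε * a * b) + G 5 * b ^ 2 := by
    rw [Fin.sum_univ_six]
    simp [cv]
  rw [h1, ev]
  simp only [sum_range_succ, sum_range_zero, Nat.sub_zero, Nat.sub_self, zero_add, pow_zero,
    mul_one, pow_one]
  norm_num [fibG]
  linear_combination (-(G 3) * a ^ 2) * hε2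

private theorem fib_bound (ε : ℤ) (hε : ε = 1 ∨ ε = -1) (G : Fin 6 → ℤ) (M : ℝ)
    (hG : ∀ j, |(G j : ℝ)| ≤ M) (i j : ℕ) (hij : i + j ≤ 2) : |(fibG ε G i j : ℝ)| ≤ M := by
  have hε1 : |(ε : ℝ)| = 1 := by rcases hε with h | h <;> rw [h] <;> norm_num
  have hi : i ≤ 2 := by omega
  have hj : j ≤ 2 := by omega
  interval_cases i <;> interval_cases j <;> simp only [fibG] <;> try omega
  · exact hG 0
  · exact hG 2
  · exact hG 5
  · push_cast
    rw [abs_mul, hε1, one_mul]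
    exact hG 1
  · push_cast
    rw [abs_mul, hε1, one_mul]
    exact hG 4
  · exact hG 3

private theorem fib_ne (ε : ℤ) (hε : ε = 1 ∨ ε = -1) (G : Fin 6 → ℤ) (h : ∃ j, G j ≠ 0) :
    ∃ i j, i + j ≤ 2 ∧ fibG ε G i j ≠ 0 := by
  have hε0 : ε ≠ 0 := by rcases hε with h | h <;> rw [h] <;> norm_num
  obtain ⟨j, hj⟩ := h
  fin_cases j
  · exact ⟨0, 0, by norm_num, hj⟩
  · exact ⟨1, 0, by norm_num, mul_ne_zero hε0 hj⟩
  · exact ⟨0, 1, by norm_num, hj⟩
  · exact ⟨2, 0, by norm_num, hj⟩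
  · exact ⟨1, 1, by norm_num, mul_ne_zero hε0 hj⟩
  · exact ⟨0, 2, by norm_num, hj⟩

private theorem fib_coeff (c : ℕ → ℕ → ℤ) (k j : ℕ) (hj : j ≤ k) :
    (gk c k).coeff j = c (k - j) j := by
  rw [gk, finsetSum_coeff]
  simp only [coeff_monomial]
  rw [sum_ite_eq' (range (k + 1)) j, if_pos (mem_range.mpr (by omega))]

private theorem fib_sub (d : ℕ) (hd : 1 ≤ d) (c c' : ℕ → ℕ → ℤ) (h : gk c d = gk c' d)
    (a b : ℤ) (h1 : ev d c a b = 0) (h2 : ev d c' a b = 0) :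
    ev (d - 1) (fun p q => c p q - c' p q) a b = 0 := by
  obtain ⟨e, rfl⟩ : ∃ e, d = e + 1 := ⟨d - 1, by omega⟩
  rw [Nat.add_sub_cancel]
  have h3 : ∀ f : ℕ → ℕ → ℤ, ev (e + 1) f a b = ev e f a b +
      ∑ j ∈ range (e + 1 + 1), f (e + 1 - j) j * a ^ (e + 1 - j) * b ^ j := by
    intro f
    rw [ev, sum_range_succ, ev]
  have h4 : ∑ j ∈ range (e + 1 + 1), c (e + 1 - j) j * a ^ (e + 1 - j) * b ^ j =
      ∑ j ∈ range (e + 1 + 1), c' (e + 1 - j) j * a ^ (e + 1 - j) * b ^ j := by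
    refine sum_congr rfl fun j hj => ?_
    have hj' : j ≤ e + 1 := by
      have := mem_range.mp hj
      omega
    rw [← fib_coeff c (e + 1) j hj', ← fib_coeff c' (e + 1) j hj', h]
  have h5 : ev e (fun p q => c p q - c' p q) a b = ev e c a b - ev e c' a b := by
    rw [ev, ev, ev, ← sum_sub_distrib]
    refine sum_congr rfl fun k _ => ?_
    rw [← sum_sub_distrib]
    refine sum_congr rfl fun j _ => ?_
    ring
  rw [h3] at h1 h2
  rw [h5]
  linarith

/-- among five curves with the same data and zeros of comparable size two are equal -/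
theorem fiber (d k : ℕ) (hd : 3 ≤ d) : ∃ K : ℕ, ∀ H : ℕ, 2 ≤ H → ∀ (ε : ℤ) (τ : ℝ) (s : ℕ)
    (c : Fin 5 → ℕ → ℕ → ℤ) (a b : Fin 5 → ℤ), (ε = 1 ∨ ε = -1) → (∀ i, Ht d (c i) H) →
    (∀ i, Lead d (c i)) → (∀ i, ev d (c i) (a i) (b i) = 0) → (∀ i, (H : ℝ) ^ K ≤ ε * a i) →
    (∀ i, aeval τ (gk (c i) d) = 0) → (∀ i, |(b i : ℝ) - τ * a i| ≤ (H : ℝ) ^ k) →
    (∀ i, Lev d (c i) τ s) → (∀ i, gk (c i) d = gk (c 0) d) →
    (∀ i, gk (c i) (d - 1) = gk (c 0) (d - 1)) →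
    (∀ i, gk (c i) (d - 1 - s) = gk (c 0) (d - 1 - s)) →
    (∀ i, gk (c i) (d - 2 - s) = gk (c 0) (d - 2 - s)) →
    (∀ i j, |(a i : ℝ)| ^ (100 * d ^ 2) ≤ |(a j : ℝ)| ^ (100 * d ^ 2 + 1)) →
      ∃ i j, i ≠ j ∧ ∀ p q, p + q ≤ d → c i p q = c j p q := by
  obtain ⟨K1, hK1⟩ := res_bound d (d - 1) (by omega)
  obtain ⟨K2, hK2⟩ := res_bound d 2 (by omega)
  obtain ⟨K3, hK3⟩ := expansion d k hd
  obtain ⟨K4, hK4⟩ := bet_bound d (by omega)
  obtain ⟨K5, hK5⟩ := bet1_lower d (by omega)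
  obtain ⟨K6, hK6⟩ := tau_bound d (by omega)
  set k' : ℕ := K2 + K3 + K4 + K5 + K6 with hk'
  obtain ⟨K7, hK7⟩ := gap5 d k' (by omega)
  refine ⟨K3 + (K1 + 2 * d + 1) + K7 * (100 * d ^ 2), ?_⟩
  intro H hH ε τ s c a b hε hc hL hev ha hτ hb hlev g1 g2 g3 g4 hcmp
  have hH2 : (2 : ℝ) ≤ (H : ℝ) := by exact_mod_cast hH
  have hH1 : (1 : ℝ) ≤ (H : ℝ) := by linarith
  have hm : ∀ m n : ℕ, m ≤ n → (H : ℝ) ^ m ≤ (H : ℝ) ^ n := fun m n h => pow_le_pow_right₀ hH1 h
  have hp0 : ∀ n : ℕ, 0 < (H : ℝ) ^ n := fun n => by positivity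
  have hε1 : |(ε : ℝ)| = 1 := by rcases hε with h | h <;> rw [h] <;> norm_num
  have hεε : (ε : ℝ) * ε = 1 := by rcases hε with h | h <;> rw [h] <;> norm_num
  have hεZ : ε * ε = 1 := by rcases hε with h | h <;> rw [h] <;> norm_num
  -- the homogeneous parts of degree at least `d - 1 - s`
  have hgk : ∀ i, ∀ l, d - 2 - s ≤ l → l ≤ d → gk (c i) l = gk (c 0) l := by
    intro i l hl hld
    rcases Nat.lt_or_ge (l + 1) d with h1 | h1
    · set u := d - 1 - l with hu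
      have hul : l = d - 1 - u := by omega
      rcases Nat.lt_or_ge u s with h2 | h2
      · rw [hul]
        exact levels_eq d (by omega) (c i) (c 0) τ s (hL i) (g1 i) (g2 i) (hτ i) (hlev i)
          (hlev 0) u (by omega) h2
      · rcases h2.eq_or_lt with h3 | h3
        · rw [hul, ← h3]
          exact g3 i
        · have h4 : l = d - 2 - s := by omega
          rw [h4]
          exact g4 i
    · rcases h1.eq_or_lt with h2 | h2
      · have h3 : l = d - 1 := by omega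
        rw [h3]
        exact g2 i
      · have h3 : l = d := by omega
        rw [h3]
        exact g1 i
  by_contra hcon
  push Not at hcon
  -- the points are distinct
  have habs : ∀ i, |(a i : ℝ)| = ((ε * a i : ℤ) : ℝ) := by
    intro i
    have h1 : (0 : ℝ) < (ε : ℝ) * a i := lt_of_lt_of_le (hp0 _) (ha i)
    push_cast
    rw [← abs_of_pos h1, abs_mul, hε1, one_mul]
  have hlow : ∀ i, (H : ℝ) ^ (K3 + (K1 + 2 * d + 1) + K7 * (100 * d ^ 2)) ≤ |(a i : ℝ)| := by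
    intro i
    rw [habs]
    push_cast
    exact ha i
  have hdist : ∀ i j, i ≠ j → (ε * a i, b i) ≠ (ε * a j, b j) := by
    intro i j hij heq
    obtain ⟨p, q, hpq, hne⟩ := hcon i j hij
    rw [Prod.mk.injEq] at heq
    have ha' : a i = a j := by
      have h1 := congrArg (fun x => ε * x) heq.1
      simp only [← mul_assoc, hεZ, one_mul] at h1
      exact h1
    have hgij : gk (c i) d = gk (c j) d := (g1 i).trans (g1 j).symm
    have hev' : ev d (c j) (a i) (b i) = 0 := by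
      rw [ha', heq.2]
      exact hev j
    have h1 := fib_sub d (by omega) (c i) (c j) hgij (a i) (b i) (hev i) hev'
    have hpq' : p + q ≤ d - 1 := by
      by_contra hlt
      have h2 : p + q = d := by omega
      have h3 := congrArg (fun P => P.coeff q) hgij
      simp only [fib_coeff (c i) d q (by omega), fib_coeff (c j) d q (by omega)] at h3
      have h4 : d - q = p := by omega
      rw [h4] at h3
      exact hne h3
    have h2 := hK1 H hH (c i) (hc i) (hL i) (fun p q => c i p q - c j p q) ((H : ℝ) ^ 2)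
      (one_le_pow₀ hH1) (fun u v huv => by
        have e1 : |(c i u v : ℝ)| ≤ H := by exact_mod_cast hc i u v (by omega)
        have e2 : |(c j u v : ℝ)| ≤ H := by exact_mod_cast hc j u v (by omega)
        push_cast
        have e3 := abs_sub (c i u v : ℝ) (c j u v : ℝ)
        nlinarith) ⟨p, q, hpq', sub_ne_zero.mpr hne⟩ (a i) (b i) (hev i) h1
    have h3 : (H : ℝ) ^ K1 * ((H : ℝ) ^ 2) ^ d = (H : ℝ) ^ (K1 + 2 * d) := by
      rw [← pow_mul, ← pow_add]
    rw [h3] at h2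
    have h4 : (H : ℝ) ^ (K1 + 2 * d) < (H : ℝ) ^ (K1 + 2 * d + 1) := by
      rw [pow_succ]
      have := hp0 (K1 + 2 * d)
      nlinarith
    have h5 := hm (K1 + 2 * d + 1) (K3 + (K1 + 2 * d + 1) + K7 * (100 * d ^ 2)) (by
      have := Nat.zero_le (K7 * (100 * d ^ 2))
      omega)
    linarith [hlow i]
  rcases Nat.lt_or_ge d (s + 2) with hs | hs
  · -- all homogeneous parts agree
    obtain ⟨p, q, hpq, hne⟩ := hcon 0 1 (by decide)
    have h1 : ∀ l ≤ d, gk (c 0) l = gk (c 1) l := fun l hl => (hgk 1 l (by omega) hl).symm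
    exact hne (gk_ext d (c 0) (c 1) h1 p q hpq)
  -- the smallest of the five
  obtain ⟨m, -, hmin⟩ := exists_min_image (univ : Finset (Fin 5)) (fun i => |(a i : ℝ)|)
    ⟨0, mem_univ _⟩
  set N : ℕ := 100 * d ^ 2 with hN
  have hN0 : N ≠ 0 := by
    rw [hN]
    positivity
  have hmpos : 0 < |(a m : ℝ)| := lt_of_lt_of_le (hp0 _) (hlow m)
  set Z : ℝ := |(a m : ℝ)| ^ ((N : ℝ)⁻¹) with hZ
  have hZ0 : 0 ≤ Z := Real.rpow_nonneg hmpos.le _
  have hZN : Z ^ N = |(a m : ℝ)| := by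
    rw [hZ]
    exact Real.rpow_inv_natCast_pow hmpos.le hN0
  have hZK : (H : ℝ) ^ K7 ≤ Z := by
    refine le_of_pow_le_pow_left₀ hN0 hZ0 ?_
    rw [hZN, ← pow_mul]
    refine (hm _ _ ?_).trans (hlow m)
    omega
  obtain ⟨t1, -, -⟩ := hK6 H hH (c 0) (hc 0) (hL 0) τ (hτ 0)
  obtain ⟨u1, u2, -, u4⟩ := hK4 H hH (c 0) (hc 0) (hL 0) τ (hτ 0) s
  have u5 := hK5 H hH (c 0) (hc 0) (hL 0) τ (hτ 0) s (by omega) (hlev 0)
  have hεp : ∀ n : ℕ, |(ε : ℝ) ^ n| = 1 := fun n => by rw [abs_pow, hε1, one_pow]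
  have hεs : ∀ n : ℕ, (ε : ℝ) ^ n * (ε : ℝ) ^ n = 1 := fun n => by
    rw [← mul_pow, hεε, one_pow]
  refine hK7 H hH Z hZK s (hlev 0).1 (by omega) (ε * τ) (bet0 d (c 0) τ)
    ((ε : ℝ) ^ s * bet1 d (c 0) τ s) ((ε : ℝ) ^ (s + 1) * bet2 d (c 0) τ s) ?_ ?_ ?_ ?_ ?_
    (fun i => ε * a i) b hdist ?_ ?_ ?_
  · rw [abs_mul, hε1, one_mul]
    exact t1.trans (hm _ _ (by omega))
  · exact u1.trans (hm _ _ (by omega))
  · rw [abs_mul, hεp, one_mul]
    exact u2.trans (hm _ _ (by omega))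
  · rw [abs_mul, hεp, one_mul]
    exact u4.trans (hm _ _ (by omega))
  · rw [abs_mul, hεp, one_mul]
    exact u5.trans (mul_le_mul_of_nonneg_right (hm _ _ (by omega)) (abs_nonneg _))
  · intro i
    rw [← habs, hZN]
    refine ⟨hmin i (mem_univ i), ?_⟩
    refine le_of_pow_le_pow_left₀ hN0 (by positivity) ?_
    refine (hcmp i m).trans_eq ?_
    rw [← hZN, ← pow_mul, ← pow_mul]
    congr 1
    ring
  · intro i
    have h1 := hK3 H hH (c i) (hc i) (hL i) (a i) (b i) (hev i)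
      ((hm _ _ (by omega)).trans (hlow i)) τ (hτ i) (hb i) s hs (hlev i)
    obtain ⟨v0, v1, v2⟩ := bet_dep d (c i) (c 0) τ s hs (hgk i)
    rw [v0, v1, v2] at h1
    rw [← habs]
    have ha0 : (a i : ℝ) ≠ 0 := by
      intro h0
      have := lt_of_lt_of_le (hp0 _) (hlow i)
      rw [h0, abs_zero] at this
      exact lt_irrefl _ this
    have h2 : |(a i : ℝ)| = ε * a i := by
      rw [habs]
      push_cast
      rfl
    have e1 : (ε : ℝ) * τ * |(a i : ℝ)| = τ * a i := by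
      rw [h2]
      linear_combination (τ * a i) * hεε
    have e2 : ∀ (n : ℕ) (x : ℝ), (ε : ℝ) ^ n * x / |(a i : ℝ)| ^ n = x / (a i : ℝ) ^ n := by
      intro n x
      rw [h2, mul_pow]
      have h3 : (ε : ℝ) ^ n ≠ 0 := by
        intro h0
        have := hεs n
        rw [h0, mul_zero] at this
        exact zero_ne_one this
      rw [mul_div_mul_left _ _ h3]
    rw [e1, e2, e2]
    exact h1.trans (hm _ _ (by omega))
  · intro i G M hM hG0 hGM hGv
    rw [← habs]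
    have h1 := hK2 H hH (c i) (hc i) (hL i) (fibG ε G) M hM (fib_bound ε hε G M hGM)
      (fib_ne ε hε G hG0) (a i) (b i) (hev i) (by rw [fib_ev ε hε]; exact hGv)
    exact h1.trans (mul_le_mul_of_nonneg_right (hm _ _ (by omega)) (by positivity))

end Pool.Agent.LW
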