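import Pool.Agent.LW.Defs

set_option autoImplicit false

namespace Pool.Agent.LW

open Polynomial Finset

/-- the change of coordinates -/
def Smat (τ β p q : ℝ) : Matrix (Fin 6) (Fin 6) ℝ :=
  !![1, 0, -β, 0, -p + q * β, β ^ 2;
     0, 1, -τ, 0, -β + q * τ, 2 * β * τ;
     0, 0, 1, 0, -q, -(2 * β);
     0, 0, 0, 1, -τ, τ ^ 2;
     0, 0, 0, 0, 1, -(2 * τ);
     0, 0, 0, 0, 0, 1]

theorem Smat_det (τ β p q : ℝ) : (Smat τ β p q).det = 1 := by
  rw [Matrix.det_of_isUpperTriangular]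
  · simp [Smat, Fin.prod_univ_six]
  · intro i j hij
    simp only [id] at hij
    fin_cases i <;> fin_cases j <;> first | (simp [Smat]; done) | (exfalso; revert hij; decide)

theorem Smat_bound (T : ℝ) (hT : 1 ≤ T) (τ β p q : ℝ) (hτ : |τ| ≤ T) (hβ : |β| ≤ T) (hp : |p| ≤ T)
    (hq : |q| ≤ T) (i j : Fin 6) : |Smat τ β p q i j| ≤ 2 * T ^ 2 := by
  have hT2 : T ≤ T ^ 2 := by nlinarith
  have hT3 : 1 ≤ T ^ 2 := by nlinarith
  have hqβ : |q * β| ≤ T ^ 2 := by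
    rw [abs_mul, sq]; exact mul_le_mul hq hβ (abs_nonneg _) (by linarith)
  have hqτ : |q * τ| ≤ T ^ 2 := by
    rw [abs_mul, sq]; exact mul_le_mul hq hτ (abs_nonneg _) (by linarith)
  have hβτ : |β * τ| ≤ T ^ 2 := by
    rw [abs_mul, sq]; exact mul_le_mul hβ hτ (abs_nonneg _) (by linarith)
  have hββ : |β ^ 2| ≤ T ^ 2 := by
    rw [abs_pow]; exact pow_le_pow_left₀ (abs_nonneg _) hβ 2
  have hττ : |τ ^ 2| ≤ T ^ 2 := by
    rw [abs_pow]; exact pow_le_pow_left₀ (abs_nonneg _) hτ 2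
  have b1 := abs_le.mp hτ
  have b2 := abs_le.mp hβ
  have b3 := abs_le.mp hp
  have b4 := abs_le.mp hq
  have b5 := abs_le.mp hqβ
  have b6 := abs_le.mp hqτ
  have b7 := abs_le.mp hβτ
  have b8 := abs_le.mp hββ
  have b9 := abs_le.mp hττ
  rw [abs_le]
  constructor
  · fin_cases i <;> fin_cases j <;> simp [Smat] <;> linarith
  · fin_cases i <;> fin_cases j <;> simp [Smat] <;> linarith

/-- the bounds of the columns -/
def Bc (A X U : ℝ) : Fin 6 → ℝ := ![1, A, X, A ^ 2, U, X ^ 2]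

theorem Bc_nonneg (A X U : ℝ) (hA : 1 ≤ A) (hX : 0 ≤ X) (hU : 0 ≤ U) (i : Fin 6) :
    0 ≤ Bc A X U i := by
  fin_cases i <;> simp [Bc] <;> positivity

theorem Bc_prod (A X U S : ℝ) (hA : 1 ≤ A) (hX : 0 ≤ X) (hU : 0 ≤ U)
    (hX1 : X ≤ 1) (hS : A ^ 3 * X * U ≤ S) (hS' : A ^ 3 * X ^ 3 ≤ S) (c : Fin 6) :
    ∏ i ∈ Finset.univ.erase c, Bc A X U i ≤ S := by
  have e : ∏ i ∈ Finset.univ.erase c, Bc A X U i = ∏ i, (if i = c then 1 else Bc A X U i) := by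
    rw [← Finset.mul_prod_erase Finset.univ (fun i => if i = c then (1 : ℝ) else Bc A X U i)
      (Finset.mem_univ c)]
    simp only [if_true, one_mul]
    apply Finset.prod_congr rfl
    intro i hi
    rw [if_neg (Finset.ne_of_mem_erase hi)]
  rw [e, Fin.prod_univ_six]
  have hA0 : 0 ≤ A := by linarith
  have hX2 : X ^ 2 ≤ 1 := pow_le_one₀ hX hX1
  have h0 : 0 ≤ A ^ 3 * X * U := by positivity
  have hAA : A ≤ A ^ 3 := by
    calc A = A ^ 1 := (pow_one A).symm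
      _ ≤ A ^ 3 := pow_le_pow_right₀ hA (by norm_num)
  have hAA2 : A ^ 2 ≤ A ^ 3 := pow_le_pow_right₀ hA (by norm_num)
  have hXU : 0 ≤ X * U := by positivity
  fin_cases c
  · simp [Bc]
    calc A * X * A ^ 2 * U * X ^ 2 = A ^ 3 * X * U * X ^ 2 := by ring
      _ ≤ A ^ 3 * X * U * 1 := by gcongr
      _ ≤ S := by linarith
  · simp [Bc]
    calc X * A ^ 2 * U * X ^ 2 = A ^ 2 * (X * U) * X ^ 2 := by ring
      _ ≤ A ^ 3 * (X * U) * 1 := by gcongr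
      _ ≤ S := by linarith
  · simp [Bc]
    calc A * A ^ 2 * U * X ^ 2 = A ^ 3 * X * U * X := by ring
      _ ≤ A ^ 3 * X * U * 1 := by gcongr
      _ ≤ S := by linarith
  · simp [Bc]
    calc A * X * U * X ^ 2 = A * (X * U) * X ^ 2 := by ring
      _ ≤ A ^ 3 * (X * U) * 1 := by gcongr
      _ ≤ S := by linarith
  · simp [Bc]
    calc A * X * A ^ 2 * X ^ 2 = A ^ 3 * X ^ 3 := by ring
      _ ≤ S := hS'
  · simp [Bc]
    calc A * X * A ^ 2 * U = A ^ 3 * X * U := by ring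
      _ ≤ S := hS

theorem det_le_of_rows (W : Matrix (Fin 6) (Fin 6) ℝ) (B : Fin 6 → ℝ) (hB : ∀ i, 0 ≤ B i) (L S : ℝ)
    (hL : 0 ≤ L) (hS : ∀ c, ∏ i ∈ Finset.univ.erase c, B i ≤ S)
    (h1 : ∀ i c, i ≠ Fin.last 5 → |W i c| ≤ B c) (h2 : ∀ c, |W (Fin.last 5) c| ≤ L) :
    |W.det| ≤ 720 * (L * S) := by
  rw [Matrix.det_apply]
  refine (Finset.abs_sum_le_sum_abs _ _).trans ?_
  have h3 : ∀ σ : Equiv.Perm (Fin 6), |Equiv.Perm.sign σ • ∏ i, W (σ i) i| ≤ L * S := by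
    intro σ
    have h4 : |Equiv.Perm.sign σ • ∏ i, W (σ i) i| = ∏ i, |W (σ i) i| := by
      rw [← Finset.abs_prod]
      rcases Int.units_eq_one_or (Equiv.Perm.sign σ) with h | h <;> simp [h]
    rw [h4, ← Finset.mul_prod_erase Finset.univ (fun i => |W (σ i) i|)
      (Finset.mem_univ (σ.symm (Fin.last 5)))]
    have h5 : |W (σ (σ.symm (Fin.last 5))) (σ.symm (Fin.last 5))| ≤ L := by
      rw [Equiv.apply_symm_apply]; exact h2 _
    have h6 : ∏ i ∈ Finset.univ.erase (σ.symm (Fin.last 5)), |W (σ i) i| ≤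
        ∏ i ∈ Finset.univ.erase (σ.symm (Fin.last 5)), B i := by
      apply Finset.prod_le_prod
      · intro i _; exact abs_nonneg _
      · intro i hi
        apply h1
        intro h
        apply Finset.ne_of_mem_erase hi
        rw [← h, Equiv.symm_apply_apply]
    exact mul_le_mul h5 (h6.trans (hS _)) (Finset.prod_nonneg fun i _ => abs_nonneg _) hL
  refine (Finset.sum_le_card_nsmul _ _ _ (fun σ _ => h3 σ)).trans ?_
  rw [Finset.card_univ, Fintype.card_perm, Fintype.card_fin, nsmul_eq_mul]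
  norm_num [Nat.factorial]

/-- Bound for the conic in terms of the adapted coordinates `(1, a, ξ, a ^ 2, u, ξ ^ 2)` with
`ξ = b - τ a - β` and `u = a ξ - p - q ξ`. -/
theorem Rc_bound (T : ℝ) (hT : 1 ≤ T) (τ β p q : ℝ) (hτ : |τ| ≤ T) (hβ : |β| ≤ T) (hp : |p| ≤ T)
    (hq : |q| ≤ T) (a b : Fin 5 → ℤ) (A X U S : ℝ) (hA : 1 ≤ A) (hX : 0 ≤ X) (hU : 0 ≤ U)
    (hX1 : X ≤ 1) (ha : ∀ i, |(a i : ℝ)| ≤ A) (hx : ∀ i, |(b i : ℝ) - τ * a i - β| ≤ X)
    (hu : ∀ i, |(a i : ℝ) * ((b i : ℝ) - τ * a i - β) - p - q * ((b i : ℝ) - τ * a i - β)| ≤ U)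
    (hS : A ^ 3 * X * U ≤ S) (hS' : A ^ 3 * X ^ 3 ≤ S) (j : Fin 6) :
    |(Rc a b j : ℝ)| ≤ 1440 * T ^ 2 * S := by
  classical
  let V : Matrix (Fin 6) (Fin 6) ℝ := fun i l =>
    if h : (i : ℕ) < 5 then ((cv (a ⟨i, h⟩) (b ⟨i, h⟩) l : ℤ) : ℝ) else if l = j then 1 else 0
  have hV : (Rc a b j : ℝ) = V.det := by
    unfold Rc
    rw [Int.cast_det]
    congr 1
    ext i l
    rw [Matrix.map_apply]
    simp only [V]
    split_ifs <;> simp
  have hW : V.det = (V * Smat τ β p q).det := by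
    rw [Matrix.det_mul, Smat_det, mul_one]
  rw [hV, hW]
  have hlast : ∀ c, (V * Smat τ β p q) (Fin.last 5) c = Smat τ β p q j c := by
    intro c
    rw [Matrix.mul_apply]
    simp [V]
  have hrow : ∀ i : Fin 6, ∀ h : (i : ℕ) < 5, ∀ c, (V * Smat τ β p q) i c =
      ![1, (a ⟨i, h⟩ : ℝ), (b ⟨i, h⟩ : ℝ) - τ * a ⟨i, h⟩ - β, (a ⟨i, h⟩ : ℝ) ^ 2,
        (a ⟨i, h⟩ : ℝ) * ((b ⟨i, h⟩ : ℝ) - τ * a ⟨i, h⟩ - β) - p -
          q * ((b ⟨i, h⟩ : ℝ) - τ * a ⟨i, h⟩ - β), ((b ⟨i, h⟩ : ℝ) - τ * a ⟨i, h⟩ - β) ^ 2] c := by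
    intro i h c
    rw [Matrix.mul_apply, Fin.sum_univ_six]
    simp only [V, h, dite_true]
    fin_cases c <;> simp [Smat, cv] <;> ring
  have hmain := det_le_of_rows (V * Smat τ β p q) (Bc A X U) (Bc_nonneg A X U hA hX hU)
    (2 * T ^ 2) S (by positivity) (Bc_prod A X U S hA hX hU hX1 hS hS') ?_ ?_
  · calc |(V * Smat τ β p q).det| ≤ 720 * (2 * T ^ 2 * S) := hmain
      _ = 1440 * T ^ 2 * S := by ring
  · intro i c hi
    have h : (i : ℕ) < 5 := by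
      have h1 := i.isLt
      have h2 : (i : ℕ) ≠ 5 := fun h => hi (Fin.ext (by simp [h]))
      omega
    rw [hrow i h c]
    have k1 := ha ⟨i, h⟩
    have k2 := hx ⟨i, h⟩
    have k3 := hu ⟨i, h⟩
    fin_cases c
    · simp [Bc]
    · simpa [Bc] using k1
    · simpa [Bc] using k2
    · simp only [Bc, Fin.reduceFinMk, Matrix.cons_val]
      rw [abs_pow]
      exact pow_le_pow_left₀ (abs_nonneg _) k1 2
    · simpa [Bc] using k3
    · simp only [Bc, Fin.reduceFinMk, Matrix.cons_val]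
      rw [abs_pow]
      exact pow_le_pow_left₀ (abs_nonneg _) k2 2
  · intro c
    rw [hlast]
    exact Smat_bound T hT τ β p q hτ hβ hp hq j c

end Pool.Agent.LW
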