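import Pool.Agent.LW.REP
import Pool.Agent.LW.COL
import Pool.Agent.LW.CONIC
import Pool.Agent.LW.RCB

set_option autoImplicit false

namespace Pool.Agent.LW

open Polynomial Finset

private theorem gap_xi {s : ℕ} {a ξ β₁ β₂ h : ℝ} (ha : 1 ≤ a) (h1 : |β₁| ≤ h)
    (h2 : |β₂| ≤ h) (he : |ξ - β₁ / a ^ s - β₂ / a ^ (s + 1)| * a ^ (s + 2) ≤ h) :
    |ξ| * a ^ s ≤ 3 * h := by
  set e := ξ - β₁ / a ^ s - β₂ / a ^ (s + 1) with hedef
  have ha0 : 0 < a := by linarith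
  have has : 0 ≤ a ^ s := by positivity
  have hid : ξ * a ^ s = β₁ + β₂ / a + e * a ^ s := by
    rw [hedef]
    field_simp
    ring
  have e1 : |e * a ^ s| ≤ h := by
    rw [abs_mul, abs_of_nonneg has]
    exact le_trans (mul_le_mul_of_nonneg_left (pow_le_pow_right₀ ha (by omega)) (abs_nonneg _)) he
  have e2 : |β₂ / a| ≤ h := by
    rw [abs_div, abs_of_pos ha0]
    exact (div_le_self (abs_nonneg _) ha).trans h2
  have e3 : |ξ| * a ^ s = |β₁ + β₂ / a + e * a ^ s| := by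
    rw [← hid, abs_mul, abs_of_nonneg has]
  rw [e3]
  have e4 := abs_add_le (β₁ + β₂ / a) (e * a ^ s)
  have e5 := abs_add_le β₁ (β₂ / a)
  linarith

private theorem gap_q {β₁ β₂ h : ℝ} (h2 : |β₂| ≤ h) (h3 : 1 ≤ h * |β₁|) (hh : 0 ≤ h) :
    |β₂ / β₁| ≤ h ^ 2 := by
  have hb0 : 0 < |β₁| := by
    rcases (abs_nonneg β₁).eq_or_lt with h0 | h0
    · rw [← h0, mul_zero] at h3
      linarith
    · exact h0
  rw [abs_div, div_le_iff₀ hb0]
  calc |β₂| ≤ h := h2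
    _ = h * 1 := by ring
    _ ≤ h * (h * |β₁|) := mul_le_mul_of_nonneg_left h3 hh
    _ = h ^ 2 * |β₁| := by ring

private theorem gap_u {a ξ β₁ β₂ h : ℝ} (ha : 1 ≤ a) (hh : 1 ≤ h) (h2 : |β₂| ≤ h)
    (h3 : 1 ≤ h * |β₁|) (he : |ξ - β₁ / a ^ 1 - β₂ / a ^ (1 + 1)| * a ^ (1 + 2) ≤ h) :
    |a * ξ - β₁ - β₂ / β₁ * ξ| * a ^ 2 ≤ 3 * h ^ 3 := by
  set e := ξ - β₁ / a ^ 1 - β₂ / a ^ (1 + 1) with hedef
  have ha0 : 0 < a := by linarith
  have hb0 : β₁ ≠ 0 := by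
    rintro rfl
    rw [abs_zero, mul_zero] at h3
    linarith
  have hq : |β₂ / β₁| ≤ h ^ 2 := gap_q h2 h3 (by linarith)
  have hid : (a * ξ - β₁ - β₂ / β₁ * ξ) * a ^ 2 =
      e * a ^ (1 + 2) - β₂ * (β₂ / β₁) - (β₂ / β₁) * (e * a ^ 2) := by
    rw [hedef]
    field_simp
    ring
  have e1 : |e * a ^ 2| ≤ h := by
    rw [abs_mul, abs_of_nonneg (by positivity : 0 ≤ a ^ 2)]
    exact le_trans (mul_le_mul_of_nonneg_left (pow_le_pow_right₀ ha (by omega)) (abs_nonneg _)) he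
  have e2 : |e * a ^ (1 + 2)| ≤ h := by
    rw [abs_mul, abs_of_nonneg (by positivity : 0 ≤ a ^ (1 + 2))]
    exact he
  have e3 : |β₂ * (β₂ / β₁)| ≤ h * h ^ 2 := by
    rw [abs_mul]
    exact mul_le_mul h2 hq (abs_nonneg _) (by linarith)
  have e4 : |(β₂ / β₁) * (e * a ^ 2)| ≤ h ^ 2 * h := by
    rw [abs_mul]
    exact mul_le_mul hq e1 (abs_nonneg _) (by positivity)
  have e5 : |a * ξ - β₁ - β₂ / β₁ * ξ| * a ^ 2 =
      |e * a ^ (1 + 2) - β₂ * (β₂ / β₁) - (β₂ / β₁) * (e * a ^ 2)| := by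
    rw [← hid, abs_mul, abs_of_nonneg (by positivity : 0 ≤ a ^ 2)]
  rw [e5]
  have e6 := abs_sub (e * a ^ (1 + 2) - β₂ * (β₂ / β₁)) ((β₂ / β₁) * (e * a ^ 2))
  have e7 := abs_sub (e * a ^ (1 + 2)) (β₂ * (β₂ / β₁))
  have e8 : h ≤ h ^ 3 := le_self_pow₀ hh (by norm_num)
  have e9 : h * h ^ 2 = h ^ 3 := by ring
  have e10 : h ^ 2 * h = h ^ 3 := by ring
  linarith

private theorem gap_rc {τ β β₁ β₂ h Z W : ℝ} {s : ℕ} (hs : 1 ≤ s) (hh : 1 ≤ h) (hZ : 0 ≤ Z)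
    (hW : 3 * h ≤ W) (hWZ : 1 ≤ W * Z) (hτ : |τ| ≤ h) (hβ : |β| ≤ h) (h1 : |β₁| ≤ h)
    (h2 : |β₂| ≤ h) (h3 : 1 ≤ h * |β₁|) (a b : Fin 5 → ℤ)
    (hlo : ∀ i, W ≤ (a i : ℝ)) (hhi : ∀ i, (a i : ℝ) ≤ W * Z)
    (he : ∀ i, |(b i : ℝ) - τ * a i - β - β₁ / (a i : ℝ) ^ s - β₂ / (a i : ℝ) ^ (s + 1)| *
      (a i : ℝ) ^ (s + 2) ≤ h) (j : Fin 6) :
    |(Rc a b j : ℝ)| ≤ 38880 * h ^ 8 * Z ^ 3 := by
  have hW1 : 1 ≤ W := by linarith
  have hW0 : 0 < W := by linarith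
  have hh0 : 0 ≤ h := by linarith
  have ha1 : ∀ i, 1 ≤ (a i : ℝ) := fun i => hW1.trans (hlo i)
  have ha0 : ∀ i, 0 < (a i : ℝ) := fun i => by linarith [ha1 i]
  have hT : h ≤ h ^ 2 := le_self_pow₀ hh (by norm_num)
  have hT1 : 1 ≤ h ^ 2 := one_le_pow₀ hh
  have hxi : ∀ i, |(b i : ℝ) - τ * a i - β| * (a i : ℝ) ^ s ≤ 3 * h := fun i =>
    gap_xi (ha1 i) h1 h2 (he i)
  have habs : ∀ i, |(a i : ℝ)| ≤ W * Z := fun i => by
    rw [abs_of_pos (ha0 i)]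
    exact hhi i
  have hW3 : 1 ≤ W ^ 3 := one_le_pow₀ hW1
  rcases hs.eq_or_lt with hs1 | hs2
  · -- level one
    subst hs1
    have hu : ∀ i, |(a i : ℝ) * ((b i : ℝ) - τ * a i - β) - β₁ -
        β₂ / β₁ * ((b i : ℝ) - τ * a i - β)| ≤ 3 * h ^ 3 / W ^ 2 := by
      intro i
      rw [le_div_iff₀ (by positivity)]
      refine le_trans ?_ (gap_u (ha1 i) hh h2 h3 (he i))
      exact mul_le_mul_of_nonneg_left (pow_le_pow_left₀ hW0.le (hlo i) 2) (abs_nonneg _)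
    have hx : ∀ i, |(b i : ℝ) - τ * a i - β| ≤ 3 * h / W := by
      intro i
      rw [le_div_iff₀ hW0]
      refine le_trans ?_ (hxi i)
      rw [pow_one]
      exact mul_le_mul_of_nonneg_left (hlo i) (abs_nonneg _)
    have hb := Rc_bound (h ^ 2) hT1 τ β β₁ (β₂ / β₁) (hτ.trans hT) (hβ.trans hT) (h1.trans hT)
      (gap_q h2 h3 hh0) a b (W * Z) (3 * h / W) (3 * h ^ 3 / W ^ 2) (27 * h ^ 4 * Z ^ 3) hWZ
      (by positivity) (by positivity) ((div_le_one hW0).mpr hW) habs hx hu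
      (by
        have : (W * Z) ^ 3 * (3 * h / W) * (3 * h ^ 3 / W ^ 2) = 9 * h ^ 4 * Z ^ 3 := by
          field_simp
          ring
        rw [this]
        have h0 : 0 ≤ h ^ 4 * Z ^ 3 := by positivity
        nlinarith)
      (by
        have : (W * Z) ^ 3 * (3 * h / W) ^ 3 = 27 * h ^ 3 * Z ^ 3 := by
          field_simp
          ring
        rw [this]
        apply mul_le_mul_of_nonneg_right _ (by positivity)
        have : h ^ 3 ≤ h ^ 4 := pow_le_pow_right₀ hh (by norm_num)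
        linarith) j
    refine hb.trans (le_of_eq ?_)
    ring
  · -- level at least two
    have hxi2 : ∀ i, |(b i : ℝ) - τ * a i - β| * (a i : ℝ) ^ 2 ≤ 3 * h := fun i =>
      (mul_le_mul_of_nonneg_left (pow_le_pow_right₀ (ha1 i) (by omega)) (abs_nonneg _)).trans (hxi i)
    have hu : ∀ i, |(a i : ℝ) * ((b i : ℝ) - τ * a i - β) - 0 -
        0 * ((b i : ℝ) - τ * a i - β)| ≤ 3 * h / W := by
      intro i
      rw [le_div_iff₀ hW0, zero_mul, sub_zero, sub_zero, abs_mul, abs_of_pos (ha0 i)]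
      refine le_trans ?_ (hxi2 i)
      have h0 := abs_nonneg ((b i : ℝ) - τ * a i - β)
      calc (a i : ℝ) * |(b i : ℝ) - τ * a i - β| * W ≤
            (a i : ℝ) * |(b i : ℝ) - τ * a i - β| * a i :=
            mul_le_mul_of_nonneg_left (hlo i) (mul_nonneg (ha0 i).le h0)
        _ = _ := by ring
    have hx : ∀ i, |(b i : ℝ) - τ * a i - β| ≤ 3 * h / W ^ 2 := by
      intro i
      rw [le_div_iff₀ (by positivity)]
      refine le_trans ?_ (hxi2 i)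
      exact mul_le_mul_of_nonneg_left (pow_le_pow_left₀ hW0.le (hlo i) 2) (abs_nonneg _)
    have hb := Rc_bound (h ^ 2) hT1 τ β 0 0 (hτ.trans hT) (hβ.trans hT)
      (by rw [abs_zero]; positivity) (by rw [abs_zero]; positivity) a b (W * Z) (3 * h / W ^ 2)
      (3 * h / W) (27 * h ^ 4 * Z ^ 3) hWZ (by positivity) (by positivity)
      ((div_le_one (by positivity)).mpr (by nlinarith)) habs hx hu
      (by
        have : (W * Z) ^ 3 * (3 * h / W ^ 2) * (3 * h / W) = 9 * h ^ 2 * Z ^ 3 := by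
          field_simp
          ring
        rw [this]
        apply mul_le_mul_of_nonneg_right _ (by positivity)
        have e1 : h ^ 2 ≤ h ^ 4 := pow_le_pow_right₀ hh (by norm_num)
        have e2 : 0 ≤ h ^ 4 := by positivity
        linarith)
      (by
        have : (W * Z) ^ 3 * (3 * h / W ^ 2) ^ 3 = 27 * h ^ 3 * Z ^ 3 / W ^ 3 := by
          field_simp
          ring
        rw [this]
        refine (div_le_self (by positivity) hW3).trans ?_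
        apply mul_le_mul_of_nonneg_right _ (by positivity)
        have : h ^ 3 ≤ h ^ 4 := pow_le_pow_right₀ hh (by norm_num)
        linarith) j
    refine hb.trans (le_of_eq ?_)
    ring

/-- there are no five points on the same branch at comparable distance -/
theorem gap5 (D k : ℕ) (hD : 1 ≤ D) : ∃ K : ℕ, ∀ H : ℕ, 2 ≤ H → ∀ Z : ℝ, (H : ℝ) ^ K ≤ Z →
    ∀ s : ℕ, 1 ≤ s → s ≤ D → ∀ τ β β₁ β₂ : ℝ, |τ| ≤ (H : ℝ) ^ k → |β| ≤ (H : ℝ) ^ k →
    |β₁| ≤ (H : ℝ) ^ k → |β₂| ≤ (H : ℝ) ^ k → 1 ≤ (H : ℝ) ^ k * |β₁| →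
    ∀ a b : Fin 5 → ℤ, (∀ i j, i ≠ j → (a i, b i) ≠ (a j, b j)) →
    (∀ i, Z ^ (100 * D ^ 2) ≤ (a i : ℝ) ∧ (a i : ℝ) ≤ Z ^ (100 * D ^ 2 + 1)) →
    (∀ i, |(b i : ℝ) - τ * a i - β - β₁ / (a i : ℝ) ^ s - β₂ / (a i : ℝ) ^ (s + 1)| *
      (a i : ℝ) ^ (s + 2) ≤ (H : ℝ) ^ k) →
    (∀ (i : Fin 5) (G : Fin 6 → ℤ) (M : ℝ), 1 ≤ M → (∃ j, G j ≠ 0) → (∀ j, |(G j : ℝ)| ≤ M) →
      ∑ j, G j * cv (a i) (b i) j = 0 → (a i : ℝ) ≤ (H : ℝ) ^ k * M ^ D) → False := by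
  obtain ⟨Kr, hKr⟩ := repulsion D (k + 2) hD
  obtain ⟨Kc, hKc⟩ := not_collinear D k hD
  refine ⟨Kr + Kc + 8 * k + 17, ?_⟩
  intro H hH Z hZ s hs1 hsD τ β β₁ β₂ hτ hβ hβ₁ hβ₂ hβl a b hne hrange hexp hG
  have hH2 : (2 : ℝ) ≤ H := by exact_mod_cast hH
  have hH1 : (1 : ℝ) ≤ H := by linarith
  have hmono : ∀ {i j : ℕ}, i ≤ j → (H : ℝ) ^ i ≤ (H : ℝ) ^ j := fun h => pow_le_pow_right₀ hH1 h
  have hZr : (H : ℝ) ^ Kr ≤ Z := (hmono (by omega)).trans hZ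
  have hZc : (H : ℝ) ^ Kc ≤ Z := (hmono (by omega)).trans hZ
  have hZ8 : (H : ℝ) ^ (8 * k + 17) ≤ Z := (hmono (by omega)).trans hZ
  have hZ1 : 1 ≤ Z := (one_le_pow₀ hH1).trans hZ8
  have hZ0 : 0 < Z := by linarith
  have hDD : 1 ≤ D ^ 2 := Nat.one_le_pow _ _ hD
  have hDD2 : D ≤ D ^ 2 := Nat.le_self_pow (by norm_num) D
  have hh1 : 1 ≤ (H : ℝ) ^ k := one_le_pow₀ hH1
  have ha1 : ∀ i, 1 ≤ (a i : ℝ) := fun i => (one_le_pow₀ hZ1).trans (hrange i).1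
  have hxi : ∀ i, |(b i : ℝ) - τ * a i - β| * (a i : ℝ) ≤ (H : ℝ) ^ (k + 2) := by
    intro i
    have h1 := gap_xi (ha1 i) hβ₁ hβ₂ (hexp i)
    have h2 : (a i : ℝ) ≤ (a i : ℝ) ^ s := le_self_pow₀ (ha1 i) (by omega)
    calc |(b i : ℝ) - τ * a i - β| * (a i : ℝ) ≤ |(b i : ℝ) - τ * a i - β| * (a i : ℝ) ^ s :=
          mul_le_mul_of_nonneg_left h2 (abs_nonneg _)
      _ ≤ 3 * (H : ℝ) ^ k := h1
      _ ≤ (H : ℝ) ^ 2 * (H : ℝ) ^ k := by
          apply mul_le_mul_of_nonneg_right _ (by positivity)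
          nlinarith
      _ = _ := by ring
  have hline : ∀ i, ∀ (g₀ g₁ g₂ : ℤ) (M : ℝ), 1 ≤ M → (g₀ ≠ 0 ∨ g₁ ≠ 0 ∨ g₂ ≠ 0) →
      |(g₀ : ℝ)| ≤ M → |(g₁ : ℝ)| ≤ M → |(g₂ : ℝ)| ≤ M → g₀ + g₁ * a i + g₂ * b i = 0 →
      (a i : ℝ) ≤ (H : ℝ) ^ (k + 2) * M ^ D := by
    intro i g₀ g₁ g₂ M hM hg h0 h1 h2 hz
    have hfin := hG i ![g₀, g₁, g₂, 0, 0, 0] M hM
      (by
        rcases hg with h | h | h
        · exact ⟨0, h⟩
        · exact ⟨1, h⟩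
        · exact ⟨2, h⟩)
      (by
        intro j
        have hM0 : |((0 : ℤ) : ℝ)| ≤ M := by
          rw [Int.cast_zero, abs_zero]
          linarith
        fin_cases j
        · exact h0
        · exact h1
        · exact h2
        · exact hM0
        · exact hM0
        · exact hM0)
      (by
        rw [Fin.sum_univ_six]
        simp only [cv]
        simp
        linarith)
    exact hfin.trans (mul_le_mul_of_nonneg_right (hmono (by omega)) (by positivity))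
  have hrep : ∀ i j, i ≠ j → Z ^ (100 * D - 1) ≤ |(a i : ℝ) - a j| := by
    intro i j hij
    exact hKr H hH Z hZr τ β (hτ.trans (hmono (by omega))) (hβ.trans (hmono (by omega)))
      (a i) (b i) (a j) (b j) (hne i j hij) (hrange i).1 (hrange j).1 (hxi i) (hxi j)
      (hline i) (hline j)
  obtain ⟨j, hj⟩ := Rc_ne a b (by
    intro i j l hij hil hjl
    apply hKc H hH Z hZc s hs1 hsD τ β β₁ β₂ hβ₂ hβl
    · intro m
      fin_cases m
      · exact hrange i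
      · exact hrange j
      · exact hrange l
    · intro m n hmn
      fin_cases m <;> fin_cases n
      · exact absurd rfl hmn
      · exact hrep i j hij
      · exact hrep i l hil
      · exact hrep j i hij.symm
      · exact absurd rfl hmn
      · exact hrep j l hjl
      · exact hrep l i hil.symm
      · exact hrep l j hjl.symm
      · exact absurd rfl hmn
    · intro m
      fin_cases m
      · exact hexp i
      · exact hexp j
      · exact hexp l)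
  have hW : 3 * (H : ℝ) ^ k ≤ Z ^ (100 * D ^ 2) := by
    have h1 : Z ≤ Z ^ (100 * D ^ 2) := le_self_pow₀ hZ1 (by omega)
    refine le_trans ?_ (hZ8.trans h1)
    calc 3 * (H : ℝ) ^ k ≤ (H : ℝ) ^ 2 * (H : ℝ) ^ k := by
          apply mul_le_mul_of_nonneg_right _ (by positivity)
          nlinarith
      _ = (H : ℝ) ^ (k + 2) := by ring
      _ ≤ _ := hmono (by omega)
  have hrc : ∀ j, |(Rc a b j : ℝ)| ≤ Z ^ 4 := by
    intro j
    refine (gap_rc (Z := Z) hs1 hh1 hZ0.le hW ?_ hτ hβ hβ₁ hβ₂ hβl a b (fun i => (hrange i).1)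
      (fun i => ?_) hexp j).trans ?_
    · rw [← pow_succ]
      exact one_le_pow₀ hZ1
    · rw [← pow_succ]
      exact (hrange i).2
    · have h1 : 38880 * ((H : ℝ) ^ k) ^ 8 ≤ Z := by
        refine le_trans ?_ hZ8
        calc 38880 * ((H : ℝ) ^ k) ^ 8 ≤ (H : ℝ) ^ 16 * ((H : ℝ) ^ k) ^ 8 := by
              apply mul_le_mul_of_nonneg_right _ (by positivity)
              calc (38880 : ℝ) ≤ 2 ^ 16 := by norm_num
                _ ≤ (H : ℝ) ^ 16 := pow_le_pow_left₀ (by norm_num) hH2 16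
          _ = (H : ℝ) ^ (8 * k + 16) := by ring
          _ ≤ _ := hmono (by omega)
      calc 38880 * ((H : ℝ) ^ k) ^ 8 * Z ^ 3 ≤ Z * Z ^ 3 :=
            mul_le_mul_of_nonneg_right h1 (by positivity)
        _ = Z ^ 4 := by ring
  have hfin := hG 0 (Rc a b) (Z ^ 4) (one_le_pow₀ hZ1) ⟨j, hj⟩ hrc (Rc_vanish a b 0)
  have h1 : Z ^ (100 * D ^ 2) ≤ (H : ℝ) ^ k * (Z ^ 4) ^ D := ((hrange 0).1).trans hfin
  have h2 : Z ^ (4 * D + 1) ≤ Z ^ (100 * D ^ 2) := pow_le_pow_right₀ hZ1 (by nlinarith)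
  have h3 : Z * Z ^ (4 * D) ≤ (H : ℝ) ^ k * Z ^ (4 * D) := by
    calc Z * Z ^ (4 * D) = Z ^ (4 * D + 1) := by ring
      _ ≤ _ := h2.trans h1
      _ = _ := by rw [← pow_mul]
  have h4 : Z ≤ (H : ℝ) ^ k := le_of_mul_le_mul_right h3 (by positivity)
  have h5 : (H : ℝ) ^ (k + 1) ≤ (H : ℝ) ^ k := (hmono (by omega)).trans (hZ8.trans h4)
  rw [pow_succ] at h5
  nlinarith

end Pool.Agent.LW
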