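import Pool.Agent.LW.Defs
import Pool.Agent.H20.Q1

set_option autoImplicit false

namespace Pool.Agent.LW

open Polynomial Finset Module Pool.Agent.H20 Pool.Agent.H20.G

lemma hen_single (m : Fin 2 →₀ ℕ) (i j : ℕ) :
    Finsupp.single (0 : Fin 2) i + Finsupp.single 1 j = m ↔ i = m 0 ∧ j = m 1 := by
  constructor
  · rintro rfl
    simp
  · rintro ⟨h1, h2⟩
    ext k
    fin_cases k
    · simp [h1]
    · simp [h2]

lemma hen_coeff_zero {d : ℕ} {f : MvPolynomial (Fin 2) ℤ} (hf : f.totalDegree ≤ d)
    (m : Fin 2 →₀ ℕ) (hm : d < m 0 + m 1) : f.coeff m = 0 := by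
  apply MvPolynomial.coeff_eq_zero_of_totalDegree_lt
  refine lt_of_le_of_lt hf ?_
  have : m.sum (fun _ e => e) = m 0 + m 1 := by
    rw [Finsupp.sum_fintype _ _ (by simp), Fin.sum_univ_two]
  exact hm.trans_eq this.symm

lemma hen_eq (d : ℕ) (f : MvPolynomial (Fin 2) ℤ) (hf : f.totalDegree ≤ d) :
    f = ∑ j ∈ range (d + 1), ∑ i ∈ range (d + 1 - j),
      MvPolynomial.monomial (Finsupp.single 0 i + Finsupp.single 1 j) (arr d f i j) := by
  classical
  ext m
  simp only [MvPolynomial.coeff_sum, MvPolynomial.coeff_monomial, hen_single]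
  by_cases hm : m 0 + m 1 ≤ d
  · rw [Finset.sum_eq_single (m 1), Finset.sum_eq_single (m 0)]
    · rw [if_pos ⟨rfl, rfl⟩]
      unfold arr
      rw [if_pos hm]
      congr 1
      exact ((hen_single m (m 0) (m 1)).mpr ⟨rfl, rfl⟩).symm
    · intro i _ hi
      rw [if_neg (fun h => hi h.1)]
    · intro h
      exact absurd (Finset.mem_range.mpr (by omega)) h
    · intro j _ hj
      refine Finset.sum_eq_zero (fun i _ => ?_)
      rw [if_neg (fun h => hj h.2)]
    · intro h
      exact absurd (Finset.mem_range.mpr (by omega)) h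
  · rw [hen_coeff_zero hf m (by omega)]
    symm
    refine Finset.sum_eq_zero (fun j hj => Finset.sum_eq_zero (fun i hi => ?_))
    have h1 := Finset.mem_range.mp hj
    have h2 := Finset.mem_range.mp hi
    rw [if_neg]
    rintro ⟨h3, h4⟩
    omega

lemma hen_eval {R : Type*} [CommRing R] (d : ℕ) (f : MvPolynomial (Fin 2) ℤ)
    (hf : f.totalDegree ≤ d) (u v : R) :
    MvPolynomial.eval₂ (Int.castRingHom R) ![u, v] f = evR u v (fP d (arr d f)) := by
  rw [evR_fP]
  conv_lhs => rw [hen_eq d f hf]
  rw [MvPolynomial.eval₂_sum]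
  refine Finset.sum_congr rfl (fun j _ => ?_)
  rw [MvPolynomial.eval₂_sum]
  refine Finset.sum_congr rfl (fun i _ => ?_)
  rw [MvPolynomial.eval₂_monomial, Finsupp.prod_fintype _ _ (by simp), Fin.prod_univ_two]
  simp [mul_assoc]

lemma hen_gk (c : ℕ → ℕ → ℤ) (k : ℕ) {A : Type*} [CommRing A] (t : A) :
    aeval t (gk c k) = ∑ j ∈ range (k + 1), (c (k - j) j : A) * t ^ j := by
  unfold gk
  rw [map_sum]
  refine Finset.sum_congr rfl (fun j _ => ?_)
  rw [aeval_monomial]
  simp

/-- Hensel: a simple root of the leading form gives a branch. -/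
lemma hen_branch (d : ℕ) (c : ℕ → ℕ → ℤ) {L : Type} [Field L] [NumberField L] (θ : L)
    (h0 : aeval θ (gk c d) = 0) (h1 : aeval θ (derivative (gk c d)) ≠ 0) :
    ∃ x y : LaurentSeries L, evR x y (fP d c) = 0 ∧ Pole x y 1 := by
  classical
  -- the equation at infinity
  set T : (PowerSeries L)[X] := C PowerSeries.X with hT
  set P : (PowerSeries L)[X] := F0 d c T (X + C (PowerSeries.C θ)) with hP
  have hred : P.map (PowerSeries.constantCoeff (R := L)) = ((gk c d).map (Int.castRingHom L)).comp
      (X + C θ) := by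
    have h2 := map_F0 (mapRingHom (PowerSeries.constantCoeff (R := L))) d c T
      (X + C (PowerSeries.C θ))
    rw [coe_mapRingHom] at h2
    rw [hP, h2, hT, Polynomial.map_C, PowerSeries.constantCoeff_X, Polynomial.map_add,
      Polynomial.map_X, Polynomial.map_C, PowerSeries.constantCoeff_C, C_0]
    unfold F0 gk
    rw [Polynomial.map_sum, Polynomial.comp, eval₂_finsetSum]
    refine Finset.sum_congr rfl (fun j hj => ?_)
    have hj' := Finset.mem_range.mp hj
    rw [Finset.sum_eq_single (d - j)]
    · have e : d - (d - j) - j = 0 := by omega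
      rw [e, pow_zero, mul_one, map_monomial, eval₂_monomial]
      simp
    · intro i hi hne
      have hi' := Finset.mem_range.mp hi
      rw [zero_pow (by omega), mul_zero, zero_mul]
    · intro h
      exact absurd (Finset.mem_range.mpr (by omega)) h
  have hc0 : PowerSeries.constantCoeff (P.coeff 0) = 0 := by
    have h2 := congrArg (fun p => p.coeff 0) hred
    simp only [coeff_map] at h2
    rw [h2, coeff_zero_eq_eval_zero, eval_comp]
    simp only [eval_add, eval_X, eval_C, zero_add]
    rw [eval_map]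
    exact h0
  have hc1 : PowerSeries.constantCoeff (P.coeff 1) ≠ 0 := by
    have hder : ∀ p : L[X], p.coeff 1 = (derivative p).eval 0 := by
      intro p
      rw [← coeff_zero_eq_eval_zero, coeff_derivative]
      simp
    have h2 := congrArg (fun p => p.coeff 1) hred
    simp only [coeff_map] at h2
    rw [h2, hder, derivative_comp, eval_mul, eval_comp]
    simp only [derivative_add, derivative_X, derivative_C, add_zero, eval_one, one_mul, eval_add,
      eval_X, eval_C, zero_add]
    rw [derivative_map, eval_map]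
    exact h1
  obtain ⟨z, hz0, hz⟩ := hensel_power P hc0 hc1
  set Z : PowerSeries L := z + PowerSeries.C θ with hZ
  have hF : F0 d c PowerSeries.X Z = 0 := by
    have h2 := map_F0 (evalRingHom z) d c T (X + C (PowerSeries.C θ))
    rw [coe_evalRingHom, ← hP, hz, hT, eval_C, eval_add, eval_X, eval_C] at h2
    exact h2.symm
  set ι := HahnSeries.ofPowerSeries ℤ L with hι
  have hιX : ι PowerSeries.X = HahnSeries.single (1 : ℤ) (1 : L) := by
    rw [hι, HahnSeries.ofPowerSeries_X]
  have hX0 : ι PowerSeries.X ≠ 0 := by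
    rw [hιX]
    exact HahnSeries.single_ne_zero one_ne_zero
  have hXi : (ι PowerSeries.X)⁻¹ = HahnSeries.single (-1 : ℤ) (1 : L) := by
    rw [hιX, HahnSeries.inv_single, inv_one]
  refine ⟨(ι PowerSeries.X)⁻¹, (ι PowerSeries.X)⁻¹ * ι Z, ?_, le_refl _, ?_, ?_⟩
  · rw [← F0_eval' d c _ _ (inv_ne_zero hX0), inv_inv, ← map_F0, hF, map_zero, mul_zero]
  · intro n hn
    have h7 : ((ι PowerSeries.X)⁻¹).coeff n = 0 := by
      rw [hXi, HahnSeries.coeff_single_of_ne (by push_cast at hn; omega)]
    refine ⟨h7, ?_⟩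
    rw [hXi]
    have h8 : n = (n + 1) + (-1 : ℤ) := by ring
    rw [h8, mul_comm, HahnSeries.coeff_mul_single_add]
    have h9 : (ι Z).coeff (n + 1) = 0 := by
      rw [hι, HahnSeries.ofPowerSeries_apply, HahnSeries.embDomain_of_notMem_range]
      rintro ⟨k, hk⟩
      have h10 : ((k : ℕ) : ℤ) = n + 1 := hk
      have h11 : (0 : ℤ) ≤ ((k : ℕ) : ℤ) := Int.natCast_nonneg k
      push_cast at hn
      omega
    rw [h9, zero_mul]
  · left
    rw [hXi]
    push_cast
    rw [HahnSeries.coeff_single_same]
    exact one_ne_zero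

/-- a simple root of the leading form of small degree gives a small branch at infinity -/
theorem small_branch (d : ℕ) (hd : 2 ≤ d) (f : MvPolynomial (Fin 2) ℤ) (hf : f.totalDegree ≤ d)
    (h1 : d ≤ (gk (arr d f) d).natDegree + 1)
    (h2 : Squarefree ((gk (arr d f) d).map (Int.castRingHom ℚ)))
    (h3 : ¬ ((gk (arr d f) d).natDegree = d ∧
      Irreducible ((gk (arr d f) d).map (Int.castRingHom ℚ)))) :
    ∃ (L : Type) (_ : Field L) (_ : NumberField L) (x y : LaurentSeries L) (e : ℕ),
      MvPolynomial.eval₂ (Int.castRingHom (LaurentSeries L)) ![x, y] f = 0 ∧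
        Pool.Agent.H20.G.Pole x y e ∧ Module.finrank ℚ L * e < d := by
  classical
  set c := arr d f with hc
  set g := gk c d with hg
  set G := g.map (Int.castRingHom ℚ) with hG
  have hinj : Function.Injective (Int.castRingHom ℚ) := Int.cast_injective
  have hGd : G.natDegree = g.natDegree := natDegree_map_eq_of_injective hinj g
  have hgd : g.natDegree ≤ d := by
    rw [hg]
    unfold gk
    refine natDegree_sum_le_of_forall_le _ _ (fun j hj => (natDegree_monomial_le _).trans ?_)
    have := Finset.mem_range.mp hj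
    omega
  have hG0 : G ≠ 0 := h2.ne_zero
  -- an irreducible factor of small degree
  obtain ⟨p, hp, hpG, hpd⟩ : ∃ p : ℚ[X], Irreducible p ∧ p ∣ G ∧ p.natDegree < d := by
    have hGu : ¬ IsUnit G := by
      intro hu
      have := natDegree_eq_zero_of_isUnit hu
      omega
    obtain ⟨p, hp, hpG⟩ := WfDvdMonoid.exists_irreducible_factor hGu hG0
    obtain ⟨q, hq⟩ := hpG
    have hq0 : q ≠ 0 := by
      rintro rfl
      rw [mul_zero] at hq
      exact hG0 hq
    by_cases hlt : p.natDegree < d
    · exact ⟨p, hp, ⟨q, hq⟩, hlt⟩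
    exfalso
    have hsum : p.natDegree + q.natDegree = g.natDegree := by
      rw [← hGd, hq, natDegree_mul hp.ne_zero hq0]
    have hgd' : g.natDegree = d := by omega
    apply h3
    refine ⟨hgd', ?_⟩
    have hq1 : q.natDegree = 0 := by omega
    have hqu : IsUnit q := by
      rw [isUnit_iff_degree_eq_zero, degree_eq_natDegree hq0, hq1]
      rfl
    rw [hq]
    exact (irreducible_mul_isUnit hqu).mpr hp
  have : Fact (Irreducible p) := ⟨hp⟩
  let L := AdjoinRoot p
  let pb : PowerBasis ℚ L := AdjoinRoot.powerBasis hp.ne_zero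
  have hfin : FiniteDimensional ℚ L := pb.finite
  have hnf : NumberField L := { to_finiteDimensional := hfin }
  have hLd : finrank ℚ L = p.natDegree := by
    rw [pb.finrank, AdjoinRoot.powerBasis_dim]
  set θ : L := AdjoinRoot.root p with hθ
  have hroot : aeval θ G = 0 := by
    obtain ⟨q, hq⟩ := hpG
    rw [hq, map_mul]
    have : aeval θ p = 0 := by
      have h5 : eval₂ (AdjoinRoot.of p) θ p = 0 := AdjoinRoot.eval₂_root p
      have h6 : algebraMap ℚ L = AdjoinRoot.of p := Subsingleton.elim _ _
      rw [aeval_def, h6]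
      exact h5
    rw [this, zero_mul]
  have hZQ : (Int.castRingHom ℚ) = algebraMap ℤ ℚ := rfl
  have e0 : aeval θ g = 0 := by
    rw [hG, hZQ, aeval_map_algebraMap] at hroot
    exact hroot
  have hsep : G.Separable := (PerfectField.separable_iff_squarefree).mpr h2
  have e1 : aeval θ (derivative g) ≠ 0 := by
    have h4 := hsep.aeval_derivative_ne_zero hroot
    rw [hG, hZQ, derivative_map, aeval_map_algebraMap] at h4
    exact h4
  obtain ⟨x, y, hxy, hpole⟩ := hen_branch d c θ e0 e1
  refine ⟨L, inferInstance, hnf, x, y, 1, ?_, hpole, ?_⟩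
  · rw [hen_eval d f hf]
    exact hxy
  · rw [mul_one, hLd]
    exact hpd

end Pool.Agent.LW
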