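import Pool.Agent.LW.Defs
import Pool.Agent.H20.Gen5

set_option autoImplicit false

namespace Pool.Agent.LW

open Polynomial Finset Pool.Agent.H20

section

variable {R : Type*} [CommRing R]

/-- the substitution `x = X`, `y = t X` -/
noncomputable def Th : R[X][X] →+* R[X][X] :=
  eval₂RingHom (eval₂RingHom ((C : R[X] →+* R[X][X]).comp C) X) (C X * X)

lemma Th_monomial (i j : ℕ) (r : R) :
    Th (monomial j (monomial i r)) = monomial (i + j) (monomial j r) := by
  unfold Th
  rw [coe_eval₂RingHom, eval₂_monomial, coe_eval₂RingHom, eval₂_monomial, mul_pow,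
    RingHom.comp_apply]
  have h1 : (monomial (i + j) (monomial j r) : R[X][X]) = C (C r * X ^ j) * X ^ (i + j) := by
    rw [C_mul_X_pow_eq_monomial, C_mul_X_pow_eq_monomial]
  rw [h1, C_mul, C_pow, pow_add]
  ring

lemma Th_coeff (p : R[X][X]) (n : ℕ) :
    (Th p).coeff n = ∑ j ∈ range (n + 1), monomial j ((p.coeff j).coeff (n - j)) := by
  induction p using Polynomial.induction_on' with
  | add p q hp hq =>
    rw [map_add, coeff_add, hp, hq, ← Finset.sum_add_distrib]
    refine Finset.sum_congr rfl (fun j _ => ?_)
    rw [coeff_add, coeff_add, map_add]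
  | monomial k q =>
    induction q using Polynomial.induction_on' with
    | add p q hp hq =>
      rw [map_add, map_add, coeff_add, hp, hq, ← Finset.sum_add_distrib]
      refine Finset.sum_congr rfl (fun j _ => ?_)
      rw [coeff_add, coeff_add, map_add]
    | monomial i r =>
      rw [Th_monomial, coeff_monomial]
      have h1 : ∀ j ∈ range (n + 1),
          (monomial j ((((monomial k) ((monomial i) r) : R[X][X]).coeff j).coeff (n - j)) : R[X])
          = if j = k then (if i = n - k then monomial k r else 0) else 0 := by
        intro j _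
        rw [coeff_monomial]
        by_cases hjk : k = j
        · subst hjk
          rw [if_pos rfl, if_pos rfl, coeff_monomial]
          split_ifs <;> simp
        · rw [if_neg hjk, if_neg (fun h => hjk h.symm), coeff_zero, map_zero]
      rw [Finset.sum_congr rfl h1, Finset.sum_ite_eq']
      by_cases hk : k ∈ range (n + 1)
      · rw [if_pos hk]
        have := Finset.mem_range.mp hk
        by_cases h2 : i + k = n
        · rw [if_pos h2, if_pos (by omega)]
        · rw [if_neg h2, if_neg (by omega)]
      · rw [if_neg hk, if_neg]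
        intro h2
        exact hk (Finset.mem_range.mpr (by omega))

/-- the coefficient of the leading power of `y` survives -/
lemma Th_coeff_natDegree (p : R[X][X]) (e : ℕ) (q : R) (hq : q ≠ 0) (hp : p.coeff e = C q) :
    ((Th p).coeff e).natDegree = e := by
  rw [Th_coeff]
  refine le_antisymm ?_ ?_
  · refine natDegree_sum_le_of_forall_le _ _ (fun j hj => (natDegree_monomial_le _).trans ?_)
    have := Finset.mem_range.mp hj
    omega
  · refine le_natDegree_of_ne_zero ?_
    rw [finsetSum_coeff, Finset.sum_eq_single e]
    · rw [coeff_monomial, if_pos rfl, hp, Nat.sub_self, coeff_C_zero]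
      exact hq
    · intro j _ hj
      rw [coeff_monomial, if_neg hj]
    · intro h
      exact absurd (Finset.mem_range.mpr (by omega)) h

end

lemma gk_coeff (c : ℕ → ℕ → ℤ) (k j : ℕ) (hj : j ≤ k) : (gk c k).coeff j = c (k - j) j := by
  unfold gk
  rw [finsetSum_coeff, Finset.sum_eq_single j]
  · rw [coeff_monomial, if_pos rfl]
  · intro i _ hi
    rw [coeff_monomial, if_neg hi]
  · intro h
    exact absurd (Finset.mem_range.mpr (by omega)) h

lemma Lead.ne {d : ℕ} (hd : 1 ≤ d) {c : ℕ → ℕ → ℤ} (h : Lead d c) : c 0 d ≠ 0 := by
  have h1 := gk_coeff c d d le_rfl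
  rw [Nat.sub_self] at h1
  rw [← h1]
  intro h2
  have h3 : (gk c d).leadingCoeff = 0 := by
    unfold leadingCoeff
    rw [h.1, h2]
  rw [leadingCoeff_eq_zero] at h3
  have h4 := h.1
  rw [h3, natDegree_zero] at h4
  omega

/-- a polynomial whose leading form is irreducible is irreducible -/
theorem irreducible_of_lead (d : ℕ) (hd : 1 ≤ d) (c : ℕ → ℕ → ℤ) (h : Lead d c) :
    Irreducible ((fP d c).map (mapRingHom (Int.castRingHom ℚ))) := by
  set P := (fP d c).map (mapRingHom (Int.castRingHom ℚ)) with hP
  have hc0 := h.ne hd
  have hPc : ∀ j, P.coeff j = if j < d + 1 then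
      ∑ i ∈ range (d + 1 - j), monomial i ((c i j : ℤ) : ℚ) else 0 := by
    intro j
    rw [hP, coeff_map, fP_coeff]
    split_ifs
    · rw [map_sum]
      refine Finset.sum_congr rfl (fun i _ => ?_)
      rw [coe_mapRingHom, map_monomial]
      rfl
    · rw [map_zero]
  have hPd : P.coeff d = C ((c 0 d : ℤ) : ℚ) := by
    rw [hPc, if_pos (by omega)]
    have : d + 1 - d = 1 := by omega
    rw [this, Finset.sum_range_one]
    rfl
  have hPnd : P.natDegree = d := by
    refine le_antisymm ?_ (le_natDegree_of_ne_zero ?_)
    · rw [natDegree_le_iff_coeff_eq_zero]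
      intro j hj
      rw [hPc, if_neg (by omega)]
    · rw [hPd]
      simpa using hc0
  have hP0 : P ≠ 0 := by
    intro h0
    rw [h0, natDegree_zero] at hPnd
    omega
  -- the leading coefficients of factors are constant
  have hcoe : ∀ j i, ((P.coeff j).coeff i) = if i + j ≤ d then ((c i j : ℤ) : ℚ) else 0 := by
    intro j i
    rw [hPc]
    split_ifs with h1 h2 h2
    · rw [finsetSum_coeff, Finset.sum_eq_single i]
      · rw [coeff_monomial, if_pos rfl]
      · intro k _ hk
        rw [coeff_monomial, if_neg hk]
      · intro h3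
        exact absurd (Finset.mem_range.mpr (by omega)) h3
    · rw [finsetSum_coeff, Finset.sum_eq_zero]
      intro k hk
      have := Finset.mem_range.mp hk
      rw [coeff_monomial, if_neg (by omega)]
    · exact absurd h2 (by omega)
    · simp
  have hTd : (Th P).coeff d = (gk c d).map (Int.castRingHom ℚ) := by
    rw [Th_coeff]
    unfold gk
    rw [Polynomial.map_sum]
    refine Finset.sum_congr rfl (fun j hj => ?_)
    have hj' := Finset.mem_range.mp hj
    rw [map_monomial, hcoe, if_pos (by omega)]
    rfl
  have hTn : (Th P).natDegree ≤ d := by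
    rw [natDegree_le_iff_coeff_eq_zero]
    intro n hn
    rw [Th_coeff]
    refine Finset.sum_eq_zero (fun j hj => ?_)
    have hj' := Finset.mem_range.mp hj
    rw [hcoe, if_neg (by omega), map_zero]
  have hlead : (gk c d).map (Int.castRingHom ℚ) ≠ 0 := h.2.ne_zero
  refine ⟨?_, ?_⟩
  · intro hu
    have h1 := natDegree_eq_zero_of_isUnit hu
    omega
  · intro u v huv
    have hu0 : u ≠ 0 := by
      rintro rfl
      rw [zero_mul] at huv
      exact hP0 huv
    have hv0 : v ≠ 0 := by
      rintro rfl
      rw [mul_zero] at huv
      exact hP0 huv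
    set e := u.natDegree with he
    set e' := v.natDegree with he'
    have hee : e + e' = d := by
      rw [he, he', ← natDegree_mul hu0 hv0, ← huv, hPnd]
    have hlc : u.coeff e * v.coeff e' = C ((c 0 d : ℤ) : ℚ) := by
      rw [← hPd, huv, ← hee]
      exact (coeff_mul_degree_add_degree u v).symm
    have hunit : IsUnit (u.coeff e * v.coeff e') := by
      rw [hlc]
      exact (IsUnit.mk0 _ (by exact_mod_cast hc0)).map C
    obtain ⟨q, hq, hqu⟩ := Polynomial.isUnit_iff.mp (isUnit_of_mul_isUnit_left hunit)
    obtain ⟨q', hq', hqv⟩ := Polynomial.isUnit_iff.mp (isUnit_of_mul_isUnit_right hunit)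
    have h1 := Th_coeff_natDegree u e q hq.ne_zero hqu.symm
    have h2 := Th_coeff_natDegree v e' q' hq'.ne_zero hqv.symm
    have hTu0 : Th u ≠ 0 := by
      intro h0
      have h3 : (Th u).coeff e ≠ 0 := by
        rw [Th_coeff]
        intro h4
        have h5 := congrArg (fun p => p.coeff e) h4
        simp only [finsetSum_coeff, coeff_zero] at h5
        rw [Finset.sum_eq_single e] at h5
        · rw [coeff_monomial, if_pos rfl, ← hqu, Nat.sub_self, coeff_C_zero] at h5
          exact hq.ne_zero h5
        · intro j _ hj
          rw [coeff_monomial, if_neg hj]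
        · intro h
          exact absurd (Finset.mem_range.mpr (by omega)) h
      rw [h0, coeff_zero] at h3
      exact h3 rfl
    have hTv0 : Th v ≠ 0 := by
      intro h0
      have h3 : (Th v).coeff e' ≠ 0 := by
        rw [Th_coeff]
        intro h4
        have h5 := congrArg (fun p => p.coeff e') h4
        simp only [finsetSum_coeff, coeff_zero] at h5
        rw [Finset.sum_eq_single e'] at h5
        · rw [coeff_monomial, if_pos rfl, ← hqv, Nat.sub_self, coeff_C_zero] at h5
          exact hq'.ne_zero h5
        · intro j _ hj
          rw [coeff_monomial, if_neg hj]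
        · intro h
          exact absurd (Finset.mem_range.mpr (by omega)) h
      rw [h0, coeff_zero] at h3
      exact h3 rfl
    have hc1 : (Th u).coeff e ≠ 0 := by
      intro h0
      rw [Th_coeff] at h0
      have h5 := congrArg (fun p => p.coeff e) h0
      simp only [finsetSum_coeff, coeff_zero] at h5
      rw [Finset.sum_eq_single e] at h5
      · rw [coeff_monomial, if_pos rfl, ← hqu, Nat.sub_self, coeff_C_zero] at h5
        exact hq.ne_zero h5
      · intro j _ hj
        rw [coeff_monomial, if_neg hj]
      · intro h
        exact absurd (Finset.mem_range.mpr (by omega)) h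
    have hc2 : (Th v).coeff e' ≠ 0 := by
      intro h0
      rw [Th_coeff] at h0
      have h5 := congrArg (fun p => p.coeff e') h0
      simp only [finsetSum_coeff, coeff_zero] at h5
      rw [Finset.sum_eq_single e'] at h5
      · rw [coeff_monomial, if_pos rfl, ← hqv, Nat.sub_self, coeff_C_zero] at h5
        exact hq'.ne_zero h5
      · intro j _ hj
        rw [coeff_monomial, if_neg hj]
      · intro h
        exact absurd (Finset.mem_range.mpr (by omega)) h
    have hTmul : Th u * Th v = Th P := by rw [huv, map_mul]
    have hsum : (Th u).natDegree + (Th v).natDegree ≤ d := by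
      rw [← natDegree_mul hTu0 hTv0, hTmul]
      exact hTn
    have hle1 : e ≤ (Th u).natDegree := le_natDegree_of_ne_zero hc1
    have hle2 : e' ≤ (Th v).natDegree := le_natDegree_of_ne_zero hc2
    have heq1 : (Th u).natDegree = e := by omega
    have heq2 : (Th v).natDegree = e' := by omega
    have hprod : (Th u).coeff e * (Th v).coeff e' = (gk c d).map (Int.castRingHom ℚ) := by
      rw [← hTd, ← hTmul, ← hee, ← heq1, ← heq2]
      exact (coeff_mul_degree_add_degree _ _).symm
    rcases h.2.isUnit_or_isUnit hprod.symm with hu1 | hv1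
    · left
      have h3 := natDegree_eq_zero_of_isUnit hu1
      rw [h1] at h3
      rw [eq_C_of_natDegree_eq_zero (he.symm.trans h3), ← h3, ← hqu]
      exact (hq.map C).map C
    · right
      have h3 := natDegree_eq_zero_of_isUnit hv1
      rw [h2] at h3
      rw [eq_C_of_natDegree_eq_zero (he'.symm.trans h3), ← h3, ← hqv]
      exact (hq'.map C).map C

end Pool.Agent.LW
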