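import Mathlib

set_option autoImplicit false

namespace Pool.Agent.LW

open Polynomial Finset

/-- the roots of an integer polynomial of height `H` are at most `H ^ 2` -/
lemma root_le (H : ℕ) (hH : 2 ≤ H) (g : ℤ[X]) (hg0 : g ≠ 0) (hg : ∀ n, |g.coeff n| ≤ (H : ℤ))
    (z : ℂ) (hz : aeval z g = 0) : ‖z‖ ≤ (H : ℝ) ^ 2 := by
  have hinj : Function.Injective (Int.castRingHom ℂ) := RingHom.injective_int _
  set G := g.map (Int.castRingHom ℂ) with hG
  have hG0 : G ≠ 0 := (Polynomial.map_ne_zero_iff hinj).mpr hg0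
  have hroot : G.IsRoot z := by
    rw [IsRoot.def, hG, eval_map]
    exact hz
  have h1 := hroot.norm_lt_cauchyBound hG0
  have h2 : G.cauchyBound ≤ (H : NNReal) + 1 := by
    unfold cauchyBound
    have hl : (1 : NNReal) ≤ ‖G.leadingCoeff‖₊ := by
      rw [hG, leadingCoeff_map_of_injective hinj]
      have h3 : (1 : ℤ) ≤ |g.leadingCoeff| := Int.one_le_abs (leadingCoeff_ne_zero.mpr hg0)
      have h4 : ‖(Int.castRingHom ℂ) g.leadingCoeff‖ = |(g.leadingCoeff : ℝ)| := by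
        simp [Complex.norm_intCast]
      rw [← NNReal.coe_le_coe, coe_nnnorm, h4, NNReal.coe_one]
      exact_mod_cast h3
    have hs : (range G.natDegree).sup (fun i => ‖G.coeff i‖₊) ≤ (H : NNReal) := by
      refine Finset.sup_le (fun i _ => ?_)
      rw [← NNReal.coe_le_coe, coe_nnnorm, hG, coeff_map]
      have h4 : ‖(Int.castRingHom ℂ) (g.coeff i)‖ = |(g.coeff i : ℝ)| := by
        simp [Complex.norm_intCast]
      rw [h4, NNReal.coe_natCast]
      exact_mod_cast hg i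
    gcongr
    exact (div_le_self zero_le hl).trans hs
  have h3 : (‖z‖₊ : NNReal) ≤ (H : NNReal) + 1 := h1.le.trans h2
  have h4 : ‖z‖ ≤ (H : ℝ) + 1 := by exact_mod_cast h3
  have h5 : (2 : ℝ) ≤ H := by exact_mod_cast hH
  nlinarith

/-- the value of an integer polynomial of height `H` and degree at most `e` -/
lemma value_le (e H : ℕ) (hH : 2 ≤ H) (p : ℤ[X]) (hpd : p.natDegree ≤ e)
    (hp : ∀ n, |p.coeff n| ≤ (H : ℤ)) (z : ℂ) (hz : ‖z‖ ≤ (H : ℝ) ^ 2) :
    ‖aeval z p‖ ≤ (H : ℝ) ^ (3 * e + 2) := by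
  have h2 : (2 : ℝ) ≤ H := by exact_mod_cast hH
  have h1 : (1 : ℝ) ≤ H := by linarith
  rw [aeval_eq_sum_range' (Nat.lt_succ_of_le hpd)]
  have hb : ∀ i ∈ range (e + 1), ‖p.coeff i • z ^ i‖ ≤ (H : ℝ) ^ (2 * e + 1) := by
    intro i hi
    rw [mem_range] at hi
    rw [zsmul_eq_mul, norm_mul, norm_pow, Complex.norm_intCast]
    have h3 : |(p.coeff i : ℝ)| ≤ H := by exact_mod_cast hp i
    calc |(p.coeff i : ℝ)| * ‖z‖ ^ i ≤ (H : ℝ) * ((H : ℝ) ^ 2) ^ i := by gcongr
      _ = (H : ℝ) ^ (2 * i + 1) := by ring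
      _ ≤ (H : ℝ) ^ (2 * e + 1) := pow_le_pow_right₀ h1 (by omega)
  refine (norm_sum_le_of_le _ hb).trans ?_
  rw [sum_const, card_range, nsmul_eq_mul]
  have h4 : ((e + 1 : ℕ) : ℝ) ≤ (H : ℝ) ^ (e + 1) := by
    have h5 : e + 1 ≤ 2 ^ (e + 1) := Nat.lt_two_pow_self.le
    have h6 : 2 ^ (e + 1) ≤ H ^ (e + 1) := Nat.pow_le_pow_left hH _
    exact_mod_cast h5.trans h6
  calc ((e + 1 : ℕ) : ℝ) * (H : ℝ) ^ (2 * e + 1) ≤ (H : ℝ) ^ (e + 1) * (H : ℝ) ^ (2 * e + 1) := by
        gcongr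
    _ = (H : ℝ) ^ (3 * e + 2) := by ring

lemma multiset_prod_le (B : ℝ) (s : Multiset ℝ) (h : ∀ x ∈ s, 0 ≤ x ∧ x ≤ B) :
    0 ≤ s.prod ∧ s.prod ≤ B ^ Multiset.card s := by
  induction s using Multiset.induction_on with
  | empty => simp
  | cons a s ih =>
    have h1 := ih (fun x hx => h x (Multiset.mem_cons_of_mem hx))
    have h2 := h a (Multiset.mem_cons_self a s)
    rw [Multiset.prod_cons, Multiset.card_cons, pow_succ']
    exact ⟨mul_nonneg h2.1 h1.1, mul_le_mul h2.2 h1.2 h1.1 (h2.1.trans h2.2)⟩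

theorem liouville_lower (d e : ℕ) : ∃ K : ℕ, ∀ H : ℕ, 2 ≤ H → ∀ g p : ℤ[X], g.natDegree = d →
    Irreducible (g.map (Int.castRingHom ℚ)) → (∀ n, |g.coeff n| ≤ (H : ℤ)) → p.natDegree ≤ e →
    (∀ n, |p.coeff n| ≤ (H : ℤ)) → ∀ z : ℂ, aeval z g = 0 → aeval z p ≠ 0 →
      1 ≤ (H : ℝ) ^ K * ‖aeval z p‖ := by
  refine ⟨e + (3 * e + 2) * d, fun H hH g p hgd hirr hg hpd hp z hz hpz => ?_⟩
  have h2 : (2 : ℝ) ≤ H := by exact_mod_cast hH
  have h1 : (1 : ℝ) ≤ H := by linarith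
  have hinj : Function.Injective (Int.castRingHom ℂ) := RingHom.injective_int _
  have hinjQ : Function.Injective (Int.castRingHom ℚ) := RingHom.injective_int _
  have hg0 : g ≠ 0 := by
    rintro rfl
    exact hirr.ne_zero (by simp)
  set G := g.map (Int.castRingHom ℂ) with hG
  set P := p.map (Int.castRingHom ℂ) with hP
  have hPz : ∀ w : ℂ, P.eval w = aeval w p := by
    intro w
    rw [hP, eval_map]
    rfl
  have hGz : ∀ w : ℂ, G.eval w = aeval w g := by
    intro w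
    rw [hG, eval_map]
    rfl
  have hG0 : G ≠ 0 := (Polynomial.map_ne_zero_iff hinj).mpr hg0
  -- the integer resultant is not zero
  have hR : resultant g p ≠ 0 := by
    have hnd : ¬ (g.map (Int.castRingHom ℚ)) ∣ (p.map (Int.castRingHom ℚ)) := by
      rintro ⟨q, hq⟩
      apply hpz
      have hcomp : (algebraMap ℚ ℂ).comp (Int.castRingHom ℚ) = Int.castRingHom ℂ :=
        RingHom.ext_int _ _
      have h3 : ∀ u : ℤ[X], eval₂ (algebraMap ℚ ℂ) z (u.map (Int.castRingHom ℚ)) = aeval z u := by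
        intro u
        rw [eval₂_map, hcomp]
        rfl
      rw [← h3 p, hq, eval₂_mul, h3 g, hz, zero_mul]
    have hco : IsCoprime (g.map (Int.castRingHom ℚ)) (p.map (Int.castRingHom ℚ)) :=
      (Irreducible.coprime_iff_not_dvd hirr).mpr hnd
    have h3 := resultant_ne_zero _ _ hco
    rw [natDegree_map_eq_of_injective hinjQ, natDegree_map_eq_of_injective hinjQ,
      resultant_map_map] at h3
    intro h0
    rw [h0, map_zero] at h3
    exact h3 rfl
  have hRC : ((resultant g p : ℤ) : ℂ) =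
      G.leadingCoeff ^ P.natDegree * (G.roots.map P.eval).prod := by
    rw [← resultant_eq_prod_eval G P P.natDegree le_rfl (IsAlgClosed.splits G)]
    rw [hG, hP, natDegree_map_eq_of_injective hinj, natDegree_map_eq_of_injective hinj,
      resultant_map_map]
    rfl
  have hzr : z ∈ G.roots := by
    rw [mem_roots hG0, IsRoot.def, hGz]
    exact hz
  have h3 : (1 : ℝ) ≤ ‖((resultant g p : ℤ) : ℂ)‖ := by
    rw [Complex.norm_intCast]
    exact_mod_cast Int.one_le_abs hR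
  rw [hRC, norm_mul, norm_pow] at h3
  have h4 : ‖(G.roots.map P.eval).prod‖ ≤ ‖aeval z p‖ * ((H : ℝ) ^ (3 * e + 2)) ^ d := by
    obtain ⟨t, ht⟩ := Multiset.exists_cons_of_mem hzr
    rw [ht, Multiset.map_cons, Multiset.prod_cons, norm_mul, hPz]
    refine mul_le_mul_of_nonneg_left ?_ (norm_nonneg _)
    have h5 : ‖(t.map P.eval).prod‖ = (t.map (fun w => ‖P.eval w‖)).prod := by
      have h9 := map_multiset_prod (normHom : ℂ →*₀ ℝ) (t.map P.eval)
      rw [Multiset.map_map] at h9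
      exact h9
    rw [h5]
    have h6 := multiset_prod_le ((H : ℝ) ^ (3 * e + 2)) (t.map (fun w => ‖P.eval w‖)) ?_
    · refine h6.2.trans ?_
      rw [Multiset.card_map]
      refine pow_le_pow_right₀ (one_le_pow₀ h1) ?_
      have h7 : Multiset.card G.roots ≤ G.natDegree := card_roots' G
      rw [ht, Multiset.card_cons, hG, natDegree_map_eq_of_injective hinj, hgd] at h7
      omega
    · intro x hx
      rw [Multiset.mem_map] at hx
      obtain ⟨w, hw, rfl⟩ := hx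
      refine ⟨norm_nonneg _, ?_⟩
      rw [hPz]
      refine value_le e H hH p hpd hp w (root_le H hH g hg0 hg w ?_)
      have h8 : w ∈ G.roots := by rw [ht]; exact Multiset.mem_cons_of_mem hw
      rw [mem_roots hG0, IsRoot.def, hGz] at h8
      exact h8
  have h5 : ‖G.leadingCoeff‖ ^ P.natDegree ≤ (H : ℝ) ^ e := by
    have h6 : ‖G.leadingCoeff‖ ≤ H := by
      rw [hG, leadingCoeff_map_of_injective hinj]
      have h4 : ‖(Int.castRingHom ℂ) g.leadingCoeff‖ = |(g.leadingCoeff : ℝ)| := by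
        simp [Complex.norm_intCast]
      rw [h4]
      exact_mod_cast hg g.natDegree
    have h7 : P.natDegree ≤ e := by
      rw [hP, natDegree_map_eq_of_injective hinj]
      exact hpd
    calc ‖G.leadingCoeff‖ ^ P.natDegree ≤ (H : ℝ) ^ P.natDegree := by gcongr
      _ ≤ (H : ℝ) ^ e := pow_le_pow_right₀ h1 h7
  calc (1 : ℝ) ≤ ‖G.leadingCoeff‖ ^ P.natDegree * ‖(G.roots.map P.eval).prod‖ := h3
    _ ≤ (H : ℝ) ^ e * (‖aeval z p‖ * ((H : ℝ) ^ (3 * e + 2)) ^ d) := by gcongr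
    _ = (H : ℝ) ^ (e + (3 * e + 2) * d) * ‖aeval z p‖ := by rw [pow_add, pow_mul]; ring

end Pool.Agent.LW
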