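import Pool.Agent.LW.LIOU

set_option autoImplicit false

namespace Pool.Agent.LW

open Polynomial Finset

theorem root_bound (d : ℕ) : ∃ K : ℕ, ∀ H : ℕ, 2 ≤ H → ∀ g : ℤ[X], g.natDegree = d → g ≠ 0 →
    (∀ n, |g.coeff n| ≤ (H : ℤ)) → ∀ z : ℂ, aeval z g = 0 → ‖z‖ ≤ (H : ℝ) ^ K := by
  exact ⟨2, fun H hH g _ hg hgH z hz => root_le H hH g hg hgH z hz⟩

theorem gp_lower (d : ℕ) (hd : 1 ≤ d) : ∃ K : ℕ, ∀ H : ℕ, 2 ≤ H → ∀ g : ℤ[X], g.natDegree = d →
    Irreducible (g.map (Int.castRingHom ℚ)) → (∀ n, |g.coeff n| ≤ (H : ℤ)) →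
    ∀ z : ℂ, aeval z g = 0 → 1 ≤ (H : ℝ) ^ K * ‖aeval z (derivative g)‖ := by
  obtain ⟨K, hK⟩ := liouville_lower d d
  refine ⟨(d + 1) * K, ?_⟩
  intro H hH g hgd hirr hgH z hz
  have hHd : d * H ≤ H ^ (d + 1) := by
    rw [pow_succ]
    refine Nat.mul_le_mul_right _ ?_
    exact (Nat.lt_two_pow_self).le.trans (Nat.pow_le_pow_left hH d)
  have hH1 : H ≤ H ^ (d + 1) := Nat.le_self_pow (by omega) H
  have hne : aeval z (derivative g) ≠ 0 := by
    have hsep : (g.map (Int.castRingHom ℚ)).Separable := hirr.separable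
    have h1 := hsep.aeval_derivative_ne_zero (x := z) (by
      have : (Int.castRingHom ℚ) = algebraMap ℤ ℚ := rfl
      rw [this, aeval_map_algebraMap]
      exact hz)
    have : (Int.castRingHom ℚ) = algebraMap ℤ ℚ := rfl
    rw [this, derivative_map, aeval_map_algebraMap] at h1
    exact h1
  have h2 := hK (H ^ (d + 1)) (hH.trans hH1) g (derivative g) hgd hirr
    (fun n => (hgH n).trans (by exact_mod_cast hH1)) ((natDegree_derivative_le g).trans (by omega))
    (fun n => ?_) z hz hne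
  · rw [pow_mul]
    push_cast at h2
    exact h2
  · rw [coeff_derivative, abs_mul]
    by_cases hn : n + 1 ≤ d
    · calc |g.coeff (n + 1)| * |((n : ℤ) + 1)| ≤ (H : ℤ) * (d : ℤ) := by
            refine mul_le_mul (hgH _) ?_ (abs_nonneg _) (by positivity)
            rw [abs_of_nonneg (by positivity)]
            exact_mod_cast hn
        _ = ((d * H : ℕ) : ℤ) := by push_cast; ring
        _ ≤ _ := by exact_mod_cast hHd
    · rw [coeff_eq_zero_of_natDegree_lt (by omega), abs_zero, zero_mul]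
      positivity

end Pool.Agent.LW
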