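import Pool.Agent.LW.TAY
import Pool.Agent.LW.ROOT
import Pool.Agent.H20.L1

set_option autoImplicit false

namespace Pool.Agent.LW

open Polynomial Finset

theorem par_coeff_bound (d : ℕ) (c : ℕ → ℕ → ℤ) (H : ℕ) (hc : Ht d c H) (l : ℕ) (hl : l ≤ d)
    (n : ℕ) : |(gk c l).coeff n| ≤ (H : ℤ) := by
  rw [gk, finsetSum_coeff]
  simp only [coeff_monomial]
  rw [sum_ite_eq' (range (l + 1)) n]
  split_ifs with h
  · have := mem_range.mp h
    exact hc _ _ (by omega)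
  · simp

theorem par_natDegree_le (c : ℕ → ℕ → ℤ) (l : ℕ) : (gk c l).natDegree ≤ l := by
  rw [gk]
  refine natDegree_sum_le_of_forall_le _ _ fun j hj => ?_
  have := mem_range.mp hj
  exact (natDegree_monomial_le _).trans (by omega)

theorem par_aeval (τ : ℝ) (p : ℤ[X]) : aeval (τ : ℂ) p = ((aeval τ p : ℝ) : ℂ) :=
  aeval_algebraMap_apply ℂ τ p

theorem par_norm_aeval (τ : ℝ) (p : ℤ[X]) : ‖aeval (τ : ℂ) p‖ = |aeval τ p| := by
  rw [par_aeval, Complex.norm_real, Real.norm_eq_abs]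

theorem tau_bound (d : ℕ) (hd : 1 ≤ d) : ∃ K : ℕ, ∀ H : ℕ, 2 ≤ H → ∀ c : ℕ → ℕ → ℤ, Ht d c H →
    Lead d c → ∀ τ : ℝ, aeval τ (gk c d) = 0 →
      |τ| ≤ (H : ℝ) ^ K ∧ |gp d c τ| ≤ (H : ℝ) ^ K ∧ 1 ≤ (H : ℝ) ^ K * |gp d c τ| := by
  obtain ⟨K1, h1⟩ := root_bound d
  obtain ⟨K2, h2⟩ := gp_lower d hd
  refine ⟨K1 + K2 + (d + (d + 1 + K1 * d)), fun H hH c hc hL τ hτ => ?_⟩
  have hH1 : (1 : ℝ) ≤ (H : ℝ) := by
    have : (2 : ℝ) ≤ (H : ℝ) := by exact_mod_cast hH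
    linarith
  have hg0 : gk c d ≠ 0 := by
    intro h0
    have h3 := hL.1
    rw [h0, natDegree_zero] at h3
    omega
  have hz : aeval (τ : ℂ) (gk c d) = 0 := by
    rw [par_aeval, hτ, Complex.ofReal_zero]
  have e1 : |τ| ≤ (H : ℝ) ^ K1 := by
    have h3 := h1 H hH (gk c d) hL.1 hg0 (par_coeff_bound d c H hc d le_rfl) τ hz
    rwa [Complex.norm_real, Real.norm_eq_abs] at h3
  have e2 : 1 ≤ (H : ℝ) ^ K2 * |gp d c τ| := by
    have h3 := h2 H hH (gk c d) hL.1 hL.2 (par_coeff_bound d c H hc d le_rfl) τ hz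
    rwa [par_norm_aeval] at h3
  have e3 : |gp d c τ| ≤ (H : ℝ) ^ (d + (d + 1 + K1 * d)) := by
    have h3 := tay_hasse_bound d K1 H hH c τ hc e1 1 d le_rfl
    rwa [hasseDeriv_one] at h3
  have hm : ∀ m n : ℕ, m ≤ n → (H : ℝ) ^ m ≤ (H : ℝ) ^ n := fun m n h => pow_le_pow_right₀ hH1 h
  refine ⟨e1.trans (hm _ _ (by omega)), e3.trans (hm _ _ (by omega)), e2.trans ?_⟩
  exact mul_le_mul_of_nonneg_right (hm _ _ (by omega)) (abs_nonneg _)

private theorem div_le_aux {x y A B : ℝ} (hx : |x| ≤ A) (hy : 1 ≤ B * |y|) (hB : 0 ≤ B)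
    (hA : 0 ≤ A) : |x / y| ≤ A * B := by
  have hy0 : 0 < |y| := by
    rcases (abs_nonneg y).eq_or_lt with h | h
    · rw [← h, mul_zero] at hy
      linarith
    · exact h
  rw [abs_div, div_le_iff₀ hy0]
  calc |x| ≤ A * 1 := by linarith
    _ ≤ A * (B * |y|) := mul_le_mul_of_nonneg_left hy hA
    _ = A * B * |y| := by ring

theorem bet_bound (d : ℕ) (hd : 2 ≤ d) : ∃ K : ℕ, ∀ H : ℕ, 2 ≤ H → ∀ c : ℕ → ℕ → ℤ, Ht d c H →
    Lead d c → ∀ τ : ℝ, aeval τ (gk c d) = 0 → ∀ s : ℕ,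
      |bet0 d c τ| ≤ (H : ℝ) ^ K ∧ |bet1 d c τ s| ≤ (H : ℝ) ^ K ∧ |A1 d c τ| ≤ (H : ℝ) ^ K ∧
        |bet2 d c τ s| ≤ (H : ℝ) ^ K := by
  obtain ⟨K0, h0⟩ := tau_bound d (by omega)
  set L : ℕ := K0 + (d + (d + 1 + K0 * d)) with hLdef
  obtain ⟨L', h1⟩ := AA_bound d (2 * L)
  refine ⟨5 * L + 3 + L', fun H hH c hc hL τ hτ s => ?_⟩
  have hH2 : (2 : ℝ) ≤ (H : ℝ) := by exact_mod_cast hH
  have hH1 : (1 : ℝ) ≤ (H : ℝ) := by linarith
  have hm : ∀ m n : ℕ, m ≤ n → (H : ℝ) ^ m ≤ (H : ℝ) ^ n := fun m n h => pow_le_pow_right₀ hH1 h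
  have hp0 : ∀ n : ℕ, 0 ≤ (H : ℝ) ^ n := fun n => by positivity
  obtain ⟨t1, -, t3⟩ := h0 H hH c hc hL τ hτ
  have hgp : 1 ≤ (H : ℝ) ^ L * |gp d c τ| :=
    t3.trans (mul_le_mul_of_nonneg_right (hm _ _ (by omega)) (abs_nonneg _))
  have hh : ∀ m, ∀ l ≤ d, |aeval τ (hasseDeriv m (gk c l))| ≤ (H : ℝ) ^ L := fun m l hl =>
    (tay_hasse_bound d K0 H hH c τ hc t1 m l hl).trans (hm _ _ (by omega))
  have hb0 : |bet0 d c τ| ≤ (H : ℝ) ^ (2 * L) := by
    have h2 := hh 0 (d - 1) (by omega)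
    rw [hasseDeriv_zero, LinearMap.id_apply] at h2
    rw [bet0]
    refine (div_le_aux (by rwa [abs_neg]) hgp (hp0 L) (hp0 L)).trans_eq ?_
    rw [← pow_add]
    congr 1
    omega
  have haa : ∀ r ≤ d, |aa d c τ r| ≤ (H : ℝ) ^ L' := fun r hr =>
    h1 H hH c τ (bet0 d c τ) hc (t1.trans (hm _ _ (by omega))) hb0 r hr
  have hb1 : |bet1 d c τ s| ≤ (H : ℝ) ^ (L' + L) := by
    rw [bet1]
    refine (div_le_aux (A := (H : ℝ) ^ L') (by rw [abs_neg]; exact haa _ (by omega)) hgp (hp0 L)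
      (hp0 _)).trans_eq ?_
    rw [← pow_add]
  have hA1 : |A1 d c τ| ≤ (H : ℝ) ^ (3 * L + 2) := by
    have h2 := hh 1 (d - 1) (by omega)
    rw [hasseDeriv_one] at h2
    have h3 := hh 2 d le_rfl
    rw [A1]
    have h4 : |2 * aeval τ (hasseDeriv 2 (gk c d)) * bet0 d c τ| ≤
        2 * (H : ℝ) ^ (3 * L) := by
      rw [abs_mul, abs_mul, abs_two]
      calc 2 * |aeval τ (hasseDeriv 2 (gk c d))| * |bet0 d c τ|
          ≤ 2 * (H : ℝ) ^ L * (H : ℝ) ^ (2 * L) :=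
            mul_le_mul (mul_le_mul_of_nonneg_left h3 (by norm_num)) hb0 (abs_nonneg _)
              (mul_nonneg (by norm_num) (hp0 _))
        _ = 2 * (H : ℝ) ^ (3 * L) := by
            rw [mul_assoc, ← pow_add]
            congr 2
            omega
    have h5 : (3 : ℝ) ≤ (H : ℝ) ^ 2 := by nlinarith
    calc |aeval τ (derivative (gk c (d - 1))) + 2 * aeval τ (hasseDeriv 2 (gk c d)) * bet0 d c τ|
        ≤ (H : ℝ) ^ L + 2 * (H : ℝ) ^ (3 * L) := (abs_add_le _ _).trans (add_le_add h2 h4)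
      _ ≤ (H : ℝ) ^ (3 * L) + 2 * (H : ℝ) ^ (3 * L) := by
          have := hm L (3 * L) (by omega)
          linarith
      _ = (H : ℝ) ^ (3 * L) * 3 := by ring
      _ ≤ (H : ℝ) ^ (3 * L) * (H : ℝ) ^ 2 := mul_le_mul_of_nonneg_left h5 (hp0 _)
      _ = (H : ℝ) ^ (3 * L + 2) := by rw [← pow_add]
  have hb2 : |bet2 d c τ s| ≤ (H : ℝ) ^ (5 * L + 3 + L') := by
    rw [bet2]
    have h6 : |-(aa d c τ (d - 2 - s) + A1 d c τ * bet1 d c τ s)| ≤
        (H : ℝ) ^ (4 * L + 3 + L') := by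
      rw [abs_neg]
      have h7 : |A1 d c τ * bet1 d c τ s| ≤ (H : ℝ) ^ (4 * L + 2 + L') := by
        rw [abs_mul]
        refine (mul_le_mul hA1 hb1 (abs_nonneg _) (hp0 _)).trans_eq ?_
        rw [← pow_add]
        congr 1
        omega
      calc |aa d c τ (d - 2 - s) + A1 d c τ * bet1 d c τ s|
          ≤ (H : ℝ) ^ L' + (H : ℝ) ^ (4 * L + 2 + L') :=
            (abs_add_le _ _).trans (add_le_add (haa _ (by omega)) h7)
        _ ≤ (H : ℝ) ^ (4 * L + 2 + L') * 2 := by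
            have := hm L' (4 * L + 2 + L') (by omega)
            linarith
        _ ≤ (H : ℝ) ^ (4 * L + 2 + L') * (H : ℝ) ^ 1 := by
            rw [pow_one]
            exact mul_le_mul_of_nonneg_left hH2 (hp0 _)
        _ = (H : ℝ) ^ (4 * L + 3 + L') := by
            rw [← pow_add]
            congr 1
            omega
    refine (div_le_aux h6 hgp (hp0 L) (hp0 _)).trans_eq ?_
    rw [← pow_add]
    congr 1
    omega
  exact ⟨hb0.trans (hm _ _ (by omega)), hb1.trans (hm _ _ (by omega)),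
    hA1.trans (hm _ _ (by omega)), hb2⟩

private theorem l1_hasse (d : ℕ) (c : ℕ → ℕ → ℤ) (H : ℕ) (hH : 2 ≤ H) (hc : Ht d c H) (m l : ℕ)
    (hl : l ≤ d) : H20.nrmInt.l1 (hasseDeriv m (gk c l)) ≤ (H : ℝ) ^ (d + (d + 1)) := by
  rw [gk, map_sum]
  refine (H20.nrmInt.l1_sum_le' _ _).trans ?_
  have h1 : ∀ j ∈ range (l + 1),
      H20.nrmInt.l1 (hasseDeriv m (monomial j (c (l - j) j))) ≤ (H : ℝ) ^ (d + 1) := by
    intro j hj
    have hj' : j ≤ d := by
      have := mem_range.mp hj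
      omega
    rw [hasseDeriv_monomial, H20.Nrm.l1_monomial]
    change |(((j.choose m : ℤ) * c (l - j) j : ℤ) : ℝ)| ≤ _
    push_cast
    have e1 : |((j.choose m : ℕ) : ℝ)| ≤ (H : ℝ) ^ d := by
      rw [abs_of_nonneg (Nat.cast_nonneg _)]
      have e2 : j.choose m ≤ H ^ d := by
        calc j.choose m ≤ 2 ^ j := Nat.choose_le_two_pow _ _
          _ ≤ 2 ^ d := Nat.pow_le_pow_right (by norm_num) hj'
          _ ≤ H ^ d := Nat.pow_le_pow_left hH d
      exact_mod_cast e2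
    have e3 : |(c (l - j) j : ℝ)| ≤ (H : ℝ) ^ 1 := by
      have e4 := hc (l - j) j (by have := mem_range.mp hj; omega)
      rw [pow_one]
      exact_mod_cast e4
    rw [abs_mul, pow_add]
    exact mul_le_mul e1 e3 (abs_nonneg _) (by positivity)
  calc ∑ j ∈ range (l + 1), H20.nrmInt.l1 (hasseDeriv m (monomial j (c (l - j) j)))
      ≤ ∑ _j ∈ range (l + 1), (H : ℝ) ^ (d + 1) := sum_le_sum h1
    _ = ((l : ℝ) + 1) * (H : ℝ) ^ (d + 1) := by
        rw [sum_const, card_range, nsmul_eq_mul]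
        push_cast
        ring
    _ ≤ (H : ℝ) ^ d * (H : ℝ) ^ (d + 1) := by
        refine mul_le_mul_of_nonneg_right ?_ (by positivity)
        have e6 : (l : ℝ) ≤ d := by exact_mod_cast hl
        linarith [tay_succ_le_pow d H hH]
    _ = (H : ℝ) ^ (d + (d + 1)) := by rw [← pow_add]

theorem aa_lower (d : ℕ) (hd : 1 ≤ d) : ∃ K : ℕ, ∀ H : ℕ, 2 ≤ H → ∀ c : ℕ → ℕ → ℤ, Ht d c H →
    Lead d c → ∀ τ : ℝ, aeval τ (gk c d) = 0 → ∀ r ≤ d, aa d c τ r ≠ 0 →
      1 ≤ (H : ℝ) ^ K * |aa d c τ r| := by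
  obtain ⟨K0, h0⟩ := tau_bound d hd
  obtain ⟨K1, h1⟩ := liouville_lower d (d + d * d)
  set B : ℕ := d + (d + 1) with hB
  set C : ℕ := d + B * (d + 1) with hC
  refine ⟨C * K1 + K0 * d, fun H hH c hc hL τ hτ r hr haa => ?_⟩
  have hH2 : (2 : ℝ) ≤ (H : ℝ) := by exact_mod_cast hH
  have hH1 : (1 : ℝ) ≤ (H : ℝ) := by linarith
  have hp0 : ∀ n : ℕ, 0 ≤ (H : ℝ) ^ n := fun n => by positivity
  obtain ⟨-, t2, t3⟩ := h0 H hH c hc hL τ hτ
  have hgp0 : gp d c τ ≠ 0 := by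
    intro h
    rw [h, abs_zero, mul_zero] at t3
    linarith
  set P : ℤ[X] := ∑ m ∈ range (d - r + 1), hasseDeriv m (gk c (r + m)) * (-(gk c (d - 1))) ^ m *
    (derivative (gk c d)) ^ (d - m) with hP
  have hPe : aeval τ P = gp d c τ ^ d * aa d c τ r := by
    rw [hP, map_sum, aa, AA, mul_sum]
    refine sum_congr rfl fun m hm => ?_
    have hm' : m ≤ d := by
      have := mem_range.mp hm
      omega
    rw [map_mul, map_mul, map_pow, map_pow, map_neg]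
    have e1 : gp d c τ ^ d = gp d c τ ^ m * gp d c τ ^ (d - m) := by
      rw [← pow_add]
      congr 1
      omega
    have e2 : -(aeval τ (gk c (d - 1))) = gp d c τ * bet0 d c τ := by
      rw [bet0]
      field_simp
    rw [e1, e2, mul_pow]
    change aeval τ (hasseDeriv m (gk c (r + m))) * (gp d c τ ^ m * bet0 d c τ ^ m) *
      gp d c τ ^ (d - m) = _
    ring
  have hPdeg : P.natDegree ≤ d + d * d := by
    rw [hP]
    refine natDegree_sum_le_of_forall_le _ _ fun m hm => ?_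
    have hm' : r + m ≤ d := by
      have := mem_range.mp hm
      omega
    have e1 : (hasseDeriv m (gk c (r + m))).natDegree ≤ d :=
      (natDegree_hasseDeriv_le _ _).trans ((Nat.sub_le _ _).trans
        ((par_natDegree_le c _).trans hm'))
    have e2 : ((-(gk c (d - 1))) ^ m).natDegree ≤ m * d := by
      refine natDegree_pow_le.trans (Nat.mul_le_mul_left m ?_)
      rw [natDegree_neg]
      exact (par_natDegree_le c _).trans (Nat.sub_le _ _)
    have e3 : ((derivative (gk c d)) ^ (d - m)).natDegree ≤ (d - m) * d := by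
      refine natDegree_pow_le.trans (Nat.mul_le_mul_left _ ?_)
      exact (natDegree_derivative_le _).trans ((Nat.sub_le _ _).trans (par_natDegree_le c d))
    have e4 : m * d + (d - m) * d = d * d := by
      rw [← add_mul]
      congr 1
      omega
    refine natDegree_mul_le.trans ?_
    have e5 := natDegree_mul_le (p := hasseDeriv m (gk c (r + m))) (q := (-(gk c (d - 1))) ^ m)
    omega
  have hPl1 : H20.nrmInt.l1 P ≤ (H : ℝ) ^ C := by
    rw [hP]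
    refine (H20.nrmInt.l1_sum_le' _ _).trans ?_
    have e0 : ∀ m ∈ range (d - r + 1), H20.nrmInt.l1 (hasseDeriv m (gk c (r + m)) *
        (-(gk c (d - 1))) ^ m * (derivative (gk c d)) ^ (d - m)) ≤ (H : ℝ) ^ (B * (d + 1)) := by
      intro m hm
      have hm' : r + m ≤ d := by
        have := mem_range.mp hm
        omega
      have e1 : H20.nrmInt.poly.v (hasseDeriv m (gk c (r + m))) ≤ (H : ℝ) ^ B :=
        l1_hasse d c H hH hc m _ hm'
      have e2 : H20.nrmInt.poly.v ((-(gk c (d - 1))) ^ m) ≤ ((H : ℝ) ^ B) ^ m := by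
        refine (H20.nrmInt.poly.pow_le _ _).trans (pow_le_pow_left₀ (H20.nrmInt.poly.nonneg _) ?_ _)
        rw [H20.nrmInt.poly.neg]
        have := l1_hasse d c H hH hc 0 (d - 1) (by omega)
        rwa [hasseDeriv_zero, LinearMap.id_apply] at this
      have e3 : H20.nrmInt.poly.v ((derivative (gk c d)) ^ (d - m)) ≤ ((H : ℝ) ^ B) ^ (d - m) := by
        refine (H20.nrmInt.poly.pow_le _ _).trans (pow_le_pow_left₀ (H20.nrmInt.poly.nonneg _) ?_ _)
        have := l1_hasse d c H hH hc 1 d le_rfl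
        rwa [hasseDeriv_one] at this
      have e4 : H20.nrmInt.poly.v (hasseDeriv m (gk c (r + m)) * (-(gk c (d - 1))) ^ m *
          (derivative (gk c d)) ^ (d - m)) ≤
          (H : ℝ) ^ B * ((H : ℝ) ^ B) ^ m * ((H : ℝ) ^ B) ^ (d - m) := by
        refine (H20.nrmInt.poly.mul_le _ _).trans (mul_le_mul ?_ e3
          (H20.nrmInt.poly.nonneg _) (by positivity))
        exact (H20.nrmInt.poly.mul_le _ _).trans (mul_le_mul e1 e2
          (H20.nrmInt.poly.nonneg _) (by positivity))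
      refine (show H20.nrmInt.l1 _ ≤ _ from e4).trans_eq ?_
      rw [← pow_succ', ← pow_add, ← pow_mul]
      congr 2
      omega
    calc ∑ m ∈ range (d - r + 1), H20.nrmInt.l1 (hasseDeriv m (gk c (r + m)) *
        (-(gk c (d - 1))) ^ m * (derivative (gk c d)) ^ (d - m))
        ≤ ∑ _m ∈ range (d - r + 1), (H : ℝ) ^ (B * (d + 1)) := sum_le_sum e0
      _ = (((d - r : ℕ) : ℝ) + 1) * (H : ℝ) ^ (B * (d + 1)) := by
          rw [sum_const, card_range, nsmul_eq_mul]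
          push_cast
          ring
      _ ≤ (H : ℝ) ^ d * (H : ℝ) ^ (B * (d + 1)) := by
          refine mul_le_mul_of_nonneg_right ?_ (by positivity)
          have e6 : ((d - r : ℕ) : ℝ) ≤ d := by exact_mod_cast Nat.sub_le d r
          linarith [tay_succ_le_pow d H hH]
      _ = (H : ℝ) ^ C := by rw [← pow_add]
  have hPc : ∀ n, |P.coeff n| ≤ ((H ^ C : ℕ) : ℤ) := by
    intro n
    have e1 : |((P.coeff n : ℤ) : ℝ)| ≤ (H : ℝ) ^ C := (H20.nrmInt.coeff_le P n).trans hPl1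
    exact_mod_cast e1
  have hC1 : 1 ≤ C := by
    rw [hC, hB]
    omega
  have hHC : H ≤ H ^ C := Nat.le_self_pow (by omega) H
  have hgc : ∀ n, |(gk c d).coeff n| ≤ ((H ^ C : ℕ) : ℤ) := fun n =>
    (par_coeff_bound d c H hc d le_rfl n).trans (by exact_mod_cast hHC)
  have hz : aeval (τ : ℂ) (gk c d) = 0 := by
    rw [par_aeval, hτ, Complex.ofReal_zero]
  have hPz : aeval (τ : ℂ) P ≠ 0 := by
    rw [par_aeval, hPe]
    exact_mod_cast mul_ne_zero (pow_ne_zero _ hgp0) haa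
  have h2 := h1 (H ^ C) (hH.trans hHC) (gk c d) P hL.1 hL.2 hgc hPdeg hPc τ hz hPz
  rw [par_norm_aeval, hPe, abs_mul, abs_pow] at h2
  push_cast at h2
  calc (1 : ℝ) ≤ ((H : ℝ) ^ C) ^ K1 * (|gp d c τ| ^ d * |aa d c τ r|) := h2
    _ ≤ ((H : ℝ) ^ C) ^ K1 * (((H : ℝ) ^ K0) ^ d * |aa d c τ r|) := by
        refine mul_le_mul_of_nonneg_left ?_ (by positivity)
        exact mul_le_mul_of_nonneg_right (pow_le_pow_left₀ (abs_nonneg _) t2 _) (abs_nonneg _)
    _ = (H : ℝ) ^ (C * K1 + K0 * d) * |aa d c τ r| := by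
        rw [← pow_mul, ← pow_mul, pow_add]
        ring

theorem bet1_lower (d : ℕ) (hd : 1 ≤ d) : ∃ K : ℕ, ∀ H : ℕ, 2 ≤ H → ∀ c : ℕ → ℕ → ℤ, Ht d c H →
    Lead d c → ∀ τ : ℝ, aeval τ (gk c d) = 0 → ∀ s < d, Lev d c τ s →
      1 ≤ (H : ℝ) ^ K * |bet1 d c τ s| := by
  obtain ⟨K0, h0⟩ := tau_bound d hd
  obtain ⟨K1, h1⟩ := aa_lower d hd
  refine ⟨K1 + K0, fun H hH c hc hL τ hτ s hs hlev => ?_⟩
  obtain ⟨-, t2, t3⟩ := h0 H hH c hc hL τ hτ
  have hgp0 : gp d c τ ≠ 0 := by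
    intro h
    rw [h, abs_zero, mul_zero] at t3
    linarith
  have h2 := h1 H hH c hc hL τ hτ (d - 1 - s) (by omega) (hlev.2.2.2 hs)
  have h3 : |aa d c τ (d - 1 - s)| = |gp d c τ| * |bet1 d c τ s| := by
    rw [bet1, abs_div, abs_neg]
    field_simp
  calc (1 : ℝ) ≤ (H : ℝ) ^ K1 * |aa d c τ (d - 1 - s)| := h2
    _ = (H : ℝ) ^ K1 * (|gp d c τ| * |bet1 d c τ s|) := by rw [h3]
    _ ≤ (H : ℝ) ^ K1 * ((H : ℝ) ^ K0 * |bet1 d c τ s|) := by
        refine mul_le_mul_of_nonneg_left ?_ (by positivity)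
        exact mul_le_mul_of_nonneg_right t2 (abs_nonneg _)
    _ = (H : ℝ) ^ (K1 + K0) * |bet1 d c τ s| := by
        rw [pow_add]
        ring

end Pool.Agent.LW
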