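import Pool.Agent.LW.TAY
import Pool.Agent.LW.ARR
import Pool.Agent.LW.DET
import Pool.Agent.LW.PAR
import Pool.Agent.LW.HEN

set_option autoImplicit false

namespace Pool.Agent.LW

open Polynomial Finset

/-- the coefficient of `x ^ r` in `f (x, t x + η)` -/
noncomputable def AK {K : Type*} [CommRing K] (d : ℕ) (c : ℕ → ℕ → ℤ) (t : K) (r : ℕ) (η : K) : K :=
  ∑ m ∈ range (d - r + 1), aeval t (hasseDeriv m (gk c (r + m))) * η ^ m

lemma lvl_hasse {K : Type*} [CommRing K] (c : ℕ → ℕ → ℤ) (k m : ℕ) (t : K) :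
    aeval t (hasseDeriv m (gk c k)) =
      ∑ j ∈ range (k + 1), ((j.choose m : ℕ) : K) * (c (k - j) j : K) * t ^ (j - m) := by
  rw [gk, map_sum, map_sum]
  refine sum_congr rfl fun j _ => ?_
  rw [hasseDeriv_monomial, aeval_monomial]
  simp

lemma lvl_mono {K : Type*} [CommRing K] (t a η : K) (k j : ℕ) (hj : j ≤ k) :
    a ^ (k - j) * (t * a + η) ^ j =
      ∑ m ∈ range (k + 1), ((j.choose m : ℕ) : K) * t ^ (j - m) * η ^ m * a ^ (k - m) := by
  have h1 : ∑ m ∈ range (k + 1), ((j.choose m : ℕ) : K) * t ^ (j - m) * η ^ m * a ^ (k - m) =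
      ∑ m ∈ range (j + 1), ((j.choose m : ℕ) : K) * t ^ (j - m) * η ^ m * a ^ (k - m) := by
    symm
    refine sum_subset (range_subset_range.mpr (by omega)) fun m _ hm => ?_
    have h2 : j < m := by
      by_contra hcon
      exact hm (mem_range.mpr (by omega))
    rw [Nat.choose_eq_zero_of_lt h2]
    simp
  rw [h1, add_comm (t * a) η, add_pow, mul_sum]
  refine sum_congr rfl fun m hm => ?_
  have h2 : m ≤ j := by
    have := mem_range.mp hm
    omega
  have h3 : a ^ (k - m) = a ^ (k - j) * a ^ (j - m) := by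
    rw [← pow_add]
    congr 1
    omega
  rw [h3, mul_pow]
  ring

lemma lvl_part {K : Type*} [CommRing K] (c : ℕ → ℕ → ℤ) (k : ℕ) (t a η : K) :
    ∑ j ∈ range (k + 1), (c (k - j) j : K) * a ^ (k - j) * (t * a + η) ^ j =
      ∑ m ∈ range (k + 1), aeval t (hasseDeriv m (gk c k)) * η ^ m * a ^ (k - m) := by
  have h1 : ∀ m ∈ range (k + 1), aeval t (hasseDeriv m (gk c k)) * η ^ m * a ^ (k - m) =
      ∑ j ∈ range (k + 1), (c (k - j) j : K) *
        (((j.choose m : ℕ) : K) * t ^ (j - m) * η ^ m * a ^ (k - m)) := by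
    intro m _
    rw [lvl_hasse, sum_mul, sum_mul]
    refine sum_congr rfl fun j _ => ?_
    ring
  rw [sum_congr rfl h1, sum_comm]
  refine sum_congr rfl fun j hj => ?_
  rw [← mul_sum, ← lvl_mono t a η k j (by have := mem_range.mp hj; omega)]
  ring

lemma lvl_taylor {K : Type*} [CommRing K] (d : ℕ) (c : ℕ → ℕ → ℤ) (t a η : K) :
    ∑ k ∈ range (d + 1), ∑ j ∈ range (k + 1), (c (k - j) j : K) * a ^ (k - j) * (t * a + η) ^ j =
      ∑ r ∈ range (d + 1), AK d c t r η * a ^ r := by
  have h1 : ∑ k ∈ range (d + 1), ∑ j ∈ range (k + 1),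
      (c (k - j) j : K) * a ^ (k - j) * (t * a + η) ^ j =
      ∑ k ∈ range (d + 1), ∑ m ∈ range (k + 1),
        aeval t (hasseDeriv m (gk c k)) * η ^ m * a ^ (k - m) :=
    sum_congr rfl fun k _ => lvl_part c k t a η
  rw [h1]
  have h2 : ∀ r ∈ range (d + 1), AK d c t r η * a ^ r =
      ∑ m ∈ range (d - r + 1), aeval t (hasseDeriv m (gk c (r + m))) * η ^ m * a ^ r := by
    intro r _
    rw [AK, sum_mul]
  rw [sum_congr rfl h2, sum_sigma', sum_sigma']
  refine sum_nbij' (fun x => (⟨x.1 - x.2, x.2⟩ : (_ : ℕ) × ℕ))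
    (fun x => (⟨x.1 + x.2, x.2⟩ : (_ : ℕ) × ℕ)) ?_ ?_ ?_ ?_ ?_
  · rintro ⟨k, m⟩ h
    simp only [mem_sigma, mem_range] at h ⊢
    omega
  · rintro ⟨r, m⟩ h
    simp only [mem_sigma, mem_range] at h ⊢
    omega
  · rintro ⟨k, m⟩ h
    simp only [mem_sigma, mem_range] at h
    simp only [Sigma.mk.injEq, heq_eq_eq, and_true]
    omega
  · rintro ⟨r, m⟩ h
    simp only [mem_sigma, mem_range] at h
    simp only [Sigma.mk.injEq, heq_eq_eq, and_true]
    omega
  · rintro ⟨k, m⟩ h
    simp only [mem_sigma, mem_range] at h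
    have h3 : k - m + m = k := by omega
    simp only [h3]

/-- a polynomial whose value at a zero `t` of the leading form decides `AK d c t r β = 0` -/
noncomputable def lvlP (d : ℕ) (c : ℕ → ℕ → ℤ) (r : ℕ) : ℤ[X] :=
  ∑ m ∈ range (d - r + 1), hasseDeriv m (gk c (r + m)) * (-(gk c (d - 1))) ^ m *
    (derivative (gk c d)) ^ (d - r - m)

lemma lvl_P_eval {K : Type*} [Field K] (d : ℕ) (c : ℕ → ℕ → ℤ) (r : ℕ) (t : K)
    (h : aeval t (derivative (gk c d)) ≠ 0) :
    aeval t (lvlP d c r) = (aeval t (derivative (gk c d))) ^ (d - r) *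
      AK d c t r (-(aeval t (gk c (d - 1))) / aeval t (derivative (gk c d))) := by
  unfold lvlP AK
  rw [map_sum, mul_sum]
  refine sum_congr rfl fun m hm => ?_
  rw [mem_range] at hm
  rw [map_mul, map_mul, map_pow, map_pow, map_neg, div_pow]
  obtain ⟨u, hu⟩ : ∃ u, d - r = u + m := ⟨d - r - m, by omega⟩
  rw [hu, Nat.add_sub_cancel, pow_add]
  field_simp

lemma lvl_map_eval {K : Type*} [Field K] [CharZero K] (p : ℤ[X]) (t : K) :
    aeval t (p.map (Int.castRingHom ℚ)) = aeval t p := by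
  rw [← algebraMap_int_eq, aeval_map_algebraMap]

/-- vanishing at one zero of an irreducible polynomial implies vanishing at all of them -/
lemma lvl_transfer (g p : ℤ[X]) (hg : Irreducible (g.map (Int.castRingHom ℚ))) (τ : ℝ)
    (hτ : aeval τ g = 0) (hp : aeval τ p = 0) (t : ℂ) (ht : aeval t g = 0) : aeval t p = 0 := by
  by_cases hdvd : g.map (Int.castRingHom ℚ) ∣ p.map (Int.castRingHom ℚ)
  · obtain ⟨q, hq⟩ := hdvd
    rw [← lvl_map_eval, hq, map_mul, lvl_map_eval, ht, zero_mul]
  · exfalso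
    obtain ⟨u, v, huv⟩ := (hg.coprime_iff_not_dvd).2 hdvd
    have h1 := congrArg (aeval τ) huv
    rw [map_add, map_mul, map_mul, lvl_map_eval, lvl_map_eval, hτ, hp, mul_zero, mul_zero,
      add_zero, map_one] at h1
    exact zero_ne_one h1

/-- the top coefficient of the restriction to a line -/
noncomputable def lvlQ (G : MvPolynomial (Fin 2) ℂ) (D : ℕ) : ℂ[X] :=
  ∑ m ∈ G.support.filter (fun m => m 0 + m 1 = D), monomial (m 1) (G.coeff m)

lemma lvl_line_coeff (t β : ℂ) (u v D : ℕ) (h : u + v ≤ D) :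
    ((X : ℂ[X]) ^ u * (C t * X + C β) ^ v).coeff D = if u + v = D then t ^ v else 0 := by
  have hdeg : (C t * X + C β : ℂ[X]).natDegree ≤ 1 := natDegree_linear_le
  rw [coeff_X_pow_mul', if_pos (by omega)]
  split_ifs with h1
  · have h2 : D - u = v * 1 := by omega
    rw [h2, coeff_pow_of_natDegree_le hdeg]
    congr 1
    simp
  · refine coeff_eq_zero_of_natDegree_lt ?_
    refine lt_of_le_of_lt (natDegree_pow_le_of_le v hdeg) ?_
    omega

lemma lvl_aeval_sum (G : MvPolynomial (Fin 2) ℂ) (u v : ℂ[X]) :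
    MvPolynomial.aeval ![u, v] G = ∑ m ∈ G.support, C (G.coeff m) * (u ^ m 0 * v ^ m 1) := by
  rw [MvPolynomial.aeval_def, MvPolynomial.eval₂_eq']
  refine sum_congr rfl fun m _ => ?_
  rw [Fin.prod_univ_two]
  rfl

lemma lvl_deg {G : MvPolynomial (Fin 2) ℂ} {D : ℕ} (hG : G.totalDegree ≤ D) (m : Fin 2 →₀ ℕ)
    (hm : m ∈ G.support) : m 0 + m 1 ≤ D := by
  have h1 := MvPolynomial.le_totalDegree hm
  have h2 : (m.sum fun _ e => e) = m 0 + m 1 := by
    rw [Finsupp.sum_fintype _ _ (by simp), Fin.sum_univ_two]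
  omega

lemma lvl_top {G : MvPolynomial (Fin 2) ℂ} {D : ℕ} (hG : G.totalDegree ≤ D) (t β : ℂ) :
    (MvPolynomial.aeval ![(X : ℂ[X]), C t * X + C β] G).coeff D = (lvlQ G D).eval t := by
  rw [lvl_aeval_sum, finsetSum_coeff, lvlQ, eval_finsetSum, sum_filter]
  refine sum_congr rfl fun m hm => ?_
  rw [coeff_C_mul, lvl_line_coeff t β (m 0) (m 1) D (lvl_deg hG m hm)]
  split_ifs with h
  · rw [eval_monomial]
  · rw [mul_zero]

lemma lvl_eq_of (m m' : Fin 2 →₀ ℕ) (h : m 0 + m 1 = m' 0 + m' 1) (h1 : m 1 = m' 1) : m = m' := by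
  ext i
  fin_cases i
  · simp only [Fin.zero_eta]
    omega
  · exact h1

lemma lvl_Q_coeff (G : MvPolynomial (Fin 2) ℂ) (D : ℕ) (m : Fin 2 →₀ ℕ) (hm : m 0 + m 1 = D) :
    (lvlQ G D).coeff (m 1) = G.coeff m := by
  classical
  rw [lvlQ, finsetSum_coeff]
  simp only [coeff_monomial]
  by_cases hs : m ∈ G.support
  · rw [sum_eq_single m]
    · rw [if_pos rfl]
    · intro m' hm' hne
      rw [mem_filter] at hm'
      rw [if_neg]
      intro h1
      exact hne (lvl_eq_of m' m (by omega) h1)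
    · intro h1
      exact absurd (mem_filter.2 ⟨hs, hm⟩) h1
  · rw [MvPolynomial.notMem_support_iff.1 hs]
    refine sum_eq_zero fun m' hm' => ?_
    rw [mem_filter] at hm'
    rw [if_neg]
    intro h1
    have h2 : m' = m := lvl_eq_of m' m (by omega) h1
    rw [h2] at hm'
    exact hs hm'.1

lemma lvl_Q_natDegree (G : MvPolynomial (Fin 2) ℂ) (D : ℕ) : (lvlQ G D).natDegree ≤ D := by
  rw [lvlQ]
  refine natDegree_sum_le_of_forall_le _ _ fun m hm => ?_
  rw [mem_filter] at hm
  exact (natDegree_monomial_le _).trans (by omega)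

lemma lvl_axis (G : MvPolynomial (Fin 2) ℂ) (n : ℕ) :
    (MvPolynomial.aeval ![(0 : ℂ[X]), X] G).coeff n = G.coeff (Finsupp.single 1 n) := by
  classical
  rw [lvl_aeval_sum, finsetSum_coeff]
  have h0 : ∀ m ∈ G.support, (C (G.coeff m) * ((0 : ℂ[X]) ^ m 0 * X ^ m 1)).coeff n =
      if m = Finsupp.single 1 n then G.coeff m else 0 := by
    intro m _
    rw [coeff_C_mul]
    split_ifs with h
    · subst h
      simp
    · by_cases h0 : m 0 = 0
      · rw [h0, pow_zero, one_mul, coeff_X_pow, if_neg, mul_zero]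
        intro h1
        apply h
        ext i
        fin_cases i
        · simp [h0]
        · simp [h1]
      · rw [zero_pow h0, zero_mul, coeff_zero, mul_zero]
  rw [sum_congr rfl h0, sum_ite_eq']
  split_ifs with h
  · rfl
  · exact (MvPolynomial.notMem_support_iff.1 h).symm

lemma lvl_sep (g : ℤ[X]) (hg : Irreducible (g.map (Int.castRingHom ℚ))) (t : ℂ)
    (ht : aeval t g = 0) : aeval t (derivative g) ≠ 0 := by
  have h1 := hg.separable.aeval_derivative_ne_zero (x := t) (by rw [lvl_map_eval]; exact ht)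
  rwa [derivative_map, lvl_map_eval] at h1

lemma lvl_roots (g : ℤ[X]) (hg : Irreducible (g.map (Int.castRingHom ℚ))) (d : ℕ)
    (hd : g.natDegree = d) :
    ∃ θ : Fin d → ℂ, Function.Injective θ ∧ ∀ i, aeval (θ i) g = 0 := by
  classical
  have h1 := card_rootSet_eq_natDegree (K := ℂ) hg.separable (IsAlgClosed.splits _)
  have h2 : (g.map (Int.castRingHom ℚ)).natDegree = d := by
    rw [natDegree_map_eq_of_injective Int.cast_injective g, hd]
  rw [h2] at h1
  have e := (Fintype.equivFinOfCardEq h1).symm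
  refine ⟨fun i => (e i : ℂ), fun i j hij => e.injective (Subtype.ext hij), fun i => ?_⟩
  have h3 := (mem_rootSet.1 (e i).2).2
  rwa [lvl_map_eval] at h3

/-- the equation on arrays, over any ring -/
lemma lvl_eval {K : Type*} [CommRing K] (d : ℕ) (f : MvPolynomial (Fin 2) ℤ)
    (hf : f.totalDegree ≤ d) (u v : K) :
    MvPolynomial.eval₂ (Int.castRingHom K) ![u, v] f =
      ∑ k ∈ range (d + 1), ∑ j ∈ range (k + 1), (arr d f (k - j) j : K) * u ^ (k - j) * v ^ j := by
  have h1 : MvPolynomial.eval₂ (Int.castRingHom K) ![u, v] f =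
      ∑ j ∈ range (d + 1), ∑ i ∈ range (d + 1 - j), (arr d f i j : K) * u ^ i * v ^ j := by
    conv_lhs => rw [hen_eq d f hf]
    rw [MvPolynomial.eval₂_sum]
    refine Finset.sum_congr rfl (fun j _ => ?_)
    rw [MvPolynomial.eval₂_sum]
    refine Finset.sum_congr rfl (fun i _ => ?_)
    rw [MvPolynomial.eval₂_monomial, Finsupp.prod_fintype _ _ (by simp), Fin.prod_univ_two]
    simp [mul_assoc]
  rw [h1, sum_sigma', sum_sigma']
  refine sum_nbij' (fun x => (⟨x.1 + x.2, x.1⟩ : (_ : ℕ) × ℕ))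
    (fun x => (⟨x.2, x.1 - x.2⟩ : (_ : ℕ) × ℕ)) ?_ ?_ ?_ ?_ ?_
  · rintro ⟨j, i⟩ h
    simp only [mem_sigma, mem_range] at h ⊢
    omega
  · rintro ⟨k, j⟩ h
    simp only [mem_sigma, mem_range] at h ⊢
    omega
  · rintro ⟨j, i⟩ h
    simp only [mem_sigma, mem_range] at h
    simp only [Sigma.mk.injEq, heq_eq_eq, true_and]
    omega
  · rintro ⟨k, j⟩ h
    simp only [mem_sigma, mem_range] at h
    simp only [Sigma.mk.injEq, heq_eq_eq, and_true]
    omega
  · rintro ⟨j, i⟩ h
    simp only [mem_sigma, mem_range] at h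
    have h3 : j + i - j = i := by omega
    simp only [h3]

lemma lvl_line (d : ℕ) (f : MvPolynomial (Fin 2) ℤ) (hf : f.totalDegree ≤ d) (t β : ℂ) (n : ℕ)
    (hn : n ≤ d) :
    (MvPolynomial.aeval ![(X : ℂ[X]), C t * X + C β]
      (MvPolynomial.map (Int.castRingHom ℂ) f)).coeff n = AK d (arr d f) t n β := by
  have h1 : MvPolynomial.aeval ![(X : ℂ[X]), C t * X + C β]
      (MvPolynomial.map (Int.castRingHom ℂ) f) =
      MvPolynomial.eval₂ (Int.castRingHom ℂ[X]) ![(X : ℂ[X]), C t * X + C β] f := by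
    rw [MvPolynomial.aeval_def, MvPolynomial.eval₂_map]
    congr 1
  rw [h1, lvl_eval d f hf, lvl_taylor, finsetSum_coeff]
  have h2 : ∀ r ∈ range (d + 1), (AK d (arr d f) (C t) r (C β) * (X : ℂ[X]) ^ r).coeff n =
      if r = n then AK d (arr d f) t r β else 0 := by
    intro r _
    have h3 : AK d (arr d f) (C t) r (C β) = C (AK d (arr d f) t r β) := by
      unfold AK
      rw [map_sum]
      refine sum_congr rfl fun m _ => ?_
      rw [map_mul, map_pow]
      congr 1
      exact (aeval_algebraMap_apply ℂ[X] t _)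
    rw [h3, coeff_C_mul, coeff_X_pow]
    by_cases h : r = n
    · rw [if_pos h, if_pos h.symm, mul_one]
    · rw [if_neg h, if_neg (fun h' => h h'.symm), mul_zero]
  rw [sum_congr rfl h2, sum_ite_eq', if_pos (mem_range.2 (by omega))]

lemma lvl_gk_coeff (c : ℕ → ℕ → ℤ) (k j : ℕ) (hj : j ≤ k) : (gk c k).coeff j = c (k - j) j := by
  unfold gk
  rw [finsetSum_coeff]
  simp only [coeff_monomial]
  rw [Finset.sum_ite_eq' (range (k + 1)) j (fun x => c (k - x) x)]
  rw [if_pos (by rw [mem_range]; omega)]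

/-- a polynomial of high level is close to a product of linear polynomials -/
theorem level_of_not_product (d e' : ℕ) (hd : 2 ≤ d) (f : MvPolynomial (Fin 2) ℤ)
    (hf : f.totalDegree ≤ d) (hL : Lead d (arr d f))
    (hnp : ∀ ℓ : Fin d → MvPolynomial (Fin 2) ℂ, (∀ i, (ℓ i).totalDegree ≤ 1) →
      ¬ (MvPolynomial.map (Int.castRingHom ℂ) f - ∏ i, ℓ i).totalDegree ≤ e')
    (τ : ℝ) (hτ : aeval τ (gk (arr d f) d) = 0) : ∃ s, s + e' + 2 ≤ d ∧ Lev d (arr d f) τ s := by
  classical
  obtain ⟨s, hs⟩ := exists_level d (by omega) (arr d f) τ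
  refine ⟨s, ?_, hs⟩
  by_contra hcon
  set c := arr d f with hc
  set g := gk c d with hg
  -- the coefficients vanish at all zeros
  have hgpR : aeval τ (derivative g) ≠ 0 := by
    intro h0
    have h1 := lvl_sep g hL.2 (τ : ℂ) (by rw [par_aeval, hτ, Complex.ofReal_zero])
    rw [par_aeval, h0, Complex.ofReal_zero] at h1
    exact h1 rfl
  have hreal : ∀ r, e' < r → r ≤ d → AA d c τ r (bet0 d c τ) = 0 := by
    intro r hr hrd
    rcases Nat.lt_or_ge (r + 1) d with h1 | h1
    · have h2 := hs.2.2.1 (d - 1 - r) (by omega) (by omega)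
      have h3 : d - 1 - (d - 1 - r) = r := by omega
      rw [h3] at h2
      exact h2
    · rcases h1.eq_or_lt with h2 | h2
      · have h3 : r = d - 1 := by omega
        rw [h3, AA_bet0 d (by omega) c τ _ hgpR, sub_self, mul_zero]
      · have h3 : r = d := by omega
        rw [h3, AA_top]
        exact hτ
  have hcomp : ∀ t : ℂ, aeval t g = 0 → ∀ r, e' < r → r ≤ d →
      AK d c t r (-(aeval t (gk c (d - 1))) / aeval t (derivative g)) = 0 := by
    intro t ht r hr hrd
    have h1 : aeval τ (lvlP d c r) = 0 := by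
      rw [lvl_P_eval d c r τ hgpR]
      have h2 : AK d c τ r (-(aeval τ (gk c (d - 1))) / aeval τ (derivative g)) = 0 :=
        hreal r hr hrd
      rw [h2, mul_zero]
    have h2 := lvl_transfer g (lvlP d c r) hL.2 τ hτ h1 t ht
    have h3 := lvl_sep g hL.2 t ht
    rw [lvl_P_eval d c r t h3] at h2
    rcases mul_eq_zero.1 h2 with h4 | h4
    · exact absurd h4 (pow_ne_zero _ h3)
    · exact h4
  obtain ⟨θ, hθinj, hθ⟩ := lvl_roots g hL.2 d hL.1
  set β : Fin d → ℂ := fun i => -(aeval (θ i) (gk c (d - 1))) / aeval (θ i) (derivative g) with hβ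
  set lc : ℂ := ((g.coeff d : ℤ) : ℂ) with hlc
  set ac : Fin d → ℂ := fun i => if (i : ℕ) = 0 then lc else 1 with hac
  have hprod : ∏ i, ac i = lc := by
    rw [Finset.prod_eq_single (⟨0, by omega⟩ : Fin d)]
    · simp [hac]
    · intro i _ hi
      rw [hac]
      simp only
      rw [if_neg]
      intro h
      exact hi (Fin.ext h)
    · intro h
      exact absurd (mem_univ _) h
  set ℓ : Fin d → MvPolynomial (Fin 2) ℂ := fun i => MvPolynomial.C (ac i) *
    (MvPolynomial.X 1 - MvPolynomial.C (θ i) * MvPolynomial.X 0 - MvPolynomial.C (β i)) with hℓ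
  have hℓdeg : ∀ i, (ℓ i).totalDegree ≤ 1 := by
    intro i
    rw [hℓ]
    simp only
    refine (MvPolynomial.totalDegree_mul _ _).trans ?_
    rw [MvPolynomial.totalDegree_C, zero_add]
    refine (MvPolynomial.totalDegree_sub _ _).trans (max_le ?_ ?_)
    · refine (MvPolynomial.totalDegree_sub _ _).trans (max_le ?_ ?_)
      · rw [MvPolynomial.totalDegree_X]
      · refine (MvPolynomial.totalDegree_mul _ _).trans ?_
        rw [MvPolynomial.totalDegree_C, MvPolynomial.totalDegree_X]
    · rw [MvPolynomial.totalDegree_C]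
      omega
  have hR := hnp ℓ hℓdeg
  set R : MvPolynomial (Fin 2) ℂ := MvPolynomial.map (Int.castRingHom ℂ) f - ∏ i, ℓ i with hRdef
  obtain ⟨D, hD⟩ : ∃ D, D = R.totalDegree := ⟨_, rfl⟩
  rw [← hD] at hR
  have hDd : D ≤ d := by
    rw [hD, hRdef]
    refine (MvPolynomial.totalDegree_sub _ _).trans (max_le ?_ ?_)
    · exact (Finset.sup_mono (MvPolynomial.support_map_subset _ _)).trans hf
    · refine (MvPolynomial.totalDegree_finsetProd _ _).trans ?_
      refine (Finset.sum_le_card_nsmul _ _ 1 (fun i _ => hℓdeg i)).trans ?_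
      simp
  -- the restriction to the lines
  have hline : ∀ i, (lvlQ R D).eval (θ i) = 0 := by
    intro i
    rw [← lvl_top (le_of_eq hD.symm) (θ i) (β i), hRdef, map_sub, coeff_sub,
      lvl_line d f hf (θ i) (β i) D hDd, hcomp (θ i) (hθ i) D (by omega) hDd, zero_sub,
      neg_eq_zero, map_prod]
    rw [Finset.prod_eq_zero (mem_univ i), coeff_zero]
    rw [hℓ]
    simp
  -- the top coefficient
  have htop : (lvlQ R D).natDegree < d := by
    rcases hDd.lt_or_eq with h1 | h1
    · exact (lvl_Q_natDegree R D).trans_lt h1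
    · have h2 : (lvlQ R D).coeff d = 0 := by
        have h3 := lvl_Q_coeff R D (Finsupp.single 1 d) (by simp [h1])
        simp only [Finsupp.single_eq_same] at h3
        rw [h3, ← lvl_axis, hRdef, map_sub, coeff_sub, lvl_axis, MvPolynomial.coeff_map]
        have h4 : (MvPolynomial.aeval ![(0 : ℂ[X]), X] (∏ i, ℓ i)).coeff d = lc := by
          rw [map_prod]
          have h5 : ∀ i ∈ (univ : Finset (Fin d)), (MvPolynomial.aeval ![(0 : ℂ[X]), X] (ℓ i)) =
              C (ac i) * (X - C (β i)) := by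
            intro i _
            rw [hℓ]
            simp
          rw [Finset.prod_congr rfl h5, Finset.prod_mul_distrib, ← map_prod, hprod, coeff_C_mul]
          have h6 := monic_prod_of_monic univ (fun i : Fin d => X - C (β i))
            (fun i _ => monic_X_sub_C _)
          have h7 : (∏ i : Fin d, (X - C (β i))).natDegree = d := by
            rw [natDegree_prod_of_monic _ _ (fun i _ => monic_X_sub_C _)]
            simp
          have h8 : (∏ i : Fin d, (X - C (β i))).coeff d = 1 := by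
            have := h6.coeff_natDegree
            rwa [h7] at this
          rw [h8, mul_one]
        rw [h4, sub_eq_zero, hlc, hg, hc, lvl_gk_coeff _ d d le_rfl, Nat.sub_self]
        unfold arr
        rw [if_pos (by omega), Finsupp.single_zero, zero_add]
        rfl
      rcases (lvl_Q_natDegree R D).lt_or_eq with h3 | h3
      · exact h3.trans_le hDd
      · exfalso
        have h4 : (lvlQ R D).leadingCoeff = 0 := by
          rw [leadingCoeff, h3, h1, ← h1, h1]
          rw [h1] at h2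
          exact h2
        rw [leadingCoeff_eq_zero] at h4
        rw [h4, natDegree_zero] at h3
        omega
  have hQ0 : lvlQ R D = 0 :=
    eq_zero_of_natDegree_lt_card_of_eval_eq_zero _ hθinj hline (by simpa using htop)
  have hR0 : R ≠ 0 := by
    intro h0
    rw [h0, MvPolynomial.totalDegree_zero] at hD
    omega
  obtain ⟨m, hm, hmD⟩ : ∃ m ∈ R.support, m 0 + m 1 = D := by
    obtain ⟨m, hm, hmD⟩ := Finset.exists_mem_eq_sup R.support
      (MvPolynomial.support_nonempty.2 hR0) (fun m => m.sum fun _ e => e)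
    refine ⟨m, hm, ?_⟩
    rw [hD]
    have h2 : (m.sum fun _ e => e) = m 0 + m 1 := by
      rw [Finsupp.sum_fintype _ _ (by simp), Fin.sum_univ_two]
    rw [← h2]
    exact hmD.symm
  have h1 := lvl_Q_coeff R D m hmD
  rw [hQ0, coeff_zero] at h1
  exact (MvPolynomial.mem_support_iff.1 hm) h1.symm

end Pool.Agent.LW
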