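import Pool.Agent.LW.Defs

set_option autoImplicit false

namespace Pool.Agent.LW

open Polynomial Finset

/-- the size of the constant coefficient of the line through two points -/
theorem line_aux (h m τ β a b a' b' : ℝ) (hh : 1 ≤ h) (hm : 1 ≤ m) (hβ : |β| ≤ h)
    (hm' : |a - a'| = m) (ha : 0 < a) (ha' : 0 < a') (hx : |b - τ * a - β| * a ≤ h)
    (hx' : |b' - τ * a' - β| * a' ≤ h) (h4' : |b' - τ * a' - β| ≤ 1 / 4) (hle : a' ≤ a) :
    |(a - a') * b' - (b - b') * a'| ≤ 4 * h * m := by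
  have e : (a - a') * b' - (b - b') * a' = (a - a') * β + (a - a') * (b' - τ * a' - β) -
      (b - τ * a - β) * a' + (b' - τ * a' - β) * a' := by ring
  rw [e]
  have h1 : |(a - a') * β| ≤ m * h := by
    rw [abs_mul, hm']; exact mul_le_mul_of_nonneg_left hβ (by linarith)
  have h2 : |(a - a') * (b' - τ * a' - β)| ≤ m * (1 / 4) := by
    rw [abs_mul, hm']; exact mul_le_mul_of_nonneg_left h4' (by linarith)
  have h3 : |(b - τ * a - β) * a'| ≤ h := by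
    rw [abs_mul, abs_of_pos ha']
    exact (mul_le_mul_of_nonneg_left hle (abs_nonneg _)).trans hx
  have h4 : |(b' - τ * a' - β) * a'| ≤ h := by
    rw [abs_mul, abs_of_pos ha']; exact hx'
  have h5 : h ≤ h * m := le_mul_of_one_le_right (by linarith) hm
  have h6 : m ≤ h * m := le_mul_of_one_le_left (by linarith) hh
  rw [abs_le] at h1 h2 h3 h4 ⊢
  constructor <;> nlinarith

/-- two points on the same branch are far from each other -/
theorem repulsion (D k : ℕ) (hD : 1 ≤ D) : ∃ K : ℕ, ∀ H : ℕ, 2 ≤ H → ∀ Z : ℝ, (H : ℝ) ^ K ≤ Z →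
    ∀ τ β : ℝ, |τ| ≤ (H : ℝ) ^ k → |β| ≤ (H : ℝ) ^ k → ∀ a b a' b' : ℤ, (a, b) ≠ (a', b') →
    Z ^ (100 * D ^ 2) ≤ (a : ℝ) → Z ^ (100 * D ^ 2) ≤ (a' : ℝ) →
    |(b : ℝ) - τ * a - β| * a ≤ (H : ℝ) ^ k → |(b' : ℝ) - τ * a' - β| * a' ≤ (H : ℝ) ^ k →
    (∀ (g₀ g₁ g₂ : ℤ) (M : ℝ), 1 ≤ M → (g₀ ≠ 0 ∨ g₁ ≠ 0 ∨ g₂ ≠ 0) → |(g₀ : ℝ)| ≤ M →
      |(g₁ : ℝ)| ≤ M → |(g₂ : ℝ)| ≤ M → g₀ + g₁ * a + g₂ * b = 0 → (a : ℝ) ≤ (H : ℝ) ^ k * M ^ D) →
    (∀ (g₀ g₁ g₂ : ℤ) (M : ℝ), 1 ≤ M → (g₀ ≠ 0 ∨ g₁ ≠ 0 ∨ g₂ ≠ 0) → |(g₀ : ℝ)| ≤ M →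
      |(g₁ : ℝ)| ≤ M → |(g₂ : ℝ)| ≤ M → g₀ + g₁ * a' + g₂ * b' = 0 →
        (a' : ℝ) ≤ (H : ℝ) ^ k * M ^ D) →
    Z ^ (100 * D - 1) ≤ |(a : ℝ) - a'| := by
  refine ⟨k + (k + 2) * D + 2, ?_⟩
  intro H hH Z hZ τ β hτ hβ a b a' b' hne ha ha' hx hx' hl hl'
  have hH2 : (2 : ℝ) ≤ (H : ℝ) := by exact_mod_cast hH
  have hH1 : (1 : ℝ) ≤ (H : ℝ) := by linarith
  have hh : (1 : ℝ) ≤ (H : ℝ) ^ k := one_le_pow₀ hH1
  have h4H : (4 : ℝ) ≤ (H : ℝ) ^ 2 := by nlinarith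
  have hZ1 : 4 * (H : ℝ) ^ k ≤ Z := by
    refine le_trans ?_ hZ
    calc 4 * (H : ℝ) ^ k ≤ (H : ℝ) ^ 2 * (H : ℝ) ^ k := by gcongr
      _ = (H : ℝ) ^ (k + 2) := by ring
      _ ≤ (H : ℝ) ^ (k + (k + 2) * D + 2) := by
          apply pow_le_pow_right₀ hH1
          have : 0 ≤ (k + 2) * D := Nat.zero_le _
          omega
  have hZ2 : (H : ℝ) ^ k * (4 * (H : ℝ) ^ k) ^ D ≤ Z := by
    refine le_trans ?_ hZ
    calc (H : ℝ) ^ k * (4 * (H : ℝ) ^ k) ^ D ≤ (H : ℝ) ^ k * ((H : ℝ) ^ 2 * (H : ℝ) ^ k) ^ D := by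
          gcongr
      _ = (H : ℝ) ^ (k + (k + 2) * D) := by
          rw [← pow_add, ← pow_mul, ← pow_add]; congr 1; ring
      _ ≤ (H : ℝ) ^ (k + (k + 2) * D + 2) := pow_le_pow_right₀ hH1 (by omega)
  generalize hhk : (H : ℝ) ^ k = h at *
  have hZ0 : 1 ≤ Z := by linarith
  have hexp : 1 ≤ 100 * D ^ 2 := by nlinarith
  have hZp : Z ≤ Z ^ (100 * D ^ 2) := by
    calc Z = Z ^ 1 := (pow_one Z).symm
      _ ≤ Z ^ (100 * D ^ 2) := pow_le_pow_right₀ hZ0 hexp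
  have haZ : 4 * h ≤ (a : ℝ) := by linarith
  have haZ' : 4 * h ≤ (a' : ℝ) := by linarith
  have ha0 : (0 : ℝ) < a := by linarith
  have ha0' : (0 : ℝ) < a' := by linarith
  have hq : |(b : ℝ) - τ * a - β| ≤ 1 / 4 := by
    by_contra hc
    push Not at hc
    have : (1 / 4 : ℝ) * (4 * h) < |(b : ℝ) - τ * a - β| * a :=
      mul_lt_mul hc haZ (by linarith) (abs_nonneg _)
    linarith
  have hq' : |(b' : ℝ) - τ * a' - β| ≤ 1 / 4 := by
    by_contra hc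
    push Not at hc
    have : (1 / 4 : ℝ) * (4 * h) < |(b' : ℝ) - τ * a' - β| * a' :=
      mul_lt_mul hc haZ' (by linarith) (abs_nonneg _)
    linarith
  have hane : a ≠ a' := by
    intro he
    subst he
    apply hne
    have h1 : |(b : ℝ) - b'| < 1 := by
      rw [abs_le] at hq hq'
      rw [abs_lt]
      constructor <;> linarith
    have h2 : |b - b'| < 1 := by exact_mod_cast h1
    have h3 : b - b' = 0 := Int.abs_lt_one_iff.mp h2
    have h4 : b = b' := by omega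
    rw [h4]
  have hm1 : (1 : ℝ) ≤ |(a : ℝ) - a'| := by
    have h1 : (1 : ℤ) ≤ |a - a'| := Int.one_le_abs (sub_ne_zero.mpr hane)
    exact_mod_cast h1
  generalize hm : |(a : ℝ) - a'| = m at *
  have hg0 : |(a - a' : ℝ) * b' - (b - b') * a'| ≤ 4 * h * m := by
    rcases le_total (a' : ℝ) a with hle | hle
    · exact line_aux h m τ β a b a' b' hh hm1 hβ hm ha0 ha0' hx hx' hq' hle
    · have h1 := line_aux h m τ β a' b' a b hh hm1 hβ (by rw [abs_sub_comm]; exact hm) ha0' ha0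
        hx' hx hq hle
      have h2 : (a - a' : ℝ) * b' - (b - b') * a' = -((a' - a : ℝ) * b - (b' - b) * a) := by ring
      rw [h2, abs_neg]; exact h1
  have hhm : 1 ≤ h * m := by nlinarith
  have hmle : m ≤ h * m := le_mul_of_one_le_left (by linarith) hh
  have hg1 : |(b : ℝ) - b'| ≤ 4 * h * m := by
    have e : (b : ℝ) - b' = τ * (a - a') + (b - τ * a - β) - (b' - τ * a' - β) := by ring
    rw [e]
    have h1 : |τ * ((a : ℝ) - a')| ≤ h * m := by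
      rw [abs_mul, hm]; exact mul_le_mul_of_nonneg_right hτ (by linarith)
    rw [abs_le] at h1 hq hq' ⊢
    constructor <;> linarith
  have hfin := hl' ((a - a') * b' - (b - b') * a') (b - b') (-(a - a')) (4 * h * m)
    (by linarith) (Or.inr (Or.inr (neg_ne_zero.mpr (sub_ne_zero.mpr hane))))
    (by push_cast; exact hg0) (by push_cast; exact hg1)
    (by push_cast; rw [abs_neg, hm]; linarith) (by ring)
  by_contra hcon
  push Not at hcon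
  have hmD : m ^ D < (Z ^ (100 * D - 1)) ^ D :=
    pow_lt_pow_left₀ hcon (by linarith) (by omega)
  have h1 : h * (4 * h * m) ^ D ≤ Z * m ^ D := by
    rw [mul_pow, ← mul_assoc]
    exact mul_le_mul_of_nonneg_right hZ2 (by positivity)
  have h2 : Z * (Z ^ (100 * D - 1)) ^ D ≤ Z ^ (100 * D ^ 2) := by
    rw [← pow_mul, ← pow_succ']
    apply pow_le_pow_right₀ hZ0
    obtain ⟨E, rfl⟩ : ∃ E, D = E + 1 := ⟨D - 1, by omega⟩
    have : 100 * (E + 1) - 1 = 100 * E + 99 := by omega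
    rw [this]
    nlinarith
  have h3 : Z * m ^ D < Z * (Z ^ (100 * D - 1)) ^ D :=
    mul_lt_mul_of_pos_left hmD (by linarith)
  linarith

end Pool.Agent.LW
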