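import Pool.Agent.LW.Defs

set_option autoImplicit false

namespace Pool.Agent.LW

open Polynomial Finset

/-- the Hasse derivatives of `gk` as a sum -/
theorem tay_hasse_gk (c : ℕ → ℕ → ℤ) (k m : ℕ) (τ : ℝ) :
    aeval τ (hasseDeriv m (gk c k)) =
      ∑ j ∈ range (k + 1), ((j.choose m : ℕ) : ℝ) * (c (k - j) j : ℝ) * τ ^ (j - m) := by
  rw [gk, map_sum, map_sum]
  refine sum_congr rfl fun j _ => ?_
  rw [hasseDeriv_monomial, aeval_monomial]
  simp

private theorem tay_mono (τ a η : ℝ) (k j : ℕ) (hj : j ≤ k) :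
    a ^ (k - j) * (τ * a + η) ^ j =
      ∑ m ∈ range (k + 1), ((j.choose m : ℕ) : ℝ) * τ ^ (j - m) * η ^ m * a ^ (k - m) := by
  have h1 : ∑ m ∈ range (k + 1), ((j.choose m : ℕ) : ℝ) * τ ^ (j - m) * η ^ m * a ^ (k - m) =
      ∑ m ∈ range (j + 1), ((j.choose m : ℕ) : ℝ) * τ ^ (j - m) * η ^ m * a ^ (k - m) := by
    symm
    refine sum_subset (range_subset_range.mpr (by omega)) fun m _ hm => ?_
    have h2 : j < m := by
      by_contra hcon
      exact hm (mem_range.mpr (by omega))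
    rw [Nat.choose_eq_zero_of_lt h2]
    simp
  rw [h1, add_comm (τ * a) η, add_pow, mul_sum]
  refine sum_congr rfl fun m hm => ?_
  have h2 : m ≤ j := by
    have := mem_range.mp hm
    omega
  have h3 : a ^ (k - m) = a ^ (k - j) * a ^ (j - m) := by
    rw [← pow_add]
    congr 1
    omega
  rw [h3, mul_pow]
  ring

private theorem tay_part (c : ℕ → ℕ → ℤ) (k : ℕ) (τ a η : ℝ) :
    ∑ j ∈ range (k + 1), (c (k - j) j : ℝ) * a ^ (k - j) * (τ * a + η) ^ j =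
      ∑ m ∈ range (k + 1), aeval τ (hasseDeriv m (gk c k)) * η ^ m * a ^ (k - m) := by
  have h1 : ∀ m ∈ range (k + 1), aeval τ (hasseDeriv m (gk c k)) * η ^ m * a ^ (k - m) =
      ∑ j ∈ range (k + 1), (c (k - j) j : ℝ) *
        (((j.choose m : ℕ) : ℝ) * τ ^ (j - m) * η ^ m * a ^ (k - m)) := by
    intro m _
    rw [tay_hasse_gk, sum_mul, sum_mul]
    refine sum_congr rfl fun j _ => ?_
    ring
  rw [sum_congr rfl h1, sum_comm]
  refine sum_congr rfl fun j hj => ?_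
  rw [← mul_sum, ← tay_mono τ a η k j (by have := mem_range.mp hj; omega)]
  ring

theorem ev_taylor (d : ℕ) (c : ℕ → ℕ → ℤ) (τ : ℝ) (a b : ℤ) :
    (ev d c a b : ℝ) = ∑ r ∈ range (d + 1), AA d c τ r ((b : ℝ) - τ * a) * (a : ℝ) ^ r := by
  have h1 : (ev d c a b : ℝ) = ∑ k ∈ range (d + 1), ∑ m ∈ range (k + 1),
      aeval τ (hasseDeriv m (gk c k)) * ((b : ℝ) - τ * a) ^ m * (a : ℝ) ^ (k - m) := by
    rw [ev]
    push_cast
    refine sum_congr rfl fun k _ => ?_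
    rw [← tay_part]
    refine sum_congr rfl fun j _ => ?_
    rw [add_sub_cancel]
  rw [h1]
  have h2 : ∀ r ∈ range (d + 1), AA d c τ r ((b : ℝ) - τ * a) * (a : ℝ) ^ r =
      ∑ m ∈ range (d - r + 1), aeval τ (hasseDeriv m (gk c (r + m))) * ((b : ℝ) - τ * a) ^ m *
        (a : ℝ) ^ r := by
    intro r _
    rw [AA, sum_mul]
  rw [sum_congr rfl h2, sum_sigma', sum_sigma']
  refine sum_nbij' (fun x => (⟨x.1 - x.2, x.2⟩ : (_ : ℕ) × ℕ))
    (fun x => (⟨x.1 + x.2, x.2⟩ : (_ : ℕ) × ℕ)) ?_ ?_ ?_ ?_ ?_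
  · rintro ⟨k, m⟩ h
    simp only [mem_sigma, mem_range] at h ⊢
    omega
  · rintro ⟨r, m⟩ h
    simp only [mem_sigma, mem_range] at h ⊢
    omega
  · rintro ⟨k, m⟩ h
    simp only [mem_sigma, mem_range] at h
    simp only [Sigma.mk.injEq, heq_eq_eq, and_true]
    omega
  · rintro ⟨r, m⟩ h
    simp only [mem_sigma, mem_range] at h
    simp only [Sigma.mk.injEq, heq_eq_eq, and_true]
    omega
  · rintro ⟨k, m⟩ h
    simp only [mem_sigma, mem_range] at h
    have h3 : k - m + m = k := by omega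
    simp only [h3]

theorem AA_top (d : ℕ) (c : ℕ → ℕ → ℤ) (τ η : ℝ) : AA d c τ d η = aeval τ (gk c d) := by
  simp [AA]

theorem AA_next (d : ℕ) (hd : 1 ≤ d) (c : ℕ → ℕ → ℤ) (τ η : ℝ) :
    AA d c τ (d - 1) η = aeval τ (gk c (d - 1)) + gp d c τ * η := by
  have h1 : d - (d - 1) + 1 = 2 := by omega
  have h2 : d - 1 + 1 = d := by omega
  rw [AA, h1, sum_range_succ, sum_range_one, gp]
  simp [h2, hasseDeriv_one]

theorem AA_bet0 (d : ℕ) (hd : 1 ≤ d) (c : ℕ → ℕ → ℤ) (τ η : ℝ) (h : gp d c τ ≠ 0) :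
    AA d c τ (d - 1) η = gp d c τ * (η - bet0 d c τ) := by
  rw [AA_next d hd, bet0]
  field_simp
  ring

theorem AA_second (d : ℕ) (hd : 2 ≤ d) (c : ℕ → ℕ → ℤ) (τ η : ℝ) :
    AA d c τ (d - 2) η = aa d c τ (d - 2) + A1 d c τ * (η - bet0 d c τ) +
      aeval τ (hasseDeriv 2 (gk c d)) * (η - bet0 d c τ) ^ 2 := by
  have h1 : d - (d - 2) + 1 = 3 := by omega
  have h2 : d - 2 + 1 = d - 1 := by omega
  have h3 : d - 2 + 2 = d := by omega
  have h4 : ∀ θ : ℝ, AA d c τ (d - 2) θ = aeval τ (gk c (d - 2)) +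
      aeval τ (derivative (gk c (d - 1))) * θ + aeval τ (hasseDeriv 2 (gk c d)) * θ ^ 2 := by
    intro θ
    rw [AA, h1, sum_range_succ, sum_range_succ, sum_range_one]
    simp [h2, h3, hasseDeriv_one]
  rw [aa, h4, h4, A1]
  ring

theorem tay_succ_le_pow (d H : ℕ) (hH : 2 ≤ H) : ((d : ℝ) + 1) ≤ (H : ℝ) ^ d := by
  have h1 : d + 1 ≤ 2 ^ d := Nat.lt_two_pow_self
  have h2 : (2 : ℕ) ^ d ≤ H ^ d := Nat.pow_le_pow_left hH d
  exact_mod_cast h1.trans h2

/-- the size of the Hasse derivatives -/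
theorem tay_hasse_bound (d k : ℕ) : ∀ H : ℕ, 2 ≤ H → ∀ (c : ℕ → ℕ → ℤ) (τ : ℝ), Ht d c H →
    |τ| ≤ (H : ℝ) ^ k → ∀ m, ∀ l ≤ d,
      |aeval τ (hasseDeriv m (gk c l))| ≤ (H : ℝ) ^ (d + (d + 1 + k * d)) := by
  intro H hH c τ hc hτ m l hl
  have hH1 : (1 : ℝ) ≤ (H : ℝ) := by
    have : (2 : ℝ) ≤ (H : ℝ) := by exact_mod_cast hH
    linarith
  have h1 : ∀ j ∈ range (l + 1),
      |((j.choose m : ℕ) : ℝ) * (c (l - j) j : ℝ) * τ ^ (j - m)| ≤ (H : ℝ) ^ (d + 1 + k * d) := by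
    intro j hj
    have hj' : j ≤ d := by
      have := mem_range.mp hj
      omega
    have e1 : |((j.choose m : ℕ) : ℝ)| ≤ (H : ℝ) ^ d := by
      rw [abs_of_nonneg (Nat.cast_nonneg _)]
      have e2 : j.choose m ≤ H ^ d := by
        calc j.choose m ≤ 2 ^ j := Nat.choose_le_two_pow _ _
          _ ≤ 2 ^ d := Nat.pow_le_pow_right (by norm_num) hj'
          _ ≤ H ^ d := Nat.pow_le_pow_left hH d
      exact_mod_cast e2
    have e3 : |(c (l - j) j : ℝ)| ≤ (H : ℝ) ^ 1 := by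
      have e4 := hc (l - j) j (by have := mem_range.mp hj; omega)
      rw [pow_one]
      exact_mod_cast e4
    have e5 : |τ ^ (j - m)| ≤ (H : ℝ) ^ (k * d) := by
      rw [abs_pow]
      calc |τ| ^ (j - m) ≤ ((H : ℝ) ^ k) ^ (j - m) := pow_le_pow_left₀ (abs_nonneg _) hτ _
        _ = (H : ℝ) ^ (k * (j - m)) := by rw [← pow_mul]
        _ ≤ (H : ℝ) ^ (k * d) :=
            pow_le_pow_right₀ hH1 (Nat.mul_le_mul_left k (by omega))
    rw [abs_mul, abs_mul, pow_add, pow_add]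
    have hpos : ∀ n, 0 ≤ (H : ℝ) ^ n := fun n => by positivity
    exact mul_le_mul (mul_le_mul e1 e3 (abs_nonneg _) (hpos _)) e5 (abs_nonneg _)
      (mul_nonneg (hpos _) (hpos _))
  rw [tay_hasse_gk]
  calc |∑ j ∈ range (l + 1), ((j.choose m : ℕ) : ℝ) * (c (l - j) j : ℝ) * τ ^ (j - m)|
      ≤ ∑ j ∈ range (l + 1), |((j.choose m : ℕ) : ℝ) * (c (l - j) j : ℝ) * τ ^ (j - m)| :=
        abs_sum_le_sum_abs _ _
    _ ≤ ∑ _j ∈ range (l + 1), (H : ℝ) ^ (d + 1 + k * d) := sum_le_sum h1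
    _ = ((l : ℝ) + 1) * (H : ℝ) ^ (d + 1 + k * d) := by
        rw [sum_const, card_range, nsmul_eq_mul]
        push_cast
        ring
    _ ≤ (H : ℝ) ^ d * (H : ℝ) ^ (d + 1 + k * d) := by
        refine mul_le_mul_of_nonneg_right ?_ (by positivity)
        have e6 : (l : ℝ) ≤ d := by exact_mod_cast hl
        linarith [tay_succ_le_pow d H hH]
    _ = (H : ℝ) ^ (d + (d + 1 + k * d)) := by rw [← pow_add]

/-- the size of the coefficients and their Taylor expansion to second order -/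
theorem AA_bound (d k : ℕ) : ∃ K : ℕ, ∀ H : ℕ, 2 ≤ H → ∀ (c : ℕ → ℕ → ℤ) (τ η : ℝ), Ht d c H →
    |τ| ≤ (H : ℝ) ^ k → |η| ≤ (H : ℝ) ^ k → ∀ r ≤ d, |AA d c τ r η| ≤ (H : ℝ) ^ K := by
  refine ⟨d + ((d + (d + 1 + k * d)) + k * d), fun H hH c τ η hc hτ hη r hr => ?_⟩
  have hH1 : (1 : ℝ) ≤ (H : ℝ) := by
    have : (2 : ℝ) ≤ (H : ℝ) := by exact_mod_cast hH
    linarith
  rw [AA]
  calc |∑ m ∈ range (d - r + 1), aeval τ (hasseDeriv m (gk c (r + m))) * η ^ m|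
      ≤ ∑ m ∈ range (d - r + 1), |aeval τ (hasseDeriv m (gk c (r + m))) * η ^ m| :=
        abs_sum_le_sum_abs _ _
    _ ≤ ∑ _m ∈ range (d - r + 1), (H : ℝ) ^ ((d + (d + 1 + k * d)) + k * d) := by
        refine sum_le_sum fun m hm => ?_
        have hm' : r + m ≤ d := by
          have := mem_range.mp hm
          omega
        rw [abs_mul, pow_add]
        refine mul_le_mul (tay_hasse_bound d k H hH c τ hc hτ m _ hm') ?_ (abs_nonneg _)
          (by positivity)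
        rw [abs_pow]
        calc |η| ^ m ≤ ((H : ℝ) ^ k) ^ m := pow_le_pow_left₀ (abs_nonneg _) hη _
          _ = (H : ℝ) ^ (k * m) := by rw [← pow_mul]
          _ ≤ (H : ℝ) ^ (k * d) := pow_le_pow_right₀ hH1 (Nat.mul_le_mul_left k (by omega))
    _ = (((d - r : ℕ) : ℝ) + 1) * (H : ℝ) ^ ((d + (d + 1 + k * d)) + k * d) := by
        rw [sum_const, card_range, nsmul_eq_mul]
        push_cast
        ring
    _ ≤ (H : ℝ) ^ d * (H : ℝ) ^ ((d + (d + 1 + k * d)) + k * d) := by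
        refine mul_le_mul_of_nonneg_right ?_ (by positivity)
        have e6 : ((d - r : ℕ) : ℝ) ≤ d := by exact_mod_cast Nat.sub_le d r
        linarith [tay_succ_le_pow d H hH]
    _ = (H : ℝ) ^ (d + ((d + (d + 1 + k * d)) + k * d)) := by rw [← pow_add]

theorem AA_lip (d k : ℕ) : ∃ K : ℕ, ∀ H : ℕ, 2 ≤ H → ∀ (c : ℕ → ℕ → ℤ) (τ η η' : ℝ), Ht d c H →
    |τ| ≤ (H : ℝ) ^ k → |η| ≤ (H : ℝ) ^ k → |η'| ≤ (H : ℝ) ^ k → ∀ r ≤ d,
      |AA d c τ r η - AA d c τ r η'| ≤ (H : ℝ) ^ K * |η - η'| := by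
  refine ⟨d + ((d + (d + 1 + k * d)) + (d + k * d)), fun H hH c τ η η' hc hτ hη hη' r hr => ?_⟩
  have hH1 : (1 : ℝ) ≤ (H : ℝ) := by
    have : (2 : ℝ) ≤ (H : ℝ) := by exact_mod_cast hH
    linarith
  rw [AA, AA, ← sum_sub_distrib]
  calc |∑ m ∈ range (d - r + 1), (aeval τ (hasseDeriv m (gk c (r + m))) * η ^ m -
        aeval τ (hasseDeriv m (gk c (r + m))) * η' ^ m)|
      ≤ ∑ m ∈ range (d - r + 1), |aeval τ (hasseDeriv m (gk c (r + m))) * η ^ m -
        aeval τ (hasseDeriv m (gk c (r + m))) * η' ^ m| := abs_sum_le_sum_abs _ _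
    _ ≤ ∑ _m ∈ range (d - r + 1),
        (H : ℝ) ^ ((d + (d + 1 + k * d)) + (d + k * d)) * |η - η'| := by
        refine sum_le_sum fun m hm => ?_
        have hm' : r + m ≤ d := by
          have := mem_range.mp hm
          omega
        rw [← mul_sub, abs_mul, pow_add, mul_assoc]
        refine mul_le_mul (tay_hasse_bound d k H hH c τ hc hτ m _ hm') ?_ (abs_nonneg _)
          (by positivity)
        have e1 := abs_pow_sub_pow_le η η' m
        have e2 : max |η| |η'| ^ (m - 1) ≤ (H : ℝ) ^ (k * d) := by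
          calc max |η| |η'| ^ (m - 1) ≤ ((H : ℝ) ^ k) ^ (m - 1) :=
                pow_le_pow_left₀ (le_max_of_le_left (abs_nonneg _)) (max_le hη hη') _
            _ = (H : ℝ) ^ (k * (m - 1)) := by rw [← pow_mul]
            _ ≤ (H : ℝ) ^ (k * d) := pow_le_pow_right₀ hH1 (Nat.mul_le_mul_left k (by omega))
        have e3 : (m : ℝ) ≤ (H : ℝ) ^ d := by
          have e6 : (m : ℝ) ≤ d := by exact_mod_cast (by omega : m ≤ d)
          linarith [tay_succ_le_pow d H hH]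
        calc |η ^ m - η' ^ m| ≤ |η - η'| * m * max |η| |η'| ^ (m - 1) := e1
          _ = ((m : ℝ) * max |η| |η'| ^ (m - 1)) * |η - η'| := by ring
          _ ≤ ((H : ℝ) ^ d * (H : ℝ) ^ (k * d)) * |η - η'| := by
              refine mul_le_mul_of_nonneg_right ?_ (abs_nonneg _)
              exact mul_le_mul e3 e2 (by positivity) (by positivity)
          _ = (H : ℝ) ^ (d + k * d) * |η - η'| := by rw [← pow_add]
    _ = (((d - r : ℕ) : ℝ) + 1) *
        ((H : ℝ) ^ ((d + (d + 1 + k * d)) + (d + k * d)) * |η - η'|) := by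
        rw [sum_const, card_range, nsmul_eq_mul]
        push_cast
        ring
    _ ≤ (H : ℝ) ^ d * ((H : ℝ) ^ ((d + (d + 1 + k * d)) + (d + k * d)) * |η - η'|) := by
        refine mul_le_mul_of_nonneg_right ?_ (by positivity)
        have e6 : ((d - r : ℕ) : ℝ) ≤ d := by exact_mod_cast Nat.sub_le d r
        linarith [tay_succ_le_pow d H hH]
    _ = (H : ℝ) ^ (d + ((d + (d + 1 + k * d)) + (d + k * d))) * |η - η'| := by
        rw [pow_add (H : ℝ) d]
        ring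

end Pool.Agent.LW
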